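import Pool.Agent.Lib_MP_1209e6_fr.Base

/-!
PIECE [BAD] (MP_1209e6_ag).  The forms `cpar m u` are adapted; naturality.
-/

namespace Pool.Agent.MP_1209e6_fr

variable {R S : Type*} [CommRing R] [CommRing S] {r : ℕ}

private theorem bad_del_comm (a b : I r) (p : J r) : del R a b p = del R b a p := by
  unfold del
  congr 1
  exact propext or_comm

private theorem bad_map_del (f : R →+* S) (a b : I r) (p : J r) : f (del R a b p) = del S a b p := by
  unfold del
  split_ifs
  · exact map_one f
  · exact map_zero f

/-- PIECE [BAD].  Case distinction over the constructors; `sy_swap12`, `sy_swap23` for the values of `u`; `del` is symmetric in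
`a, b`. -/
theorem adapted_cpar (m : J r → I r → R) (u : Sym (V r) 3 → R) : Adapted (cpar m u) := by
  refine ⟨⟨?_, ?_⟩, fun a b d => rfl, ⟨m, fun a b p => rfl⟩⟩
  · rintro (a | p) (b | q) (d | s)
    · rfl
    · show del R a b s + m s a + m s b = del R b a s + m s b + m s a
      rw [bad_del_comm a b s]; ring
    · rfl
    · exact congrArg u (sy_swap12 _ _ _)
    · rfl
    · exact congrArg u (sy_swap12 _ _ _)
    · exact congrArg u (sy_swap12 _ _ _)
    · exact congrArg u (sy_swap12 _ _ _)
  · rintro (a | p) (b | q) (d | s)
    · rfl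
    · rfl
    · rfl
    · exact congrArg u (sy_swap23 _ _ _)
    · show del R b d p + m p b + m p d = del R d b p + m p d + m p b
      rw [bad_del_comm b d p]; ring
    · exact congrArg u (sy_swap23 _ _ _)
    · exact congrArg u (sy_swap23 _ _ _)
    · exact congrArg u (sy_swap23 _ _ _)

/-- PIECE [BAD]. -/
theorem map_cpar (f : R →+* S) (m : J r → I r → R) (u : Sym (V r) 3 → R) (i j k : V r) :
    f (cpar m u i j k) = cpar (fun p a => f (m p a)) (fun s => f (u s)) i j k := by
  rcases i with (a | p) <;> rcases j with (b | q) <;> rcases k with (d | s)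
  · exact map_one f
  · show f (del R a b s + m s a + m s b) = del S a b s + f (m s a) + f (m s b)
    rw [map_add, map_add, bad_map_del]
  · show f (del R a d q + m q a + m q d) = del S a d q + f (m q a) + f (m q d)
    rw [map_add, map_add, bad_map_del]
  · rfl
  · show f (del R b d p + m p b + m p d) = del S b d p + f (m p b) + f (m p d)
    rw [map_add, map_add, bad_map_del]
  · rfl
  · rfl
  · rfl

/-- PIECE [BAD]. -/
theorem Adapted.map {c : V r → V r → V r → R} (hc : Adapted c) (f : R →+* S) :
    Adapted (fun i j k => f (c i j k)) := by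
  obtain ⟨hs, h1, m, hm⟩ := hc
  refine ⟨⟨fun i j k => congrArg f (hs.1 i j k), fun i j k => congrArg f (hs.2 i j k)⟩, fun a b d => ?_,
    ⟨fun p a => f (m p a), fun a b p => ?_⟩⟩
  · show f (c (.inl a) (.inl b) (.inl d)) = 1
    rw [h1, map_one]
  · show f (c (.inl a) (.inl b) (.inr p)) = del S a b p + f (m p a) + f (m p b)
    rw [hm, map_add, map_add, bad_map_del]

end Pool.Agent.MP_1209e6_fr
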