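import Pool.Agent.Lib_MP_1209e6_fr.BVan

/-!
PIECE [BFX] (MP_1209e6_ag).  The base frame is fixed.
-/

namespace Pool.Agent.MP_1209e6_fr

variable {R : Type*} [CommRing R] {r : ℕ}

private theorem BFix_ex (a : I r) :
    ex (A0 R r) a = Pi.single (.inl a) 1 - Pi.single (.inl 0) 1 := by
  induction a using Fin.cases with
  | zero => simp [ex]
  | succ i => simp [ex, A0]

/-- PIECE [BFX].  `ex (A0 R r) a = e_a - e_0` for all `a` (for `a = 0` both sides are `0`), so this is `e_a - e_b`. -/
theorem dv_A0 (p : J r) : dv (A0 R r) p = Pi.single (.inl p.1.1) 1 - Pi.single (.inl p.1.2) 1 := by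
  unfold dv
  rw [BFix_ex, BFix_ex]
  exact sub_sub_sub_cancel_right _ _ _

/-- PIECE [BFX].  Multilinear, and all values at triples of `I r` are `1`. -/
theorem tri_A0 {c : V r → V r → V r → R} (hc : Adapted c) (i j k : Fin (r + 1)) :
    tri c (A0 R r i) (A0 R r j) (A0 R r k) = 0 := by
  simp only [A0, tri_sub_left, tri_sub_mid, tri_sub_right, tri_single, hc.one]
  ring

private theorem BFix_del_self (a : I r) (p : J r) : del R a a p = 0 := by
  unfold del
  rw [if_neg]
  rintro (h | h)
  · have := p.2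
    rw [h] at this
    exact lt_irrefl _ this
  · have := p.2
    rw [h] at this
    exact lt_irrefl _ this

private theorem BFix_del (p p' : J r) : del R p.1.1 p.1.2 p' = if p = p' then 1 else 0 := by
  unfold del
  by_cases h : p = p'
  · rw [if_pos h, if_pos]
    left
    rw [h]
  · rw [if_neg h, if_neg]
    rintro (h1 | h1)
    · exact h (Subtype.ext h1.symm)
    · have h2 := p'.2
      rw [h1] at h2
      exact lt_asymm p.2 h2

private theorem BFix_del' (p p' : J r) : del R p.1.2 p.1.1 p' = if p = p' then 1 else 0 := by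
  rw [← BFix_del]
  unfold del
  congr 1
  exact propext or_comm

/-- PIECE [BFX].  For `p = (a, b)`: `c (a,a,p') - 2 c (a,b,p') + c (b,b,p')`; by `hc.two` the terms with `m` cancel and it is
`- 2 * del R a b p'`, `= -2` if `p' = p` and `0` otherwise (`del R a a p' = 0` because the components of `p'` are different). -/
theorem Qm_A0 {c : V r → V r → V r → R} (hc : Adapted c) :
    Qm c (A0 R r) = (-2 : R) • (1 : Matrix (J r) (J r) R) := by
  obtain ⟨m, hm⟩ := hc.two
  ext p p'
  unfold Qm
  rw [Matrix.of_apply, dv_A0]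
  simp only [tri_sub_left, tri_sub_mid, tri_single, hm, BFix_del_self, BFix_del, BFix_del',
    Matrix.smul_apply, Matrix.one_apply, smul_eq_mul]
  ring

/-- PIECE [BFX].  `1 - 2 + 1 = 0`. -/
theorem qv_A0 {c : V r → V r → V r → R} (hc : Adapted c) : qv c (A0 R r) = 0 := by
  funext p
  unfold qv e0
  rw [dv_A0]
  simp only [tri_sub_left, tri_sub_mid, tri_single, hc.one, Pi.zero_apply]
  ring

/-- PIECE [BFX].  `det ((-2) • 1) = (-2)^card` and `kap * (-2)^card = 1`. -/
theorem cv_A0 [Algebra ℚ R] {c : V r → V r → V r → R} (hc : Adapted c) : cv c (A0 R r) = e0 R r := by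
  have h1 : kap R r * (Qm c (A0 R r)).det = 1 := by
    rw [Qm_A0 hc, Matrix.det_smul, Matrix.det_one, mul_one]
    unfold kap
    have h2 : ((-2 : R)) = algebraMap ℚ R (-2) := by
      rw [map_neg, map_ofNat]
    rw [h2, ← map_pow, ← map_mul, inv_mul_cancel₀ (pow_ne_zero _ (by norm_num)), map_one]
  unfold cv
  rw [h1, qv_A0 hc, Matrix.mulVec_zero]
  funext x
  rcases x with a | p
  · unfold e0
    rw [Sum.elim_inl]
    by_cases ha : a = 0
    · subst ha
      simp
    · rw [Pi.single_eq_of_ne ha, Pi.single_eq_of_ne (fun h => ha (Sum.inl_injective h))]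
  · unfold e0
    rw [Sum.elim_inr, Pi.single_eq_of_ne (by simp)]
    simp

/-- PIECE [BFX]. -/
theorem tau_A0 [Algebra ℚ R] {c : V r → V r → V r → R} (hc : Adapted c) : tau c (A0 R r) = 1 := by
  unfold tau
  rw [cv_A0 hc]
  unfold e0
  rw [tri_single, hc.one]

/-- PIECE [BFX].  `A 0 (inl 1) = 1` at the base frame. -/
theorem sc_A0 : sc (A0 R r) = 1 := by
  have h1 : A0 R r 0 (.inl (Fin.succ 0)) = 1 := by
    unfold A0
    rw [Pi.sub_apply, Pi.single_eq_same,
      Pi.single_eq_of_ne (fun h => Fin.succ_ne_zero _ (Sum.inl_injective h)), sub_zero]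
  unfold sc
  rw [h1]
  ring

/-- PIECE [BFX].  `tri c (A0 i) e0 e0 = 1 - 1 = 0`. -/
theorem Ft_A0 [Algebra ℚ R] {c : V r → V r → V r → R} (hc : Adapted c) : Ft c (A0 R r) = A0 R r := by
  funext i
  have h1 : tri c (A0 R r i) (e0 R r) (e0 R r) = 0 := by
    unfold A0 e0
    simp only [tri_sub_left, tri_single, hc.one, sub_self]
  unfold Ft Fh
  rw [sc_A0, tau_A0 hc, cv_A0 hc, h1, mul_zero, zero_smul, one_smul, one_smul, sub_zero]

end Pool.Agent.MP_1209e6_fr
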