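import Pool.Agent.Lib_MP_1209e6_fr.BJacA

/-!
PIECE [BJA] (MP_1209e6_ag).  The derivative of the self-map at the base frame.
-/

open MvPolynomial

namespace Pool.Agent.MP_1209e6_fr

variable {R S : Type*} [CommRing R] [CommRing S] [Algebra ℚ R] [Algebra ℚ S] {r : ℕ}

omit [Algebra ℚ R] in
private theorem BJC_snd_tri (c : V r → V r → V r → R) (x y z : V r → TrivSqZeroExt R R) :
    (tri (fun i j k => (TrivSqZeroExt.inl (c i j k) : TrivSqZeroExt R R)) x y z).snd =
      tri c (fun i => (x i).snd) (fun i => (y i).fst) (fun i => (z i).fst) +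
      tri c (fun i => (x i).fst) (fun i => (y i).snd) (fun i => (z i).fst) +
      tri c (fun i => (x i).fst) (fun i => (y i).fst) (fun i => (z i).snd) := by
  simp only [tri, TrivSqZeroExt.snd_sum, ← Finset.sum_add_distrib]
  refine Finset.sum_congr rfl fun i _ => Finset.sum_congr rfl fun j _ =>
    Finset.sum_congr rfl fun k _ => ?_
  simp only [TrivSqZeroExt.snd_mul, TrivSqZeroExt.fst_mul, TrivSqZeroExt.snd_inl,
    TrivSqZeroExt.fst_inl, smul_eq_mul, MulOpposite.smul_eq_mul_unop, MulOpposite.unop_op]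
  ring

omit [Algebra ℚ R] in
private theorem BJC_fst_tri (c : V r → V r → V r → R) (x y z : V r → TrivSqZeroExt R R) :
    (tri (fun i j k => (TrivSqZeroExt.inl (c i j k) : TrivSqZeroExt R R)) x y z).fst =
      tri c (fun i => (x i).fst) (fun i => (y i).fst) (fun i => (z i).fst) := by
  simp only [tri, TrivSqZeroExt.fst_sum, TrivSqZeroExt.fst_mul, TrivSqZeroExt.fst_inl]

omit [Algebra ℚ R] in
private theorem BJC_eee {c : V r → V r → V r → R} (hc : Adapted c) :
    tri c (e0 R r) (e0 R r) (e0 R r) = 1 := by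
  unfold e0
  rw [tri_single, hc.one]

omit [Algebra ℚ R] in
private theorem BJC_Aee {c : V r → V r → V r → R} (hc : Adapted c) (i : Fin (r + 1)) :
    tri c (A0 R r i) (e0 R r) (e0 R r) = 0 := by
  unfold A0 e0
  rw [tri_sub_left, tri_single, tri_single, hc.one, hc.one, sub_self]

/-- PIECE [BJA].  Proof.  Use `Ft_dual`.  Put `A = A0 + ε ve v` over the dual numbers.  `y = cv c A` reduces to `e0` modulo `ε`
(`cv_A0`, `map_cv` for the projection `fst`), so `y = e0 + ε g` with `g : V r → R`, and `g (inl i.succ) = 0` by definition of `cv`.  The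
equation `tri (A i) (A j) y = 0` (`tri_frame_cv`) has the `ε`-part `v i c(e0, A0 j, e0) + v j c(A0 i, e0, e0) + c(A0 i, A0 j, g) = 0`, the
first two terms vanish, so `c(A0 i, A0 j, g) = 0` for all `i, j`, so `(Qm c A0) g_J = 0` (the `e0` component of `g` does not contribute because
`c(A0 i, A0 j, e0) = 0`), so `g_J = 0` by `Qm_A0` and `g = g0 • e0`.  Then `tau = 1 + 3 ε g0`, `tri (A i) y y = ε v i` (because
`c(A0 i, e0, e0) = 0`), `Fh i = A0 i + ε (v i e0 + 3 g0 A0 i - 3 v i e0)`, `sc = 1` (the component `inl 1` of `e0` is `0`). -/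
theorem jac_ve {c : V r → V r → V r → R} (hc : Adapted c) (v : Fin (r + 1) → R) :
    ∃ a : R, (jac c).mulVec (unc (ve R v)) = (-2 : R) • unc (ve R v) + a • unc (A0 R r) := by
  classical
  set cD : V r → V r → V r → TrivSqZeroExt R R := fun i j l => TrivSqZeroExt.inl (c i j l) with hcD
  set AD : Fin (r + 1) → V r → TrivSqZeroExt R R :=
    fun i k => TrivSqZeroExt.inl (A0 R r i k) + TrivSqZeroExt.inr (unc (ve R v) (i, k)) with hAD
  have hF : ∀ i k, Ft cD AD i k =
      TrivSqZeroExt.inl (A0 R r i k) + TrivSqZeroExt.inr ((jac c).mulVec (unc (ve R v)) (i, k)) :=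
    fun i k => Ft_dual hc (unc (ve R v)) i k
  have hAf : ∀ i k, (AD i k).fst = A0 R r i k := by
    intro i k
    show (TrivSqZeroExt.inl (A0 R r i k) + TrivSqZeroExt.inr (unc (ve R v) (i, k)) :
      TrivSqZeroExt R R).fst = _
    rw [TrivSqZeroExt.fst_add, TrivSqZeroExt.fst_inl, TrivSqZeroExt.fst_inr, add_zero]
  have hAs : ∀ i k, (AD i k).snd = v i * e0 R r k := by
    intro i k
    show (TrivSqZeroExt.inl (A0 R r i k) + TrivSqZeroExt.inr (unc (ve R v) (i, k)) :
      TrivSqZeroExt R R).snd = _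
    rw [TrivSqZeroExt.snd_add, TrivSqZeroExt.snd_inl, TrivSqZeroExt.snd_inr, zero_add]
    rfl
  have hsym : SymC cD := ⟨fun i j k => congrArg TrivSqZeroExt.inl (hc.sym.1 i j k),
    fun i j k => congrArg TrivSqZeroExt.inl (hc.sym.2 i j k)⟩
  -- the vector `y`
  set y : V r → TrivSqZeroExt R R := cv cD AD with hy
  have hyf : ∀ k, (y k).fst = e0 R r k := by
    intro k
    have h1 := map_cv (TrivSqZeroExt.fstHom R R R : TrivSqZeroExt R R →+* R) cD AD k
    have h2 : (fun i j k => (TrivSqZeroExt.fstHom R R R : TrivSqZeroExt R R →+* R) (cD i j k)) =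
        c := by
      funext i j k
      exact TrivSqZeroExt.fst_inl R (c i j k)
    have h3 : (fun i j => (TrivSqZeroExt.fstHom R R R : TrivSqZeroExt R R →+* R) (AD i j)) =
        A0 R r := by
      funext i j
      exact hAf i j
    rw [h2, h3, cv_A0 hc] at h1
    exact h1
  set g : V r → R := fun k => (y k).snd with hg
  have hyfe : (fun k => (y k).fst) = e0 R r := funext hyf
  have hAfe : ∀ i, (fun k => (AD i k).fst) = A0 R r i := fun i => funext (hAf i)
  have hAse : ∀ i, (fun k => (AD i k).snd) = v i • e0 R r := fun i => funext (hAs i)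
  -- the `ε` part of the equations
  have heq : ∀ i j, tri c (A0 R r i) (A0 R r j) g = 0 := by
    intro i j
    have h1 := congrArg TrivSqZeroExt.snd (tri_frame_cv hsym AD i j)
    rw [TrivSqZeroExt.snd_zero, BJC_snd_tri, hAfe, hAfe, hAse, hAse] at h1
    have h2 : (fun k => (cv cD AD k).fst) = e0 R r := hyfe
    have h3 : (fun k => (cv cD AD k).snd) = g := rfl
    rw [h2, h3, tri_smul_left, tri_smul_mid, hc.sym.swap12, BJC_Aee hc, BJC_Aee hc, mul_zero,
      mul_zero, zero_add, zero_add] at h1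
    exact h1
  have hex : ∀ a b : I r, tri c (ex (A0 R r) a) (ex (A0 R r) b) g = 0 := by
    intro a b
    refine Fin.cases ?_ (fun i => ?_) a
    · show tri c (Fin.cons (α := fun _ => V r → R) 0 (A0 R r) 0) _ _ = 0
      rw [Fin.cons_zero, tri_zero_left]
    · refine Fin.cases ?_ (fun j => ?_) b
      · show tri c _ (Fin.cons (α := fun _ => V r → R) 0 (A0 R r) 0) _ = 0
        rw [Fin.cons_zero, tri_zero_mid]
      · show tri c (Fin.cons (α := fun _ => V r → R) 0 (A0 R r) i.succ)
          (Fin.cons (α := fun _ => V r → R) 0 (A0 R r) j.succ) g = 0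
        rw [Fin.cons_succ, Fin.cons_succ]
        exact heq i j
  have hdv : ∀ p : J r, tri c (dv (A0 R r) p) (dv (A0 R r) p) g = 0 := by
    intro p
    unfold dv
    rw [tri_sub_left, tri_sub_mid, tri_sub_mid, hex, hex, hex, hex]
    ring
  have hgI : ∀ i : Fin (r + 1), g (.inl i.succ) = 0 := by
    intro i
    show (cv cD AD (.inl i.succ)).snd = 0
    have h1 : cv cD AD (.inl i.succ) = 0 := by
      show (Pi.single 0 (kap (TrivSqZeroExt R R) r * (Qm cD AD).det) :
        I r → TrivSqZeroExt R R) i.succ = 0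
      exact Pi.single_eq_of_ne (Fin.succ_ne_zero i) _
    rw [h1, TrivSqZeroExt.snd_zero]
  have hgdec : g = g (.inl 0) • e0 R r + ∑ p : J r, g (.inr p) • Pi.single (.inr p) (1 : R) := by
    funext k
    rw [Pi.add_apply, Finset.sum_apply, Pi.smul_apply]
    rcases k with a | p
    · rw [Finset.sum_eq_zero (fun p _ => by
        rw [Pi.smul_apply, Pi.single_eq_of_ne (fun h => by cases h), smul_zero]), add_zero]
      refine Fin.cases ?_ (fun i => ?_) a
      · unfold e0
        rw [Pi.single_eq_same, smul_eq_mul, mul_one]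
      · unfold e0
        rw [Pi.single_eq_of_ne (fun h => Fin.succ_ne_zero i (Sum.inl_injective h)), smul_zero]
        exact hgI i
    · have h1 : e0 R r (.inr p) = 0 := Pi.single_eq_of_ne (fun h => by cases h) _
      rw [h1, smul_zero, zero_add, Finset.sum_eq_single p]
      · rw [Pi.smul_apply, Pi.single_eq_same, smul_eq_mul, mul_one]
      · intro q _ hq
        rw [Pi.smul_apply, Pi.single_eq_of_ne (fun h => hq (Sum.inr_injective h).symm), smul_zero]
      · intro h
        exact absurd (Finset.mem_univ _) h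
  have hgJ : ∀ p : J r, g (.inr p) = 0 := by
    intro p
    have h1 := hdv p
    rw [hgdec, tri_add_right, tri_smul_right, tri_sum_right] at h1
    have h2 : tri c (dv (A0 R r) p) (dv (A0 R r) p) (e0 R r) = 0 := congrFun (qv_A0 hc) p
    have h3 : ∀ p' : J r, tri c (dv (A0 R r) p) (dv (A0 R r) p)
        (g (.inr p') • Pi.single (.inr p') (1 : R)) = g (.inr p') * Qm c (A0 R r) p p' := by
      intro p'
      rw [tri_smul_right]
      rfl
    rw [h2, mul_zero, zero_add, Finset.sum_congr rfl (fun p' _ => h3 p'), Qm_A0 hc,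
      Finset.sum_eq_single p] at h1
    · rw [Matrix.smul_apply, Matrix.one_apply_eq, smul_eq_mul, mul_one] at h1
      have h4 : algebraMap ℚ R (-1 / 2) * (g (.inr p) * (-2 : R)) = g (.inr p) := by
        have h5 : (-2 : R) = algebraMap ℚ R (-2) := by
          rw [map_neg, map_ofNat]
        rw [h5]
        have h6 : algebraMap ℚ R (-1 / 2) * (g (.inr p) * algebraMap ℚ R (-2)) =
            g (.inr p) * (algebraMap ℚ R (-1 / 2) * algebraMap ℚ R (-2)) := by ring
        rw [h6, ← map_mul]
        norm_num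
      rw [← h4, h1, mul_zero]
    · intro q _ hq
      rw [Matrix.smul_apply, Matrix.one_apply_ne hq.symm, smul_zero, mul_zero]
    · intro h
      exact absurd (Finset.mem_univ _) h
  have hge : g = g (.inl 0) • e0 R r := by
    conv_lhs => rw [hgdec]
    rw [Finset.sum_eq_zero (fun p _ => by rw [hgJ p, zero_smul]), add_zero]
  set g0 : R := g (.inl 0) with hg0
  -- the scalar factor
  have hsc : sc AD = 1 := by
    have h1 : AD 0 (.inl (Fin.succ 0)) = 1 := by
      apply TrivSqZeroExt.ext
      · rw [hAf, TrivSqZeroExt.fst_one]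
        show (Pi.single (.inl (Fin.succ 0)) 1 - Pi.single (.inl 0) 1 : V r → R)
          (.inl (Fin.succ 0)) = 1
        rw [Pi.sub_apply, Pi.single_eq_same, Pi.single_eq_of_ne
          (fun h => Fin.succ_ne_zero _ (Sum.inl_injective h)), sub_zero]
      · rw [hAs, TrivSqZeroExt.snd_one]
        have h2 : e0 R r (.inl (Fin.succ 0)) = 0 :=
          Pi.single_eq_of_ne (fun h => Fin.succ_ne_zero _ (Sum.inl_injective h)) _
        rw [h2, mul_zero]
    unfold sc
    rw [h1, sub_self, mul_zero, sub_zero]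
  -- `tau`
  have htf : (tau cD AD).fst = 1 := by
    unfold tau
    rw [BJC_fst_tri]
    have h2 : (fun k => (cv cD AD k).fst) = e0 R r := hyfe
    rw [h2, BJC_eee hc]
  have hts : (tau cD AD).snd = 3 * g0 := by
    unfold tau
    rw [BJC_snd_tri]
    have h2 : (fun k => (cv cD AD k).fst) = e0 R r := hyfe
    have h3 : (fun k => (cv cD AD k).snd) = g0 • e0 R r := hge
    rw [h2, h3, tri_smul_left, tri_smul_mid, tri_smul_right, BJC_eee hc]
    ring
  have hbf : ∀ i, (tri cD (AD i) (cv cD AD) (cv cD AD)).fst = 0 := by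
    intro i
    rw [BJC_fst_tri]
    have h2 : (fun k => (cv cD AD k).fst) = e0 R r := hyfe
    rw [h2, hAfe, BJC_Aee hc]
  have hbs : ∀ i, (tri cD (AD i) (cv cD AD) (cv cD AD)).snd = v i := by
    intro i
    rw [BJC_snd_tri]
    have h2 : (fun k => (cv cD AD k).fst) = e0 R r := hyfe
    have h3 : (fun k => (cv cD AD k).snd) = g0 • e0 R r := hge
    rw [h2, h3, hAfe, hAse, tri_smul_left, tri_smul_mid, tri_smul_right, BJC_eee hc, BJC_Aee hc]
    ring
  refine ⟨3 * g0, ?_⟩
  funext ik
  obtain ⟨i, k⟩ := ik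
  have h1 := congrArg TrivSqZeroExt.snd (hF i k)
  rw [TrivSqZeroExt.snd_add, TrivSqZeroExt.snd_inl, TrivSqZeroExt.snd_inr, zero_add] at h1
  rw [← h1]
  have h2 : Ft cD AD i k = tau cD AD * AD i k -
      3 * tri cD (AD i) (cv cD AD) (cv cD AD) * cv cD AD k := by
    show (sc AD • Fh cD AD i) k = _
    rw [hsc, one_smul]
    rfl
  have h3 : (3 * tri cD (AD i) (cv cD AD) (cv cD AD) : TrivSqZeroExt R R) =
      tri cD (AD i) (cv cD AD) (cv cD AD) + tri cD (AD i) (cv cD AD) (cv cD AD) +
        tri cD (AD i) (cv cD AD) (cv cD AD) := by ring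
  have h4 : (cv cD AD k).fst = e0 R r k := hyf k
  rw [h2, h3]
  simp only [TrivSqZeroExt.snd_sub, TrivSqZeroExt.snd_mul, TrivSqZeroExt.fst_add,
    TrivSqZeroExt.snd_add, hbf, hbs, htf, hts, hAf, hAs, h4, smul_eq_mul,
    MulOpposite.smul_eq_mul_unop, MulOpposite.unop_op]
  show _ = (-2 : R) * (v i * e0 R r k) + 3 * g0 * A0 R r i k
  ring

end Pool.Agent.MP_1209e6_fr
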