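import Pool.Agent.Lib_MP_1209e6_fr.BJacA

/-!
PIECE [BJA] (MP_1209e6_ag).  The derivative of the self-map at the base frame.
-/

open MvPolynomial

namespace Pool.Agent.MP_1209e6_fr

variable {R S : Type*} [CommRing R] [CommRing S] [Algebra ℚ R] [Algebra ℚ S] {r : ℕ}

omit [Algebra ℚ R] in
private theorem snd_tri_dual {ι : Type*} [Fintype ι] (c : ι → ι → ι → R) (x0 x1 y0 y1 z0 z1 : ι → R) :
    tri (fun i j k => (TrivSqZeroExt.inl (c i j k) : TrivSqZeroExt R R))
      (fun i => TrivSqZeroExt.inl (x0 i) + TrivSqZeroExt.inr (x1 i))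
      (fun i => TrivSqZeroExt.inl (y0 i) + TrivSqZeroExt.inr (y1 i))
      (fun i => TrivSqZeroExt.inl (z0 i) + TrivSqZeroExt.inr (z1 i)) =
    TrivSqZeroExt.inl (tri c x0 y0 z0) +
      TrivSqZeroExt.inr (tri c x1 y0 z0 + tri c x0 y1 z0 + tri c x0 y0 z1) := by
  have h1 : (TrivSqZeroExt.inl (tri c x0 y0 z0) : TrivSqZeroExt R R) =
      ∑ i, ∑ j, ∑ k, TrivSqZeroExt.inl (c i j k * (x0 i * y0 j * z0 k)) := by
    simp only [tri, ← TrivSqZeroExt.inlHom_apply, map_sum]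
  have h2 : ∀ t : ι → ι → ι → R, (TrivSqZeroExt.inr (∑ i, ∑ j, ∑ k, t i j k) : TrivSqZeroExt R R) =
      ∑ i, ∑ j, ∑ k, TrivSqZeroExt.inr (t i j k) := by
    intro t
    have h3 : ∀ x : R, (TrivSqZeroExt.inr x : TrivSqZeroExt R R) = TrivSqZeroExt.inrHom R R x := fun x => rfl
    simp only [h3, map_sum]
  rw [h1]
  simp only [tri, ← Finset.sum_add_distrib]
  rw [h2]
  simp only [← Finset.sum_add_distrib]
  refine Finset.sum_congr rfl fun i _ => Finset.sum_congr rfl fun j _ => Finset.sum_congr rfl fun k _ => ?_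
  ext
  · simp
  · simp
    ring

/-- PIECE [BJA].  Proof.  As before with an arbitrary direction `B`: `y = e0 + ε g`, `g (inl i.succ) = 0`; `tau = 1 + 3ε c(e0, e0, g)`;
`tri (A i) y y = ε (c(B i, e0, e0) + 2 c(A0 i, e0, g)) =: ε b i`; `Fh i = A0 i + ε (B i + 3 c(e0,e0,g) A0 i - 3 b i e0)`; multiply by
`sc = 1 - (6n+1) ε B 0 (inl 1)`. -/
theorem jac_all {c : V r → V r → V r → R} (hc : Adapted c) (B : Fin (r + 1) × V r → R) :
    ∃ (v : Fin (r + 1) → R) (a : R), (jac c).mulVec B = B + unc (ve R v) + a • unc (A0 R r) := by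
  set c' : V r → V r → V r → TrivSqZeroExt R R := fun i j l => TrivSqZeroExt.inl (c i j l) with hc'
  set A : Fin (r + 1) → V r → TrivSqZeroExt R R :=
    fun i k => TrivSqZeroExt.inl (A0 R r i k) + TrivSqZeroExt.inr (B (i, k)) with hA
  set g : V r → R := fun k => TrivSqZeroExt.snd (cv c' A k) with hg
  have hfst : ∀ k, TrivSqZeroExt.fst (cv c' A k) = e0 R r k := by
    intro k
    have h := map_cv (TrivSqZeroExt.fstHom ℚ R R : TrivSqZeroExt R R →ₐ[ℚ] R).toRingHom c' A k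
    have h2 : (fun i j k => (TrivSqZeroExt.fstHom ℚ R R : TrivSqZeroExt R R →ₐ[ℚ] R).toRingHom (c' i j k)) = c := by
      funext i j k
      simp [hc']
    have h3 : (fun i j => (TrivSqZeroExt.fstHom ℚ R R : TrivSqZeroExt R R →ₐ[ℚ] R).toRingHom (A i j)) = A0 R r := by
      funext i j
      simp [hA]
    rw [h2, h3, cv_A0 hc] at h
    exact h
  have hy : cv c' A = fun k => TrivSqZeroExt.inl (e0 R r k) + TrivSqZeroExt.inr (g k) := by
    funext k
    ext
    · simp [hfst]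
    · simp [hg]
  have h000 : tri c (e0 R r) (e0 R r) (e0 R r) = 1 := by
    have h := tau_A0 hc
    rw [tau, cv_A0 hc] at h
    exact h
  have hi00 : ∀ i, tri c (A0 R r i) (e0 R r) (e0 R r) = 0 := by
    intro i
    rw [A0, e0, tri_sub_left, tri_single, tri_single, hc.one, hc.one, sub_self]
  set t : R := tri c (e0 R r) (e0 R r) g + tri c (e0 R r) g (e0 R r) + tri c g (e0 R r) (e0 R r) with ht
  have htau : tau c' A = TrivSqZeroExt.inl 1 + TrivSqZeroExt.inr t := by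
    rw [tau, hy, hc', snd_tri_dual, h000]
    congr 2
    rw [ht]
    ring
  set b : Fin (r + 1) → R := fun i => tri c (fun k => B (i, k)) (e0 R r) (e0 R r) + tri c (A0 R r i) g (e0 R r) +
    tri c (A0 R r i) (e0 R r) g with hb
  have htri : ∀ i, tri c' (A i) (cv c' A) (cv c' A) = TrivSqZeroExt.inr (b i) := by
    intro i
    rw [hy, hc', hA, snd_tri_dual, hi00, TrivSqZeroExt.inl_zero, zero_add]
  set s : R := -((6 * (Fintype.card (J r) : R) + 1) * B (0, .inl (Fin.succ 0))) with hs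
  have hsc : sc A = TrivSqZeroExt.inl 1 + TrivSqZeroExt.inr s := by
    have h01 : A0 R r 0 (.inl (Fin.succ 0)) = 1 := by
      rw [A0]
      simp
    have h6 : (6 : TrivSqZeroExt R R) = TrivSqZeroExt.inl 6 := (map_ofNat (TrivSqZeroExt.inlHom R R) 6).symm
    rw [sc, hA]
    simp only [h01]
    rw [h6]
    ext
    · simp
    · simp only [hs, TrivSqZeroExt.snd_sub, TrivSqZeroExt.snd_add, TrivSqZeroExt.snd_mul, TrivSqZeroExt.fst_add,
        TrivSqZeroExt.fst_sub, TrivSqZeroExt.fst_mul, TrivSqZeroExt.fst_inl, TrivSqZeroExt.snd_inl,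
        TrivSqZeroExt.snd_inr, TrivSqZeroExt.fst_inr, TrivSqZeroExt.fst_one, TrivSqZeroExt.snd_one,
        TrivSqZeroExt.fst_natCast, TrivSqZeroExt.snd_natCast, op_smul_eq_smul, smul_eq_mul]
      ring
  refine ⟨fun i => -3 * b i, t + s, ?_⟩
  funext p
  obtain ⟨i, k⟩ := p
  have h := Ft_dual hc B i k
  rw [← hc', ← hA] at h
  rw [Ft, Fh, hsc, htau, htri, hy, hA] at h
  have h3 : (3 : TrivSqZeroExt R R) = TrivSqZeroExt.inl 3 := (map_ofNat (TrivSqZeroExt.inlHom R R) 3).symm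
  have h2 := congrArg TrivSqZeroExt.snd h
  rw [h3] at h2
  simp only [Pi.smul_apply, Pi.sub_apply, smul_eq_mul, TrivSqZeroExt.snd_add, TrivSqZeroExt.snd_inl,
    TrivSqZeroExt.snd_inr, TrivSqZeroExt.snd_mul, TrivSqZeroExt.fst_add, TrivSqZeroExt.fst_inl,
    TrivSqZeroExt.fst_inr, TrivSqZeroExt.fst_mul, TrivSqZeroExt.snd_sub, TrivSqZeroExt.fst_sub,
    op_smul_eq_smul, zero_add, add_zero] at h2
  rw [← h2]
  simp only [Pi.add_apply, Pi.smul_apply, unc, ve, smul_eq_mul]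
  ring

end Pool.Agent.MP_1209e6_fr
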