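import Pool.Agent.Lib_MP_1209e6_fr.BJacB
import Pool.Agent.Lib_MP_1209e6_fr.BJacC
import Pool.Agent.Lib_MP_1209e6_fr.BJacD

/-!
PIECE [BJA] (MP_1209e6_ag).  The derivative of the self-map at the base frame.
-/

open MvPolynomial

namespace Pool.Agent.MP_1209e6_fr

variable {R S : Type*} [CommRing R] [CommRing S] [Algebra ℚ R] [Algebra ℚ S] {r : ℕ}

/-- PIECE [BJA].  From the three statements: check on vectors (`Matrix.ext_of_mulVec_single` or `Matrix.toLin'` injective):
`(T + 2) B = ...`; write `(T - 1) B = ve v + a A0`, `(T + 2) (ve v + a A0) = a' A0`, `T A0 = 0` (the factors commute). -/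
theorem jac_poly {c : V r → V r → V r → R} (hc : Adapted c) : jac c * (jac c - 1) * (jac c + 2) = 0 := by
  have hcomm : jac c * (jac c - 1) * (jac c + 2) = jac c * ((jac c + 2) * (jac c - 1)) := by
    noncomm_ring
  rw [hcomm]
  have h2 : ∀ B : Fin (r + 1) × V r → R, (jac c + 2).mulVec B = (jac c).mulVec B + (2 : R) • B := by
    intro B
    have h3 : (2 : Matrix (Fin (r + 1) × V r) (Fin (r + 1) × V r) R) = 1 + 1 :=
      one_add_one_eq_two.symm
    rw [Matrix.add_mulVec, h3, Matrix.add_mulVec, Matrix.one_mulVec, two_smul]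
  have h0 : ∀ a : R, (jac c).mulVec (a • unc (A0 R r)) = 0 := by
    intro a
    rw [Matrix.mulVec_smul, jac_A0 hc, smul_zero]
  have key : ∀ B : Fin (r + 1) × V r → R,
      (jac c * ((jac c + 2) * (jac c - 1))).mulVec B = 0 := by
    intro B
    rw [← Matrix.mulVec_mulVec, ← Matrix.mulVec_mulVec, Matrix.sub_mulVec, Matrix.one_mulVec]
    obtain ⟨v, a, hB⟩ := jac_all hc B
    obtain ⟨b, hb⟩ := jac_ve hc v
    have e1 : B + unc (ve R v) + a • unc (A0 R r) - B = unc (ve R v) + a • unc (A0 R r) := by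
      abel
    have e2 : (jac c).mulVec (unc (ve R v) + a • unc (A0 R r)) +
        (2 : R) • (unc (ve R v) + a • unc (A0 R r)) = (b + 2 * a) • unc (A0 R r) := by
      rw [Matrix.mulVec_add, hb, h0, add_zero, smul_add, smul_smul, add_smul, neg_smul]
      abel
    rw [hB, e1, h2, e2, h0]
  refine Matrix.ext_of_mulVec_single fun i => ?_
  rw [key, Matrix.zero_mulVec]

/-- PIECE [BJA].  `T (T (ve v)) = T (-2 ve v + a A0) = -2 T (ve v)`. -/
theorem jac_ev {c : V r → V r → V r → R} (hc : Adapted c) (v : Fin (r + 1) → R) :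
    (jac c).mulVec (ev c v) = (-2 : R) • ev c v := by
  obtain ⟨b, hb⟩ := jac_ve hc v
  unfold ev
  have h1 : (jac c).mulVec ((jac c).mulVec (unc (ve R v))) =
      (-2 : R) • (jac c).mulVec (unc (ve R v)) := by
    conv_lhs => rw [hb]
    rw [Matrix.mulVec_add, Matrix.mulVec_smul, Matrix.mulVec_smul, jac_A0 hc, smul_zero, add_zero]
  rw [Matrix.mulVec_smul, h1, smul_comm]

/-- PIECE [BJA].  From `jac_ve`. -/
theorem ev_eq {c : V r → V r → V r → R} (hc : Adapted c) (v : Fin (r + 1) → R) :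
    ∃ a : R, ev c v = unc (ve R v) + a • unc (A0 R r) := by
  obtain ⟨b, hb⟩ := jac_ve hc v
  refine ⟨algebraMap ℚ R (-1 / 2) * b, ?_⟩
  have h1 : algebraMap ℚ R (-1 / 2) * (-2) = 1 := by
    have h2 : (-2 : R) = algebraMap ℚ R (-2) := by
      rw [map_neg, map_ofNat]
    rw [h2, ← map_mul]
    norm_num
  unfold ev
  rw [hb, smul_add, smul_smul, smul_smul, h1, one_smul]

end Pool.Agent.MP_1209e6_fr
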