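import Pool.Agent.Lib_MP_1209e6_fr.Base

/-!
PIECE [BNA] (MP_1209e6_ag).  Naturality of the self-map; its polynomials.
-/

open MvPolynomial

namespace Pool.Agent.MP_1209e6_fr

variable {R S : Type*} [CommRing R] [CommRing S] {r : ℕ}

theorem map_ex (f : R →+* S) (A : Fin (r + 1) → V r → R) (a : I r) (k : V r) :
    f (ex A a k) = ex (fun i j => f (A i j)) a k := by
  unfold ex
  refine Fin.cases ?_ (fun i => ?_) a
  · simp
  · simp

/-- PIECE [BNA]. -/
theorem map_dv (f : R →+* S) (A : Fin (r + 1) → V r → R) (p : J r) (k : V r) :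
    f (dv A p k) = dv (fun i j => f (A i j)) p k := by
  simp only [dv, Pi.sub_apply, map_sub, map_ex]

theorem map_single' (f : R →+* S) (i k : V r) :
    f ((Pi.single i 1 : V r → R) k) = (Pi.single i 1 : V r → S) k := by
  by_cases h : k = i
  · subst h; simp
  · simp [Pi.single_eq_of_ne h]

/-- PIECE [BNA]. -/
theorem map_Qm (f : R →+* S) (c : V r → V r → V r → R) (A : Fin (r + 1) → V r → R) :
    f.mapMatrix (Qm c A) = Qm (fun i j k => f (c i j k)) (fun i j => f (A i j)) := by
  ext p p'
  simp only [RingHom.mapMatrix_apply, Matrix.map_apply, Qm, Matrix.of_apply, map_tri, map_dv, map_single']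

theorem map_qv (f : R →+* S) (c : V r → V r → V r → R) (A : Fin (r + 1) → V r → R) (p : J r) :
    f (qv c A p) = qv (fun i j k => f (c i j k)) (fun i j => f (A i j)) p := by
  simp only [qv, e0, map_tri, map_dv, map_single']

theorem map_kap [Algebra ℚ R] [Algebra ℚ S] (f : R →+* S) : f (kap R r) = kap S r := by
  unfold kap
  exact DFunLike.congr_fun (Subsingleton.elim (f.comp (algebraMap ℚ R)) (algebraMap ℚ S)) _

/-- PIECE [BNA].  `RingHom.map_det`, `RingHom.map_adjugate`, and `f (algebraMap ℚ R q) = algebraMap ℚ S q` (any ring hom between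
`ℚ`-algebras). -/
theorem map_cv [Algebra ℚ R] [Algebra ℚ S] (f : R →+* S) (c : V r → V r → V r → R) (A : Fin (r + 1) → V r → R) (k : V r) :
    f (cv c A k) = cv (fun i j k => f (c i j k)) (fun i j => f (A i j)) k := by
  have hdet : f (Qm c A).det = (Qm (fun i j k => f (c i j k)) (fun i j => f (A i j))).det := by
    rw [RingHom.map_det, map_Qm]
  have hadj : ∀ p p', f ((Qm c A).adjugate p p') =
      (Qm (fun i j k => f (c i j k)) (fun i j => f (A i j))).adjugate p p' := by
    intro p p'
    rw [← map_Qm, ← RingHom.map_adjugate]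
    rfl
  rcases k with a | p
  · by_cases h : a = 0
    · subst h
      simp only [cv, Sum.elim_inl, Pi.single_eq_same, map_mul, map_kap, hdet]
    · simp only [cv, Sum.elim_inl, Pi.single_eq_of_ne h, map_zero]
  · simp only [cv, Sum.elim_inr, map_neg, map_mul, map_kap, Matrix.mulVec, dotProduct, map_sum, hadj,
      map_qv]

/-- PIECE [BNA]. -/
theorem map_tau [Algebra ℚ R] [Algebra ℚ S] (f : R →+* S) (c : V r → V r → V r → R) (A : Fin (r + 1) → V r → R) :
    f (tau c A) = tau (fun i j k => f (c i j k)) (fun i j => f (A i j)) := by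
  simp only [tau, map_tri, map_cv]

/-- PIECE [BNA]. -/
theorem map_sc (f : R →+* S) (A : Fin (r + 1) → V r → R) : f (sc A) = sc (fun i j => f (A i j)) := by
  simp only [sc, map_sub, map_one, map_mul, map_add, map_ofNat, map_natCast]

/-- PIECE [BNA]. -/
theorem map_Ft [Algebra ℚ R] [Algebra ℚ S] (f : R →+* S) (c : V r → V r → V r → R) (A : Fin (r + 1) → V r → R)
    (i : Fin (r + 1)) (k : V r) :
    f (Ft c A i k) = Ft (fun i j k => f (c i j k)) (fun i j => f (A i j)) i k := by
  simp only [Ft, Fh, Pi.smul_apply, Pi.sub_apply, smul_eq_mul, map_mul, map_sub, map_tau, map_sc, map_tri,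
    map_cv, map_ofNat]

/-- The polynomials of the self-map. -/
noncomputable def Fp [Algebra ℚ R] (c : V r → V r → V r → R) (k : Fin (r + 1) × V r) :
    MvPolynomial (Fin (r + 1) × V r) R :=
  Ft (fun i j l => C (c i j l)) (fun i j => X (i, j)) k.1 k.2

/-- PIECE [BNA].  `map_Ft` for the ring hom `eval₂Hom f _`. -/
theorem eval₂_Fp [Algebra ℚ R] [Algebra ℚ S] (f : R →+* S) (c : V r → V r → V r → R) (A : Fin (r + 1) → V r → S)
    (k : Fin (r + 1) × V r) :
    eval₂Hom f (fun p => A p.1 p.2) (Fp c k) = Ft (fun i j l => f (c i j l)) A k.1 k.2 := by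
  rw [Fp, map_Ft]
  simp only [eval₂Hom_C, eval₂Hom_X']

/-- PIECE [BNA].  (`MvPolynomial.map f` is a ring hom, `map f (C a) = C (f a)`, `map f (X i) = X i`.) -/
theorem map_Fp [Algebra ℚ R] [Algebra ℚ S] (f : R →+* S) (c : V r → V r → V r → R) (k : Fin (r + 1) × V r) :
    MvPolynomial.map f (Fp c k) = Fp (fun i j l => f (c i j l)) k := by
  rw [Fp, map_Ft]
  simp only [map_C, map_X]
  rfl

end Pool.Agent.MP_1209e6_fr
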