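import Mathlib

/-!
PIECE [DUA] (MP_1209e6_ag).  Polynomials over dual numbers.
-/

open MvPolynomial

namespace Pool.Agent.MP_1209e6_fr

/-- PIECE [DUA].  First order Taylor formula over the dual numbers.

Proof.  Both sides are additive in `p`; `MvPolynomial.induction_on` with the step `p * X k`: Leibniz rule for `pderiv`, and
`inr * inr = 0`. -/
theorem eval_dual {κ R : Type*} [Fintype κ] [DecidableEq κ] [CommRing R] (p : MvPolynomial κ R) (x y : κ → R) :
    eval₂Hom (algebraMap R (TrivSqZeroExt R R)) (fun k => TrivSqZeroExt.inl (x k) + TrivSqZeroExt.inr (y k)) p =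
      TrivSqZeroExt.inl (eval x p) + TrivSqZeroExt.inr (∑ k, eval x (pderiv k p) * y k) := by
  induction p using MvPolynomial.induction_on with
  | C a =>
    rw [eval₂Hom_C]
    simp only [eval_C, pderiv_C, map_zero, zero_mul, Finset.sum_const_zero, TrivSqZeroExt.inr_zero,
      add_zero]
    rfl
  | add p q hp hq =>
    rw [map_add, hp, hq]
    simp only [map_add, add_mul, Finset.sum_add_distrib, TrivSqZeroExt.inl_add,
      TrivSqZeroExt.inr_add]
    abel
  | mul_X p k hp =>
    rw [map_mul, hp, eval₂Hom_X']
    have h1 : ∑ j, eval x (pderiv j (p * X k)) * y j =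
        x k * (∑ j, eval x (pderiv j p) * y j) + eval x p * y k := by
      have h2 : ∀ j, eval x (pderiv j (p * X k)) * y j =
          x k * (eval x (pderiv j p) * y j) + (if k = j then eval x p * y k else 0) := by
        intro j
        rw [pderiv_mul, pderiv_X, map_add, map_mul, map_mul, eval_X]
        by_cases hkj : k = j
        · subst hkj
          simp
          ring
        · rw [Pi.single_eq_of_ne (by exact fun h => hkj h), if_neg hkj]
          simp
          ring
      simp_rw [h2]
      rw [Finset.sum_add_distrib, ← Finset.mul_sum, Finset.sum_ite_eq]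
      simp
    rw [h1, map_mul, eval_X]
    ext
    · simp
    · simp
      ring

end Pool.Agent.MP_1209e6_fr
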