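import Pool.Agent.Lib_MP_1209e6_fr.BFix
import Pool.Agent.Lib_MP_1209e6_fr.BNat
import Pool.Agent.Lib_MP_1209e6_fr.Dual

/-!
PIECE [BJA] (MP_1209e6_ag).  The derivative of the self-map at the base frame.
-/

open MvPolynomial

namespace Pool.Agent.MP_1209e6_fr

variable {R S : Type*} [CommRing R] [CommRing S] [Algebra ℚ R] [Algebra ℚ S] {r : ℕ}

/-- A frame as a vector. -/
def unc (B : Fin (r + 1) → V r → R) : Fin (r + 1) × V r → R := fun p => B p.1 p.2

/-- The Jacobian matrix of the self-map at the base frame. -/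
noncomputable def jac (c : V r → V r → V r → R) : Matrix (Fin (r + 1) × V r) (Fin (r + 1) × V r) R :=
  Matrix.of fun k l => eval (unc (A0 R r)) (pderiv l (Fp c k))

private theorem bjaa_A0 (f : R →+* S) (i : Fin (r + 1)) (k : V r) : f (A0 R r i k) = A0 S r i k := by
  unfold A0
  rw [Pi.sub_apply, Pi.sub_apply, map_sub, map_single', map_single']

/-- PIECE [BJA].  In `D = TrivSqZeroExt R R` the self-map sends `A0 + ε B` to `A0 + ε (jac c B)` (`eval_dual`, `eval₂_Fp`, `Ft_A0`). -/
theorem Ft_dual {c : V r → V r → V r → R} (hc : Adapted c) (B : Fin (r + 1) × V r → R) (i : Fin (r + 1)) (k : V r) :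
    Ft (fun i j l => (TrivSqZeroExt.inl (c i j l) : TrivSqZeroExt R R))
      (fun i k => TrivSqZeroExt.inl (A0 R r i k) + TrivSqZeroExt.inr (B (i, k))) i k =
      TrivSqZeroExt.inl (A0 R r i k) + TrivSqZeroExt.inr ((jac c).mulVec B (i, k)) := by
  classical
  have h1 := eval₂_Fp (algebraMap R (TrivSqZeroExt R R)) c
    (fun i k => TrivSqZeroExt.inl (A0 R r i k) + TrivSqZeroExt.inr (B (i, k))) (i, k)
  have h2 := eval_dual (Fp c (i, k)) (unc (A0 R r)) B
  have h3 : eval (unc (A0 R r)) (Fp c (i, k)) = A0 R r i k := by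
    have h := eval₂_Fp (RingHom.id R) c (A0 R r) (i, k)
    have h4 : Ft (fun i j l => (RingHom.id R) (c i j l)) (A0 R r) i k = A0 R r i k := congrFun (congrFun (Ft_A0 hc) i) k
    exact h.trans h4
  rw [h3] at h2
  exact h1.symm.trans h2

/-- The unstable eigenvector with parameter `v`. -/
noncomputable def ev (c : V r → V r → V r → R) (v : Fin (r + 1) → R) : Fin (r + 1) × V r → R :=
  (algebraMap ℚ R (-1 / 2)) • (jac c).mulVec (unc (ve R v))

/-- PIECE [BJA].  Naturality (`map_Fp`; `pderiv` and `eval` commute with `MvPolynomial.map`). -/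
theorem map_jac (f : R →+* S) (c : V r → V r → V r → R) : f.mapMatrix (jac c) = jac (fun i j k => f (c i j k)) := by
  classical
  ext k l
  have h1 : f (eval (unc (A0 R r)) (pderiv l (Fp c k))) =
      eval (unc (A0 S r)) (pderiv l (Fp (fun i j k => f (c i j k)) k)) := by
    rw [MvPolynomial.eval₂_comp, MvPolynomial.eval₂_eq_eval_map, ← MvPolynomial.pderiv_map, map_Fp]
    have h2 : (f ∘ unc (A0 R r)) = unc (A0 S r) := by
      funext p
      exact bjaa_A0 f p.1 p.2
    rw [h2]
  exact h1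

/-- PIECE [BJA]. -/
theorem map_ev (f : R →+* S) (c : V r → V r → V r → R) (v : Fin (r + 1) → R) (k : Fin (r + 1) × V r) :
    f (ev c v k) = ev (fun i j k => f (c i j k)) (fun i => f (v i)) k := by
  have h1 : f (algebraMap ℚ R (-1 / 2)) = algebraMap ℚ S (-1 / 2) :=
    DFunLike.congr_fun (Subsingleton.elim (f.comp (algebraMap ℚ R)) (algebraMap ℚ S)) _
  have h2 : (f ∘ unc (ve R v)) = unc (ve S (fun i => f (v i))) := by
    funext p
    show f (v p.1 * (e0 R r) p.2) = f (v p.1) * (e0 S r) p.2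
    rw [map_mul, e0, e0, map_single']
  have h3 : ∀ c : V r → V r → V r → R, f ((jac c).mulVec (unc (ve R v)) k) =
      (jac (fun i j k => f (c i j k))).mulVec (unc (ve S (fun i => f (v i)))) k := by
    intro c
    rw [RingHom.map_mulVec, h2, ← map_jac f c]
    rfl
  rw [ev, ev, Pi.smul_apply, Pi.smul_apply, smul_eq_mul, smul_eq_mul, map_mul, h1, h3]

end Pool.Agent.MP_1209e6_fr
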