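import Pool.Agent.Lib_MP_1209e6_fr.BJacA

/-!
PIECE [BJA] (MP_1209e6_ag).  The derivative of the self-map at the base frame.
-/

open MvPolynomial

namespace Pool.Agent.MP_1209e6_fr

variable {R S : Type*} [CommRing R] [CommRing S] [Algebra ℚ R] [Algebra ℚ S] {r : ℕ}

section

variable {D : Type*} [CommRing D]

theorem bjb_ex (a : D) (A : Fin (r + 1) → V r → D) (i : I r) :
    ex (fun i => a • A i) i = a • ex A i := by
  refine Fin.cases ?_ (fun j => ?_) i
  · simp [ex]
  · simp [ex]

theorem bjb_dv (a : D) (A : Fin (r + 1) → V r → D) (p : J r) :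
    dv (fun i => a • A i) p = a • dv A p := by
  unfold dv
  rw [bjb_ex, bjb_ex, smul_sub]

theorem bjb_Qm (c : V r → V r → V r → D) (a : D) (A : Fin (r + 1) → V r → D) :
    Qm c (fun i => a • A i) = (a ^ 2) • Qm c A := by
  ext p p'
  simp only [Qm, Matrix.of_apply, Matrix.smul_apply, bjb_dv, tri_smul_left, tri_smul_mid,
    smul_eq_mul]
  ring

theorem bjb_qv (c : V r → V r → V r → D) (a : D) (A : Fin (r + 1) → V r → D) :
    qv c (fun i => a • A i) = (a ^ 2) • qv c A := by
  ext p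
  simp only [qv, Pi.smul_apply, bjb_dv, tri_smul_left, tri_smul_mid, smul_eq_mul]
  ring

theorem bjb_card : 1 ≤ Fintype.card (J r) := by
  have : Nonempty (J r) := ⟨⟨(0, Fin.succ 0), Fin.succ_pos 0⟩⟩
  exact Fintype.card_pos

theorem bjb_cv [Algebra ℚ D] (c : V r → V r → V r → D) (a : D) (A : Fin (r + 1) → V r → D) :
    cv c (fun i => a • A i) = (a ^ (2 * Fintype.card (J r))) • cv c A := by
  have hn := bjb_card (r := r)
  unfold cv
  rw [bjb_Qm, bjb_qv, Matrix.det_smul, Matrix.adjugate_smul]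
  funext k
  rcases k with i | p
  · simp only [Sum.elim_inl, Pi.smul_apply, smul_eq_mul]
    by_cases hi : i = 0
    · subst hi
      rw [Pi.single_eq_same, Pi.single_eq_same, ← pow_mul]
      ring
    · rw [Pi.single_eq_of_ne hi, Pi.single_eq_of_ne hi, mul_zero]
  · simp only [Sum.elim_inr, Pi.smul_apply, smul_eq_mul, Matrix.smul_mulVec, Matrix.mulVec_smul]
    have e : (a ^ 2) ^ (Fintype.card (J r) - 1) * a ^ 2 = a ^ (2 * Fintype.card (J r)) := by
      rw [← pow_succ, ← pow_mul]
      congr 2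
      omega
    rw [← e]
    ring

theorem bjb_tau [Algebra ℚ D] (c : V r → V r → V r → D) (a : D) (A : Fin (r + 1) → V r → D) :
    tau c (fun i => a • A i) = a ^ (6 * Fintype.card (J r)) * tau c A := by
  unfold tau
  rw [bjb_cv, tri_smul_left, tri_smul_mid, tri_smul_right]
  ring

theorem bjb_Fh [Algebra ℚ D] (c : V r → V r → V r → D) (a : D) (A : Fin (r + 1) → V r → D)
    (i : Fin (r + 1)) :
    Fh c (fun i => a • A i) i = a ^ (6 * Fintype.card (J r) + 1) • Fh c A i := by
  unfold Fh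
  rw [bjb_tau, bjb_cv, tri_smul_left, tri_smul_mid, tri_smul_right]
  funext k
  simp only [Pi.sub_apply, Pi.smul_apply, smul_eq_mul]
  ring

theorem bjb_pow (e : D) (he : e * e = 0) (N : ℕ) : (1 + e) ^ N = 1 + N * e := by
  induction N with
  | zero => simp
  | succ N ih =>
    rw [pow_succ, ih]
    push_cast
    linear_combination (N : D) * he

end

/-- PIECE [BJA].  The direction of the base frame is killed.

Proof.  Use `Ft_dual` for `B = A0`, i.e. the frame `(1 + ε) A0`.  For every frame `A` and scalar `a`: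
`dv (a A) = a dv A`, `Qm c (a A) = a^2 Qm c A`, `qv c (a A) = a^2 qv c A`, so `cv c (a A) = a^(2 n) cv c A` with `n = card (J r)` (if `n ≥ 1`: `det (a^2 Q) =
a^(2n) det Q`, `adjugate (a^2 Q) = a^(2(n-1)) adjugate Q` by `Matrix.adjugate_smul`; here `n ≥ 1` because `(0, 1)` is a pair), so `Fh c (a A) =
a^(6 n + 1) Fh c A`.  With `a = 1 + ε`: `Fh = (1 + (6n+1) ε) A0` and `sc = 1 - (6n+1) ε`, product `A0`. -/
theorem jac_A0 {c : V r → V r → V r → R} (hc : Adapted c) : (jac c).mulVec (unc (A0 R r)) = 0 := by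
  funext ⟨i, k⟩
  have h1 := Ft_dual hc (unc (A0 R r)) i k
  set c' : V r → V r → V r → TrivSqZeroExt R R := fun i j l => TrivSqZeroExt.inl (c i j l) with hc'
  set A' : Fin (r + 1) → V r → TrivSqZeroExt R R := fun i k => TrivSqZeroExt.inl (A0 R r i k)
    with hA'
  set ε : TrivSqZeroExt R R := TrivSqZeroExt.inr 1 with hε
  have hεε : ε * ε = 0 := by
    rw [hε, TrivSqZeroExt.inr_mul_inr]
  have hfr : (fun i k => TrivSqZeroExt.inl (A0 R r i k) +
      TrivSqZeroExt.inr (unc (A0 R r) (i, k)) : Fin (r + 1) → V r → TrivSqZeroExt R R) =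
      fun i => (1 + ε) • A' i := by
    funext i k
    rw [Pi.smul_apply, smul_eq_mul, add_mul, one_mul, hA', hε]
    simp only [unc]
    rw [TrivSqZeroExt.inr_mul_inl]
    simp
  have hFt : Ft c' A' i k = TrivSqZeroExt.inl (A0 R r i k) := by
    have := map_Ft (TrivSqZeroExt.inlHom R R) c (A0 R r) i k
    rw [Ft_A0 hc] at this
    exact this.symm
  have hsc : sc A' = 1 := by
    have := map_sc (TrivSqZeroExt.inlHom R R) (A0 R r)
    rw [sc_A0, map_one] at this
    exact this.symm
  have hFh : Fh c' A' i k = TrivSqZeroExt.inl (A0 R r i k) := by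
    unfold Ft at hFt
    rw [hsc, one_smul] at hFt
    exact hFt
  have hA1 : A' 0 (.inl (Fin.succ 0)) = 1 := by
    rw [hA']
    simp [A0]
  have hsc2 : sc (fun i => (1 + ε) • A' i) =
      1 - (6 * (Fintype.card (J r) : TrivSqZeroExt R R) + 1) * ε := by
    unfold sc
    simp only [Pi.smul_apply, smul_eq_mul]
    rw [hA1]
    ring
  rw [hfr] at h1
  unfold Ft at h1
  rw [bjb_Fh, hsc2, bjb_pow ε hεε] at h1
  simp only [Pi.smul_apply, smul_eq_mul] at h1
  rw [hFh] at h1
  have h2 : (1 - (6 * (Fintype.card (J r) : TrivSqZeroExt R R) + 1) * ε) *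
      ((1 + ((6 * Fintype.card (J r) + 1 : ℕ) : TrivSqZeroExt R R) * ε) *
        TrivSqZeroExt.inl (A0 R r i k)) = TrivSqZeroExt.inl (A0 R r i k) := by
    push_cast
    linear_combination (-(6 * (Fintype.card (J r) : TrivSqZeroExt R R) + 1) ^ 2 *
      TrivSqZeroExt.inl (A0 R r i k)) * hεε
  rw [h2] at h1
  have h3 : (TrivSqZeroExt.inr ((jac c).mulVec (unc (A0 R r)) (i, k)) : TrivSqZeroExt R R) = 0 := by
    have := h1.symm
    rwa [add_eq_left] at this
  have h4 := congrArg TrivSqZeroExt.snd h3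
  rw [TrivSqZeroExt.snd_inr, TrivSqZeroExt.snd_zero] at h4
  exact h4

end Pool.Agent.MP_1209e6_fr
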