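import Pool.Agent.Lib_MP_1209e6_fr.Base

/-!
PIECE [BVA] (MP_1209e6_ag).  The vector `cv` is orthogonal to the frame; the self-map preserves the vanishing.
-/

namespace Pool.Agent.MP_1209e6_fr

variable {R : Type*} [CommRing R] [Algebra ℚ R] {r : ℕ}

/-- PIECE [BVA].  With `d = dv A p`: `cv c A = kap * det Q • e0 - kap • ∑ p', (adj Q qv) p' • e_(p')`, so by linearity (`tri_sum_right` ...)
`tri c d d (cv c A) = kap * (det Q * qv p - (Q * adj Q * qv) p) = 0` (`Matrix.mul_adjugate`). -/
theorem tri_dv_cv (c : V r → V r → V r → R) (A : Fin (r + 1) → V r → R) (p : J r) :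
    tri c (dv A p) (dv A p) (cv c A) = 0 := by
  classical
  have hcv : cv c A = (kap R r * (Qm c A).det) • e0 R r -
      kap R r • ∑ p' : J r, ((Qm c A).adjugate.mulVec (qv c A)) p' • Pi.single (.inr p') 1 := by
    funext i
    rcases i with a | q
    · simp only [cv, Sum.elim_inl, Pi.sub_apply, Pi.smul_apply, smul_eq_mul, e0, Finset.sum_apply,
        Pi.single_apply]
      by_cases h : a = 0 <;> simp [h]
    · simp only [cv, Sum.elim_inr, Pi.sub_apply, Pi.smul_apply, smul_eq_mul, e0, Finset.sum_apply,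
        Pi.single_apply]
      simp
  rw [hcv, tri_sub_right, tri_smul_right, tri_smul_right, tri_sum_right]
  have h1 : ∑ p' : J r, tri c (dv A p) (dv A p)
      (((Qm c A).adjugate.mulVec (qv c A)) p' • (Pi.single (.inr p') 1 : V r → R)) =
      (Qm c A).det * qv c A p := by
    have h2 : (Qm c A).mulVec ((Qm c A).adjugate.mulVec (qv c A)) p = (Qm c A).det * qv c A p := by
      rw [Matrix.mulVec_mulVec, Matrix.mul_adjugate, Matrix.smul_mulVec, Matrix.one_mulVec]
      rfl
    rw [← h2]
    simp only [Matrix.mulVec, dotProduct]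
    refine Finset.sum_congr rfl fun p' _ => ?_
    rw [tri_smul_right]
    simp only [Qm, Matrix.of_apply]
    ring
  rw [h1]
  simp only [qv]
  ring

/-- PIECE [BVA].  `p = (0, i+1)`: `dv A p = - A i`, so `tri c (A i) (A i) (cv c A) = 0`.  `p = (i+1, j+1)`, `i < j`: `dv A p = A i - A j`, expand
and use symmetry: `2 * tri c (A i) (A j) (cv c A) = 0`, and `2` is invertible in the `ℚ`-algebra `R`. -/
theorem tri_frame_cv {c : V r → V r → V r → R} (hc : SymC c) (A : Fin (r + 1) → V r → R) (i j : Fin (r + 1)) :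
    tri c (A i) (A j) (cv c A) = 0 := by
  have hdiag : ∀ i, tri c (A i) (A i) (cv c A) = 0 := by
    intro i
    have h1 := tri_dv_cv c A ⟨(0, i.succ), Fin.succ_pos i⟩
    have h2 : dv A ⟨(0, i.succ), Fin.succ_pos i⟩ = -A i := by
      simp [dv, ex]
    rw [h2, tri_neg_left, tri_neg_mid, neg_neg] at h1
    exact h1
  have hlt : ∀ i j, i < j → tri c (A i) (A j) (cv c A) = 0 := by
    intro i j hij
    have h1 := tri_dv_cv c A ⟨(i.succ, j.succ), Fin.succ_lt_succ_iff.2 hij⟩
    have h2 : dv A ⟨(i.succ, j.succ), Fin.succ_lt_succ_iff.2 hij⟩ = A i - A j := by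
      simp [dv, ex]
    rw [h2, tri_sub_left, tri_sub_mid, tri_sub_mid, hdiag, hdiag, hc.swap12 (A j) (A i)] at h1
    have h3 : (2 : R) * tri c (A i) (A j) (cv c A) = 0 := by linear_combination -h1
    have h4 : algebraMap ℚ R (1 / 2) * 2 = 1 := by
      have h5 : (2 : R) = algebraMap ℚ R 2 := (map_ofNat (algebraMap ℚ R) 2).symm
      rw [h5, ← map_mul]
      norm_num
    calc tri c (A i) (A j) (cv c A) = (algebraMap ℚ R (1 / 2) * 2) * tri c (A i) (A j) (cv c A) := by
          rw [h4, one_mul]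
      _ = algebraMap ℚ R (1 / 2) * (2 * tri c (A i) (A j) (cv c A)) := by ring
      _ = 0 := by rw [h3, mul_zero]
  rcases lt_trichotomy i j with h | h | h
  · exact hlt i j h
  · rw [h]
    exact hdiag j
  · rw [hc.swap12]
    exact hlt j i h

/-- PIECE [BVA].  Write `y = cv c A`, `t = tau c A`, `b i = tri c (A i) y y`; expand `Fh c A i = t • A i - (3 * b i) • y` by
trilinearity and symmetry, use `tri_frame_cv` and `tri c y y y = t`:
`t^3 * tri c (A i) (A j) (A k) + 27 * t * b i * b j * b k - 27 * b i * b j * b k * t`. -/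
theorem tri_Fh {c : V r → V r → V r → R} (hc : SymC c) (A : Fin (r + 1) → V r → R) (i j k : Fin (r + 1)) :
    tri c (Fh c A i) (Fh c A j) (Fh c A k) = tau c A ^ 3 * tri c (A i) (A j) (A k) := by
  have e1 : tri c (A i) (A j) (cv c A) = 0 := tri_frame_cv hc A i j
  have e2 : tri c (A i) (cv c A) (A k) = 0 := by rw [hc.swap23]; exact tri_frame_cv hc A i k
  have e3 : tri c (cv c A) (A j) (A k) = 0 := by rw [hc.swap13]; exact tri_frame_cv hc A k j
  have e4 : tri c (cv c A) (A j) (cv c A) = tri c (A j) (cv c A) (cv c A) := hc.swap12 _ _ _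
  have e5 : tri c (cv c A) (cv c A) (A k) = tri c (A k) (cv c A) (cv c A) := hc.swap13 _ _ _
  unfold Fh
  rw [tri_sub_left, tri_smul_left, tri_smul_left, tri_sub_mid, tri_smul_mid, tri_smul_mid,
    tri_sub_mid, tri_smul_mid, tri_smul_mid, tri_sub_right, tri_smul_right, tri_smul_right,
    tri_sub_right, tri_smul_right, tri_smul_right, tri_sub_right, tri_smul_right, tri_smul_right,
    tri_sub_right, tri_smul_right, tri_smul_right, e1, e2, e3, e4, e5]
  have e6 : tri c (cv c A) (cv c A) (cv c A) = tau c A := rfl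
  rw [e6]
  ring

/-- PIECE [BVA]. -/
theorem tri_Ft {c : V r → V r → V r → R} (hc : SymC c) (A : Fin (r + 1) → V r → R) (i j k : Fin (r + 1)) :
    tri c (Ft c A i) (Ft c A j) (Ft c A k) = (sc A * tau c A) ^ 3 * tri c (A i) (A j) (A k) := by
  unfold Ft
  rw [tri_smul_left, tri_smul_mid, tri_smul_right, tri_Fh hc]
  ring

end Pool.Agent.MP_1209e6_fr
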