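import Pool.Agent.Lib_MP_1209e6_fr.Tri

/-!
# Adapted cubic forms and the self-map (MP_1209e6_ag): definitions

The space has the basis `V r = I r ⊕ J r`, `I r = Fin (r + 2)`, `J r` = the pairs `a < b` in `I r`.  A frame is a family
`A : Fin (r + 1) → V r → R`; the base frame is `A0 i = e_(i+1) - e_0` (`e_a`, `a` in `I r`).
-/

namespace Pool.Agent.MP_1209e6_fr

/-- First part of the basis. -/
abbrev I (r : ℕ) : Type := Fin (r + 2)

/-- Second part of the basis: pairs `a < b`. -/
abbrev J (r : ℕ) : Type := {p : Fin (r + 2) × Fin (r + 2) // p.1 < p.2}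

/-- The basis. -/
abbrev V (r : ℕ) : Type := I r ⊕ J r

/-- `1` if `p` is the pair `{a, b}`, otherwise `0`. -/
def del (R : Type*) [CommRing R] {r : ℕ} (a b : I r) (p : J r) : R :=
  if p.1 = (a, b) ∨ p.1 = (b, a) then 1 else 0

/-- The special cubic form: `1` at `(a, b, d)`, `a, b, d` in `I r`, `1` at the permutations of `(a, b, {a, b})`, `a ≠ b`,
otherwise `0`.  With parameters: `m` changes the values at `(a, b, p)`, `u` gives all values with at least two indices in
`J r`. -/
def cpar {R : Type*} [CommRing R] {r : ℕ} (m : J r → I r → R) (u : Sym (V r) 3 → R) : V r → V r → V r → R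
  | .inl _, .inl _, .inl _ => 1
  | .inl a, .inl b, .inr p => del R a b p + m p a + m p b
  | .inl a, .inr p, .inl b => del R a b p + m p a + m p b
  | .inr p, .inl a, .inl b => del R a b p + m p a + m p b
  | i, j, k => u (sy i j k)

/-- Adapted cubic forms. -/
structure Adapted {R : Type*} [CommRing R] {r : ℕ} (c : V r → V r → V r → R) : Prop where
  sym : SymC c
  one : ∀ a b d : I r, c (.inl a) (.inl b) (.inl d) = 1
  two : ∃ m : J r → I r → R, ∀ (a b : I r) (p : J r),
    c (.inl a) (.inl b) (.inr p) = del R a b p + m p a + m p b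

section

variable {R : Type*} [CommRing R] {r : ℕ}

/-- The base frame. -/
def A0 (R : Type*) [CommRing R] (r : ℕ) : Fin (r + 1) → V r → R :=
  fun i => Pi.single (.inl i.succ) 1 - Pi.single (.inl 0) 1

/-- The vector `e_0`. -/
def e0 (R : Type*) [CommRing R] (r : ℕ) : V r → R := Pi.single (.inl 0) 1

/-- The frame extended by `0` in front. -/
def ex (A : Fin (r + 1) → V r → R) : I r → V r → R := Fin.cons (α := fun _ => V r → R) 0 A

/-- The difference of two vectors of the extended frame. -/
def dv (A : Fin (r + 1) → V r → R) (p : J r) : V r → R := ex A p.1.1 - ex A p.1.2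

/-- The matrix of the linear system which defines the vector `cv`. -/
def Qm (c : V r → V r → V r → R) (A : Fin (r + 1) → V r → R) : Matrix (J r) (J r) R :=
  Matrix.of fun p p' => tri c (dv A p) (dv A p) (Pi.single (.inr p') 1)

/-- The right hand side of this system. -/
def qv (c : V r → V r → V r → R) (A : Fin (r + 1) → V r → R) : J r → R :=
  fun p => tri c (dv A p) (dv A p) (e0 R r)

/-- A normalising rational constant. -/
noncomputable def kap (R : Type*) [CommRing R] [Algebra ℚ R] (r : ℕ) : R :=
  algebraMap ℚ R (((-2 : ℚ) ^ Fintype.card (J r))⁻¹)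

/-- The vector with `tri c (A i) (A j) (cv c A) = 0` for all `i, j` (no components in the directions `e_a`, `a ≠ 0`). -/
noncomputable def cv [Algebra ℚ R] (c : V r → V r → V r → R) (A : Fin (r + 1) → V r → R) : V r → R :=
  Sum.elim (Pi.single 0 (kap R r * (Qm c A).det)) (fun p => -(kap R r * ((Qm c A).adjugate.mulVec (qv c A)) p))

/-- The value of the cubic form at `cv`. -/
noncomputable def tau [Algebra ℚ R] (c : V r → V r → V r → R) (A : Fin (r + 1) → V r → R) : R :=
  tri c (cv c A) (cv c A) (cv c A)

/-- The self-map on frames, without scalar factor. -/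
noncomputable def Fh [Algebra ℚ R] (c : V r → V r → V r → R) (A : Fin (r + 1) → V r → R) : Fin (r + 1) → V r → R :=
  fun i => tau c A • A i - (3 * tri c (A i) (cv c A) (cv c A)) • cv c A

/-- The scalar factor. -/
noncomputable def sc (A : Fin (r + 1) → V r → R) : R :=
  1 - (6 * (Fintype.card (J r) : R) + 1) * (A 0 (.inl (Fin.succ 0)) - 1)

/-- The self-map on frames. -/
noncomputable def Ft [Algebra ℚ R] (c : V r → V r → V r → R) (A : Fin (r + 1) → V r → R) : Fin (r + 1) → V r → R :=
  fun i => sc A • Fh c A i

/-- The frame of vectors `v_i e_0`. -/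
def ve (R : Type*) [CommRing R] {r : ℕ} (v : Fin (r + 1) → R) : Fin (r + 1) → V r → R := fun i => v i • e0 R r

end

end Pool.Agent.MP_1209e6_fr
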