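import Pool.Agent.Lib_MP_1209e6_fr.CAlgC

/-!
PIECE [CAG] (MP_1209e6_ag).  The field of the coefficients is algebraically closed in the function field of the incidence variety.
-/

open MvPolynomial

namespace Pool.Agent.MP_1209e6_fr

variable {k : ℕ} {T : Type} [Fintype T] [DecidableEq T]

/-- the ring generated by the coefficients, in the function field -/
private theorem cad_map :
    (Algebra.adjoin ℚ (Set.range (tS k T))).map (IsScalarTower.toAlgHom ℚ (SS k T) (FF k T)) =
      Algebra.adjoin ℚ (Set.range fun s => algebraMap (SS k T) (FF k T) (tS k T s)) := by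
  rw [AlgHom.map_adjoin, ← Set.range_comp]
  rfl

private theorem cad_le {w : SS k T} (hw : w ∈ Algebra.adjoin ℚ (Set.range (tS k T))) :
    algebraMap (SS k T) (FF k T) w ∈ KC k T := by
  have h1 : algebraMap (SS k T) (FF k T) w ∈
      (Algebra.adjoin ℚ (Set.range (tS k T))).map (IsScalarTower.toAlgHom ℚ (SS k T) (FF k T)) :=
    ⟨w, hw, rfl⟩
  rw [cad_map] at h1
  exact IntermediateField.algebra_adjoin_le_adjoin ℚ _ h1

open scoped IntermediateField.algebraAdjoinAdjoin in
/-- PIECE [CAG].  Proof.  `z` is algebraic over `KC`, the fraction field of the ring `ℚ[tS]`, so there is `0 ≠ ρ ∈ ℚ[tS]` with `ρ z` integral over `ℚ[tS]` (`exists_integral_multiple`), hence integral over `SS`, hence in `SS`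
(`SS` is integrally closed).  So `ρ z ∈ ℚ[tS]` by `mem_adjoin_tS`, and `z ∈ KC`. -/
theorem mem_KC (hT : Fintype.card T = Fintype.card (R2 k) + 1) {z : FF k T} (h : IsAlgebraic (KC k T) z) : z ∈ KC k T := by
  have h1 : IsAlgebraic (Algebra.adjoin ℚ (Set.range fun s =>
      algebraMap (SS k T) (FF k T) (tS k T s))) z :=
    (IsFractionRing.isAlgebraic_iff (Algebra.adjoin ℚ (Set.range fun s =>
      algebraMap (SS k T) (FF k T) (tS k T s))) (IntermediateField.adjoin ℚ (Set.range fun s =>
      algebraMap (SS k T) (FF k T) (tS k T s))) (FF k T)).2 h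
  obtain ⟨y, hy0, p, hp, hpz⟩ := h1.exists_integral_multiple
  have hinj : Function.Injective (IsScalarTower.toAlgHom ℚ (SS k T) (FF k T)) :=
    IsFractionRing.injective (SS k T) (FF k T)
  let e := (Algebra.adjoin ℚ (Set.range (tS k T))).equivMapOfInjective
    (IsScalarTower.toAlgHom ℚ (SS k T) (FF k T)) hinj
  let e2 := Subalgebra.equivOfEq _ _ (cad_map (k := k) (T := T)).symm
  let ψ : Algebra.adjoin ℚ (Set.range fun s => algebraMap (SS k T) (FF k T) (tS k T s)) →+*
      SS k T := ((Algebra.adjoin ℚ (Set.range (tS k T))).val.comp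
        ((e2.trans e.symm).toAlgHom)).toRingHom
  have hψ : ∀ x, algebraMap (SS k T) (FF k T) (ψ x) = (x : FF k T) := by
    intro x
    have h2 : e (e.symm (e2 x)) = e2 x := e.apply_symm_apply _
    have h3 := congrArg Subtype.val h2
    exact h3
  have hint : IsIntegral (SS k T) (y • z) := by
    refine ⟨p.map ψ, hp.map _, ?_⟩
    rw [Polynomial.eval₂_map]
    have h4 : (algebraMap (SS k T) (FF k T)).comp ψ = algebraMap _ (FF k T) := by
      ext x
      exact hψ x
    rw [h4]
    exact hpz
  obtain ⟨w, hw⟩ := IsIntegrallyClosed.isIntegral_iff.1 hint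
  have hyK : (y : FF k T) ∈ KC k T := IntermediateField.algebra_adjoin_le_adjoin ℚ _ y.2
  have hy0' : (y : FF k T) ≠ 0 := fun h => hy0 (Subtype.ext h)
  have hyz : y • z = (y : FF k T) * z := rfl
  have hwa : IsAlgebraic (KC k T) (algebraMap (SS k T) (FF k T) w) := by
    rw [hw, hyz]
    exact (isAlgebraic_algebraMap (⟨y, hyK⟩ : KC k T)).mul h
  have hwK := cad_le (mem_adjoin_tS hT hwa)
  have hz : z = algebraMap (SS k T) (FF k T) w / (y : FF k T) := by
    rw [hw, hyz, mul_div_cancel_left₀ _ hy0']
  rw [hz]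
  exact (KC k T).div_mem hwK hyK

end Pool.Agent.MP_1209e6_fr
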