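import Pool.Agent.Lib_MP_1209e6_fr.CDef

/-!
# The function field of the incidence variety (MP_1209e6_ag)

A type with exactly one instance path for each structure.
-/

open MvPolynomial

namespace Pool.Agent.MP_1209e6_fr

/-- The function field of the incidence variety. -/
def FF (k : ℕ) (T : Type) : Type := FractionRing (SS k T)

noncomputable instance (k : ℕ) (T : Type) : Field (FF k T) := inferInstanceAs (Field (FractionRing (SS k T)))

noncomputable instance (k : ℕ) (T : Type) : Algebra (SS k T) (FF k T) :=
  inferInstanceAs (Algebra (SS k T) (FractionRing (SS k T)))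

instance (k : ℕ) (T : Type) : IsFractionRing (SS k T) (FF k T) :=
  inferInstanceAs (IsFractionRing (SS k T) (FractionRing (SS k T)))

instance (k : ℕ) (T : Type) : CharZero (FF k T) :=
  charZero_of_injective_algebraMap (IsFractionRing.injective (SS k T) (FF k T))

instance (k : ℕ) (T : Type) : IsScalarTower ℚ (SS k T) (FF k T) :=
  IsScalarTower.of_algebraMap_eq' (RingHom.ext_rat _ _)

end Pool.Agent.MP_1209e6_fr
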