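import Pool.Agent.Lib_MP_1209e6_fr.CCopA
import Pool.Agent.Lib_MP_1209e6_fr.CFF

/-!
PIECE [CCP] (MP_1209e6_ag).  The minors `Qd j` have no common factor.
-/

open MvPolynomial

namespace Pool.Agent.MP_1209e6_fr

variable {k : ℕ} {T : Type} [Fintype T] [DecidableEq T]

/-- PIECE [CCP].  A fraction with all the denominators `Qd j` is a polynomial: write it as `u / w` with `u, w` relatively prime (the polynomial ring is a UFD); then `w ∣ Qd j` for all `j`. -/
theorem mem_of_mul_mem (hT : Fintype.card T = Fintype.card (R2 k) + 1) (β : FF k T)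
    (h : ∀ j : T, ∃ α : SS k T, algebraMap (SS k T) (FF k T) (Qd hT j) * β = algebraMap _ _ α) :
    ∃ α : SS k T, β = algebraMap (SS k T) (FF k T) α := by
  obtain ⟨u, w, hrel, hβ⟩ := IsFractionRing.exists_reduced_fraction (A := SS k T) β
  have hw : IsUnit (w : SS k T) := by
    refine isUnit_of_dvd_Qd hT fun j => ?_
    obtain ⟨α, hα⟩ := h j
    have h1 : Qd hT j * u = α * w := by
      apply IsFractionRing.injective (SS k T) (FF k T)
      rw [map_mul, map_mul, ← hα, mul_assoc, ← hβ, IsLocalization.mk'_spec]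
    have h2 : (w : SS k T) ∣ Qd hT j * u := ⟨α, by rw [h1, mul_comm]⟩
    exact hrel.symm.dvd_of_dvd_mul_right h2
  obtain ⟨v, hv⟩ := hw.exists_left_inv
  refine ⟨u * v, ?_⟩
  rw [← hβ, IsLocalization.mk'_eq_iff_eq_mul, ← map_mul, mul_assoc, hv, mul_one]

end Pool.Agent.MP_1209e6_fr
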