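import Pool.Agent.Lib_MP_1209e6_fr.CFldA

/-!
PIECE [CFL] (MP_1209e6_ag).  Derivations and algebraic elements.
-/

namespace Pool.Agent.MP_1209e6_fr

/-- PIECE [CFL].  Constants of the partial derivatives are algebraic over the ground field.

Proof.  Otherwise there is a derivation `D'` of `K` with `D' f = 1` (`Pool.Agent.Campana.exists_derivation`).  The derivation `D' - ∑ i, D' (x i) • D i` vanishes on all `x i`, so on the elements algebraic
over `k(x)`, so on `f`; but its value at `f` is `1 - 0 = 1`. -/
theorem isAlgebraic_of_constant {k K ι : Type} [Field k] [CharZero k] [Field K] [Algebra k K] [Finite ι] [DecidableEq ι]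
    (x : ι → K) (hx : AlgebraicIndependent k x) (D : ι → Derivation k K K)
    (hD : ∀ i j, D i (x j) = if j = i then 1 else 0) {f : K}
    (hf : IsAlgebraic (IntermediateField.adjoin k (Set.range x)) f) (h0 : ∀ i, D i f = 0) : IsAlgebraic k f := by
  have : Fintype ι := Fintype.ofFinite ι
  by_contra hn
  have h1 : AlgebraicIndependent k (fun _ : Unit => f) := by
    rw [algebraicIndependent_unique_type_iff]
    exact hn
  obtain ⟨D', hD'⟩ := Pool.Agent.Campana.exists_derivation (fun _ : Unit => f) h1 (fun _ => 1)
  have h2 : D' f = 1 := hD' ()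
  have hsum : ∀ a : K, (∑ i, D' (x i) • D i : Derivation k K K) a = ∑ i, D' (x i) * D i a := by
    intro a
    have e : (∑ i, D' (x i) • D i : Derivation k K K) a =
        (Derivation.coeFnAddMonoidHom (∑ i, D' (x i) • D i : Derivation k K K)) a := rfl
    rw [e, map_sum, Finset.sum_apply]
    rfl
  have h3 : D' f = (∑ i, D' (x i) • D i : Derivation k K K) f := by
    refine derivation_eq_of_isAlgebraic D' _ (Set.range x) ?_ hf
    rintro _ ⟨j, rfl⟩
    rw [hsum]
    simp [hD]
  rw [hsum, h2] at h3
  simp [h0] at h3

end Pool.Agent.MP_1209e6_fr
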