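import Pool.Agent.Lib_MP_1209e6_fr.CFldA

/-!
PIECE [CFL] (MP_1209e6_ag).  Derivations and algebraic elements.
-/

namespace Pool.Agent.MP_1209e6_fr

/-- PIECE [CFL].  Elements with dual derivations are algebraically independent.

Proof.  Otherwise some `x i` is algebraic over the field generated by finitely many other `x j`, where `D i` vanishes; so `D i (x i) = 0`, contradiction. -/
theorem algebraicIndependent_of_derivations {k K ι : Type} [Field k] [CharZero k] [Field K] [Algebra k K] [Finite ι]
    [DecidableEq ι] (x : ι → K) (D : ι → Derivation k K K) (hD : ∀ i j, D i (x j) = if j = i then 1 else 0) :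
    AlgebraicIndependent k x := by
  refine algebraicIndependent_of_finite_type' (algebraMap k K).injective ?_
  intro t _ _ i hi
  intro hal
  have h1 : IsAlgebraic (IntermediateField.adjoin k (x '' t)) (x i) := by
    have h2 : Algebra.adjoin k (x '' t) ≤ (IntermediateField.adjoin k (x '' t)).toSubalgebra :=
      IntermediateField.algebra_adjoin_le_adjoin k (x '' t)
    obtain ⟨p, hp, hp0⟩ := hal
    refine ⟨p.map (Subalgebra.inclusion h2).toRingHom, ?_, ?_⟩
    · rw [Ne, Polynomial.map_eq_zero_iff]
      · exact hp
      · exact Subalgebra.inclusion_injective h2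
    · rw [Polynomial.aeval_def, Polynomial.eval₂_map]
      rw [Polynomial.aeval_def] at hp0
      exact hp0
  have h3 : D i (x i) = (0 : Derivation k K K) (x i) := by
    refine derivation_eq_of_isAlgebraic (D i) 0 (x '' t) ?_ h1
    rintro _ ⟨j, hj, rfl⟩
    have hne : j ≠ i := fun he => hi (he ▸ hj)
    rw [hD, if_neg hne]
    rfl
  rw [hD, if_pos rfl] at h3
  exact one_ne_zero h3

end Pool.Agent.MP_1209e6_fr
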