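import Pool.Agent.Lib_MP_1209e6_fr.CDer
import Pool.Agent.Lib_MP_1209e6_fr.CCop
import Pool.Agent.Lib_MP_1209e6_fr.CFldB
import Pool.Agent.Lib_MP_1209e6_fr.CFldC

/-!
PIECE [CAG] (MP_1209e6_ag).  The field of the coefficients is algebraically closed in the function field of the incidence variety.
-/

open MvPolynomial

namespace Pool.Agent.MP_1209e6_fr

variable {k : ℕ} {T : Type} [Fintype T] [DecidableEq T]

/-- The subfield generated by the coefficients of the cubic form. -/
noncomputable def KC (k : ℕ) (T : Type) [Fintype T] [DecidableEq T] : IntermediateField ℚ (FF k T) :=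
  IntermediateField.adjoin ℚ (Set.range fun s => algebraMap (SS k T) (FF k T) (tS k T s))

private theorem CAlgA_frac {S : Type} [CommRing S] [IsDomain S] [Algebra ℚ S]
    (D : Derivation ℚ S S) : ∃ f : FractionRing S →+ FractionRing S,
      (∀ a, f (algebraMap S _ a) = algebraMap S _ (D a)) ∧
      ∀ a b, f (a * b) = a * f b + b * f a := by
  obtain ⟨D', h⟩ := exists_frac D
  refine ⟨(D'.toLinearMap).toAddMonoidHom, h, fun a b => ?_⟩
  exact D'.leibniz a b

private theorem CAlgA_der {K : Type} [Field K] [Algebra ℚ K] (iM : Module ℚ K) (g : K →+ K)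
    (hg : ∀ a b, g (a * b) = a * g b + b * g a) :
    ∃ Δ : @Derivation ℚ K K _ _ _ _ _ iM, ∀ x, Δ x = g x := by
  have e : iM = Algebra.toModule := (subsingleton_rat_module K).elim _ _
  subst e
  exact ⟨Derivation.mk' (AddMonoidHom.toRatLinearMap g) hg, fun _ => rfl⟩

private theorem CAlgA_der' {K : Type} [Field K] [Algebra ℚ K] (g : K →+ K)
    (hg : ∀ a b, g (a * b) = a * g b + b * g a) : ∃ Δ : Derivation ℚ K K, ∀ x, Δ x = g x :=
  CAlgA_der _ g hg

private theorem CAlgA_add {K : Type} [Field K] [Algebra ℚ K] (iM : Module ℚ K)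
    (Δ : @Derivation ℚ K K _ _ _ _ _ iM) :
    ∃ g : K →+ K, (∀ x, g x = Δ x) ∧ ∀ a b, g (a * b) = a * g b + b * g a :=
  ⟨(Δ.toLinearMap).toAddMonoidHom, fun _ => rfl, fun a b => Δ.leibniz a b⟩

private theorem CAlgA_mul {K : Type} [Field K] (c : K) (f : K →+ K)
    (hf : ∀ a b, f (a * b) = a * f b + b * f a) :
    ∃ g : K →+ K, (∀ x, g x = c * f x) ∧ ∀ a b, g (a * b) = a * g b + b * g a := by
  refine ⟨(AddMonoidHom.mulLeft c).comp f, fun _ => rfl, fun a b => ?_⟩
  change c * f (a * b) = a * (c * f b) + b * (c * f a)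
  rw [hf]
  ring

private theorem CAlgA_abs {S K ι J : Type} [CommRing S] [Algebra ℚ S] [Field K]
    [Algebra ℚ K] [Algebra S K] [DecidableEq ι] (hinj : Function.Injective (algebraMap S K))
    (t : ι → S) (q : J → S) (hq : ∀ j, q j ≠ 0) (j0 : J) (D : ι → J → Derivation ℚ S S)
    (hD1 : ∀ s j s', D s j (t s') = if s' = s then q j else 0)
    (N : ℚ) (E : Derivation ℚ S S) (hE : ∀ j, E (q j) = N • q j)
    (hD2 : ∀ s j α, E (D s j α) + D s j α = D s j (E α) + N • D s j α)
    (f : ι → J → (K →+ K)) (hf : ∀ s j a, f s j (algebraMap S K a) = algebraMap S K (D s j a))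
    (hfL : ∀ s j a b, f s j (a * b) = a * f s j b + b * f s j a)
    (hmem : ∀ β : K, (∀ j, ∃ α : S, algebraMap S K (q j) * β = algebraMap S K α) →
      ∃ α : S, β = algebraMap S K α) :
    (∀ s s', (algebraMap S K (q j0))⁻¹ * f s j0 (algebraMap S K (t s')) =
      if s' = s then 1 else 0) ∧
    ∀ α : S, IsAlgebraic (IntermediateField.adjoin ℚ (Set.range fun s => algebraMap S K (t s)))
        (algebraMap S K α) → ∀ s, ∃ β,
      (algebraMap S K (q j0))⁻¹ * f s j0 (algebraMap S K α) = algebraMap S K β ∧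
      algebraMap S K (E β) + algebraMap S K β =
        (algebraMap S K (q j0))⁻¹ * f s j0 (algebraMap S K (E α)) := by
  have hq' : ∀ j, algebraMap S K (q j) ≠ 0 := by
    intro j h
    rw [← map_zero (algebraMap S K)] at h
    exact hq j (hinj h)
  have hval : ∀ s j s', (algebraMap S K (q j))⁻¹ * f s j (algebraMap S K (t s')) =
      if s' = s then 1 else 0 := by
    intro s j s'
    rw [hf, hD1]
    by_cases h : s' = s
    · rw [if_pos h, if_pos h, inv_mul_cancel₀ (hq' j)]
    · rw [if_neg h, if_neg h, map_zero, mul_zero]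
  refine ⟨fun s s' => hval s j0 s', ?_⟩
  intro α hα s
  have hder : ∀ j, ∃ Δ : Derivation ℚ K K, ∀ x, Δ x = (algebraMap S K (q j))⁻¹ * f s j x := by
    intro j
    obtain ⟨g, hg1, hg2⟩ := CAlgA_mul (algebraMap S K (q j))⁻¹ (f s j) (hfL s j)
    obtain ⟨Δ, hΔ⟩ := CAlgA_der' g hg2
    exact ⟨Δ, fun x => (hΔ x).trans (hg1 x)⟩
  choose Δ hΔ using hder
  have hagree : ∀ j, (algebraMap S K (q j))⁻¹ * f s j (algebraMap S K α) =
      (algebraMap S K (q j0))⁻¹ * f s j0 (algebraMap S K α) := by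
    intro j
    rw [← hΔ, ← hΔ]
    refine derivation_eq_of_isAlgebraic _ _ _ ?_ hα
    rintro _ ⟨s', rfl⟩
    rw [hΔ, hΔ]
    exact (hval s j s').trans (hval s j0 s').symm
  obtain ⟨β, hβ⟩ := hmem ((algebraMap S K (q j0))⁻¹ * f s j0 (algebraMap S K α))
    (fun j => ⟨D s j α, by
      rw [← hagree j, mul_inv_cancel_left₀ (hq' j), hf]⟩)
  refine ⟨β, hβ, ?_⟩
  have e1 : q j0 * β = D s j0 α := by
    apply hinj
    rw [map_mul, ← hβ, mul_inv_cancel_left₀ (hq' j0), hf]
  have e2 : q j0 * (E β + β) = D s j0 (E α) := by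
    have h1 := hD2 s j0 α
    rw [← e1, Derivation.leibniz, hE, smul_eq_mul, smul_eq_mul, mul_smul_comm,
      mul_comm β (q j0)] at h1
    have h2 : q j0 * (E β + β) = D s j0 (E α) + N • (q j0 * β) - N • (q j0 * β) := by
      rw [← h1]
      ring
    rw [h2, add_sub_cancel_right]
  have e3 := congrArg (algebraMap S K) e2
  rw [map_mul, map_add] at e3
  rw [hf, ← e3, inv_mul_cancel_left₀ (hq' j0)]

/-- PIECE [CAG].  The partial derivatives with respect to the coefficients.

Proof.  For `j : T` let `D_(s,j)` be the extension to `FF` (`exists_frac`) of the derivation of `exists_lift`; `Δ_(s,j) = (Qd j)⁻¹ • D_(s,j)` has the values `1` at `tS s` and `0` at `tS s'`.  Fix one `j` (`T` is not empty) and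
put `Δ s = Δ_(s,j)`.  If `α` is algebraic over `KC` then all `Δ_(s,j') α` agree (`derivation_eq_of_isAlgebraic`), call it `β`; `Qd j' * β = D_(s,j') α` is in `SS`; so `β` is in `SS` by `mem_of_mul_mem`.
Last claim: multiply by `q = Qd j`, `N = card (R2 k)`: `q β = D α` (`D = D_(s,j)`), `EU (q β) = N q β + q EU β` (`EU_Qd`), and `EU (D α) = D (EU α) + N D α - D α`; so `q (EU β + β) = D (EU α) = q Δ (EU α)`. -/
theorem exists_partial (hT : Fintype.card T = Fintype.card (R2 k) + 1) :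
    ∃ Δ : Sym (Fin k ⊕ T) 3 → Derivation ℚ (FF k T) (FF k T),
      (∀ s s', Δ s (algebraMap _ _ (tS k T s')) = if s' = s then 1 else 0) ∧
      ∀ α : SS k T, IsAlgebraic (KC k T) (algebraMap (SS k T) (FF k T) α) → ∀ s, ∃ β : SS k T,
        Δ s (algebraMap _ _ α) = algebraMap _ _ β ∧
        algebraMap (SS k T) (FF k T) (EU k T β) + algebraMap _ _ β = Δ s (algebraMap _ _ (EU k T α)) := by
  choose D hD1 hD2 using fun (s : Sym (Fin k ⊕ T) 3) (j : T) => exists_lift hT j s
  choose f hf hfL using fun (s : Sym (Fin k ⊕ T) 3) (j : T) => CAlgA_frac (D s j)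
  have hne : Nonempty T := by
    rw [← Fintype.card_pos_iff, hT]
    omega
  obtain ⟨j0⟩ := hne
  have h := CAlgA_abs (K := FF k T) (IsFractionRing.injective (SS k T) (FF k T)) (tS k T)
    (Qd hT) (Qd_ne_zero hT) j0 D (fun s j s' => hD1 s j s') (Fintype.card (R2 k) : ℚ) (EU k T)
    (EU_Qd hT) (fun s j α => hD2 s j α) f hf hfL (mem_of_mul_mem hT)
  choose g hg1 hg2 using fun (s : Sym (Fin k ⊕ T) 3) =>
    CAlgA_mul (algebraMap (SS k T) (FF k T) (Qd hT j0))⁻¹ (f s j0) (hfL s j0)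
  have hex : ∀ s : Sym (Fin k ⊕ T) 3, ∃ Δ : Derivation ℚ (FF k T) (FF k T),
      ∀ x, Δ x = g s x := fun s => CAlgA_der (K := FF k T) _ (g s) (hg2 s)
  choose Δ hΔ using hex
  refine ⟨Δ, fun s s' => ?_, fun α hα s => ?_⟩
  · rw [hΔ, hg1]
    exact h.1 s s'
  · obtain ⟨β, h1, h2⟩ := h.2 α hα s
    refine ⟨β, ?_, ?_⟩
    · rw [hΔ, hg1]
      exact h1
    · rw [hΔ, hg1]
      exact h2

/-- PIECE [CAG].  `algebraicIndependent_of_derivations`. -/
theorem algebraicIndependent_tS (hT : Fintype.card T = Fintype.card (R2 k) + 1) :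
    AlgebraicIndependent ℚ (fun s => algebraMap (SS k T) (FF k T) (tS k T s)) := by
  obtain ⟨Δ, h1, _⟩ := exists_partial hT
  choose g hg1 hg2 using fun (s : Sym (Fin k ⊕ T) 3) => CAlgA_add (K := FF k T) _ (Δ s)
  choose Δ' hΔ' using fun (s : Sym (Fin k ⊕ T) 3) => CAlgA_der' (K := FF k T) (g s) (hg2 s)
  refine algebraicIndependent_of_derivations _ Δ' fun s s' => ?_
  rw [hΔ', hg1]
  exact h1 s s'

end Pool.Agent.MP_1209e6_fr
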