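import Pool.Agent.Lib_MP_1209e6_fr.CEul

/-!
PIECE [CAG] (MP_1209e6_ag).  The field of the coefficients is algebraically closed in the function field of the incidence variety.
-/

open MvPolynomial

namespace Pool.Agent.MP_1209e6_fr

variable {k : ℕ} {T : Type} [Fintype T] [DecidableEq T]

/-- PIECE [CAG].  Elements of `SS` algebraic over `ℚ` are constants (`MvPolynomial` over a field: total degree of the powers, or `MvPolynomial.algebraMap_injective` and integrally closed..). -/
theorem mem_range_of_isAlgebraic {α : SS k T} (h : IsAlgebraic ℚ α) : ∃ a : ℚ, α = C a := by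
  by_cases h0 : α = 0
  · exact ⟨0, by rw [h0, map_zero]⟩
  · have hu : IsUnit α := (h.isIntegral).isUnit h0
    rw [MvPolynomial.isUnit_iff_eq_C_of_isReduced] at hu
    obtain ⟨a, _, ha⟩ := hu
    exact ⟨a, ha⟩

private theorem CAlgB_mono {x : SS k T} (hx : x ∈ Submonoid.closure (Set.range (tS k T))) :
    ∃ n : ℕ, EU k T x = (n : ℚ) • x := by
  induction hx using Submonoid.closure_induction with
  | mem x hx =>
    obtain ⟨s, rfl⟩ := hx
    exact ⟨1, by rw [EU_tS, Nat.cast_one, one_smul]⟩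
  | one => exact ⟨0, by rw [Nat.cast_zero, zero_smul, Derivation.map_one_eq_zero]⟩
  | mul x y _ _ hx hy =>
    obtain ⟨n, hn⟩ := hx
    obtain ⟨m, hm⟩ := hy
    refine ⟨n + m, ?_⟩
    rw [Derivation.leibniz, hn, hm, smul_eq_mul, smul_eq_mul, mul_smul_comm, mul_smul_comm,
      mul_comm y x, ← add_smul, Nat.cast_add, add_comm]

private theorem CAlgB_int (s : Sym (Fin k ⊕ T) 3) {x : SS k T}
    (hx : x ∈ Submodule.span ℚ (Submonoid.closure (Set.range (tS k T)) : Set (SS k T))) :
    ∃ γ ∈ Algebra.adjoin ℚ (Set.range (tS k T)), EU k T γ = tS k T s * x := by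
  induction hx using Submodule.span_induction with
  | mem x hx =>
    obtain ⟨n, hn⟩ := CAlgB_mono hx
    have hs : tS k T s ∈ Algebra.adjoin ℚ (Set.range (tS k T)) :=
      Algebra.subset_adjoin ⟨s, rfl⟩
    have hx2 : x ∈ Algebra.adjoin ℚ (Set.range (tS k T)) := by
      have h1 : Submonoid.closure (Set.range (tS k T)) ≤
          (Algebra.adjoin ℚ (Set.range (tS k T))).toSubmonoid :=
        Submonoid.closure_le.2 Algebra.subset_adjoin
      exact h1 hx
    refine ⟨((n : ℚ) + 1)⁻¹ • (tS k T s * x), Subalgebra.smul_mem _ (Subalgebra.mul_mem _ hs hx2) _, ?_⟩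
    have h2 : ((n : ℚ) + 1) ≠ 0 := by positivity
    rw [Derivation.map_smul, Derivation.leibniz, EU_tS, hn, smul_eq_mul, smul_eq_mul, mul_smul_comm,
      mul_comm x (tS k T s)]
    nth_rewrite 2 [← one_smul ℚ (tS k T s * x)]
    rw [← add_smul, smul_smul, inv_mul_cancel₀ h2, one_smul]
  | zero => exact ⟨0, Subalgebra.zero_mem _, by rw [map_zero, mul_zero]⟩
  | add x y _ _ hx hy =>
    obtain ⟨γ, h1, h2⟩ := hx
    obtain ⟨γ', h1', h2'⟩ := hy
    exact ⟨γ + γ', Subalgebra.add_mem _ h1 h1', by rw [map_add, h2, h2', mul_add]⟩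
  | smul a x _ hx =>
    obtain ⟨γ, h1, h2⟩ := hx
    exact ⟨a • γ, Subalgebra.smul_mem _ h1 a, by rw [Derivation.map_smul, h2, mul_smul_comm]⟩

/-- PIECE [CAG].  Integration: every polynomial expression without constant term in the `tS s` is `EU` of a polynomial expression in the `tS s`
(`EU` multiplies a monomial of degree `n` in the `tS s` by `n`, by `EU_tS`). -/
theorem exists_EU_eq {α : SS k T} (β : Sym (Fin k ⊕ T) 3 → SS k T) (hβ : ∀ s, β s ∈ Algebra.adjoin ℚ (Set.range (tS k T)))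
    (hα : α = ∑ s, tS k T s * β s) : ∃ γ ∈ Algebra.adjoin ℚ (Set.range (tS k T)), EU k T γ = α := by
  have h1 : ∀ s, ∃ γ ∈ Algebra.adjoin ℚ (Set.range (tS k T)), EU k T γ = tS k T s * β s := by
    intro s
    refine CAlgB_int s ?_
    rw [← Algebra.adjoin_eq_span]
    exact hβ s
  choose γ hγ hγ2 using h1
  refine ⟨∑ s, γ s, Subalgebra.sum_mem _ fun s _ => hγ s, ?_⟩
  rw [map_sum, hα]
  exact Finset.sum_congr rfl fun s _ => hγ2 s

end Pool.Agent.MP_1209e6_fr
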