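import Pool.Agent.Lib_MP_1209e6_fr.CAlgA
import Pool.Agent.Lib_MP_1209e6_fr.CAlgB

/-!
PIECE [CAG] (MP_1209e6_ag).  The field of the coefficients is algebraically closed in the function field of the incidence variety.
-/

open MvPolynomial

namespace Pool.Agent.MP_1209e6_fr

variable {k : ℕ} {T : Type} [Fintype T] [DecidableEq T]

/-- PIECE [CAG].  Proof.  Let `Δ` be as in `exists_partial` and `𝓐` the set of the `α` in `SS` algebraic over `KC` (a `ℚ`-subspace, stable under `EU` by `isAlgebraic_derivation` for the extension of `EU` to `FF`, since `EU (tS s) = tS s`).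
For `α` in `𝓐` let `∂_s α = β` as in `exists_partial` (linear in `α`), again in `𝓐` (`isAlgebraic_derivation`), `EU (∂_s α) + ∂_s α = ∂_s (EU α)`; and `EU α = ∑ s, tS s * ∂_s α` (both sides are derivations
`EU`, `∑ s, tS s • Δ s` of `FF` which agree on the `tS s`; `derivation_eq_of_isAlgebraic`).
Claim by induction on `m`: `α ∈ 𝓐`, `Pm (m+1) α = 0` imply `α ∈ ℚ[tS]`.
`m = 0`: `EU α = 0`, so `EU (∂_s α) = - ∂_s α`, `∂_s α = 0` for all `s` (`eq_zero_of_EU`), so `α` is algebraic over `ℚ` (`isAlgebraic_of_constant` with `algebraicIndependent_tS`), so it is a constant.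
Step: `Pm (m+1) (∂_s α) = 0` by `Pm_lower`, so `∂_s α ∈ ℚ[tS]` by induction, so `EU α = EU γ` with `γ ∈ ℚ[tS]` (`exists_EU_eq`); `α - γ` is in `𝓐` and killed by `EU = Pm 1`, so it is in `ℚ[tS]`.
Every `α` is killed by some `Pm m` (`exists_Pm`; and `Pm m α = 0` implies `Pm (m+1) α = 0`). -/
theorem mem_adjoin_tS (hT : Fintype.card T = Fintype.card (R2 k) + 1) {α : SS k T}
    (h : IsAlgebraic (KC k T) (algebraMap (SS k T) (FF k T) α)) : α ∈ Algebra.adjoin ℚ (Set.range (tS k T)) := by
  classical
  obtain ⟨Δ, hΔ, hpart⟩ := exists_partial hT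
  obtain ⟨EF, hEF⟩ := exists_frac' (K := FF k T) (EU k T)
  have hinj : Function.Injective (algebraMap (SS k T) (FF k T)) := IsFractionRing.injective _ _
  have hq1 : ∀ q : ℚ, algebraMap (SS k T) (FF k T) (algebraMap ℚ (SS k T) q) = algebraMap ℚ (FF k T) q := fun q =>
    (IsScalarTower.algebraMap_apply ℚ (SS k T) (FF k T) q).symm
  have hq2 : ∀ q : ℚ, algebraMap (KC k T) (FF k T) (algebraMap ℚ (KC k T) q) = algebraMap ℚ (FF k T) q := fun q =>
    (IsScalarTower.algebraMap_apply ℚ (KC k T) (FF k T) q).symm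
  have hsum : ∀ (g : Sym (Fin k ⊕ T) 3 → Derivation ℚ (FF k T) (FF k T)) (x : FF k T), (∑ s, g s) x = ∑ s, g s x := by
    intro g x
    have h1 := map_sum (Derivation.coeFnAddMonoidHom : Derivation ℚ (FF k T) (FF k T) →+ (FF k T → FF k T)) g Finset.univ
    have h2 := congrFun h1 x
    rw [Finset.sum_apply] at h2
    exact h2
  have hΔK : ∀ s, ∀ x ∈ KC k T, Δ s x ∈ KC k T := by
    intro s
    refine derivation_mem_adjoin (Δ s) _ _ rfl ?_
    rintro _ ⟨s', rfl⟩
    simp only []
    rw [hΔ]
    split_ifs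
    · exact one_mem _
    · exact zero_mem _
  have hEK : ∀ x ∈ KC k T, EF x ∈ KC k T := by
    refine derivation_mem_adjoin EF _ _ rfl ?_
    rintro _ ⟨s', rfl⟩
    simp only []
    rw [hEF, EU_tS]
    exact IntermediateField.subset_adjoin _ _ ⟨s', rfl⟩
  choose! β hβ1 hβ2 using hpart
  -- the space of algebraic elements
  let M : Submodule ℚ (SS k T) :=
    { carrier := {α | IsAlgebraic (KC k T) (algebraMap (SS k T) (FF k T) α)}
      add_mem' := by
        intro a b ha hb
        simp only [Set.mem_ofPred_eq, map_add] at *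
        exact ha.add hb
      zero_mem' := by
        simp only [Set.mem_ofPred_eq, map_zero]
        exact isAlgebraic_zero
      smul_mem' := by
        intro q a ha
        simp only [Set.mem_ofPred_eq] at *
        have h1 : algebraMap (SS k T) (FF k T) (q • a) =
            algebraMap (KC k T) (FF k T) (algebraMap ℚ (KC k T) q) * algebraMap (SS k T) (FF k T) a := by
          rw [Algebra.smul_def, map_mul, hq1, hq2]
        rw [h1]
        exact (isAlgebraic_algebraMap _).mul ha }
  have hM : ∀ x : SS k T, x ∈ M ↔ IsAlgebraic (KC k T) (algebraMap (SS k T) (FF k T) x) := fun x => Iff.rfl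
  have hME : ∀ x ∈ M, EU k T x ∈ M := by
    intro x hx
    rw [hM, ← hEF]
    exact isAlgebraic_derivation EF _ hEK ((hM x).1 hx)
  have hMβ : ∀ x ∈ M, ∀ s, β x s ∈ M := by
    intro x hx s
    rw [hM, ← hβ1 x hx s]
    exact isAlgebraic_derivation (Δ s) _ (hΔK s) ((hM x).1 hx)
  let δ : Sym (Fin k ⊕ T) 3 → M →ₗ[ℚ] SS k T := fun s =>
    { toFun := fun x => β x s
      map_add' := by
        intro x y
        apply hinj
        rw [map_add, ← hβ1 _ x.2 s, ← hβ1 _ y.2 s, ← hβ1 _ (x + y).2 s, ← map_add, ← map_add]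
        rfl
      map_smul' := by
        intro q x
        apply hinj
        rw [← hβ1 _ (q • x).2 s]
        have h1 : algebraMap (SS k T) (FF k T) ((q • x : M) : SS k T) = q • algebraMap (SS k T) (FF k T) x := by
          rw [Submodule.coe_smul, Algebra.smul_def, map_mul, Algebra.smul_def, hq1]
        rw [h1, Derivation.map_smul, hβ1 _ x.2 s, RingHom.id_apply, Algebra.smul_def, Algebra.smul_def, map_mul, hq1] }
  have hδ : ∀ s (x : M), δ s x = β x s := fun s x => rfl
  have hδE : ∀ s (x : M), EU k T (δ s x) + δ s x = δ s ⟨EU k T x, hME x x.2⟩ := by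
    intro s x
    apply hinj
    rw [map_add, hδ, hδ, hβ2 _ x.2 s, ← hβ1 _ (hME x x.2) s]
  -- Euler formula
  have hEuler : ∀ x ∈ M, EU k T x = ∑ s, tS k T s * β x s := by
    intro x hx
    apply hinj
    have h1 : EF (algebraMap (SS k T) (FF k T) x) =
        (∑ s, (algebraMap (SS k T) (FF k T) (tS k T s)) • Δ s : Derivation ℚ (FF k T) (FF k T))
          (algebraMap (SS k T) (FF k T) x) := by
      refine derivation_eq_of_isAlgebraic EF _
        (Set.range fun s => algebraMap (SS k T) (FF k T) (tS k T s)) ?_ ((hM x).1 hx)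
      rintro _ ⟨s', rfl⟩
      simp only []
      rw [hEF, EU_tS, hsum]
      simp only [Derivation.smul_apply, hΔ, smul_eq_mul]
      simp
    rw [← hEF, h1, map_sum, hsum]
    refine Finset.sum_congr rfl fun s _ => ?_
    rw [Derivation.smul_apply, hβ1 x hx s, map_mul, smul_eq_mul]
  -- elements killed by the Euler derivation
  have hzero : ∀ x ∈ M, EU k T x = 0 → x ∈ Algebra.adjoin ℚ (Set.range (tS k T)) := by
    intro x hx h0
    have h1 : ∀ s, β x s = 0 := by
      intro s
      apply eq_zero_of_EU (n := 0)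
      have h2 := hδE s ⟨x, hx⟩
      have h3 : (⟨EU k T x, hME x hx⟩ : M) = 0 := Subtype.ext h0
      have h4 : EU k T (β x s) + β x s = 0 := by
        have h5 : EU k T (δ s ⟨x, hx⟩) + δ s ⟨x, hx⟩ = 0 := by
          rw [h2]
          have h6 : (⟨EU k T ((⟨x, hx⟩ : M) : SS k T), hME ((⟨x, hx⟩ : M) : SS k T) hx⟩ : M) = 0 := h3
          rw [h6, map_zero]
        exact h5
      rw [Nat.cast_zero, zero_add, one_smul]
      exact eq_neg_of_add_eq_zero_left h4
    have h2 : IsAlgebraic ℚ (algebraMap (SS k T) (FF k T) x) := by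
      refine isAlgebraic_of_constant _ (algebraicIndependent_tS hT) Δ hΔ ((hM x).1 hx) ?_
      intro s
      rw [hβ1 x hx s, h1 s, map_zero]
    have h3 : IsAlgebraic ℚ x := (isAlgebraic_algebraMap_iff hinj).1 h2
    obtain ⟨a, rfl⟩ := mem_range_of_isAlgebraic h3
    exact (Algebra.adjoin ℚ (Set.range (tS k T))).algebraMap_mem a
  have hP1 : ∀ x : SS k T, Pm k T 1 x = EU k T x := by
    intro x
    simp [Pm]
  -- induction
  have key : ∀ m, ∀ x ∈ M, Pm k T (m + 1) x = 0 → x ∈ Algebra.adjoin ℚ (Set.range (tS k T)) := by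
    intro m
    induction m with
    | zero =>
      intro x hx h0
      exact hzero x hx (by rw [← hP1]; exact h0)
    | succ m ih =>
      intro x hx h0
      have h1 : ∀ s, β x s ∈ Algebra.adjoin ℚ (Set.range (tS k T)) := by
        intro s
        exact ih _ (hMβ x hx s) (Pm_lower M hME (δ s) (hδE s) ⟨x, hx⟩ h0)
      obtain ⟨γ, hγ, hγ2⟩ := exists_EU_eq (β x) h1 (hEuler x hx)
      have hγM : γ ∈ M := by
        rw [hM]
        have h2 : ∀ y ∈ Algebra.adjoin ℚ (Set.range (tS k T)),
            ∃ z : KC k T, algebraMap (KC k T) (FF k T) z = algebraMap (SS k T) (FF k T) y := by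
          intro y hy
          induction hy using Algebra.adjoin_induction with
          | mem y hy =>
            obtain ⟨s, rfl⟩ := hy
            exact ⟨⟨_, IntermediateField.subset_adjoin _ _ ⟨s, rfl⟩⟩, rfl⟩
          | algebraMap q => exact ⟨algebraMap ℚ (KC k T) q, by rw [hq1, hq2]⟩
          | add a b _ _ iha ihb =>
            obtain ⟨za, hza⟩ := iha
            obtain ⟨zb, hzb⟩ := ihb
            exact ⟨za + zb, by rw [map_add, map_add, hza, hzb]⟩
          | mul a b _ _ iha ihb =>
            obtain ⟨za, hza⟩ := iha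
            obtain ⟨zb, hzb⟩ := ihb
            exact ⟨za * zb, by rw [map_mul, map_mul, hza, hzb]⟩
        obtain ⟨z, hz⟩ := h2 γ hγ
        rw [← hz]
        exact isAlgebraic_algebraMap z
      have h3 : x - γ ∈ Algebra.adjoin ℚ (Set.range (tS k T)) := by
        apply hzero _ (M.sub_mem hx hγM)
        rw [map_sub, hγ2, sub_self]
      have h4 : x = (x - γ) + γ := by ring
      rw [h4]
      exact add_mem h3 hγ
  obtain ⟨m, hm⟩ := exists_Pm α
  have hm1 : Pm k T (m + 1) α = 0 := by
    have h1 : ∀ n, Pm k T (n + 1) = Pm k T n * ((EU k T : Derivation ℚ (SS k T) (SS k T)).toLinearMap - (n : ℚ) • (1 : Module.End ℚ (SS k T))) := by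
      intro n
      unfold Pm
      rw [List.range_succ]
      simp
    have hcomm : ∀ n (L : Module.End ℚ (SS k T)), Commute L (EU k T : Derivation ℚ (SS k T) (SS k T)).toLinearMap →
        Commute L (Pm k T n) := by
      intro n L hL
      induction n with
      | zero => unfold Pm; simp
      | succ n ih =>
        rw [h1]
        refine ih.mul_right (hL.sub_right ?_)
        exact (Commute.one_right L).smul_right _
    have h2 : Commute ((EU k T : Derivation ℚ (SS k T) (SS k T)).toLinearMap - (m : ℚ) • (1 : Module.End ℚ (SS k T)))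
        (Pm k T m) := by
      apply hcomm
      exact (Commute.refl _).sub_left ((Commute.one_left _).smul_left _)
    rw [h1, ← h2.eq, Module.End.mul_apply, hm, map_zero]
  exact key m α ((hM α).2 h) hm1

end Pool.Agent.MP_1209e6_fr
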