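import Pool.Agent.Lib_MP_1209e6_fr.CDef

/-!
PIECE [CCP] (MP_1209e6_ag).  The minors `Qd j` have no common factor.
-/

open MvPolynomial

namespace Pool.Agent.MP_1209e6_fr

variable {k : ℕ} {T : Type} [Fintype T] [DecidableEq T]

omit [Fintype T] [DecidableEq T] in
private theorem cca_inj {b d b' d' : Fin k} {p p' : T}
    (h : sy (Sum.inl b) (Sum.inl d) (Sum.inr p) = sy (Sum.inl b') (Sum.inl d') (Sum.inr p')) :
    p = p' ∧ ((b = b' ∧ d = d') ∨ (b = d' ∧ d = b')) := by
  have h1 : (Sum.inr p : Fin k ⊕ T) ∈ ({Sum.inl b', Sum.inl d', Sum.inr p'} : Multiset (Fin k ⊕ T)) := by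
    have h2 := congrArg Subtype.val h
    simp only [sy] at h2
    rw [← h2]
    simp
  have hp : p = p' := by simpa using h1
  subst hp
  refine ⟨rfl, ?_⟩
  rw [sy_swap23, sy_swap12, sy_swap23 (Sum.inl b'), sy_swap12 (Sum.inl b')] at h
  have h3 := congrArg Subtype.val h
  simp only [sy] at h3
  have h4 : ({Sum.inl b, Sum.inl d} : Multiset (Fin k ⊕ T)) = {Sum.inl b', Sum.inl d'} :=
    (Multiset.cons_inj_right _).1 h3
  rcases Multiset.cons_eq_cons.1 h4 with ⟨h5, h6⟩ | ⟨_, cs, h5, h6⟩
  · left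
    exact ⟨Sum.inl.inj h5, Sum.inl.inj (Multiset.singleton_inj.1 h6)⟩
  · right
    rw [Multiset.singleton_eq_cons_iff] at h5 h6
    exact ⟨(Sum.inl.inj h6.1).symm, Sum.inl.inj h5.1⟩

omit [Fintype T] [DecidableEq T] in
private theorem cca_inj' {q q' : R2 k} {p p' : T}
    (h : sy (Sum.inl q.1.1) (Sum.inl q.1.2) (Sum.inr p) =
      sy (Sum.inl q'.1.1) (Sum.inl q'.1.2) (Sum.inr p')) : p = p' ∧ q = q' := by
  obtain ⟨h1, h2⟩ := cca_inj h
  refine ⟨h1, Subtype.ext ?_⟩
  rcases h2 with ⟨h3, h4⟩ | ⟨h3, h4⟩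
  · exact Prod.ext h3 h4
  · have h5 := q.2
    have h6 := q'.2
    rw [h3, h4] at h5
    have h7 := le_antisymm h6 h5
    exact Prod.ext (h3.trans h7.symm) (h4.trans h7)

omit [Fintype T] [DecidableEq T] in
private theorem cca_mem (b d : Fin k) (p : T) :
    ∃ p' : T, (Sum.inr p' : Fin k ⊕ T) ∈ sy (Sum.inl b) (Sum.inl d) (Sum.inr p) := by
  refine ⟨p, ?_⟩
  show (Sum.inr p : Fin k ⊕ T) ∈ ({Sum.inl b, Sum.inl d, Sum.inr p} : Multiset (Fin k ⊕ T))
  simp

omit [Fintype T] [DecidableEq T] in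
private theorem cca_cS (b d : Fin k) (p : T) :
    cS k T (sy (Sum.inl b) (Sum.inl d) (Sum.inr p)) =
      X (Sum.inr ⟨sy (Sum.inl b) (Sum.inl d) (Sum.inr p), cca_mem b d p⟩) := by
  unfold cS
  rw [dif_pos (cca_mem b d p)]

open Classical in
/-- the substitution -/
private noncomputable def cth (hT : Fintype.card T = Fintype.card (R2 k) + 1) (j : T) :
    SS k T →ₐ[ℚ] SS k T :=
  aeval (Sum.elim (fun v => X (Sum.inl v)) (fun s =>
    if ∃ q : R2 k, s.1 = sy (Sum.inl q.1.1) (Sum.inl q.1.2) (Sum.inr (eqv hT j q).1) then 1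
    else if ∃ (b d : Fin k) (p : T), s.1 = sy (Sum.inl b) (Sum.inl d) (Sum.inr p) then 0
    else X (Sum.inr s)))

private theorem cca_det (hT : Fintype.card T = Fintype.card (R2 k) + 1) (j : T) :
    cth hT j (Qd hT j) = 1 := by
  classical
  unfold Qd
  rw [AlgHom.map_det]
  have h : (cth hT j).mapMatrix (Qj hT j) = 1 := by
    ext1 q q'
    rw [AlgHom.mapMatrix_apply, Matrix.map_apply, Qj, Matrix.of_apply, cca_cS, cth, aeval_X,
      Sum.elim_inr]
    by_cases hq : q = q'
    · subst hq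
      rw [if_pos ⟨q, rfl⟩, Matrix.one_apply_eq]
    · rw [if_neg, if_pos ⟨_, _, _, rfl⟩, Matrix.one_apply_ne hq]
      rintro ⟨q'', h1⟩
      obtain ⟨h2, h3⟩ := cca_inj' h1
      have h4 := (eqv hT j).injective (Subtype.ext h2)
      exact hq (h3.trans h4.symm)
  rw [h, Matrix.det_one]

/-- PIECE [CCP].  (The entries of `Qj` are distinct variables: substitute the identity matrix.) -/
theorem Qd_ne_zero (hT : Fintype.card T = Fintype.card (R2 k) + 1) (j : T) : Qd hT j ≠ 0 := by
  intro h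
  have h1 := cca_det hT j
  rw [h, map_zero] at h1
  exact zero_ne_one h1

private theorem cca_vars (hT : Fintype.card T = Fintype.card (R2 k) + 1) (s : Mix k T) (b d : Fin k) (p : T)
    (hs : s.1 = sy (Sum.inl b) (Sum.inl d) (Sum.inr p)) :
    (Sum.inr s : Var k T) ∉ (Qd hT p).vars := by
  classical
  have h : Qd hT p ∈ supported ℚ {v : Var k T | v ≠ Sum.inr s} := by
    unfold Qd
    rw [Matrix.det_apply]
    refine Subalgebra.sum_mem _ fun σ _ => ?_
    rw [Units.smul_def]
    refine Subalgebra.zsmul_mem _ (Subalgebra.prod_mem _ fun q _ => ?_) _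
    rw [Qj, Matrix.of_apply, cca_cS, X_mem_supported]
    intro h1
    have h2 := congrArg Subtype.val (Sum.inr.inj h1)
    simp only [] at h2
    rw [hs] at h2
    exact (eqv hT p q).2 (cca_inj h2).1
  rw [mem_supported] at h
  intro h1
  exact h h1 rfl

/-- PIECE [CCP].  Proof.  Let `π` divide all `Qd j`.  The determinant `Qd j` does not contain the variables `c_s`, `s = sy (inl b) (inl d) (inr j)` (column `j`), so (degrees in one variable are additive, `Qd j ≠ 0`) `π` does not
contain these variables either; this holds for all `j`, so `π` contains no variable `c_(b,d,p)` at all.  Fix `j` (`T` is not empty) and let `θ` be the endomorphism of the ring which substitutes for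
`c_(b,d,p)` the value `1` if `p = eqv j q'` with `q' = (b, d)` (or `(d, b)`) and `0` otherwise, and fixes all other variables.  `θ π = π` and `θ (Qd j) = det 1 = 1`.  So `π ∣ 1`. -/
theorem isUnit_of_dvd_Qd (hT : Fintype.card T = Fintype.card (R2 k) + 1) {π : SS k T} (h : ∀ j, π ∣ Qd hT j) : IsUnit π := by
  classical
  have hvars : ∀ (s : Mix k T) (b d : Fin k) (p : T), s.1 = sy (Sum.inl b) (Sum.inl d) (Sum.inr p) →
      (Sum.inr s : Var k T) ∉ π.vars := by
    intro s b d p hs
    obtain ⟨r, hr⟩ := h p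
    have h0 := Qd_ne_zero hT p
    have hπ : π ≠ 0 := by
      rintro rfl
      rw [zero_mul] at hr
      exact h0 hr
    have hr0 : r ≠ 0 := by
      rintro rfl
      rw [mul_zero] at hr
      exact h0 hr
    have h1 := cca_vars hT s b d p hs
    rw [mem_vars_iff_degreeOf_ne_zero, not_not, hr, degreeOf_mul_eq hπ hr0] at h1
    rw [mem_vars_iff_degreeOf_ne_zero, not_not]
    omega
  have hne : Nonempty T := Fintype.card_pos_iff.1 (by omega)
  obtain ⟨j⟩ := hne
  have hfix : cth hT j π = π := by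
    have h1 : cth hT j π = aeval (X : Var k T → SS k T) π := by
      unfold cth
      rw [aeval_def, aeval_def]
      refine eval₂Hom_congr' rfl (fun i hi _ => ?_) rfl
      rcases i with v | s
      · rfl
      · rw [Sum.elim_inr, if_neg, if_neg]
        · rintro ⟨b, d, p, hs⟩
          exact hvars s b d p hs hi
        · rintro ⟨q, hs⟩
          exact hvars s _ _ _ hs hi
    rw [h1, aeval_X_left_apply]
  obtain ⟨r, hr⟩ := h j
  have h2 := cca_det hT j
  rw [hr, map_mul, hfix] at h2
  exact IsUnit.of_mul_eq_one _ h2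

end Pool.Agent.MP_1209e6_fr
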