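import Pool.Agent.Lib_MP_1209e6_fr.Tri

/-!
# The incidence variety in a chart (MP_1209e6_ag): definitions

Indices `Fin k ⊕ T`.  `SS k T` is the ring of polynomials in the coordinates `X_(a,p)` of the plane (spanned by `e_a + ∑ X_(a,p) e_p`) and in the
coefficients `c_s` (`s` a monomial not entirely in the first `k` variables) of a cubic form in the moving basis `e_a + ∑ X_(a,p) e_p`, `e_p`, which vanishes on the plane.
`tS s` are the coefficients of this cubic form in the fixed basis.
-/

open MvPolynomial

namespace Pool.Agent.MP_1209e6_fr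

/-- The monomials which contain a variable of the second kind. -/
abbrev Mix (k : ℕ) (T : Type) : Type := {s : Sym (Fin k ⊕ T) 3 // ∃ p : T, Sum.inr p ∈ s}

/-- The variables. -/
abbrev Var (k : ℕ) (T : Type) : Type := (Fin k × T) ⊕ Mix k T

/-- The coordinate ring. -/
abbrev SS (k : ℕ) (T : Type) : Type := MvPolynomial (Var k T) ℚ

section

variable {k : ℕ} {T : Type} [Fintype T] [DecidableEq T]

open Classical in
/-- The coefficients in the moving basis. -/
noncomputable def cS (k : ℕ) (T : Type) (s : Sym (Fin k ⊕ T) 3) : SS k T :=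
  if h : ∃ p : T, Sum.inr p ∈ s then X (Sum.inr ⟨s, h⟩) else 0

/-- The moving basis `e_a + ∑ x_(a,p) e_p`, `e_p`. -/
def gx {R : Type*} [CommRing R] (x : Fin k → T → R) : Fin k ⊕ T → Fin k ⊕ T → R :=
  Sum.elim (fun a => Sum.elim (Pi.single a 1) (x a)) (fun p => Pi.single (Sum.inr p) 1)

/-- The generic moving basis. -/
noncomputable def gX (k : ℕ) (T : Type) [Fintype T] [DecidableEq T] : Fin k ⊕ T → Fin k ⊕ T → SS k T :=
  gx fun a p => X (Sum.inl (a, p))

/-- Its inverse. -/
noncomputable def gY (k : ℕ) (T : Type) [Fintype T] [DecidableEq T] : Fin k ⊕ T → Fin k ⊕ T → SS k T :=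
  gx fun a p => -X (Sum.inl (a, p))

/-- Coefficients in the fixed basis, as a function of ordered triples. -/
noncomputable def tauC (k : ℕ) (T : Type) [Fintype T] [DecidableEq T] (i j l : Fin k ⊕ T) : SS k T :=
  tri (fun a b d => cS k T (sy a b d)) (gY k T i) (gY k T j) (gY k T l)

theorem symC_tauC (k : ℕ) (T : Type) [Fintype T] [DecidableEq T] : SymC (tauC k T) :=
  ⟨fun _ _ _ => (symC_sy (cS k T)).swap12 _ _ _, fun _ _ _ => (symC_sy (cS k T)).swap23 _ _ _⟩

/-- Coefficients in the fixed basis. -/
noncomputable def tS (k : ℕ) (T : Type) [Fintype T] [DecidableEq T] : Sym (Fin k ⊕ T) 3 → SS k T :=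
  (symC_tauC k T).exists_fun.choose

theorem tS_sy (i j l : Fin k ⊕ T) : tS k T (sy i j l) = tauC k T i j l :=
  ((symC_tauC k T).exists_fun.choose_spec i j l).symm

/-- The index set of the quadratic monomials in `k` variables. -/
abbrev R2 (k : ℕ) : Type := {q : Fin k × Fin k // q.1 ≤ q.2}

/-- A bijection between the quadratic monomials and the elements of `T` different from `j`. -/
noncomputable def eqv (hT : Fintype.card T = Fintype.card (R2 k) + 1) (j : T) : R2 k ≃ {p : T // p ≠ j} :=
  Fintype.equivOfCardEq (by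
    rw [Fintype.card_subtype_compl, Fintype.card_subtype_eq, hT, Nat.add_sub_cancel])

/-- The matrix of the quadratic forms `c(.., .., p)`, `p ≠ j`, on the plane. -/
noncomputable def Qj (hT : Fintype.card T = Fintype.card (R2 k) + 1) (j : T) : Matrix (R2 k) (R2 k) (SS k T) :=
  Matrix.of fun q q' => cS k T (sy (Sum.inl q.1.1) (Sum.inl q.1.2) (Sum.inr (eqv hT j q').1))

/-- Its determinant. -/
noncomputable def Qd (hT : Fintype.card T = Fintype.card (R2 k) + 1) (j : T) : SS k T := (Qj hT j).det

/-- The Euler derivation in the variables `c_s`. -/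
noncomputable def EU (k : ℕ) (T : Type) : Derivation ℚ (SS k T) (SS k T) :=
  mkDerivation ℚ (Sum.elim (fun _ => 0) (fun s => X (Sum.inr s)))

end

end Pool.Agent.MP_1209e6_fr
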