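import Pool.Agent.Lib_MP_1209e6_fr.CEul

/-!
PIECE [CDE] (MP_1209e6_ag).  Lifting of the coordinate vector fields with the denominators `Qd j`.
-/

open MvPolynomial

namespace Pool.Agent.MP_1209e6_fr

variable {k : ℕ} {T : Type} [Fintype T] [DecidableEq T]

section tools

/-- products of eigenvectors -/
private theorem cd_prod {A : Type*} [CommRing A] [Algebra ℚ A] (D : Derivation ℚ A A) {β : Type*}
    (s : Finset β) (f : β → A) (c : β → ℚ) (h : ∀ i, D (f i) = c i • f i) :
    D (∏ i ∈ s, f i) = (∑ i ∈ s, c i) • ∏ i ∈ s, f i := by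
  classical
  induction s using Finset.induction_on with
  | empty => simp
  | insert a s ha ih =>
    rw [Finset.prod_insert ha, Finset.sum_insert ha, D.leibniz, ih, h a]
    simp only [smul_eq_mul, Algebra.smul_def, map_add]
    ring

/-- the entries of the adjugate of a matrix of eigenvectors with eigenvalue `1` -/
private theorem cd_adj {A : Type*} [CommRing A] [Algebra ℚ A] (D : Derivation ℚ A A) {n : Type*}
    [Fintype n] [DecidableEq n] (M : Matrix n n A) (hM : ∀ i j, D (M i j) = M i j) (i j : n) :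
    D (M.adjugate i j) + M.adjugate i j = (Fintype.card n : ℚ) • M.adjugate i j := by
  rw [Matrix.adjugate_apply, Matrix.det_apply, map_sum, Finset.smul_sum, ← Finset.sum_add_distrib]
  refine Finset.sum_congr rfl fun σ _ => ?_
  have hp := cd_prod D Finset.univ (fun m => M.updateRow j (Pi.single i 1) (σ m) m)
    (fun m => if σ m = j then 0 else 1) (fun m => by
      by_cases hm : σ m = j
      · simp only [hm, if_true, zero_smul, Matrix.updateRow_self, Pi.single_apply]
        split_ifs <;> simp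
      · simp only [hm, if_false, one_smul, Matrix.updateRow_ne hm, hM])
  have hs : (∑ m : n, (if σ m = j then (0 : ℚ) else 1)) = Fintype.card n - 1 := by
    have h1 : ∀ m : n, (if σ m = j then (0 : ℚ) else 1) = 1 - (if m = σ.symm j then 1 else 0) := by
      intro m
      by_cases hm : σ m = j
      · rw [if_pos hm, if_pos (by rw [← hm]; simp)]; ring
      · rw [if_neg hm, if_neg (by rintro rfl; exact hm (by simp))]; ring
    simp only [h1, Finset.sum_sub_distrib, Finset.sum_ite_eq', Finset.mem_univ, if_true]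
    simp
  rw [hs] at hp
  have hσ : D (Equiv.Perm.sign σ • ∏ m, M.updateRow j (Pi.single i 1) (σ m) m)
      = Equiv.Perm.sign σ • D (∏ m, M.updateRow j (Pi.single i 1) (σ m) m) := by
    rcases Int.units_eq_one_or (Equiv.Perm.sign σ) with h | h <;> rw [h] <;> simp
  rw [hσ, hp, smul_comm (Fintype.card n : ℚ), ← smul_add]
  congr 1
  rw [sub_smul, one_smul, sub_add_cancel]

omit [Fintype T] [DecidableEq T] in
private theorem cd_EU_inl (p : Fin k × T) : EU k T (X (Sum.inl p)) = 0 := by
  simp [EU, mkDerivation_X]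

omit [Fintype T] [DecidableEq T] in
private theorem cd_EU_inr (s : Mix k T) : EU k T (X (Sum.inr s)) = X (Sum.inr s) := by
  simp [EU, mkDerivation_X]

private theorem cd_EU_cS (s : Sym (Fin k ⊕ T) 3) : EU k T (cS k T s) = cS k T s := by
  unfold cS
  split_ifs
  · exact cd_EU_inr _
  · simp

private theorem cd_gX_inl (D : Derivation ℚ (SS k T) (SS k T)) (i m : Fin k ⊕ T) :
    D (gX k T i m) = ∑ p, Sum.elim (fun a => fun p => D (X (Sum.inl (a, p)))) (fun _ => fun _ => 0) i p
      * gX k T (Sum.inr p) m := by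
  unfold gX gx
  rcases i with a | p0
  · rcases m with b | p
    · simp only [Sum.elim_inl, Sum.elim_inr, Pi.single_apply]
      rw [Finset.sum_eq_zero]
      · split_ifs <;> simp
      · intro p _; simp
    · simp only [Sum.elim_inl, Sum.elim_inr, Pi.single_apply]
      simp
  · simp only [Sum.elim_inr, Pi.single_apply]
    rw [Finset.sum_eq_zero]
    · split_ifs <;> simp
    · intro p _; simp

private theorem cd_EU_gX (i m : Fin k ⊕ T) : EU k T (gX k T i m) = 0 := by
  rw [cd_gX_inl]
  refine Finset.sum_eq_zero fun p _ => ?_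
  rcases i with a | p0
  · simp [cd_EU_inl]
  · simp

/-- composing with the inverse basis -/
private theorem cd_eq_zero (δ : Fin k ⊕ T → Fin k ⊕ T → Fin k ⊕ T → SS k T)
    (h : ∀ i j l, tri δ (gX k T i) (gX k T j) (gX k T l) = 0) (i j l : Fin k ⊕ T) : δ i j l = 0 := by
  have h1 := tri_comp δ (gX k T) (gY k T i) (gY k T j) (gY k T l)
  have h2 : ∀ i : Fin k ⊕ T, (fun m => ∑ a, gY k T i a * gX k T a m) = Pi.single i 1 := by
    intro i
    funext m
    have := gx_gx_neg (k := k) (T := T) (fun a p => -X (Sum.inl (a, p)) : Fin k → T → SS k T) i m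
    simp only [neg_neg] at this
    exact this
  rw [h2, h2, h2, tri_single] at h1
  rw [← h1]
  simp only [h]
  simp [tri]

end tools

open Classical in
/-- PIECE [CDE].  Proof.  Let `N = card (R2 k)`, `q = Qd hT j`, `h i j l = if sy i j l = s₀ then 1 else 0` (symmetric) and `hX i j l = tri h (gX i) (gX j) (gX l)` (polynomials in the `X_(a,p)`, so `EU hX = 0`).
For `a : Fin k` let `Y_(a, .) : T → SS` be: `Y_(a, j) = 0`, `Y_(a, eqv j q') = - (1/3) ((Qj j).adjugate.mulVec (fun bd => hX (inl a) (inl b) (inl d))) q'`.  Then for all `b ≤ d` (and, by symmetry, for all `b, d`):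
`∑ p, Y_(a,p) cS (sy (inl b) (inl d) (inr p)) = - (1/3) q hX a b d`  (`Matrix.mul_adjugate`).
Put `Y_(i, p) = 0` for `i = inr _` and
`Z i j l = q * hX i j l + ∑ p, (Y_(i,p) * cS (sy (inr p) j l) + Y_(j,p) * cS (sy i (inr p) l) + Y_(l,p) * cS (sy i j (inr p)))`,
a symmetric function which vanishes on `inl, inl, inl` by the previous formula (`hX` symmetric).  Let `D` be the derivation with `D X_(a,p) = Y_(a,p)`, `D c_s = Z s` (`mkDerivation`); so `D (cS (sy i j l)) = Z i j l` for all `i, j, l`.
Claim: `D (tS (sy i j l)) = q h i j l`.  Apply `D` to `cS_eq`: with `θ = D ∘ tS ∘ sy` and `D (gX i) = ∑ p, Y_(i,p) • e_p`, `e_p = gX (inr p)`: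
`Z i j l = tri θ (gX i) (gX j) (gX l) + ∑ p Y_(i,p) cS (sy (inr p) j l) + ...`, so `tri θ (gX i) (gX j) (gX l) = q hX i j l = tri (q h) (gX i) (gX j) (gX l)` for all `i, j, l`, and composing with `gY` (`tri_comp`, `gx_gx_neg`) `θ = q h`.
Degrees: `EU Y_(a,p) + Y_(a,p) = N Y_(a,p)` (entries of the adjugate are `(N-1)`-fold products; if `N = 0` then `k = 0` and there is no `a`), `EU (Z) = N Z` (`EU_Qd`).  The map
`α ↦ EU (D α) + D α - D (EU α) - N D α` is a derivation which vanishes on the variables: on `X_(a,p)`: `EU Y + Y - 0 - N Y = 0`; on `c_s`: `N Z + Z - Z - N Z = 0`. -/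
theorem exists_lift (hT : Fintype.card T = Fintype.card (R2 k) + 1) (j : T) (s₀ : Sym (Fin k ⊕ T) 3) :
    ∃ D : Derivation ℚ (SS k T) (SS k T), (∀ s, D (tS k T s) = if s = s₀ then Qd hT j else 0) ∧
      ∀ α, EU k T (D α) + D α = D (EU k T α) + (Fintype.card (R2 k) : ℚ) • D α := by
  set q := Qd hT j with hq
  let h : Fin k ⊕ T → Fin k ⊕ T → Fin k ⊕ T → SS k T := fun i j l => if sy i j l = s₀ then 1 else 0
  have hsym : SymC h := symC_sy (fun s => if s = s₀ then (1 : SS k T) else 0)
  let hX : Fin k ⊕ T → Fin k ⊕ T → Fin k ⊕ T → SS k T :=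
    fun i j l => tri h (gX k T i) (gX k T j) (gX k T l)
  have hX12 : ∀ a b d, hX a b d = hX b a d := fun a b d => hsym.swap12 _ _ _
  have hX23 : ∀ a b d, hX a b d = hX a d b := fun a b d => hsym.swap23 _ _ _
  have hXE : ∀ a b d, EU k T (hX a b d) = 0 := by
    intro a b d
    show EU k T (tri h (gX k T a) (gX k T b) (gX k T d)) = 0
    rw [derivation_tri]
    have e1 : (fun i j k_1 => EU k T (h i j k_1)) = fun _ _ _ => 0 := by
      funext i j l
      show EU k T (if sy i j l = s₀ then 1 else 0) = 0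
      split_ifs <;> simp
    have e2 : ∀ i, (fun m => EU k T (gX k T i m)) = 0 := fun i => funext fun m => cd_EU_gX i m
    rw [e1, e2, e2, e2]
    simp [tri]
  let v : Fin k → R2 k → SS k T := fun a bd => hX (Sum.inl a) (Sum.inl bd.1.1) (Sum.inl bd.1.2)
  let w : Fin k → R2 k → SS k T := fun a => (Qj hT j).adjugate.mulVec (v a)
  let Y : Fin k ⊕ T → T → SS k T := fun i p => Sum.elim
    (fun a => if hp : p = j then 0 else (-(1 / 3) : ℚ) • w a ((eqv hT j).symm ⟨p, hp⟩)) (fun _ => 0) i
  -- the linear system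
  have hw : ∀ a bd, ∑ q', Qj hT j bd q' * w a q' = q * v a bd := by
    intro a bd
    have : ((Qj hT j) * (Qj hT j).adjugate).mulVec (v a) bd = q * v a bd := by
      rw [Matrix.mul_adjugate, Matrix.smul_mulVec, Matrix.one_mulVec]
      rfl
    rw [← Matrix.mulVec_mulVec] at this
    exact this
  have hsum : ∀ (a : Fin k) (f : T → SS k T), ∑ p, Y (Sum.inl a) p * f p
      = (-(1 / 3) : ℚ) • ∑ q', w a q' * f (eqv hT j q').1 := by
    intro a f
    rw [← Finset.sum_filter_add_sum_filter_not Finset.univ (fun p => p = j)]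
    have e0 : ∑ p ∈ Finset.univ.filter (fun p => p = j), Y (Sum.inl a) p * f p = 0 := by
      refine Finset.sum_eq_zero fun p hp => ?_
      have hp' := (Finset.mem_filter.mp hp).2
      show (if hp : p = j then 0 else _) * f p = 0
      rw [dif_pos hp', zero_mul]
    rw [e0, zero_add, Finset.smul_sum]
    have e1 : ∑ p ∈ Finset.univ.filter (fun p => ¬ p = j), Y (Sum.inl a) p * f p
        = ∑ p : {p : T // p ≠ j}, Y (Sum.inl a) p.1 * f p.1 :=
      Finset.sum_subtype _ (by simp) _
    rw [e1, ← (eqv hT j).sum_comp]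
    refine Finset.sum_congr rfl fun q' _ => ?_
    show (if hp : ((eqv hT j q').1 : T) = j then 0 else
      (-(1 / 3) : ℚ) • w a ((eqv hT j).symm ⟨(eqv hT j q').1, hp⟩)) * f (eqv hT j q').1 = _
    rw [dif_neg (eqv hT j q').2, smul_mul_assoc]
    congr 3
    simp
  have hlin0 : ∀ a b d : Fin k, b ≤ d →
      ∑ p, Y (Sum.inl a) p * cS k T (sy (Sum.inl b) (Sum.inl d) (Sum.inr p))
        = (-(1 / 3) : ℚ) • (q * hX (Sum.inl a) (Sum.inl b) (Sum.inl d)) := by
    intro a b d hbd
    rw [hsum]
    congr 1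
    rw [← hw a ⟨(b, d), hbd⟩]
    refine Finset.sum_congr rfl fun q' _ => ?_
    rw [mul_comm]
    rfl
  have hlin : ∀ a b d : Fin k,
      ∑ p, Y (Sum.inl a) p * cS k T (sy (Sum.inl b) (Sum.inl d) (Sum.inr p))
        = (-(1 / 3) : ℚ) • (q * hX (Sum.inl a) (Sum.inl b) (Sum.inl d)) := by
    intro a b d
    rcases le_total b d with hbd | hbd
    · exact hlin0 a b d hbd
    · rw [hX23, ← hlin0 a d b hbd]
      refine Finset.sum_congr rfl fun p _ => ?_
      rw [sy_swap12]
  let Z : Fin k ⊕ T → Fin k ⊕ T → Fin k ⊕ T → SS k T := fun i j l => q * hX i j l +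
    ∑ p, (Y i p * cS k T (sy (Sum.inr p) j l) + Y j p * cS k T (sy i (Sum.inr p) l)
      + Y l p * cS k T (sy i j (Sum.inr p)))
  have hZ : SymC Z := by
    constructor
    · intro a b d
      show q * hX a b d + _ = q * hX b a d + _
      rw [hX12 a b d]
      congr 1
      refine Finset.sum_congr rfl fun p _ => ?_
      rw [sy_swap12 (Sum.inr p) b d, sy_swap12 a (Sum.inr p) d, sy_swap12 a b (Sum.inr p)]
      ring
    · intro a b d
      show q * hX a b d + _ = q * hX a d b + _
      rw [hX23 a b d]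
      congr 1
      refine Finset.sum_congr rfl fun p _ => ?_
      rw [sy_swap23 (Sum.inr p) b d, sy_swap23 a (Sum.inr p) d, sy_swap23 a b (Sum.inr p)]
      ring
  obtain ⟨Zs, hZs⟩ := hZ.exists_fun
  have hZ0 : ∀ a b d : Fin k, Z (Sum.inl a) (Sum.inl b) (Sum.inl d) = 0 := by
    intro a b d
    show q * hX (Sum.inl a) (Sum.inl b) (Sum.inl d) + _ = 0
    rw [Finset.sum_add_distrib, Finset.sum_add_distrib]
    have e1 : ∑ p, Y (Sum.inl a) p * cS k T (sy (Sum.inr p) (Sum.inl b) (Sum.inl d))
        = (-(1 / 3) : ℚ) • (q * hX (Sum.inl a) (Sum.inl b) (Sum.inl d)) := by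
      rw [← hlin]
      refine Finset.sum_congr rfl fun p _ => ?_
      rw [sy_swap12, sy_swap23]
    have e2 : ∑ p, Y (Sum.inl b) p * cS k T (sy (Sum.inl a) (Sum.inr p) (Sum.inl d))
        = (-(1 / 3) : ℚ) • (q * hX (Sum.inl a) (Sum.inl b) (Sum.inl d)) := by
      rw [hX12, ← hlin]
      refine Finset.sum_congr rfl fun p _ => ?_
      rw [sy_swap23]
    have e3 : ∑ p, Y (Sum.inl d) p * cS k T (sy (Sum.inl a) (Sum.inl b) (Sum.inr p))
        = (-(1 / 3) : ℚ) • (q * hX (Sum.inl a) (Sum.inl b) (Sum.inl d)) := by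
      rw [hX23, hX12, ← hlin]
    rw [e1, e2, e3]
    generalize q * hX (Sum.inl a) (Sum.inl b) (Sum.inl d) = z
    rw [show z + ((-(1 / 3) : ℚ) • z + (-(1 / 3) : ℚ) • z + (-(1 / 3) : ℚ) • z)
      = (1 : ℚ) • z + ((-(1 / 3) : ℚ) • z + (-(1 / 3) : ℚ) • z + (-(1 / 3) : ℚ) • z) by rw [one_smul],
      ← add_smul, ← add_smul, ← add_smul]
    norm_num
  let D : Derivation ℚ (SS k T) (SS k T) :=
    mkDerivation ℚ (Sum.elim (fun ap => Y (Sum.inl ap.1) ap.2) (fun s => Zs s.1))
  have hDX : ∀ a p, D (X (Sum.inl (a, p))) = Y (Sum.inl a) p := by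
    intro a p; simp [D, mkDerivation_X]
  have hDc : ∀ s, D (X (Sum.inr s)) = Zs s.1 := by
    intro s; simp [D, mkDerivation_X]
  have hDcS : ∀ i j l, D (cS k T (sy i j l)) = Z i j l := by
    intro i j l
    rw [hZs]
    unfold cS
    split_ifs with hh
    · exact hDc _
    · rw [map_zero]
      rcases i with a | p
      · rcases j with b | p
        · rcases l with d | p
          · rw [← hZs, hZ0]
          · exact absurd ⟨p, by simp [sy, Sym.mem_mk]⟩ hh
        · exact absurd ⟨p, by simp [sy, Sym.mem_mk]⟩ hh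
      · exact absurd ⟨p, by simp [sy, Sym.mem_mk]⟩ hh
  have hDg : ∀ i, (fun m => D (gX k T i m)) = ∑ p, Y i p • gX k T (Sum.inr p) := by
    intro i
    funext m
    rw [cd_gX_inl, Finset.sum_apply]
    refine Finset.sum_congr rfl fun p _ => ?_
    rcases i with a | p0
    · simp only [Sum.elim_inl, hDX, Pi.smul_apply, smul_eq_mul]
    · simp [Y]
  have main : ∀ i j l, D (tS k T (sy i j l)) - q * h i j l = 0 := by
    refine cd_eq_zero (fun i j l => D (tS k T (sy i j l)) - q * h i j l) ?_
    intro i j l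
    have e1 : tri (fun i j l => D (tS k T (sy i j l)) - q * h i j l) (gX k T i) (gX k T j) (gX k T l)
        = tri (fun i j l => D (tS k T (sy i j l))) (gX k T i) (gX k T j) (gX k T l)
          - q * hX i j l := by
      have := tri_add_coef (fun i j l => D (tS k T (sy i j l))) (fun i j l => (-q) * h i j l)
        (gX k T i) (gX k T j) (gX k T l)
      rw [tri_smul_coef] at this
      simp only [neg_mul, ← sub_eq_add_neg] at this
      exact this
    have e2 := congrArg D (cS_eq (k := k) (T := T) i j l)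
    rw [hDcS, derivation_tri, hDg, hDg, hDg, tri_sum_left, tri_sum_mid, tri_sum_right] at e2
    simp only [tri_smul_left, tri_smul_mid, tri_smul_right, ← cS_eq] at e2
    rw [e1]
    have e3 : Z i j l = q * hX i j l + ∑ p, (Y i p * cS k T (sy (Sum.inr p) j l)
      + Y j p * cS k T (sy i (Sum.inr p) l) + Y l p * cS k T (sy i j (Sum.inr p))) := rfl
    rw [e3, Finset.sum_add_distrib, Finset.sum_add_distrib] at e2
    linear_combination -e2
  -- degrees
  have hQE : ∀ a b, EU k T (Qj hT j a b) = Qj hT j a b := fun a b => cd_EU_cS _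
  have hwE : ∀ a q', EU k T (w a q') + w a q' = (Fintype.card (R2 k) : ℚ) • w a q' := by
    intro a q'
    show EU k T (∑ bd, (Qj hT j).adjugate q' bd * v a bd) + ∑ bd, (Qj hT j).adjugate q' bd * v a bd
      = (Fintype.card (R2 k) : ℚ) • ∑ bd, (Qj hT j).adjugate q' bd * v a bd
    rw [map_sum, Finset.smul_sum, ← Finset.sum_add_distrib]
    refine Finset.sum_congr rfl fun bd _ => ?_
    have h1 := cd_adj (EU k T) (Qj hT j) hQE q' bd
    rw [Derivation.leibniz, show EU k T (v a bd) = 0 from hXE _ _ _, smul_zero, zero_add,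
      smul_eq_mul, ← smul_mul_assoc, ← h1]
    ring
  have hYE : ∀ i p, EU k T (Y i p) + Y i p = (Fintype.card (R2 k) : ℚ) • Y i p := by
    intro i p
    rcases i with a | p0
    · by_cases hp : p = j
      · simp [Y, hp]
      · simp only [Y, Sum.elim_inl, dif_neg hp]
        rw [Derivation.map_smul, ← smul_add, hwE, smul_comm]
    · simp [Y]
  have hZE : ∀ i j l, EU k T (Z i j l) = (Fintype.card (R2 k) : ℚ) • Z i j l := by
    intro i j' l
    show EU k T (q * hX i j' l + ∑ p, (Y i p * cS k T (sy (Sum.inr p) j' l)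
      + Y j' p * cS k T (sy i (Sum.inr p) l) + Y l p * cS k T (sy i j' (Sum.inr p)))) =
      (Fintype.card (R2 k) : ℚ) • (q * hX i j' l + ∑ p, (Y i p * cS k T (sy (Sum.inr p) j' l)
      + Y j' p * cS k T (sy i (Sum.inr p) l) + Y l p * cS k T (sy i j' (Sum.inr p))))
    have hYc : ∀ i p s, EU k T (Y i p * cS k T s) = (Fintype.card (R2 k) : ℚ) • (Y i p * cS k T s) := by
      intro i p s
      rw [Derivation.leibniz, cd_EU_cS, smul_eq_mul, smul_eq_mul, ← smul_mul_assoc, ← hYE]
      ring
    rw [map_add, Derivation.leibniz, hXE, smul_zero, zero_add, hq, EU_Qd, map_sum, smul_add,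
      Finset.smul_sum]
    congr 1
    · rw [smul_eq_mul, mul_comm, smul_mul_assoc]
    · refine Finset.sum_congr rfl fun p _ => ?_
      rw [map_add, map_add, hYc, hYc, hYc, smul_add, smul_add]
  refine ⟨D, ?_, ?_⟩
  · intro s
    obtain ⟨a, b, d, rfl⟩ := exists_sy s
    have := main a b d
    rw [sub_eq_zero] at this
    rw [this]
    show q * (if sy a b d = s₀ then 1 else 0) = _
    split_ifs <;> simp
  · have hder : ⁅EU k T, D⁆ + D = (Fintype.card (R2 k) : ℚ) • D := by
      refine MvPolynomial.derivation_ext fun i => ?_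
      rw [Derivation.add_apply, Derivation.commutator_apply, Derivation.smul_apply]
      rcases i with ⟨a, p⟩ | s
      · rw [cd_EU_inl, map_zero, sub_zero, hDX, hYE]
      · rw [cd_EU_inr, hDc]
        obtain ⟨a, b, d, hs⟩ := exists_sy s.1
        rw [hs, ← hZs, hZE]
        ring
    intro α
    have := congrArg (fun E : Derivation ℚ (SS k T) (SS k T) => E α) hder
    simp only [Derivation.add_apply, Derivation.commutator_apply, Derivation.smul_apply] at this
    linear_combination this

end Pool.Agent.MP_1209e6_fr
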