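import Pool.Agent.Lib_MP_1209e6_fr.CEulA

/-!
PIECE [CEU] (MP_1209e6_ag).  The Euler derivation.
-/

open MvPolynomial

namespace Pool.Agent.MP_1209e6_fr

variable {k : ℕ} {T : Type} [Fintype T] [DecidableEq T]

/-- The operator `∏_{i < m} (EU - i)`. -/
noncomputable def Pm (k : ℕ) (T : Type) (m : ℕ) : Module.End ℚ (SS k T) :=
  ((List.range m).map fun i => ((EU k T : Derivation ℚ (SS k T) (SS k T)).toLinearMap - (i : ℚ) • (1 : Module.End ℚ (SS k T)))).prod

theorem Pm_eq (m : ℕ) : Pm k T m = ((List.range m).map fun i : ℕ =>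
    ((EU k T : Derivation ℚ (SS k T) (SS k T)).toLinearMap - (i : ℚ) • (1 : Module.End ℚ (SS k T)))).prod := by
  unfold Pm
  congr 1
  simp only [List.bind_eq_flatMap, List.pure_def, List.map_flatMap, List.map_cons, List.map_nil,
    List.flatMap_singleton']
  exact List.flatMap_pure_eq_map _ _

theorem Pm_zero_apply (x : SS k T) : Pm k T 0 x = x := by
  simp [Pm_eq]

theorem Pm_succ_apply (m : ℕ) (x : SS k T) : Pm k T (m + 1) x = Pm k T m (EU k T x - (m : ℚ) • x) := by
  rw [Pm_eq, Pm_eq]
  rw [List.range_succ, List.map_append, List.prod_append]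
  simp only [List.map_cons, List.map_nil, List.prod_cons, List.prod_nil, mul_one]
  rw [Module.End.mul_apply]
  rfl

theorem Pm_eig {x : SS k T} {n : ℕ} (hx : EU k T x = (n : ℚ) • x) (m : ℕ) (hm : n < m) : Pm k T m x = 0 := by
  have key : ∀ m : ℕ, Pm k T m x = (∏ i ∈ Finset.range m, ((n : ℚ) - (i : ℚ))) • x := by
    intro m
    induction m with
    | zero => simp [Pm_zero_apply]
    | succ m ih =>
      rw [Pm_succ_apply, hx, ← sub_smul, map_smul, ih, smul_smul, Finset.prod_range_succ]
      congr 1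
      ring
  rw [key, Finset.prod_eq_zero (Finset.mem_range.2 hm) (sub_self _), zero_smul]

/-- PIECE [CEU].  Every polynomial is killed by `Pm m` for large `m` (it is a finite sum of eigenvectors; the factors commute). -/
theorem exists_Pm (α : SS k T) : ∃ m, Pm k T m α = 0 := by
  classical
  let ev : (Var k T →₀ ℕ) → ℕ := fun m => ∑ i ∈ m.support, Sum.elim (fun _ => 0) (fun _ => m i) i
  refine ⟨α.support.sup ev + 1, ?_⟩
  rw [α.as_sum, map_sum]
  refine Finset.sum_eq_zero fun m hm => ?_
  rw [← α.as_sum]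
  exact Pm_eig (n := ev m) (EU_monomial m _) _ (Nat.lt_succ_of_le (Finset.le_sup (f := ev) hm))

/-- PIECE [CEU].  If `D` satisfies `EU D + D = D EU` (as for `D` lowering the degree by one) on the elements of a set stable under `EU`, then it maps the kernel of `Pm (m+1)` to that of `Pm m`.

Proof.  `EU (δ x) = δ (EU x) - δ x` for `x` in the submodule `M`; hence `(EU + 1 - i) (δ x) = δ ((EU - i) x)` and `(∏_{i ≤ m} (EU + 1 - i)) (δ x) = δ (Pm (m+1) x) = 0`.  The factor for `i = 0` is
`EU + 1`, which is injective (`eq_zero_of_EU`), and commutes with the others; the others give `Pm m`. -/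
theorem Pm_lower (M : Submodule ℚ (SS k T)) (hM : ∀ x ∈ M, EU k T x ∈ M) (δ : M →ₗ[ℚ] SS k T)
    (h : ∀ x : M, EU k T (δ x) + δ x = δ ⟨EU k T x, hM x x.2⟩) {m : ℕ} (x : M) (hx : Pm k T (m + 1) x = 0) :
    Pm k T m (δ x) = 0 := by
  let Q : ℕ → Module.End ℚ (SS k T) := fun m => ((List.range m).map fun i : ℕ =>
    ((EU k T : Derivation ℚ (SS k T) (SS k T)).toLinearMap + 1 - (i : ℚ) • (1 : Module.End ℚ (SS k T)))).prod
  have hQ0 : ∀ y, Q 0 y = y := fun y => by simp [Q]
  have hQs : ∀ m y, Q (m + 1) y = Q m (EU k T y + y - (m : ℚ) • y) := by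
    intro m y
    simp only [Q]
    rw [List.range_succ, List.map_append, List.prod_append]
    simp only [List.map_cons, List.map_nil, List.prod_cons, List.prod_nil, mul_one]
    rw [Module.End.mul_apply]
    rfl
  have key : ∀ (m : ℕ) (x : M), ∃ hh : Pm k T m x ∈ M, Q m (δ x) = δ ⟨Pm k T m x, hh⟩ := by
    intro m
    induction m with
    | zero =>
      intro x
      refine ⟨by rw [Pm_zero_apply]; exact x.2, ?_⟩
      rw [hQ0]
      exact congrArg δ (Subtype.ext (Pm_zero_apply _).symm)
    | succ m ih =>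
      intro x
      let y : M := ⟨EU k T x, hM x x.2⟩ - (m : ℚ) • x
      have hy : (y : SS k T) = EU k T x - (m : ℚ) • (x : SS k T) := rfl
      obtain ⟨hh, e⟩ := ih y
      have e1 : Pm k T (m + 1) x = Pm k T m y := by rw [Pm_succ_apply, hy]
      refine ⟨by rw [e1]; exact hh, ?_⟩
      rw [hQs, h x]
      have e2 : δ ⟨EU k T x, hM x x.2⟩ - (m : ℚ) • δ x = δ y := by
        rw [← map_smul, ← map_sub]
      rw [e2, e]
      exact congrArg δ (Subtype.ext e1.symm)
  obtain ⟨hh, e⟩ := key (m + 1) x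
  have e0 : Q (m + 1) (δ x) = 0 := by
    rw [e]
    have : (⟨Pm k T (m + 1) x, hh⟩ : M) = 0 := Subtype.ext hx
    rw [this, map_zero]
  have e1 : Q (m + 1) (δ x) = EU k T (Pm k T m (δ x)) + Pm k T m (δ x) := by
    simp only [Q]
    rw [List.range_succ_eq_map, List.map_cons, List.prod_cons, List.map_map, Module.End.mul_apply]
    have e2 : (List.map ((fun i : ℕ => (EU k T : Derivation ℚ (SS k T) (SS k T)).toLinearMap + 1
        - (i : ℚ) • (1 : Module.End ℚ (SS k T))) ∘ Nat.succ) (List.range m)).prod = Pm k T m := by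
      rw [Pm_eq]
      congr 1
      refine List.map_congr_left fun i _ => ?_
      simp only [Function.comp, Nat.cast_succ, add_smul, one_smul]
      abel
    rw [e2]
    simp only [Nat.cast_zero, zero_smul, sub_zero]
    rfl
  refine eq_zero_of_EU (n := 0) ?_
  rw [Nat.cast_zero, zero_add, one_smul]
  exact eq_neg_of_add_eq_zero_left (e1.symm.trans e0)

end Pool.Agent.MP_1209e6_fr
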