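import Pool.Agent.Lib_MP_1209e6_fr.CInv

/-!
PIECE [CEU] (MP_1209e6_ag).  The Euler derivation.
-/

open MvPolynomial

namespace Pool.Agent.MP_1209e6_fr

variable {k : ℕ} {T : Type} [Fintype T] [DecidableEq T]

private theorem eu_cS (s : Sym (Fin k ⊕ T) 3) : EU k T (cS k T s) = cS k T s := by
  unfold cS
  split_ifs with h
  · unfold EU
    rw [mkDerivation_X]
    rfl
  · rw [map_zero]

private theorem eu_gY (i j : Fin k ⊕ T) : EU k T (gY k T i j) = 0 := by
  unfold gY gx
  cases i with
  | inl a =>
    cases j with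
    | inl b =>
      show EU k T ((Pi.single a 1 : Fin k → SS k T) b) = 0
      rw [Pi.single_apply]
      split_ifs
      · exact Derivation.map_one_eq_zero _
      · exact map_zero _
    | inr p =>
      show EU k T (-X (Sum.inl (a, p))) = 0
      unfold EU
      rw [map_neg, mkDerivation_X]
      show -(0 : SS k T) = 0
      exact neg_zero
  | inr p =>
    show EU k T ((Pi.single (Sum.inr p) 1 : Fin k ⊕ T → SS k T) j) = 0
    rw [Pi.single_apply]
    split_ifs
    · exact Derivation.map_one_eq_zero _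
    · exact map_zero _

/-- PIECE [CEU].  `EU (cS s) = cS s`, `EU` kills the entries of `gY`; `derivation_tri`, `exists_sy`, `tS_sy`. -/
theorem EU_tS (s : Sym (Fin k ⊕ T) 3) : EU k T (tS k T s) = tS k T s := by
  obtain ⟨i, j, l, rfl⟩ := exists_sy s
  rw [tS_sy]
  unfold tauC
  rw [derivation_tri]
  have h0 : ∀ i : Fin k ⊕ T, (fun j => EU k T (gY k T i j)) = 0 := fun i => by
    funext j
    exact eu_gY i j
  rw [h0, h0, h0, tri_zero_left, tri_zero_mid, tri_zero_right, add_zero, add_zero, add_zero]
  simp only [eu_cS]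

/-- PIECE [CEU].  A monomial of degree `n` in the variables `c_s` is an eigenvector with eigenvalue `n`. -/
theorem EU_monomial (m : Var k T →₀ ℕ) (a : ℚ) :
    EU k T (monomial m a) = ((∑ i ∈ m.support, Sum.elim (fun _ => 0) (fun _ => m i) i : ℕ) : ℚ) • monomial m a := by
  unfold EU
  rw [mkDerivation_monomial, Finsupp.sum, Nat.cast_sum, Finset.sum_smul, Finset.smul_sum]
  refine Finset.sum_congr rfl fun i hi => ?_
  cases i with
  | inl q =>
    simp
  | inr q =>
    have h1 : m (Sum.inr q) ≠ 0 := Finsupp.mem_support_iff.1 hi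
    have h2 : m - Finsupp.single (Sum.inr q) 1 + Finsupp.single (Sum.inr q) 1 = m :=
      Finsupp.sub_add_single_one_cancel h1
    show a • monomial (m - Finsupp.single (Sum.inr q) 1) ((m (Sum.inr q) : ℕ) : ℚ) •
      (X (Sum.inr q) : SS k T) = ((m (Sum.inr q) : ℕ) : ℚ) • monomial m a
    rw [smul_eq_mul, X, monomial_mul, h2, mul_one, smul_monomial, smul_monomial, smul_eq_mul,
      smul_eq_mul, mul_comm]

private theorem eu_coeff (β : SS k T) (m : Var k T →₀ ℕ) :
    coeff m (EU k T β) =
      ((∑ i ∈ m.support, Sum.elim (fun _ => 0) (fun _ => m i) i : ℕ) : ℚ) * coeff m β := by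
  induction β using MvPolynomial.induction_on' with
  | monomial u a =>
    rw [EU_monomial, coeff_smul, coeff_monomial, smul_eq_mul]
    split_ifs with h
    · rw [h]
    · rw [mul_zero, mul_zero]
  | add p q hp hq =>
    rw [map_add, coeff_add, coeff_add, hp, hq, mul_add]

/-- PIECE [CEU].  No negative eigenvalues: compare coefficients. -/
theorem eq_zero_of_EU {β : SS k T} {n : ℕ} (h : EU k T β = -(((n : ℚ) + 1) • β)) : β = 0 := by
  ext m
  have h1 := congrArg (coeff m) h
  rw [eu_coeff, coeff_neg, coeff_smul, smul_eq_mul] at h1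
  rw [coeff_zero]
  set N : ℕ := ∑ i ∈ m.support, Sum.elim (fun _ => 0) (fun _ => m i) i
  have h2 : ((N : ℚ) + (n + 1)) * coeff m β = 0 := by
    linear_combination h1
  rcases mul_eq_zero.1 h2 with h3 | h3
  · have h4 : (0 : ℚ) ≤ N := Nat.cast_nonneg _
    have h5 : (0 : ℚ) ≤ n := Nat.cast_nonneg _
    linarith
  · exact h3

private theorem eu_prod {ι : Type} (s : Finset ι) (f : ι → SS k T)
    (hf : ∀ i, EU k T (f i) = f i) :
    EU k T (∏ i ∈ s, f i) = (s.card : ℚ) • ∏ i ∈ s, f i := by
  classical
  induction s using Finset.induction_on with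
  | empty =>
    simp
  | insert a s ha ih =>
    rw [Finset.prod_insert ha, Derivation.leibniz, ih, hf, Finset.card_insert_of_notMem ha,
      Nat.cast_add, Nat.cast_one, add_smul, one_smul, smul_eq_mul, smul_eq_mul, mul_smul_comm,
      mul_comm (∏ i ∈ s, f i) (f a)]

/-- PIECE [CEU].  The determinant of an `N × N` matrix of eigenvectors with eigenvalue `1` has eigenvalue `N`
(`Matrix.det_apply`, Leibniz rule for products). -/
theorem EU_Qd (hT : Fintype.card T = Fintype.card (R2 k) + 1) (j : T) :
    EU k T (Qd hT j) = (Fintype.card (R2 k) : ℚ) • Qd hT j := by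
  unfold Qd
  rw [Matrix.det_apply, map_sum, Finset.smul_sum]
  refine Finset.sum_congr rfl fun σ _ => ?_
  rw [Units.smul_def, map_zsmul, eu_prod _ _ fun i => ?_, Finset.card_univ, smul_comm]
  exact eu_cS _

end Pool.Agent.MP_1209e6_fr
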