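import Pool.Agent.Lib_MP_1209e6_ag.Der

/-!
PIECE [CFL] (MP_1209e6_ag).  Derivations and algebraic elements.
-/

namespace Pool.Agent.MP_1209e6_fr

private theorem CFldA_eval {k K : Type} [Field k] [Field K] [Algebra k K]
    (D : Derivation k K K) (F : IntermediateField k K) (hF : ∀ x ∈ F, D x ∈ F) {z : K} (hz : IsAlgebraic F z)
    (p : Polynomial F) :
    ∃ w : K, IsAlgebraic F w ∧ D (Polynomial.aeval z p) = w + Polynomial.aeval z (Polynomial.derivative p) * D z := by
  induction p using Polynomial.induction_on' with
  | add p q hp hq =>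
    obtain ⟨w, hw, h1⟩ := hp
    obtain ⟨w', hw', h2⟩ := hq
    refine ⟨w + w', hw.add hw', ?_⟩
    rw [map_add, map_add, h1, h2, Polynomial.derivative_add, map_add]
    ring
  | monomial n a =>
    refine ⟨z ^ n * D (a : K), ?_, ?_⟩
    · exact (hz.pow n).mul (isAlgebraic_algebraMap (A := K) (⟨D (a : K), hF _ a.2⟩ : F))
    · rw [Polynomial.aeval_monomial, Polynomial.derivative_monomial, Polynomial.aeval_monomial,
        Derivation.leibniz, Derivation.leibniz_pow, map_mul, map_natCast]
      simp only [smul_eq_mul, nsmul_eq_mul]
      have h1 : algebraMap F K a = (a : K) := rfl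
      rw [h1]
      ring

/-- PIECE [CFL].  A derivation which preserves an intermediate field preserves the elements algebraic over it.

Proof.  With the minimal polynomial `μ` of `z` over `F`: `0 = D (μ(z)) = μ^D(z) + μ'(z) D z` (`Derivation.apply_aeval_eq`, `Derivation.mapCoeffs`, with the derivation of `F` obtained by restriction), and
`μ'(z) ≠ 0`, so `D z` is in `F(z)`. -/
theorem isAlgebraic_derivation {k K : Type} [Field k] [CharZero k] [Field K] [Algebra k K] (D : Derivation k K K)
    (F : IntermediateField k K) (hF : ∀ x ∈ F, D x ∈ F) {z : K} (hz : IsAlgebraic F z) : IsAlgebraic F (D z) := by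
  have hz' : IsIntegral F z := hz.isIntegral
  obtain ⟨w, hw, h1⟩ := CFldA_eval D F hF hz (minpoly F z)
  rw [minpoly.aeval, map_zero] at h1
  have h4 : Polynomial.aeval z (Polynomial.derivative (minpoly F z)) ≠ 0 :=
    (minpoly.irreducible hz').separable.aeval_derivative_ne_zero (minpoly.aeval F z)
  have h5 : D z = -(w * (Polynomial.aeval z (Polynomial.derivative (minpoly F z)))⁻¹) := by
    field_simp
    linear_combination -h1
  rw [h5]
  refine (hw.mul ?_).neg
  refine IsAlgebraic.inv ?_
  rw [Polynomial.aeval_eq_sum_range]
  refine Finset.sum_induction _ (fun w => IsAlgebraic F w) (fun a b ha hb => ha.add hb) isAlgebraic_zero ?_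
  intro i _
  rw [Algebra.smul_def]
  exact (isAlgebraic_algebraMap (A := K) _).mul (hz.pow i)

/-- PIECE [CFL].  If the derivation preserves generators then it preserves the field. -/
theorem derivation_mem_adjoin {k K : Type} [Field k] [Field K] [Algebra k K] (D : Derivation k K K) (S : Set K)
    (F : IntermediateField k K) (hF : F = IntermediateField.adjoin k S) (h : ∀ x ∈ S, D x ∈ F) : ∀ x ∈ F, D x ∈ F := by
  intro x hx
  rw [hF] at hx
  induction hx using IntermediateField.adjoin_induction with
  | mem x hx => exact h x hx
  | algebraMap a => rw [Derivation.map_algebraMap]; exact F.zero_mem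
  | add x y hx hy h1 h2 => rw [map_add]; exact F.add_mem h1 h2
  | inv x hx h1 =>
    rw [Derivation.leibniz_inv, smul_eq_mul]
    rw [← hF] at hx
    exact F.mul_mem (F.neg_mem (pow_mem (F.inv_mem hx) 2)) h1
  | mul x y hx hy h1 h2 =>
    rw [Derivation.leibniz, smul_eq_mul, smul_eq_mul]
    rw [← hF] at hx hy
    exact F.add_mem (F.mul_mem hx h2) (F.mul_mem hy h1)

/-- PIECE [CFL].  Two derivations which agree on an intermediate field agree on the elements algebraic over it (apply `Pool.Agent.Campana.derivation_eq_zero` to the difference). -/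
theorem derivation_eq_of_isAlgebraic {k K : Type} [Field k] [CharZero k] [Field K] [Algebra k K] (D D' : Derivation k K K)
    (S : Set K) (h : ∀ x ∈ S, D x = D' x) {z : K} (hz : IsAlgebraic (IntermediateField.adjoin k S) z) : D z = D' z := by
  have h1 : ∀ x ∈ IntermediateField.adjoin k S, (D - D') x = 0 := by
    intro x hx
    induction hx using IntermediateField.adjoin_induction with
    | mem x hx => rw [Derivation.sub_apply, h x hx, sub_self]
    | algebraMap a => rw [Derivation.map_algebraMap]
    | add x y hx hy h1 h2 => rw [map_add, h1, h2, add_zero]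
    | inv x hx h1 => rw [Derivation.leibniz_inv, h1, smul_zero]
    | mul x y hx hy h1 h2 => rw [Derivation.leibniz, h1, h2, smul_zero, smul_zero, add_zero]
  have h2 := Pool.Agent.Campana.derivation_eq_zero (D - D') _ h1 z hz
  rw [Derivation.sub_apply, sub_eq_zero] at h2
  exact h2

/-- PIECE [CFL].  Derivations of a domain extend to its fraction field (`Pool.Agent.Campana.extend_of_formallyEtale`, or directly). -/
theorem exists_frac {k S : Type} [Field k] [CommRing S] [IsDomain S] [Algebra k S] (D : Derivation k S S) :
    ∃ D' : Derivation k (FractionRing S) (FractionRing S), ∀ a, D' (algebraMap S _ a) = algebraMap S _ (D a) := by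
  have : Algebra.FormallyEtale S (FractionRing S) := .of_isLocalization (nonZeroDivisors S)
  obtain ⟨D', hD'⟩ := Pool.Agent.Campana.extend_of_formallyEtale (T := FractionRing S)
    ((Algebra.linearMap S (FractionRing S)).compDer D)
  exact ⟨D', fun a => hD' a⟩

/-- The same for an arbitrary fraction field. -/
theorem exists_frac' {k S K : Type} [Field k] [CommRing S] [Field K] [Algebra k S] [Algebra k K] [Algebra S K]
    [IsScalarTower k S K] [IsFractionRing S K] (D : Derivation k S S) :
    ∃ D' : Derivation k K K, ∀ a, D' (algebraMap S K a) = algebraMap S K (D a) := by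
  have : Algebra.FormallyEtale S K := .of_isLocalization (nonZeroDivisors S)
  obtain ⟨D', hD'⟩ := Pool.Agent.Campana.extend_of_formallyEtale (T := K)
    ((Algebra.linearMap S K).compDer D)
  exact ⟨D', fun a => hD' a⟩

end Pool.Agent.MP_1209e6_fr
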