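import Pool.Agent.Lib_MP_1209e6_fr.CDef

/-!
PIECE [CIN] (MP_1209e6_ag).  The moving basis and the universal property.
-/

open MvPolynomial

namespace Pool.Agent.MP_1209e6_fr

theorem CInv_sum_eq {ι κ R : Type*} [Fintype κ] [CommRing R] (g : κ → ι → R) (u : κ → R) :
    (fun i => ∑ a, u a * g a i) = ∑ a ∈ Finset.univ, u a • g a := by
  funext i
  rw [Finset.sum_apply]
  rfl

/-- PIECE [CIN].  Composition of a trilinear form with a family of vectors. -/
theorem tri_comp {ι κ R : Type*} [Fintype ι] [Fintype κ] [CommRing R] (c : ι → ι → ι → R) (g : κ → ι → R) (u v w : κ → R) :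
    tri (fun a b d => tri c (g a) (g b) (g d)) u v w =
      tri c (fun i => ∑ a, u a * g a i) (fun i => ∑ a, v a * g a i) (fun i => ∑ a, w a * g a i) := by
  rw [CInv_sum_eq g u, CInv_sum_eq g v, CInv_sum_eq g w, tri_sum_left]
  have h : ∀ a ∈ Finset.univ, tri c (u a • g a) (∑ b ∈ Finset.univ, v b • g b)
      (∑ d ∈ Finset.univ, w d • g d) =
      ∑ b, ∑ d, tri c (g a) (g b) (g d) * (u a * v b * w d) := by
    intro a _
    rw [tri_sum_mid]
    refine Finset.sum_congr rfl fun b _ => ?_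
    rw [tri_sum_right]
    refine Finset.sum_congr rfl fun d _ => ?_
    rw [tri_smul_left, tri_smul_mid, tri_smul_right]
    ring
  rw [Finset.sum_congr rfl h]
  conv_lhs => rw [tri]

variable {k : ℕ} {T : Type} [Fintype T] [DecidableEq T]

/-- PIECE [CIN].  The bases for `x` and `-x` are inverse to each other. -/
theorem gx_gx_neg {R : Type*} [CommRing R] (x : Fin k → T → R) (i j : Fin k ⊕ T) :
    ∑ l, gx x i l * gx (fun a p => -x a p) l j = (Pi.single i 1 : Fin k ⊕ T → R) j := by
  rw [Fintype.sum_sum_type]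
  rcases i with a | p
  · have h1 : ∑ b : Fin k, gx x (Sum.inl a) (Sum.inl b) * gx (fun a p => -x a p) (Sum.inl b) j =
        gx (fun a p => -x a p) (Sum.inl a) j := by
      rw [Finset.sum_eq_single a]
      · simp [gx]
      · intro b _ hb
        simp [gx, Pi.single_eq_of_ne hb]
      · intro h; exact absurd (Finset.mem_univ _) h
    rw [h1]
    rcases j with b | q
    · have h2 : ∀ p ∈ (Finset.univ : Finset T), gx x (Sum.inl a) (Sum.inr p) *
          gx (fun a p => -x a p) (Sum.inr p) (Sum.inl b) = 0 := by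
        intro p _
        simp [gx]
      rw [Finset.sum_eq_zero h2, add_zero]
      by_cases hab : b = a
      · subst hab; simp [gx]
      · have hne : (Sum.inl b : Fin k ⊕ T) ≠ Sum.inl a := fun h => hab (Sum.inl.inj h)
        rw [Pi.single_eq_of_ne hne]
        simp [gx, Pi.single_eq_of_ne hab]
    · rw [Finset.sum_eq_single q]
      · have hne : (Sum.inr q : Fin k ⊕ T) ≠ Sum.inl a := by simp
        rw [Pi.single_eq_of_ne hne]
        simp [gx]
      · intro p _ hp
        have hne : (Sum.inr q : Fin k ⊕ T) ≠ Sum.inr p := fun h => hp (Sum.inr.inj h).symm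
        simp [gx, Pi.single_eq_of_ne hne]
      · intro h; exact absurd (Finset.mem_univ _) h
  · have h1 : ∀ b ∈ (Finset.univ : Finset (Fin k)), gx x (Sum.inr p) (Sum.inl b) *
        gx (fun a p => -x a p) (Sum.inl b) j = 0 := by
      intro b _
      simp [gx]
    rw [Finset.sum_eq_zero h1, zero_add, Finset.sum_eq_single p]
    · simp [gx]
    · intro q _ hq
      have hne : (Sum.inr q : Fin k ⊕ T) ≠ Sum.inr p := fun h => hq (Sum.inr.inj h)
      simp [gx, Pi.single_eq_of_ne hne]
    · intro h; exact absurd (Finset.mem_univ _) h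

theorem CInv_neg {R : Type*} [CommRing R] (x : Fin k → T → R) (i j : Fin k ⊕ T) :
    ∑ l, gx (fun a p => -x a p) i l * gx x l j = (Pi.single i 1 : Fin k ⊕ T → R) j := by
  have h := gx_gx_neg (fun a p => -x a p) i j
  simp only [neg_neg] at h
  exact h

/-- PIECE [CIN].  `tauC = cS` composed with `gY`; compose with `gX` (`tri_comp`, `gx_gx_neg`, `tri_single`). -/
theorem cS_eq (i j l : Fin k ⊕ T) :
    cS k T (sy i j l) = tri (fun a b d => tS k T (sy a b d)) (gX k T i) (gX k T j) (gX k T l) := by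
  have h1 : (fun a b d => tS k T (sy a b d)) = fun a b d =>
      tri (fun a b d => cS k T (sy a b d)) (gY k T a) (gY k T b) (gY k T d) := by
    funext a b d
    rw [tS_sy]
    rfl
  have h2 : ∀ i : Fin k ⊕ T, (fun m => ∑ a, gX k T i a * gY k T a m) = Pi.single i 1 := by
    intro i
    funext m
    exact gx_gx_neg (fun a p => (X (Sum.inl (a, p)) : SS k T)) i m
  rw [h1, tri_comp, h2, h2, h2, tri_single]

/-- PIECE [CIN]. -/
theorem cS_inl (a b d : Fin k) : cS k T (sy (Sum.inl a) (Sum.inl b) (Sum.inl d)) = 0 := by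
  unfold cS
  rw [dif_neg]
  rintro ⟨p, hp⟩
  have hp' : (Sum.inr p : Fin k ⊕ T) ∈ ({Sum.inl a, Sum.inl b, Sum.inl d} : Multiset (Fin k ⊕ T)) := hp
  simp at hp'

/-- PIECE [CIN].  Universal property: a cubic form with coefficients `t` which vanishes on the plane with coordinates `x` gives a ring hom.

Proof.  `u : Sym (Fin k ⊕ T) 3 → R` with `u (sy i j l) = tri (t ∘ sy) (gx x i) (gx x j) (gx x l)` (`SymC.exists_fun`), `Θ = aeval (Sum.elim (fun p => x p.1 p.2) (fun s => u s.1))`.  Then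
`Θ (cS s) = u s` for all `s` (if `s` has no element `inr p` then `s = sy (inl a) (inl b) (inl d)` and `u s = 0` by `h`).  `Θ (tauC i j l) = tri u (gx (-x) i) ..` (`map_tri`), which is
`t (sy i j l)` by `tri_comp` and `gx_gx_neg` (with `-x` instead of `x`). -/
theorem exists_hom {R : Type*} [CommRing R] [Algebra ℚ R] (t : Sym (Fin k ⊕ T) 3 → R) (x : Fin k → T → R)
    (h : ∀ a b d : Fin k, tri (fun i j l => t (sy i j l)) (gx x (Sum.inl a)) (gx x (Sum.inl b)) (gx x (Sum.inl d)) = 0) :
    ∃ Θ : SS k T →ₐ[ℚ] R, (∀ a p, Θ (X (Sum.inl (a, p))) = x a p) ∧ ∀ s, Θ (tS k T s) = t s := by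
  have hsym : SymC (fun i j l : Fin k ⊕ T =>
      tri (fun i j l => t (sy i j l)) (gx x i) (gx x j) (gx x l)) :=
    ⟨fun _ _ _ => (symC_sy t).swap12 _ _ _, fun _ _ _ => (symC_sy t).swap23 _ _ _⟩
  obtain ⟨u, hu⟩ := hsym.exists_fun
  obtain ⟨Θ, hΘ⟩ : ∃ Θ : SS k T →ₐ[ℚ] R, Θ =
      aeval (Sum.elim (fun p : Fin k × T => x p.1 p.2) (fun s : Mix k T => u s.1)) := ⟨_, rfl⟩
  have hX : ∀ a p, Θ (X (Sum.inl (a, p))) = x a p := by
    intro a p
    rw [hΘ, aeval_X]
    rfl
  have hc : ∀ s, Θ (cS k T s) = u s := by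
    intro s
    by_cases hs : ∃ p : T, Sum.inr p ∈ s
    · unfold cS
      rw [dif_pos hs, hΘ, aeval_X]
      rfl
    · obtain ⟨i, j, l, rfl⟩ := exists_sy s
      have hmem : ∀ m : Fin k ⊕ T, (m = i ∨ m = j ∨ m = l) → ∃ a, m = Sum.inl a := by
        intro m hm
        rcases m with a | p
        · exact ⟨a, rfl⟩
        · exfalso
          apply hs
          refine ⟨p, ?_⟩
          show (Sum.inr p : Fin k ⊕ T) ∈ ({i, j, l} : Multiset (Fin k ⊕ T))
          simpa using hm
      obtain ⟨a, rfl⟩ := hmem i (Or.inl rfl)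
      obtain ⟨b, rfl⟩ := hmem j (Or.inr (Or.inl rfl))
      obtain ⟨d, rfl⟩ := hmem l (Or.inr (Or.inr rfl))
      rw [cS_inl, map_zero, ← hu, h]
  refine ⟨Θ, hX, fun s => ?_⟩
  obtain ⟨i, j, l, rfl⟩ := exists_sy s
  rw [tS_sy]
  unfold tauC
  have hg : ∀ i m : Fin k ⊕ T, Θ (gY k T i m) = gx (fun a p => -x a p) i m := by
    intro i m
    rcases i with a | p
    · rcases m with b | q
      · show Θ ((Pi.single a 1 : Fin k → SS k T) b) = (Pi.single a 1 : Fin k → R) b
        by_cases hab : b = a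
        · subst hab; simp
        · rw [Pi.single_eq_of_ne hab, Pi.single_eq_of_ne hab, map_zero]
      · show Θ (-X (Sum.inl (a, q))) = -x a q
        rw [map_neg, hX]
    · show Θ ((Pi.single (Sum.inr p) 1 : Fin k ⊕ T → SS k T) m) =
        (Pi.single (Sum.inr p) 1 : Fin k ⊕ T → R) m
      by_cases hmp : m = Sum.inr p
      · subst hmp; simp
      · rw [Pi.single_eq_of_ne hmp, Pi.single_eq_of_ne hmp, map_zero]
  have h1 := map_tri (Θ : SS k T →+* R) (fun a b d => cS k T (sy a b d)) (gY k T i) (gY k T j)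
    (gY k T l)
  have h1' : Θ (tri (fun a b d => cS k T (sy a b d)) (gY k T i) (gY k T j) (gY k T l)) =
      tri (fun a b d => Θ (cS k T (sy a b d))) (fun m => Θ (gY k T i m)) (fun m => Θ (gY k T j m))
        (fun m => Θ (gY k T l m)) := h1
  rw [h1']
  have h2 : (fun a b d => Θ (cS k T (sy a b d))) = fun a b d : Fin k ⊕ T =>
      tri (fun i j l => t (sy i j l)) (gx x a) (gx x b) (gx x d) := by
    funext a b d
    rw [hc, ← hu]
  have h3 : ∀ i : Fin k ⊕ T, (fun m => Θ (gY k T i m)) = gx (fun a p => -x a p) i := by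
    intro i
    funext m
    exact hg i m
  have h4 : ∀ i : Fin k ⊕ T, (fun m => ∑ a, gx (fun a p => -x a p) i a * gx x a m) =
      Pi.single i 1 := by
    intro i
    funext m
    exact CInv_neg x i m
  rw [h2, h3, h3, h3, tri_comp, h4, h4, h4, tri_single]

end Pool.Agent.MP_1209e6_fr
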