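import Pool.Agent.Lib_MP_1209e6_fr.CInv

/-!
PIECE [CLD] (MP_1209e6_ag).  A point of large transcendence degree of a fibre is generic.
-/

open MvPolynomial

namespace Pool.Agent.MP_1209e6_fr

variable {k : ℕ} {T : Type} [Fintype T] [DecidableEq T] {Ω : Type} [Field Ω] [Algebra ℂ Ω]
  [Algebra ℚ Ω] [IsScalarTower ℚ ℂ Ω]

private theorem mem_sy {ι : Type*} (x i j l : ι) : x ∈ sy i j l ↔ x = i ∨ x = j ∨ x = l := by
  show x ∈ ({i, j, l} : Multiset ι) ↔ _
  simp

private theorem card_mix (k : ℕ) (T : Type) [Fintype T] [DecidableEq T] :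
    Fintype.card (Sym (Fin k ⊕ T) 3) = Nat.card (Mix k T) + Fintype.card (Sym (Fin k) 3) := by
  classical
  let f : Sym (Fin k) 3 → {s : Sym (Fin k ⊕ T) 3 // ¬ ∃ p : T, Sum.inr p ∈ s} := fun s =>
    ⟨s.map Sum.inl, by
      rintro ⟨p, hp⟩
      rw [Sym.mem_map] at hp
      obtain ⟨a, -, ha⟩ := hp
      exact Sum.inl_ne_inr ha⟩
  have hf : Function.Bijective f := by
    constructor
    · intro s s' h
      have h1 : s.map Sum.inl = s'.map (Sum.inl : Fin k → Fin k ⊕ T) := congrArg Subtype.val h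
      exact Sym.map_injective Sum.inl_injective 3 h1
    · rintro ⟨s, hs⟩
      obtain ⟨i, j, l, rfl⟩ := exists_sy s
      have hinl : ∀ x ∈ sy i j l, ∃ a, x = Sum.inl a := by
        intro x hx
        rcases x with a | p
        · exact ⟨a, rfl⟩
        · exact absurd ⟨p, hx⟩ hs
      obtain ⟨a, rfl⟩ := hinl i ((mem_sy _ _ _ _).2 (Or.inl rfl))
      obtain ⟨b, rfl⟩ := hinl j ((mem_sy _ _ _ _).2 (Or.inr (Or.inl rfl)))
      obtain ⟨c, rfl⟩ := hinl l ((mem_sy _ _ _ _).2 (Or.inr (Or.inr rfl)))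
      refine ⟨sy a b c, ?_⟩
      apply Subtype.ext
      apply Subtype.ext
      simp [f, sy]
  have h1 : Fintype.card (Sym (Fin k) 3) = Fintype.card {s : Sym (Fin k ⊕ T) 3 // ¬ ∃ p : T, Sum.inr p ∈ s} :=
    Fintype.card_of_bijective hf
  have h2 : Nat.card (Mix k T) = Fintype.card {s : Sym (Fin k ⊕ T) 3 // ∃ p : T, Sum.inr p ∈ s} :=
    Nat.card_eq_fintype_card
  rw [h1, h2, Fintype.card_subtype_compl]
  have := Fintype.card_subtype_le (fun s : Sym (Fin k ⊕ T) 3 => ∃ p : T, Sum.inr p ∈ s)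
  omega

/-- The `tS s` and the `X_(e i)` form a transcendence basis of the polynomial ring. -/
theorem isTranscendenceBasis_mix {D : ℕ} (hD : D + Fintype.card (Sym (Fin k) 3) = k * Fintype.card T)
    (t : Sym (Fin k ⊕ T) 3 → ℂ) (ht : AlgebraicIndependent ℚ t) (Θ : SS k T →ₐ[ℚ] Ω)
    (hΘ : ∀ s, Θ (tS k T s) = algebraMap ℂ Ω (t s)) (e : Fin D → Fin k × T)
    (he : AlgebraicIndependent ℂ (fun i => Θ (X (Sum.inl (e i))))) :
    IsTranscendenceBasis ℚ (Sum.elim (fun i => X (Sum.inl (e i))) (tS k T) : Fin D ⊕ Sym (Fin k ⊕ T) 3 → SS k T) := by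
  classical
  set z : Fin D ⊕ Sym (Fin k ⊕ T) 3 → SS k T := Sum.elim (fun i => X (Sum.inl (e i))) (tS k T) with hz
  have hΘz : (Θ ∘ z) = Sum.elim (fun i => Θ (X (Sum.inl (e i)))) (algebraMap ℂ Ω ∘ t) := by
    funext a
    rcases a with i | s
    · simp [hz]
    · simp [hz, hΘ]
  have hind : AlgebraicIndependent ℚ (Θ ∘ z) := by
    rw [hΘz]
    exact ht.sumElim_comp he
  have hz1 : AlgebraicIndependent ℚ z := hind.of_comp Θ
  have hcard : Algebra.trdeg ℚ (SS k T) ≤ Cardinal.mk (Fin D ⊕ Sym (Fin k ⊕ T) 3) := by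
    rw [MvPolynomial.trdeg_of_isDomain, Cardinal.lift_id]
    have h1 : Nat.card (Var k T) = Nat.card (Fin D ⊕ Sym (Fin k ⊕ T) 3) := by
      rw [Nat.card_sum, Nat.card_sum, Nat.card_prod, Nat.card_eq_fintype_card (α := Fin k),
        Nat.card_eq_fintype_card (α := T), Nat.card_eq_fintype_card (α := Fin D),
        Nat.card_eq_fintype_card (α := Sym (Fin k ⊕ T) 3), card_mix k T, Fintype.card_fin, Fintype.card_fin, ← hD]
      ring
    have h2 : (Nat.card (Var k T) : Cardinal) = Cardinal.mk (Var k T) := Nat.cast_card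
    have h3 : (Nat.card (Fin D ⊕ Sym (Fin k ⊕ T) 3) : Cardinal) = Cardinal.mk (Fin D ⊕ Sym (Fin k ⊕ T) 3) :=
      Nat.cast_card
    rw [← h2, ← h3, h1]
  exact hz1.isTranscendenceBasis_of_trdeg_le_of_finite hcard

/-- PIECE [CLD].  Proof.  The families `(t s)_s` (over `ℚ`, in `ℂ`) and `(Θ X_(e i))_i` (over `ℂ`) together are algebraically independent over `ℚ`, with `card (Sym (Fin k ⊕ T) 3) + D` elements; this is the number of
variables of `SS`: `card (Sym (Fin k ⊕ T) 3) = card (Mix k T) + card (Sym (Fin k) 3)` and `hD`.  The corresponding elements `tS s`, `X_(e i)` of `SS` are algebraically independent (`AlgebraicIndependent.of_aeval` or directly) and by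
cardinality (`MvPolynomial.trdeg_of_isDomain`, `isTranscendenceBasis_of_trdeg_le_of_finite`) a transcendence basis.  If `α ≠ 0` and `Θ α = 0`: `α` is algebraic over the subring `B` generated by them: `∑ r_i α^i = 0` with `r_i ∈ B`, `r_0 ≠ 0` (divide by `α`);
so `Θ r_0 = 0`, but `Θ` is injective on `B`. -/
theorem injective_of_trdeg {D : ℕ} (hD : D + Fintype.card (Sym (Fin k) 3) = k * Fintype.card T)
    (t : Sym (Fin k ⊕ T) 3 → ℂ) (ht : AlgebraicIndependent ℚ t) (Θ : SS k T →ₐ[ℚ] Ω)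
    (hΘ : ∀ s, Θ (tS k T s) = algebraMap ℂ Ω (t s)) (e : Fin D → Fin k × T)
    (he : AlgebraicIndependent ℂ (fun i => Θ (X (Sum.inl (e i))))) : Function.Injective Θ := by
  classical
  set z : Fin D ⊕ Sym (Fin k ⊕ T) 3 → SS k T := Sum.elim (fun i => X (Sum.inl (e i))) (tS k T) with hz
  have hΘz : (Θ ∘ z) = Sum.elim (fun i => Θ (X (Sum.inl (e i)))) (algebraMap ℂ Ω ∘ t) := by
    funext a
    rcases a with i | s
    · simp [hz]
    · simp [hz, hΘ]
  have hind : AlgebraicIndependent ℚ (Θ ∘ z) := by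
    rw [hΘz]
    exact ht.sumElim_comp he
  have hb : IsTranscendenceBasis ℚ z := isTranscendenceBasis_mix hD t ht Θ hΘ e he
  have halg := hb.isAlgebraic
  rw [injective_iff_map_eq_zero]
  intro α hα
  by_contra hne
  obtain ⟨r, hr, hdvd⟩ := (halg.1 α).exists_nonzero_dvd (mem_nonZeroDivisors_of_ne_zero hne)
  have hΘr : Θ (r : SS k T) = 0 := by
    obtain ⟨c, hc⟩ := hdvd
    have h1 : algebraMap (Algebra.adjoin ℚ (Set.range z)) (SS k T) r = (r : SS k T) := rfl
    rw [h1] at hc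
    rw [hc, map_mul, hα, zero_mul]
  apply hr
  have hmem : ∀ x ∈ Algebra.adjoin ℚ (Set.range z), ∃ p : MvPolynomial (Fin D ⊕ Sym (Fin k ⊕ T) 3) ℚ, aeval z p = x := by
    intro x hx
    rw [Algebra.adjoin_range_eq_range_aeval] at hx
    exact hx
  obtain ⟨p, hp⟩ := hmem _ r.2
  have hp' : aeval z p = (r : SS k T) := hp
  have h2 : aeval (Θ ∘ z) p = 0 := by
    have h5 := congrArg (fun g : MvPolynomial (Fin D ⊕ Sym (Fin k ⊕ T) 3) ℚ →ₐ[ℚ] Ω => g p) (MvPolynomial.comp_aeval z Θ)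
    have h6 : Θ (aeval z p) = aeval (fun i => Θ (z i)) p := h5
    rw [← hΘr, ← hp', h6]
    rfl
  have h3 : p = 0 := hind.eq_zero_of_aeval_eq_zero p h2
  apply Subtype.ext
  rw [← hp', h3, map_zero]
  rfl

end Pool.Agent.MP_1209e6_fr
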