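import Pool.Agent.Lib_MP_1209e6_fr.CLinA

/-!
Auxiliary statements for PIECE [CLD] (MP_1209e6_ag).
-/

open Polynomial

namespace Pool.Agent.MP_1209e6_fr

/-- Algebraic elements by polynomials with coefficients in the image. -/
theorem isAlgebraic_iff_coeff {F K : Type} [Field F] [Field K] [Algebra F K] {z : K} :
    IsAlgebraic F z ↔ ∃ p : K[X], p ≠ 0 ∧ (∀ n, p.coeff n ∈ Set.range (algebraMap F K)) ∧ p.eval z = 0 := by
  constructor
  · rintro ⟨p, hp, hpz⟩
    refine ⟨p.map (algebraMap F K), ?_, fun n => ⟨p.coeff n, by rw [Polynomial.coeff_map]⟩, ?_⟩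
    · rwa [Ne, Polynomial.map_eq_zero]
    · rw [Polynomial.eval_map_algebraMap]
      exact hpz
  · rintro ⟨p, hp, hc, hpz⟩
    have h1 : p ∈ Polynomial.lifts (algebraMap F K) := by
      rw [Polynomial.lifts_iff_coeff_lifts]
      exact hc
    obtain ⟨q, hq⟩ := (Polynomial.mem_lifts p).1 h1
    refine ⟨q, ?_, ?_⟩
    · rintro rfl
      rw [Polynomial.map_zero] at hq
      exact hp hq.symm
    · rw [← Polynomial.eval_map_algebraMap, hq]
      exact hpz

/-- A derivation preserves algebraic extensions of stable fields. -/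
theorem derivation_mem_of_isAlgebraic {k K : Type} [Field k] [CharZero k] [Field K] [Algebra k K]
    (D : Derivation k K K) (F E : IntermediateField k K) (hFE : F ≤ E) (hF : ∀ x ∈ F, D x ∈ F) {z : K} (hz : z ∈ E)
    (ha : IsAlgebraic F z) : D z ∈ E := by
  have key : ∀ p : F[X], ∃ c ∈ E, D (aeval z p) = c + aeval z (derivative p) * D z := by
    intro p
    induction p using Polynomial.induction_on' with
    | add p q hp hq =>
      obtain ⟨c, hc, h1⟩ := hp
      obtain ⟨d, hd, h2⟩ := hq
      refine ⟨c + d, add_mem hc hd, ?_⟩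
      simp only [map_add, h1, h2]
      ring
    | monomial n a =>
      refine ⟨D (a : K) * z ^ n, mul_mem (hFE (hF _ a.2)) (pow_mem hz n), ?_⟩
      have h1 : aeval z (monomial n a) = (a : K) * z ^ n := by
        rw [aeval_monomial]
        rfl
      have h2 : aeval z (derivative (monomial n a)) = (a : K) * n * z ^ (n - 1) := by
        rw [derivative_monomial, aeval_monomial, map_mul, map_natCast]
        rfl
      rw [h1, h2, Derivation.leibniz, Derivation.leibniz_pow]
      simp only [smul_eq_mul, nsmul_eq_mul]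
      ring
  have hint : IsIntegral F z := ha.isIntegral
  obtain ⟨c, hc, h1⟩ := key (minpoly F z)
  rw [minpoly.aeval, map_zero] at h1
  have h4 : aeval z (derivative (minpoly F z)) ≠ 0 :=
    (minpoly.irreducible hint).separable.aeval_derivative_ne_zero (minpoly.aeval F z)
  have h5 : D z = -c / aeval z (derivative (minpoly F z)) := by
    field_simp
    linear_combination -h1
  rw [h5]
  refine div_mem (neg_mem hc) ?_
  have h6 : ∀ q : F[X], aeval z q ∈ E := by
    intro q
    rw [aeval_eq_sum_range]
    refine sum_mem fun i _ => ?_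
    have h7 : q.coeff i • z ^ i = (q.coeff i : K) * z ^ i := rfl
    rw [h7]
    exact mul_mem (hFE (q.coeff i).2) (pow_mem hz i)
  exact h6 _

end Pool.Agent.MP_1209e6_fr
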