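import Pool.Agent.Lib_MP_1209e6_fr.CAlg
import Pool.Agent.Lib_MP_1209e6_fr.CLinA
import Pool.Agent.Lib_MP_1209e6_fr.CLinB

/-!
PIECE [CLD] (MP_1209e6_ag).  A point of large transcendence degree of a fibre is generic.
-/

open MvPolynomial

namespace Pool.Agent.MP_1209e6_fr

variable {k : ℕ} {T : Type} [Fintype T] [DecidableEq T] {Ω : Type} [Field Ω] [Algebra ℂ Ω]
  [Algebra ℚ Ω] [IsScalarTower ℚ ℂ Ω]

/-- The variables are algebraic over the field generated by the transcendence basis. -/
theorem isAlgebraic_var {D : ℕ} (hD : D + Fintype.card (Sym (Fin k) 3) = k * Fintype.card T)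
    (t : Sym (Fin k ⊕ T) 3 → ℂ) (ht : AlgebraicIndependent ℚ t) (Θ : SS k T →ₐ[ℚ] Ω)
    (hΘ : ∀ s, Θ (tS k T s) = algebraMap ℂ Ω (t s)) (e : Fin D → Fin k × T)
    (he : AlgebraicIndependent ℂ (fun i => Θ (X (Sum.inl (e i))))) (v : Var k T) :
    IsAlgebraic (IntermediateField.adjoin ℚ (Set.range (fun s => algebraMap ℂ Ω (t s)) ∪
      Set.range (fun i => Θ (X (Sum.inl (e i)))))) (Θ (X v)) := by
  classical
  have hinj : Function.Injective Θ := injective_of_trdeg hD t ht Θ hΘ e he
  set z : Fin D ⊕ Sym (Fin k ⊕ T) 3 → SS k T := Sum.elim (fun i => X (Sum.inl (e i))) (tS k T) with hz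
  have hb : IsTranscendenceBasis ℚ z := isTranscendenceBasis_mix hD t ht Θ hΘ e he
  set L0 : IntermediateField ℚ Ω := IntermediateField.adjoin ℚ (Set.range (fun s => algebraMap ℂ Ω (t s)) ∪
      Set.range (fun i => Θ (X (Sum.inl (e i))))) with hL0
  have hmem : ∀ x ∈ Algebra.adjoin ℚ (Set.range z), Θ x ∈ L0 := by
    intro x hx
    induction hx using Algebra.adjoin_induction with
    | mem x hx =>
      obtain ⟨a, rfl⟩ := hx
      rcases a with i | s
      · exact IntermediateField.subset_adjoin _ _ (Or.inr ⟨i, rfl⟩)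
      · exact IntermediateField.subset_adjoin _ _ (Or.inl ⟨s, (hΘ s).symm⟩)
    | algebraMap r => rw [Θ.commutes]; exact L0.algebraMap_mem r
    | add x y _ _ hx hy => rw [map_add]; exact add_mem hx hy
    | mul x y _ _ hx hy => rw [map_mul]; exact mul_mem hx hy
  obtain ⟨p, hp, hpz⟩ := hb.isAlgebraic.1 (X v)
  have hφ : Function.Injective ((Θ : SS k T →+* Ω).comp (algebraMap (Algebra.adjoin ℚ (Set.range z)) (SS k T))) :=
    hinj.comp Subtype.val_injective
  refine isAlgebraic_iff_coeff.2 ⟨p.map ((Θ : SS k T →+* Ω).comp (algebraMap (Algebra.adjoin ℚ (Set.range z)) (SS k T))),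
    ?_, fun n => ?_, ?_⟩
  · rwa [Ne, Polynomial.map_eq_zero_iff hφ]
  · rw [Polynomial.coeff_map]
    exact ⟨⟨_, hmem _ (p.coeff n).2⟩, rfl⟩
  · rw [← Polynomial.map_map, Polynomial.eval_map]
    have h1 : Polynomial.eval₂ (Θ : SS k T →+* Ω) (Θ (X v)) (p.map (algebraMap (Algebra.adjoin ℚ (Set.range z)) (SS k T))) =
        Θ ((p.map (algebraMap (Algebra.adjoin ℚ (Set.range z)) (SS k T))).eval (X v)) :=
      Polynomial.eval₂_at_apply (Θ : SS k T →+* Ω) (X v)
    rw [h1, Polynomial.eval_map_algebraMap, hpz, map_zero]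

/-- PIECE [CLD].  Linear disjointness of `ℂ` and the function field over the field `ℚ(t)`.

Proof.  Let `L ⊆ Ω` be the subfield generated by the image of `Θ` (isomorphic to `FF` by `injective_of_trdeg`) and `L0 = ℚ(t, x)`, `x_i = Θ X_(e i)`; `L` is algebraic over `L0` (as in `injective_of_trdeg` the `tS s`, `X_(e i)` form a transcendence basis of `SS`).
By `Pool.Agent.Campana.exists_derivation` there are derivations `Δ_i` of `Ω` over `ℂ` with `Δ_i x_j = δ_ij`.  They preserve `L0` and so `L` (`z ∈ L` algebraic over `L0`: `Δ z ∈ L0(z)`; use the argument of `isAlgebraic_derivation`; or: `Δ_i` preserves the set of the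
elements algebraic over `L0`, work with this field `L'` instead of `L`).
Suppose that there is a relation `∑ lam_i f_i = 0` with `f_i ∈ L` not all `0`; choose one with the minimal number of nonzero `f_i`, and divide by one of them: `f_(i0) = 1`.  Applying `Δ_j`: `∑ lam_i Δ_j f_i = 0` with fewer nonzero terms (`Δ_j 1 = 0`, and `Δ_j 0 = 0`), so all `Δ_j f_i = 0`.
By `isAlgebraic_of_constant` (ground field `ℚ(t) ⊆ Ω`, elements `x_i`, algebraically independent over it since `ℚ(t) ⊆ ℂ`) every `f_i` is algebraic over `ℚ(t)`, so (transport to `FF` by `Θ`, `mem_KC`) `f_i ∈ ℚ(t)`, i.e. `f_i = algebraMap κ_i`, `κ_i ∈ ℚ(t) ⊆ ℂ`, and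
`∑ lam_i κ_i = 0` in `ℂ` contradicts the linear independence of `lam` over `ℚ(t)`. -/
theorem linearDisjoint (hT : Fintype.card T = Fintype.card (R2 k) + 1) {D : ℕ}
    (hD : D + Fintype.card (Sym (Fin k) 3) = k * Fintype.card T)
    (t : Sym (Fin k ⊕ T) 3 → ℂ) (ht : AlgebraicIndependent ℚ t) (Θ : SS k T →ₐ[ℚ] Ω)
    (hΘ : ∀ s, Θ (tS k T s) = algebraMap ℂ Ω (t s)) (e : Fin D → Fin k × T)
    (he : AlgebraicIndependent ℂ (fun i => Θ (X (Sum.inl (e i)))))
    {ι : Type} [Fintype ι] (lam : ι → ℂ) (hlam : LinearIndependent (IntermediateField.adjoin ℚ (Set.range t)) lam)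
    (f : ι → Ω) (hf : ∀ i, f i ∈ IntermediateField.adjoin ℚ (Set.range Θ))
    (h : ∑ i, algebraMap ℂ Ω (lam i) * f i = 0) : ∀ i, f i = 0 := by
  classical
  have hinj : Function.Injective Θ := injective_of_trdeg hD t ht Θ hΘ e he
  have hcz : CharZero Ω := charZero_of_injective_algebraMap (algebraMap ℂ Ω).injective
  -- the extension to the function field
  have hinj' : Function.Injective (Θ : SS k T →+* Ω) := hinj
  let ΘF : FF k T →+* Ω := IsFractionRing.lift hinj'
  have hΘF : ∀ a, ΘF (algebraMap (SS k T) (FF k T) a) = Θ a := fun a => IsFractionRing.lift_algebraMap hinj' a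
  -- fields
  set L0 : IntermediateField ℚ Ω := IntermediateField.adjoin ℚ (Set.range (fun s => algebraMap ℂ Ω (t s)) ∪
      Set.range (fun i => Θ (X (Sum.inl (e i))))) with hL0
  set L : IntermediateField ℚ Ω := IntermediateField.adjoin ℚ (Set.range Θ) with hL
  have hL0L : L0 ≤ L := by
    rw [hL0, IntermediateField.adjoin_le_iff]
    rintro x (⟨s, rfl⟩ | ⟨i, rfl⟩)
    · exact IntermediateField.subset_adjoin _ _ ⟨tS k T s, hΘ s⟩
    · exact IntermediateField.subset_adjoin _ _ ⟨_, rfl⟩
  have hLalg : ∀ z ∈ L, IsAlgebraic L0 z := by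
    have hvar := isAlgebraic_var hD t ht Θ hΘ e he
    have h1 : ∀ a : SS k T, IsAlgebraic L0 (Θ a) := by
      intro a
      induction a using MvPolynomial.induction_on with
      | C q =>
        have h2 : Θ (MvPolynomial.C q) = algebraMap L0 Ω (algebraMap ℚ L0 q) := by
          have h3 : Θ (MvPolynomial.C q) = algebraMap ℚ Ω q := Θ.commutes q
          rw [h3]
          exact IsScalarTower.algebraMap_apply ℚ L0 Ω q
        rw [h2]
        exact isAlgebraic_algebraMap _
      | add p q hp hq => rw [map_add]; exact hp.add hq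
      | mul_X p v hp => rw [map_mul]; exact hp.mul (hvar v)
    intro z hz
    have h2 : z ∈ (algebraicClosure L0 Ω).restrictScalars ℚ := by
      have h3 : L ≤ (algebraicClosure L0 Ω).restrictScalars ℚ := by
        rw [hL, IntermediateField.adjoin_le_iff]
        rintro _ ⟨a, rfl⟩
        exact mem_algebraicClosure_iff.2 (h1 a)
      exact h3 hz
    exact mem_algebraicClosure_iff.1 h2
  -- derivations
  have hder : ∀ i : Fin D, ∃ Δ : Derivation ℂ Ω Ω, ∀ j, Δ (Θ (X (Sum.inl (e j)))) = if j = i then 1 else 0 := fun i =>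
    Pool.Agent.Campana.exists_derivation (fun j => Θ (X (Sum.inl (e j)))) he (fun j => if j = i then 1 else 0)
  choose Δ hΔ using hder
  have hΔL0 : ∀ i, ∀ x ∈ L0, (Δ i).restrictScalars ℚ x ∈ L0 := by
    intro i
    refine derivation_mem_adjoin ((Δ i).restrictScalars ℚ) _ L0 rfl ?_
    rintro x (⟨s, rfl⟩ | ⟨j, rfl⟩)
    · have h1 : (Δ i).restrictScalars ℚ (algebraMap ℂ Ω (t s)) = 0 := (Δ i).map_algebraMap (t s)
      simp only []
      rw [h1]
      exact zero_mem _
    · have h1 : (Δ i).restrictScalars ℚ (Θ (X (Sum.inl (e j)))) = if j = i then 1 else 0 := hΔ i j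
      simp only []
      rw [h1]
      split_ifs
      · exact one_mem _
      · exact zero_mem _
  have hΔL : ∀ i, ∀ z ∈ L, Δ i z ∈ L := by
    intro i z hz
    exact derivation_mem_of_isAlgebraic ((Δ i).restrictScalars ℚ) L0 L hL0L (hΔL0 i) hz (hLalg z hz)
  -- the field of constants
  let Kc : IntermediateField ℚ ℂ := IntermediateField.adjoin ℚ (Set.range t)
  have hKcL0 : ∀ c ∈ Kc, algebraMap ℂ Ω c ∈ IntermediateField.adjoin ℚ (Set.range (fun s => algebraMap ℂ Ω (t s))) := by
    intro c hc
    let F' : IntermediateField ℚ ℂ :=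
      (IntermediateField.adjoin ℚ (Set.range (fun s => algebraMap ℂ Ω (t s)))).comap (IsScalarTower.toAlgHom ℚ ℂ Ω)
    have h1 : Kc ≤ F' := by
      rw [IntermediateField.adjoin_le_iff]
      rintro _ ⟨s, rfl⟩
      show algebraMap ℂ Ω (t s) ∈ IntermediateField.adjoin ℚ (Set.range (fun s => algebraMap ℂ Ω (t s)))
      exact IntermediateField.subset_adjoin _ _ ⟨s, rfl⟩
    exact h1 hc
  have hKcKC : ∀ c ∈ Kc, ∃ a ∈ KC k T, ΘF a = algebraMap ℂ Ω c := by
    intro c hc
    have h1 := hKcL0 c hc
    let F' : IntermediateField ℚ Ω := (KC k T).map (ΘF.toRatAlgHom)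
    have h2 : IntermediateField.adjoin ℚ (Set.range (fun s => algebraMap ℂ Ω (t s))) ≤ F' := by
      rw [IntermediateField.adjoin_le_iff]
      rintro _ ⟨s, rfl⟩
      refine ⟨algebraMap (SS k T) (FF k T) (tS k T s), IntermediateField.subset_adjoin _ _ ⟨s, rfl⟩, ?_⟩
      show ΘF (algebraMap (SS k T) (FF k T) (tS k T s)) = _
      rw [hΘF, hΘ]
    obtain ⟨a, ha, hac⟩ := h2 h1
    exact ⟨a, ha, hac⟩
  have hKCKc : ∀ a ∈ KC k T, ∃ c : Kc, algebraMap ℂ Ω c = ΘF a := by
    intro a ha
    let F' : IntermediateField ℚ Ω := Kc.map (IsScalarTower.toAlgHom ℚ ℂ Ω)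
    have h2 : KC k T ≤ F'.comap (ΘF.toRatAlgHom) := by
      rw [KC, IntermediateField.adjoin_le_iff]
      rintro _ ⟨s, rfl⟩
      refine ⟨t s, IntermediateField.subset_adjoin _ _ ⟨s, rfl⟩, ?_⟩
      show algebraMap ℂ Ω (t s) = ΘF (algebraMap (SS k T) (FF k T) (tS k T s))
      rw [hΘF, hΘ]
    obtain ⟨c, hc, hca⟩ := h2 ha
    exact ⟨⟨c, hc⟩, hca⟩
  -- elements of L algebraic over the constants
  have hconst : ∀ z ∈ L, (∀ i, Δ i z = 0) → ∃ c : Kc, algebraMap ℂ Ω c = z := by
    intro z hz h0
    have halg : IsAlgebraic Kc z := by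
      refine isAlgebraic_of_constant (k := Kc) (fun i => Θ (X (Sum.inl (e i))))
        (he.restrictScalars (algebraMap Kc ℂ).injective) (fun i => (Δ i).restrictScalars Kc) (fun i j => hΔ i j) ?_ h0
      obtain ⟨p, hp, hpc, hpz⟩ := isAlgebraic_iff_coeff.1 (hLalg z hz)
      refine isAlgebraic_iff_coeff.2 ⟨p, hp, fun n => ?_, hpz⟩
      obtain ⟨c, hc⟩ := hpc n
      rw [← hc]
      have h1 : L0 ≤ (IntermediateField.adjoin Kc (Set.range fun i => Θ (X (Sum.inl (e i))))).restrictScalars ℚ := by
        rw [hL0, IntermediateField.adjoin_le_iff]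
        rintro x (⟨s, rfl⟩ | ⟨i, rfl⟩)
        · have h2 : algebraMap ℂ Ω (t s) = algebraMap Kc Ω ⟨t s, IntermediateField.subset_adjoin _ _ ⟨s, rfl⟩⟩ := rfl
          simp only []
          rw [h2]
          exact (IntermediateField.adjoin Kc (Set.range fun i => Θ (X (Sum.inl (e i))))).algebraMap_mem _
        · have h3 : Θ (X (Sum.inl (e i))) ∈ IntermediateField.adjoin Kc (Set.range fun i => Θ (X (Sum.inl (e i)))) :=
            IntermediateField.subset_adjoin Kc _ (Set.mem_range_self (f := fun i => Θ (X (Sum.inl (e i)))) i)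
          exact h3
      exact ⟨⟨c, h1 c.2⟩, rfl⟩
    -- z = ΘF y
    have h1 : ∃ y : FF k T, ΘF y = z := by
      have h2 : L ≤ (ΘF.toRatAlgHom).fieldRange := by
        rw [hL, IntermediateField.adjoin_le_iff]
        rintro _ ⟨a, rfl⟩
        exact ⟨algebraMap (SS k T) (FF k T) a, hΘF a⟩
      exact h2 hz
    obtain ⟨y, rfl⟩ := h1
    have h2 : IsAlgebraic (KC k T) y := by
      obtain ⟨p, hp, hpc, hpz⟩ := isAlgebraic_iff_coeff.1 halg
      have h3 : p ∈ Polynomial.lifts (ΘF.comp (algebraMap (KC k T) (FF k T))) := by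
        rw [Polynomial.lifts_iff_coeff_lifts]
        intro n
        obtain ⟨c, hc⟩ := hpc n
        obtain ⟨a, ha, hac⟩ := hKcKC c c.2
        refine ⟨⟨a, ha⟩, ?_⟩
        rw [← hc]
        exact hac
      obtain ⟨q, hq⟩ := (Polynomial.mem_lifts p).1 h3
      refine ⟨q, ?_, ?_⟩
      · rintro rfl
        rw [Polynomial.map_zero] at hq
        exact hp hq.symm
      · apply ΘF.injective
        rw [map_zero, ← hpz, ← hq, ← Polynomial.map_map, Polynomial.eval_map, Polynomial.eval₂_at_apply,
          Polynomial.eval_map_algebraMap]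
    exact hKCKc y (mem_KC hT h2)
  -- minimal relations
  have main : ∀ n : ℕ, ∀ f : ι → Ω, (∀ i, f i ∈ L) → ∑ i, algebraMap ℂ Ω (lam i) * f i = 0 →
      (Finset.univ.filter fun i => f i ≠ 0).card = n → ∀ i, f i = 0 := by
    intro n
    induction n using Nat.strong_induction_on with
    | _ n ih =>
      intro f hf h hn
      by_contra hne
      push Not at hne
      obtain ⟨i0, hi0⟩ := hne
      let g : ι → Ω := fun i => f i / f i0
      have hgL : ∀ i, g i ∈ L := fun i => div_mem (hf i) (hf i0)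
      have hgsum : ∑ i, algebraMap ℂ Ω (lam i) * g i = 0 := by
        have h1 : ∑ i, algebraMap ℂ Ω (lam i) * g i = (∑ i, algebraMap ℂ Ω (lam i) * f i) / f i0 := by
          rw [Finset.sum_div]
          exact Finset.sum_congr rfl fun i _ => (mul_div_assoc _ _ _).symm
        rw [h1, h, zero_div]
      have hg0 : g i0 = 1 := div_self hi0
      have hD0 : ∀ j, ∀ i, Δ j (g i) = 0 := by
        intro j
        refine ih _ ?_ (fun i => Δ j (g i)) (fun i => hΔL j _ (hgL i)) ?_ rfl
        · rw [← hn]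
          apply Finset.card_lt_card
          rw [Finset.ssubset_iff_of_subset]
          · refine ⟨i0, by simp [hi0], ?_⟩
            simp only [Finset.mem_filter, Finset.mem_univ, true_and, not_not]
            rw [hg0]
            exact (Δ j).map_one_eq_zero
          · intro i hi
            simp only [Finset.mem_filter, Finset.mem_univ, true_and] at hi ⊢
            intro h1
            apply hi
            have h2 : g i = 0 := by
              show f i / f i0 = 0
              rw [h1, zero_div]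
            rw [h2, map_zero]
        · have h1 := congrArg (Δ j) hgsum
          rw [map_zero, map_sum] at h1
          rw [← h1]
          refine Finset.sum_congr rfl fun i _ => ?_
          rw [Derivation.leibniz, Derivation.map_algebraMap, smul_zero, add_zero, smul_eq_mul]
      have hc : ∀ i, ∃ c : Kc, algebraMap ℂ Ω c = g i := fun i => hconst _ (hgL i) (fun j => hD0 j i)
      choose c hc using hc
      have h1 : ∑ i, c i • lam i = 0 := by
        apply (algebraMap ℂ Ω).injective
        rw [map_zero, ← hgsum, map_sum]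
        refine Finset.sum_congr rfl fun i _ => ?_
        have h2 : c i • lam i = (c i : ℂ) * lam i := rfl
        rw [h2, map_mul, hc, mul_comm]
      have h2 := Fintype.linearIndependent_iff.1 hlam c h1 i0
      have h3 : g i0 = 0 := by
        rw [← hc i0, h2]
        simp
      rw [hg0] at h3
      exact one_ne_zero h3
  exact main _ f hf h rfl

end Pool.Agent.MP_1209e6_fr
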