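import Pool.Agent.Lib_MP_1209e6_fr.CLin

/-!
PIECE [CMN] (MP_1209e6_ag).  Irreducibility of the fibres: the equations of a generic point hold at all points.
-/

open MvPolynomial

namespace Pool.Agent.MP_1209e6_fr

variable {k : ℕ} {T : Type} [Fintype T] [DecidableEq T] {Ω : Type} [Field Ω] [Algebra ℂ Ω]
  [Algebra ℚ Ω] [IsScalarTower ℚ ℂ Ω]

/-- Common denominators in `ℚ(t)`. -/
private theorem cmn_denom {S J : Type} [Fintype J] (t : S → ℂ)
    (κ : J → IntermediateField.adjoin ℚ (Set.range t)) :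
    ∃ ρ : MvPolynomial S ℚ, aeval t ρ ≠ 0 ∧ ∀ j, ∃ π : MvPolynomial S ℚ,
      aeval t π = (κ j : ℂ) * aeval t ρ := by
  classical
  have h : ∀ j, ∃ r s : MvPolynomial S ℚ, aeval t s ≠ 0 ∧ (κ j : ℂ) * aeval t s = aeval t r := by
    intro j
    obtain ⟨r, s, hrs⟩ := (IntermediateField.mem_adjoin_range_iff ℚ t (κ j : ℂ)).1 (κ j).2
    by_cases hs : aeval t s = 0
    · refine ⟨0, 1, by simp, ?_⟩
      rw [hrs, hs]
      simp
    · refine ⟨r, s, hs, ?_⟩
      rw [hrs, div_mul_cancel₀ _ hs]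
  choose r s hs hrs using h
  refine ⟨∏ j, s j, ?_, ?_⟩
  · rw [map_prod]
    exact Finset.prod_ne_zero_iff.2 fun j _ => hs j
  · intro j
    refine ⟨r j * ∏ j' ∈ Finset.univ.erase j, s j', ?_⟩
    rw [map_mul, ← hrs j, mul_assoc, ← map_mul, Finset.mul_prod_erase _ _ (Finset.mem_univ j)]

/-- PIECE [CMN].  Proof.  Let `Θ : SS →ₐ Ω` be the hom of `exists_hom` for `algebraMap ∘ t` and `x`, and `Θa : SS →ₐ ℂ` the one for `t` and `a`.  Let `K = ℚ(t) ⊆ ℂ`.  Choose a basis `lam_1, ..., lam_m` over `K` of the `K`-span of the coefficients of `q` in `ℂ`, so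
`q = ∑ lam_i q_i` with `q_i ∈ MvPolynomial (Fin k × T) K`.  Put `f_i = q_i(x)` (`K → ℂ → Ω`), in the field generated by the image of `Θ` (which contains `t` and `x`).  `∑ lam_i f_i = q(x) = 0`, so `f_i = 0` by `linearDisjoint`.
Every element of `K` is a quotient of elements of `ℚ[t]`; let `0 ≠ ρ_i ∈ ℚ[t]` be a common denominator of the coefficients of `q_i`: `ρ_i q_i = ∑_μ π_(i,μ)(t) X^μ`, `π_(i,μ) ∈ MvPolynomial (Sym (Fin k ⊕ T) 3) ℚ`.
Let `P_i = ∑_μ π_(i,μ)(tS) X^μ ∈ SS` (`X_(a,p)` the variables `inl (a,p)`).  `Θ P_i = ρ_i f_i = 0`, so `P_i = 0` (`injective_of_trdeg`), so `0 = Θa P_i = ρ_i q_i(a)`, `q_i(a) = 0`, `q(a) = ∑ lam_i q_i(a) = 0`. -/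
theorem eval_eq_zero (hT : Fintype.card T = Fintype.card (R2 k) + 1) {D : ℕ}
    (hD : D + Fintype.card (Sym (Fin k) 3) = k * Fintype.card T)
    (t : Sym (Fin k ⊕ T) 3 → ℂ) (ht : AlgebraicIndependent ℚ t) (x : Fin k → T → Ω)
    (hx : ∀ a b d : Fin k, tri (fun i j l => algebraMap ℂ Ω (t (sy i j l))) (gx x (Sum.inl a)) (gx x (Sum.inl b)) (gx x (Sum.inl d)) = 0)
    (e : Fin D → Fin k × T) (he : AlgebraicIndependent ℂ (fun i => x (e i).1 (e i).2))
    (q : MvPolynomial (Fin k × T) ℂ) (hq : aeval (fun p => x p.1 p.2) q = 0) (a : Fin k → T → ℂ)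
    (ha : ∀ b c d : Fin k, tri (fun i j l => t (sy i j l)) (gx a (Sum.inl b)) (gx a (Sum.inl c)) (gx a (Sum.inl d)) = 0) :
    eval (fun p => a p.1 p.2) q = 0 := by
  classical
  obtain ⟨Θ, hΘx, hΘt⟩ := exists_hom (fun s => algebraMap ℂ Ω (t s)) x hx
  obtain ⟨Θa, hΘax, hΘat⟩ := exists_hom t a ha
  have he' : AlgebraicIndependent ℂ (fun i => Θ (X (Sum.inl (e i)))) := by
    have h1 : (fun i => Θ (X (Sum.inl (e i)))) = fun i => x (e i).1 (e i).2 := by
      funext i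
      exact hΘx (e i).1 (e i).2
    rw [h1]
    exact he
  have hinj := injective_of_trdeg hD t ht Θ hΘt e he'
  -- the monomials
  set XS : (Fin k × T →₀ ℕ) → SS k T := fun μ => ∏ p : Fin k × T, X (Sum.inl p) ^ μ p with hXS
  have hΘX : ∀ μ, Θ (XS μ) = ∏ p : Fin k × T, x p.1 p.2 ^ μ p := by
    intro μ
    rw [hXS]
    simp only [map_prod, map_pow]
    exact Finset.prod_congr rfl fun p _ => by rw [← hΘx p.1 p.2]
  have hΘaX : ∀ μ, Θa (XS μ) = ∏ p : Fin k × T, a p.1 p.2 ^ μ p := by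
    intro μ
    rw [hXS]
    simp only [map_prod, map_pow]
    exact Finset.prod_congr rfl fun p _ => by rw [← hΘax p.1 p.2]
  have hqx : ∑ μ ∈ q.support, algebraMap ℂ Ω (q.coeff μ) * Θ (XS μ) = 0 := by
    rw [aeval_def, eval₂_eq'] at hq
    rw [← hq]
    exact Finset.sum_congr rfl fun μ _ => by rw [hΘX]
  have hqa : eval (fun p => a p.1 p.2) q = ∑ μ ∈ q.support, q.coeff μ * Θa (XS μ) := by
    rw [eval_eq']
    exact Finset.sum_congr rfl fun μ _ => by rw [hΘaX]
  -- the basis of the span of the coefficients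
  let KF := IntermediateField.adjoin ℚ (Set.range t)
  let V : Submodule KF ℂ := Submodule.span KF (Set.range fun μ : q.support => q.coeff μ.1)
  have : FiniteDimensional KF V := FiniteDimensional.span_of_finite KF (Set.finite_range _)
  let b := Module.finBasis KF V
  let κ : q.support → Fin (Module.finrank KF V) → KF := fun μ i =>
    b.repr ⟨q.coeff μ.1, Submodule.subset_span ⟨μ, rfl⟩⟩ i
  have hκ : ∀ μ : q.support, q.coeff μ.1 = ∑ i, (κ μ i : ℂ) * (b i : ℂ) := by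
    intro μ
    have h1 := congrArg (fun v : V => (v : ℂ))
      (b.sum_repr ⟨q.coeff μ.1, Submodule.subset_span ⟨μ, rfl⟩⟩)
    simp only [Submodule.coe_sum, Submodule.coe_smul] at h1
    rw [← h1]
    rfl
  have hlam : LinearIndependent KF (fun i => (b i : ℂ)) :=
    b.linearIndependent.map' V.subtype (Submodule.ker_subtype V)
  obtain ⟨ρ, hρ0, hρ⟩ := cmn_denom (J := q.support × Fin (Module.finrank KF V)) t
    (fun j => κ j.1 j.2)
  choose π hπ using hρ
  have hΘpoly : ∀ r : MvPolynomial (Sym (Fin k ⊕ T) 3) ℚ,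
      Θ (aeval (tS k T) r) = algebraMap ℂ Ω (aeval t r) := by
    intro r
    have h1 : Θ.comp (aeval (tS k T)) = ((IsScalarTower.toAlgHom ℚ ℂ Ω).comp (aeval t)) := by
      apply MvPolynomial.algHom_ext
      intro s
      simp [hΘt]
    exact congrArg (fun φ : MvPolynomial (Sym (Fin k ⊕ T) 3) ℚ →ₐ[ℚ] Ω => φ r) h1
  have hΘapoly : ∀ r : MvPolynomial (Sym (Fin k ⊕ T) 3) ℚ,
      Θa (aeval (tS k T) r) = aeval t r := by
    intro r
    have h1 : Θa.comp (aeval (tS k T)) = aeval t := by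
      apply MvPolynomial.algHom_ext
      intro s
      simp [hΘat]
    exact congrArg (fun φ : MvPolynomial (Sym (Fin k ⊕ T) 3) ℚ →ₐ[ℚ] ℂ => φ r) h1
  -- the field generated by the image of `Θ`
  set L := IntermediateField.adjoin ℚ (Set.range Θ) with hL
  have hΘL : ∀ y, Θ y ∈ L := fun y => IntermediateField.subset_adjoin ℚ _ ⟨y, rfl⟩
  have hKL : ∀ c : KF, algebraMap ℂ Ω (c : ℂ) ∈ L := by
    intro c
    obtain ⟨r, s, hrs⟩ := (IntermediateField.mem_adjoin_range_iff ℚ t (c : ℂ)).1 c.2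
    rw [hrs, map_div₀, ← hΘpoly, ← hΘpoly]
    exact div_mem (hΘL _) (hΘL _)
  have hf := linearDisjoint hT hD t ht Θ hΘt e he' (fun i => (b i : ℂ)) hlam
    (fun i => ∑ μ : q.support, algebraMap ℂ Ω (κ μ i : ℂ) * Θ (XS μ.1))
    (fun i => sum_mem fun μ _ => mul_mem (hKL _) (hΘL _)) (by
      rw [← Finset.sum_coe_sort] at hqx
      rw [← hqx]
      simp only [Finset.mul_sum]
      rw [Finset.sum_comm]
      apply Finset.sum_congr rfl
      intro μ _
      rw [hκ μ, map_sum, Finset.sum_mul]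
      apply Finset.sum_congr rfl
      intro i _
      rw [map_mul]
      ring)
  have hP : ∀ i, ∑ μ : q.support, aeval (tS k T) (π (μ, i)) * XS μ.1 = 0 := by
    intro i
    apply hinj
    rw [map_sum, map_zero]
    simp only [map_mul, hΘpoly, hπ]
    have h1 := hf i
    have h2 : ∑ μ : q.support, algebraMap ℂ Ω (κ μ i : ℂ) * algebraMap ℂ Ω (aeval t ρ) * Θ (XS μ.1) =
        algebraMap ℂ Ω (aeval t ρ) *
          ∑ μ : q.support, algebraMap ℂ Ω (κ μ i : ℂ) * Θ (XS μ.1) := by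
      rw [Finset.mul_sum]
      exact Finset.sum_congr rfl fun μ _ => by ring
    rw [h2, h1, mul_zero]
  have hA : ∀ i, ∑ μ : q.support, (κ μ i : ℂ) * Θa (XS μ.1) = 0 := by
    intro i
    have h1 := congrArg Θa (hP i)
    rw [map_sum, map_zero] at h1
    simp only [map_mul, hΘapoly, hπ] at h1
    have h2 : ∑ μ : q.support, (κ μ i : ℂ) * aeval t ρ * Θa (XS μ.1) =
        aeval t ρ * ∑ μ : q.support, (κ μ i : ℂ) * Θa (XS μ.1) := by
      rw [Finset.mul_sum]
      exact Finset.sum_congr rfl fun μ _ => by ring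
    rw [h2] at h1
    exact (mul_eq_zero.1 h1).resolve_left hρ0
  rw [hqa, ← Finset.sum_coe_sort]
  have h3 : ∑ μ : q.support, q.coeff μ.1 * Θa (XS μ.1) =
      ∑ i, (b i : ℂ) * ∑ μ : q.support, (κ μ i : ℂ) * Θa (XS μ.1) := by
    simp only [Finset.mul_sum]
    rw [Finset.sum_comm]
    apply Finset.sum_congr rfl
    intro μ _
    rw [hκ μ, Finset.sum_mul]
    apply Finset.sum_congr rfl
    intro i _
    ring
  rw [h3]
  exact Finset.sum_eq_zero fun i _ => by rw [hA i, mul_zero]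

end Pool.Agent.MP_1209e6_fr
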