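import Pool.Agent.Lib_MP_1209e6_fr.CLinA

/-!
PIECE [CMN] (MP_1209e6_ag).  Irreducibility of the fibres: the equations of a generic point hold at all points.
-/

open MvPolynomial

namespace Pool.Agent.MP_1209e6_fr

variable {k : ℕ} {T : Type} [Fintype T] [DecidableEq T] {Ω : Type} [Field Ω] [Algebra ℂ Ω]
  [Algebra ℚ Ω] [IsScalarTower ℚ ℂ Ω]

/-- PIECE [CMN].  `injective_of_trdeg` and `rename Sum.inl`. -/
theorem aeval_ne_zero {D : ℕ} (hD : D + Fintype.card (Sym (Fin k) 3) = k * Fintype.card T)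
    (t : Sym (Fin k ⊕ T) 3 → ℂ) (ht : AlgebraicIndependent ℚ t) (x : Fin k → T → Ω)
    (hx : ∀ a b d : Fin k, tri (fun i j l => algebraMap ℂ Ω (t (sy i j l))) (gx x (Sum.inl a)) (gx x (Sum.inl b)) (gx x (Sum.inl d)) = 0)
    (e : Fin D → Fin k × T) (he : AlgebraicIndependent ℂ (fun i => x (e i).1 (e i).2))
    (δ : MvPolynomial (Fin k × T) ℚ) (hδ : δ ≠ 0) : aeval (fun p => x p.1 p.2) δ ≠ 0 := by
  obtain ⟨Θ, hΘx, hΘt⟩ := exists_hom (fun s => algebraMap ℂ Ω (t s)) x hx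
  have he' : AlgebraicIndependent ℂ (fun i => Θ (X (Sum.inl (e i)))) := by
    have h1 : (fun i => Θ (X (Sum.inl (e i)))) = fun i => x (e i).1 (e i).2 := by
      funext i
      exact hΘx (e i).1 (e i).2
    rw [h1]
    exact he
  have hinj := injective_of_trdeg hD t ht Θ hΘt e he'
  intro h0
  have h1 : Θ (rename Sum.inl δ) = aeval (fun p => x p.1 p.2) δ := by
    have h2 : (Θ.comp (rename Sum.inl)) = (aeval (fun p : Fin k × T => x p.1 p.2) : MvPolynomial (Fin k × T) ℚ →ₐ[ℚ] Ω) := by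
      refine MvPolynomial.algHom_ext fun p => ?_
      rw [AlgHom.comp_apply, rename_X, aeval_X]
      exact hΘx p.1 p.2
    rw [← h2, AlgHom.comp_apply]
  rw [h0] at h1
  have h3 : rename Sum.inl δ = (0 : SS k T) := hinj (by rw [h1, map_zero])
  exact hδ (rename_injective _ Sum.inl_injective (by rw [h3, map_zero]))

end Pool.Agent.MP_1209e6_fr
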