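import Pool.Agent.Lib_MP_1209e6_fr.ChartB

/-!
PIECE [CHA] (MP_1209e6_ag).  Normalised frames and the self-map in the standard chart of the Grassmannian.
-/

namespace Pool.Agent.MP_1209e6_fr

variable {R S : Type*} [CommRing R] [CommRing S] {r : ℕ}

/-- PIECE [CHA].  The self-map in the chart.

Proof.  Put `c0 = cv c A (inl 0)`, `y = yv c A`, so `cv c A = c0 • y`, `x = nrm A`, `B = blk A`, `t = tri c y y y`.  Then
`Ft c A i = sc A • (c0^3 t • A i - 3 c0^3 (tri c (A i) y y) • y) = (sc A * c0^3) • ∑ j, B i j • (t • x j - 3 (tri c (x j) y y) • y)` (`eq_sum_nrm`).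
On the other hand `σ (A i) = ∑ j, σ (B i j) • σ (x j)` (apply `σ` to `eq_sum_nrm`), and the components `inl (l.succ)` give (`nrm_succ`, `yv_succ`)
`σ (B i l) = sc A * c0^3 * t * B i l`.  Hence `(sc A * c0^3) * ∑ j, B i j * (t * σ (x j k) - t * x j k + 3 * tri c (x j) y y * y k) = 0` for all `i`; `sc A * c0^3` is a unit
and `B` is invertible. -/
theorem chart_dyn [Algebra ℚ R] {c : V r → V r → V r → R} (σ : R →+* R) {A : Fin (r + 1) → V r → R}
    (hA : ∀ i k, σ (A i k) = Ft c A i k) (hdet : IsUnit (blk A).det) (hcv : IsUnit (cv c A (.inl 0))) (hs : IsUnit (sc A))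
    (i : Fin (r + 1)) (k : V r) :
    tri c (yv c A) (yv c A) (yv c A) * σ (nrm A i k) =
      tri c (yv c A) (yv c A) (yv c A) * nrm A i k - 3 * tri c (nrm A i) (yv c A) (yv c A) * yv c A k := by
  classical
  set y := yv c A with hy
  set x := nrm A with hx
  set t := tri c y y y with ht
  set B := blk A with hB
  set c0 := cv c A (.inl 0) with hc0
  have hcvy : cv c A = c0 • y := by
    funext k
    simp only [Pi.smul_apply, smul_eq_mul, hy, yv]
    rw [← mul_assoc, ← hc0, Ring.mul_inverse_cancel _ hcv, one_mul]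
  have htau : tau c A = c0 ^ 3 * t := by
    unfold tau
    rw [hcvy, tri_smul_left, tri_smul_mid, tri_smul_right, ← ht]
    ring
  have hFh : ∀ i k, Fh c A i k = c0 ^ 3 * (t * A i k - 3 * tri c (A i) y y * y k) := by
    intro i k
    unfold Fh
    simp only [Pi.sub_apply, Pi.smul_apply, smul_eq_mul]
    rw [htau, hcvy, tri_smul_mid, tri_smul_right]
    simp only [Pi.smul_apply, smul_eq_mul]
    ring
  set u := sc A * c0 ^ 3 with hu
  have huu : IsUnit u := hs.mul (hcv.pow 3)
  have hAsum : ∀ i k, A i k = ∑ j, B i j * x j k := by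
    intro i k
    have h1 := congrFun (eq_sum_nrm hdet i) k
    rw [Finset.sum_apply] at h1
    exact h1
  have htriA : ∀ i, tri c (A i) y y = ∑ j, B i j * tri c (x j) y y := by
    intro i
    conv_lhs => rw [eq_sum_nrm hdet i]
    rw [tri_sum_left]
    exact Finset.sum_congr rfl fun j _ => tri_smul_left _ _ _ _ _
  have hFt : ∀ i k, Ft c A i k = u * ∑ j, B i j * (t * x j k - 3 * tri c (x j) y y * y k) := by
    intro i k
    unfold Ft
    simp only [Pi.smul_apply, smul_eq_mul]
    rw [hFh, htriA, hAsum i k, hu, Finset.mul_sum, Finset.mul_sum, Finset.sum_mul,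
      ← Finset.sum_sub_distrib, Finset.mul_sum, Finset.mul_sum, Finset.mul_sum]
    refine Finset.sum_congr rfl fun j _ => ?_
    ring
  have hσB : ∀ i l, σ (B i l) = u * t * B i l := by
    intro i l
    have h1 : B i l = A i (.inl l.succ) := rfl
    rw [h1, hA, hFt]
    have h2 : ∀ j, B i j * (t * x j (.inl l.succ) - 3 * tri c (x j) y y * y (.inl l.succ))
        = if j = l then B i j * t else 0 := by
      intro j
      rw [hx, nrm_succ hdet, hy, yv_succ]
      split_ifs <;> ring
    rw [Finset.sum_congr rfl fun j _ => h2 j, Finset.sum_ite_eq' Finset.univ l, if_pos (Finset.mem_univ _)]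
    have h3 : B i l = A i (.inl l.succ) := rfl
    rw [h3]
    ring
  have hkey : ∀ i k, ∑ j, B i j * (t * σ (x j k) - (t * x j k - 3 * tri c (x j) y y * y k)) = 0 := by
    intro i k
    have h1 : σ (A i k) = ∑ j, u * t * B i j * σ (x j k) := by
      rw [hAsum i k, map_sum]
      refine Finset.sum_congr rfl fun j _ => ?_
      rw [map_mul, hσB]
    rw [hA, hFt] at h1
    have h2 : u * ∑ j, B i j * (t * σ (x j k) - (t * x j k - 3 * tri c (x j) y y * y k)) = 0 := by
      have h3 : ∑ j, B i j * (t * σ (x j k) - (t * x j k - 3 * tri c (x j) y y * y k))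
          = ∑ j, t * B i j * σ (x j k) - ∑ j, B i j * (t * x j k - 3 * tri c (x j) y y * y k) := by
        rw [← Finset.sum_sub_distrib]
        refine Finset.sum_congr rfl fun j _ => ?_
        ring
      rw [h3, mul_sub, h1, Finset.mul_sum, ← Finset.sum_sub_distrib]
      refine Finset.sum_eq_zero fun j _ => ?_
      ring
    exact (huu.mul_right_eq_zero).1 h2
  have hz : (fun j => t * σ (x j k) - (t * x j k - 3 * tri c (x j) y y * y k)) = 0 := by
    have h1 : B.mulVec (fun j => t * σ (x j k) - (t * x j k - 3 * tri c (x j) y y * y k)) = 0 := by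
      funext i
      exact hkey i k
    have h2 := congrArg (B⁻¹.mulVec) h1
    rw [Matrix.mulVec_mulVec, Matrix.nonsing_inv_mul _ hdet, Matrix.one_mulVec,
      Matrix.mulVec_zero] at h2
    exact h2
  have h3 := congrFun hz i
  exact sub_eq_zero.1 h3

end Pool.Agent.MP_1209e6_fr
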