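import Pool.Agent.Lib_MP_1209e6_fr.Base

/-!
PIECE [CHA] (MP_1209e6_ag).  Normalised frames and the self-map in the standard chart of the Grassmannian.
-/

namespace Pool.Agent.MP_1209e6_fr

variable {R S : Type*} [CommRing R] [CommRing S] {r : ℕ}

/-- The block of a frame at the indices `1, ..., r + 1` of `I r`. -/
def blk (A : Fin (r + 1) → V r → R) : Matrix (Fin (r + 1)) (Fin (r + 1)) R := Matrix.of fun i j => A i (.inl j.succ)

/-- The normalised frame: `blk⁻¹ * A`. -/
noncomputable def nrm (A : Fin (r + 1) → V r → R) : Fin (r + 1) → V r → R := fun i k => ∑ j, (blk A)⁻¹ i j * A j k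

/-- PIECE [CHA]. -/
theorem nrm_succ {A : Fin (r + 1) → V r → R} (h : IsUnit (blk A).det) (i j : Fin (r + 1)) :
    nrm A i (.inl j.succ) = if i = j then 1 else 0 := by
  have h1 : ((blk A)⁻¹ * blk A) i j = (1 : Matrix (Fin (r + 1)) (Fin (r + 1)) R) i j := by
    rw [Matrix.nonsing_inv_mul _ h]
  rw [Matrix.mul_apply, Matrix.one_apply] at h1
  exact h1

/-- PIECE [CHA]. -/
theorem eq_sum_nrm {A : Fin (r + 1) → V r → R} (h : IsUnit (blk A).det) (i : Fin (r + 1)) :
    A i = ∑ j, blk A i j • nrm A j := by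
  funext k
  rw [Finset.sum_apply]
  have h1 : ∀ l, ∑ j, blk A i j * (blk A)⁻¹ j l = if i = l then 1 else 0 := by
    intro l
    have h2 : (blk A * (blk A)⁻¹) i l = (1 : Matrix (Fin (r + 1)) (Fin (r + 1)) R) i l := by
      rw [Matrix.mul_nonsing_inv _ h]
    rw [Matrix.mul_apply, Matrix.one_apply] at h2
    exact h2
  have h3 : ∑ j, (blk A i j • nrm A j) k = ∑ l, (∑ j, blk A i j * (blk A)⁻¹ j l) * A l k := by
    simp only [Pi.smul_apply, smul_eq_mul, nrm, Finset.mul_sum, Finset.sum_mul]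
    rw [Finset.sum_comm]
    refine Finset.sum_congr rfl fun l _ => Finset.sum_congr rfl fun j _ => ?_
    ring
  rw [h3]
  simp only [h1]
  simp

/-- PIECE [CHA]. -/
theorem nrm_eq_sum (A : Fin (r + 1) → V r → R) (i : Fin (r + 1)) :
    nrm A i = ∑ j, (blk A)⁻¹ i j • A j := by
  funext k
  rw [Finset.sum_apply]
  rfl

/-- PIECE [CHA].  `blk` commutes with `f`; the inverse of an invertible matrix commutes with `f` (uniqueness of inverses). -/
theorem map_nrm (f : R →+* S) {A : Fin (r + 1) → V r → R} (h : IsUnit (blk A).det) (i : Fin (r + 1)) (k : V r) :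
    f (nrm A i k) = nrm (fun i k => f (A i k)) i k := by
  have hblk : (f.mapMatrix (blk A)) = blk (fun i k => f (A i k)) := by
    ext i j
    rfl
  have hinv : f.mapMatrix ((blk A)⁻¹) = (blk (fun i k => f (A i k)))⁻¹ := by
    have h1 : f.mapMatrix ((blk A)⁻¹) * blk (fun i k => f (A i k)) = 1 := by
      rw [← hblk, ← map_mul, Matrix.nonsing_inv_mul _ h, map_one]
    exact (Matrix.inv_eq_left_inv h1).symm
  rw [nrm, nrm, map_sum, ← hinv]
  refine Finset.sum_congr rfl fun j _ => ?_
  rw [map_mul]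
  rfl

end Pool.Agent.MP_1209e6_fr
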