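import Pool.Agent.Lib_MP_1209e6_fr.BVan
import Pool.Agent.Lib_MP_1209e6_fr.ChartA

/-!
PIECE [CHA] (MP_1209e6_ag).  Normalised frames and the self-map in the standard chart of the Grassmannian.
-/

namespace Pool.Agent.MP_1209e6_fr

variable {R S : Type*} [CommRing R] [CommRing S] {r : ℕ}

/-- The vector `cv` normalised to have first component `1`. -/
noncomputable def yv [Algebra ℚ R] (c : V r → V r → V r → R) (A : Fin (r + 1) → V r → R) : V r → R :=
  fun k => Ring.inverse (cv c A (.inl 0)) * cv c A k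

/-- PIECE [CHA]. -/
theorem yv_zero [Algebra ℚ R] {c : V r → V r → V r → R} {A : Fin (r + 1) → V r → R} (h : IsUnit (cv c A (.inl 0))) :
    yv c A (.inl 0) = 1 := by
  exact Ring.inverse_mul_cancel _ h

/-- PIECE [CHA]. -/
theorem yv_succ [Algebra ℚ R] (c : V r → V r → V r → R) (A : Fin (r + 1) → V r → R) (j : Fin (r + 1)) :
    yv c A (.inl j.succ) = 0 := by
  have h : cv c A (.inl j.succ) = 0 := by
    simp [cv]
  rw [yv, h, mul_zero]

/-- PIECE [CHA].  `tri_frame_cv` and linearity. -/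
theorem tri_nrm_yv [Algebra ℚ R] {c : V r → V r → V r → R} (hc : SymC c) (A : Fin (r + 1) → V r → R) (i j : Fin (r + 1)) :
    tri c (nrm A i) (nrm A j) (yv c A) = 0 := by
  have hy : yv c A = Ring.inverse (cv c A (.inl 0)) • cv c A := by
    funext k
    simp [yv]
  rw [nrm_eq_sum A i, nrm_eq_sum A j, hy, tri_smul_right, tri_sum_left]
  simp only [tri_sum_mid, tri_smul_left, tri_smul_mid, tri_frame_cv hc, mul_zero, Finset.sum_const_zero]

/-- PIECE [CHA].  Linearity. -/
theorem tri_nrm [Algebra ℚ R] {c : V r → V r → V r → R} {A : Fin (r + 1) → V r → R}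
    (h : ∀ i j k, tri c (A i) (A j) (A k) = 0) (i j k : Fin (r + 1)) : tri c (nrm A i) (nrm A j) (nrm A k) = 0 := by
  rw [nrm_eq_sum A i, nrm_eq_sum A j, nrm_eq_sum A k, tri_sum_left]
  simp only [tri_sum_mid, tri_sum_right, tri_smul_left, tri_smul_mid, tri_smul_right, h, mul_zero,
    Finset.sum_const_zero]

end Pool.Agent.MP_1209e6_fr
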