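import Pool.Agent.Lib_MP_1209e6_fr.Emb
import Pool.Agent.Lib_MP_1209e6_fr.Base

/-!
PIECE [CHI] (MP_1209e6_ag).  The Laurent polynomials of the special cubic form are independent modulo coboundaries.
-/

namespace Pool.Agent.MP_1209e6_fr

variable {r : ℕ}

/-- The index set: pairs `p = (a, b)`, `a < b`, and `d ≠ a` with `d < b` (two for each set of three elements of `I r`). -/
abbrev Wix (r : ℕ) : Type := {w : J r × I r // w.2 ≠ w.1.1.1 ∧ w.2 < w.1.1.2}

/-- The exponent `e_a`. -/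
def om (a : I r) : Fin (r + 2) → ℤ := Pi.single a 1

/-- The Laurent polynomial `X_b^4 / (X_a^2 X_d^2) + X_a^4 / (X_b^2 X_d^2) - 2 X_a X_b / X_d^2`. -/
noncomputable def Xi (a b d : I r) : LP (r + 2) :=
  AddMonoidAlgebra.single (4 • om b - 2 • om a - 2 • om d) 1 + AddMonoidAlgebra.single (4 • om a - 2 • om b - 2 • om d) 1 -
    AddMonoidAlgebra.single (om a + om b - 2 • om d) 2

/-- the exponent `ρ(e; f, g)` -/
private def cRho (e f g : I r) : Fin (r + 2) → ℤ := om f + om g - 2 • om e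

private theorem cRho_apply (e f g x : I r) : cRho e f g x =
    (if x = f then 1 else 0) + (if x = g then 1 else 0) - 2 * (if x = e then 1 else 0) := by
  unfold cRho om
  rw [Pi.sub_apply, Pi.add_apply, Pi.smul_apply, Pi.single_apply, Pi.single_apply, Pi.single_apply]
  simp

private theorem cRho_eq {e f g e' f' g' : I r} (h1 : e ≠ f) (h2 : e ≠ g) (h3 : f ≠ g)
    (h : cRho e' f' g' = cRho e f g) :
    e = e' ∧ ((f = f' ∧ g = g') ∨ (f = g' ∧ g = f')) := by
  have he := congrFun h e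
  have hf := congrFun h f
  have hg := congrFun h g
  rw [cRho_apply, cRho_apply] at he hf hg
  have a1 : e = e' := by
    by_contra hne
    rw [if_neg hne, if_neg h1, if_neg h2, if_pos rfl] at he
    split_ifs at he <;> omega
  refine ⟨a1, ?_⟩
  subst a1
  rw [if_pos (rfl : f = f), if_neg h3, if_neg (Ne.symm h1)] at hf
  rw [if_pos (rfl : g = g), if_neg (Ne.symm h3), if_neg (Ne.symm h2)] at hg
  by_cases b1 : f = f'
  · left
    refine ⟨b1, ?_⟩
    by_contra b2
    have b3 : g ≠ f' := fun h => h3 (b1.trans h.symm)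
    rw [if_neg b3, if_neg b2] at hg
    omega
  · right
    have b2 : f = g' := by
      by_contra b2
      rw [if_neg b1, if_neg b2] at hf
      omega
    refine ⟨b2, ?_⟩
    by_contra b3
    have b4 : g ≠ g' := fun h => h3 (b2.trans h.symm)
    rw [if_neg b3, if_neg b4] at hg
    omega

private theorem cRho_comm (e f g : I r) : cRho e f g = cRho e g f := by
  unfold cRho
  rw [add_comm (om f)]

/-- value one at `f` -/
private theorem cRho_f {e f g : I r} (h1 : e ≠ f) (h3 : f ≠ g) : cRho e f g f = 1 := by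
  rw [cRho_apply, if_pos rfl, if_neg h3, if_neg (Ne.symm h1)]
  norm_num

private theorem cpow_one {k : ℕ} {x : ℤ} (h : 1 = (-2 : ℤ) ^ k * x) : k = 0 := by
  by_contra hk
  obtain ⟨j, rfl⟩ := Nat.exists_eq_succ_of_ne_zero hk
  rw [pow_succ] at h
  have h2 : (2 : ℤ) ∣ 1 := ⟨-((-2) ^ j * x), by rw [h]; ring⟩
  omega

private theorem cRel {e f g e' f' g' : I r} (h1 : e ≠ f) (h2 : e ≠ g) (h3 : f ≠ g)
    (h1' : e' ≠ f') (h3' : f' ≠ g') :
    Rel (cRho e f g) (cRho e' f' g') ↔ e = e' ∧ ((f = f' ∧ g = g') ∨ (f = g' ∧ g = f')) := by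
  constructor
  · rintro ⟨k, h | h⟩
    · have hk : k = 0 := by
        have h4 := congrFun h f'
        rw [Pi.smul_apply, smul_eq_mul, cRho_f h1' h3'] at h4
        exact cpow_one h4
      subst hk
      rw [pow_zero, one_smul] at h
      exact cRho_eq h1 h2 h3 h
    · have hk : k = 0 := by
        have h4 := congrFun h f
        rw [Pi.smul_apply, smul_eq_mul, cRho_f h1 h3] at h4
        exact cpow_one h4
      subst hk
      rw [pow_zero, one_smul] at h
      exact cRho_eq h1 h2 h3 h.symm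
  · rintro ⟨rfl, ⟨rfl, rfl⟩ | ⟨rfl, rfl⟩⟩
    · exact ⟨0, Or.inl (by simp)⟩
    · exact ⟨0, Or.inl (by rw [pow_zero, one_smul, cRho_comm])⟩

private theorem cRel2 {e f g e' f' g' : I r} (h1 : e ≠ f) (h2 : e ≠ g) (h3 : f ≠ g)
    (h1' : e' ≠ f') (h3' : f' ≠ g') :
    Rel (cRho e f g) ((-2 : ℤ) • cRho e' f' g') ↔ e = e' ∧ ((f = f' ∧ g = g') ∨ (f = g' ∧ g = f')) := by
  constructor
  · rintro ⟨k, h | h⟩
    · rcases Nat.eq_zero_or_pos k with hk | hk
      · exfalso
        subst hk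
        have h4 := congrFun h f
        rw [pow_zero, one_smul, Pi.smul_apply, smul_eq_mul, cRho_f h1 h3] at h4
        omega
      · obtain ⟨j, rfl⟩ := Nat.exists_eq_succ_of_ne_zero hk.ne'
        have h5 : cRho e' f' g' = (-2 : ℤ) ^ j • cRho e f g := by
          have h6 : (-2 : ℤ) • cRho e' f' g' = (-2 : ℤ) • ((-2 : ℤ) ^ j • cRho e f g) := by
            rw [h, smul_smul, Nat.succ_eq_add_one, pow_succ, mul_comm]
          funext x
          have h7 := congrFun h6 x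
          rw [Pi.smul_apply, Pi.smul_apply, smul_eq_mul, smul_eq_mul] at h7
          omega
        exact (cRel h1 h2 h3 h1' h3').1 ⟨j, Or.inl h5⟩
    · exfalso
      have h4 := congrFun h f
      rw [Pi.smul_apply, Pi.smul_apply, smul_eq_mul, smul_eq_mul, cRho_f h1 h3] at h4
      have h5 : (2 : ℤ) ∣ 1 := ⟨-((-2) ^ k * cRho e' f' g' f), by rw [h4]; ring⟩
      omega
  · rintro ⟨rfl, ⟨rfl, rfl⟩ | ⟨rfl, rfl⟩⟩
    · exact ⟨1, Or.inl (by rw [pow_one])⟩
    · exact ⟨1, Or.inl (by rw [pow_one, cRho_comm])⟩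

open Classical in
private theorem chi_Xi {e f g a b d : I r} (h1 : e ≠ f) (h2 : e ≠ g) (h3 : f ≠ g)
    (hab : a ≠ b) (had : a ≠ d) (hbd : b ≠ d) :
    chi (cRho e f g) (Xi a b d) =
      (if e = b ∧ ((f = a ∧ g = d) ∨ (f = d ∧ g = a)) then 1 else 0) +
      (if e = a ∧ ((f = b ∧ g = d) ∨ (f = d ∧ g = b)) then 1 else 0) -
      (if e = d ∧ ((f = a ∧ g = b) ∨ (f = b ∧ g = a)) then 2 else 0) := by
  have e1 : (4 • om b - 2 • om a - 2 • om d : Fin (r + 2) → ℤ) = (-2 : ℤ) • cRho b a d := by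
    unfold cRho
    module
  have e2 : (4 • om a - 2 • om b - 2 • om d : Fin (r + 2) → ℤ) = (-2 : ℤ) • cRho a b d := by
    unfold cRho
    module
  have e3 : Xi a b d = AddMonoidAlgebra.single ((-2 : ℤ) • cRho b a d) 1 +
      AddMonoidAlgebra.single ((-2 : ℤ) • cRho a b d) 1 +
      (-1 : ℂ) • AddMonoidAlgebra.single (cRho d a b) 2 := by
    unfold Xi
    rw [e1, e2, neg_one_smul, sub_eq_add_neg]
    rfl
  rw [e3, chi_add, chi_add, chi_smul, chi_single, chi_single, chi_single]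
  simp only [cRel2 h1 h2 h3 (Ne.symm hab) had, cRel2 h1 h2 h3 hab hbd,
    cRel h1 h2 h3 (Ne.symm had) hab]
  ring

private noncomputable def chiL (γ : Fin (r + 2) → ℤ) : LP (r + 2) →ₗ[ℂ] ℂ where
  toFun := chi γ
  map_add' := chi_add γ
  map_smul' := fun a P => by rw [chi_smul]; rfl

private theorem chi_lin (c : Wix r → ℂ) (γ : Fin (r + 2) → ℤ) :
    chi γ (∑ w : Wix r, c w • Xi w.1.1.1.1 w.1.1.1.2 w.1.2) =
      ∑ w : Wix r, c w * chi γ (Xi w.1.1.1.1 w.1.1.1.2 w.1.2) := by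
  have h := map_sum (chiL γ) (fun w : Wix r => c w • Xi w.1.1.1.1 w.1.1.1.2 w.1.2) Finset.univ
  have h2 : ∀ w : Wix r, chiL γ (c w • Xi w.1.1.1.1 w.1.1.1.2 w.1.2) =
      c w * chi γ (Xi w.1.1.1.1 w.1.1.1.2 w.1.2) := fun w => chi_smul γ _ _
  simp only [h2] at h
  exact h

private theorem cRho_ne {e f g : I r} (h1 : e ≠ f) (h3 : f ≠ g) : cRho e f g ≠ 0 := by
  intro h
  have := congrFun h f
  rw [cRho_f h1 h3] at this
  exact one_ne_zero this

private def wA {x y z : I r} (h1 : x < y) (h2 : y < z) : Wix r :=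
  ⟨(⟨(x, z), h1.trans h2⟩, y), ⟨h1.ne', h2⟩⟩

private def wB {x y z : I r} (h1 : x < y) (h2 : y < z) : Wix r :=
  ⟨(⟨(y, z), h2⟩, x), ⟨h1.ne, h1.trans h2⟩⟩

private theorem wix_ext {v w : Wix r} (h1 : v.1.1.1.1 = w.1.1.1.1) (h2 : v.1.1.1.2 = w.1.1.1.2)
    (h3 : v.1.2 = w.1.2) : v = w := by
  obtain ⟨⟨⟨⟨a, b⟩, h⟩, d⟩, h'⟩ := v
  obtain ⟨⟨⟨⟨a', b'⟩, k⟩, d'⟩, k'⟩ := w
  simp only at h1 h2 h3
  subst h1 h2 h3
  rfl

open Classical in
private theorem chi_y {x y z : I r} (h1 : x < y) (h2 : y < z) (w : Wix r) :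
    chi (cRho y x z) (Xi w.1.1.1.1 w.1.1.1.2 w.1.2) =
      (if w = wB h1 h2 then 1 else 0) - (if w = wA h1 h2 then 2 else 0) := by
  have hab := w.1.1.2
  have hda := w.2.1
  have hdb := w.2.2
  rw [chi_Xi h1.ne' h2.ne (h1.trans h2).ne hab.ne (Ne.symm hda) hdb.ne']
  rw [if_neg, zero_add]
  · congr 1
    · refine if_congr ?_ rfl rfl
      constructor
      · rintro ⟨k1, ⟨k2, k3⟩ | ⟨k2, k3⟩⟩
        · exfalso
          rw [← k1, ← k2] at hab
          exact absurd hab (not_lt.2 h1.le)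
        · exact wix_ext k1.symm k3.symm k2.symm
      · rintro rfl
        exact ⟨rfl, Or.inr ⟨rfl, rfl⟩⟩
    · refine if_congr ?_ rfl rfl
      constructor
      · rintro ⟨k1, ⟨k2, k3⟩ | ⟨k2, k3⟩⟩
        · exact wix_ext k2.symm k3.symm k1.symm
        · exfalso
          rw [← k2, ← k3] at hab
          exact absurd hab (not_lt.2 (h1.trans h2).le)
      · rintro rfl
        exact ⟨rfl, Or.inl ⟨rfl, rfl⟩⟩
  · rintro ⟨k1, ⟨k2, k3⟩ | ⟨k2, k3⟩⟩
    · rw [← k1, ← k3] at hdb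
      exact absurd hdb (not_lt.2 h2.le)
    · rw [← k1, ← k3] at hab
      exact absurd hab (not_lt.2 h2.le)

open Classical in
private theorem chi_x {x y z : I r} (h1 : x < y) (h2 : y < z) (w : Wix r) :
    chi (cRho x y z) (Xi w.1.1.1.1 w.1.1.1.2 w.1.2) =
      (if w = wA h1 h2 then 1 else 0) - (if w = wB h1 h2 then 2 else 0) := by
  have hab := w.1.1.2
  have hda := w.2.1
  have hdb := w.2.2
  rw [chi_Xi h1.ne (h1.trans h2).ne h2.ne hab.ne (Ne.symm hda) hdb.ne']
  rw [if_neg, zero_add]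
  · congr 1
    · refine if_congr ?_ rfl rfl
      constructor
      · rintro ⟨k1, ⟨k2, k3⟩ | ⟨k2, k3⟩⟩
        · exfalso
          rw [← k2, ← k3] at hdb
          exact absurd hdb (not_lt.2 h2.le)
        · exact wix_ext k1.symm k3.symm k2.symm
      · rintro rfl
        exact ⟨rfl, Or.inr ⟨rfl, rfl⟩⟩
    · refine if_congr ?_ rfl rfl
      constructor
      · rintro ⟨k1, ⟨k2, k3⟩ | ⟨k2, k3⟩⟩
        · exact wix_ext k2.symm k3.symm k1.symm
        · exfalso
          rw [← k2, ← k3] at hab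
          exact absurd hab (not_lt.2 h2.le)
      · rintro rfl
        exact ⟨rfl, Or.inl ⟨rfl, rfl⟩⟩
  · rintro ⟨k1, ⟨k2, k3⟩ | ⟨k2, k3⟩⟩
    · rw [← k1, ← k2] at hab
      exact absurd hab (not_lt.2 h1.le)
    · rw [← k1, ← k3] at hab
      exact absurd hab (not_lt.2 (h1.trans h2).le)

private theorem c_pair (c : Wix r → ℂ)
    (h : ∀ γ : Fin (r + 2) → ℤ, γ ≠ 0 → chi γ (∑ w : Wix r, c w • Xi w.1.1.1.1 w.1.1.1.2 w.1.2) = 0)
    {x y z : I r} (h1 : x < y) (h2 : y < z) : c (wA h1 h2) = 0 ∧ c (wB h1 h2) = 0 := by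
  classical
  have k1 := h (cRho y x z) (cRho_ne h1.ne' (h1.trans h2).ne)
  have k2 := h (cRho x y z) (cRho_ne h1.ne h2.ne)
  rw [chi_lin] at k1 k2
  simp only [chi_y h1 h2, mul_sub, Finset.sum_sub_distrib, mul_ite, mul_one, mul_zero,
    Finset.sum_ite_eq', Finset.mem_univ, if_true] at k1
  simp only [chi_x h1 h2, mul_sub, Finset.sum_sub_distrib, mul_ite, mul_one, mul_zero,
    Finset.sum_ite_eq', Finset.mem_univ, if_true] at k2
  have k3 : c (wA h1 h2) = 0 := by linear_combination (-(2 / 3 : ℂ)) * k1 + (-(1 / 3 : ℂ)) * k2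
  refine ⟨k3, ?_⟩
  rw [k3] at k1
  linear_combination k1

/-- PIECE [CHI].  The class sums separate the combinations of the `Xi`.

Proof.  For distinct `f, g, e` let `ρ(e; f, g) = om f + om g - 2 • om e`; the exponents of `Xi a b d` are `-2 ρ(b; a, d)`, `-2 ρ(a; b, d)`, `ρ(d; a, b)`.
(1) `Rel (ρ(e; f, g)) (ρ(e'; f', g'))` or `Rel (ρ(e; f, g)) (-2 • ρ(e'; f', g'))` implies `e = e'` and `{f, g} = {f', g'}`: the entries of `ρ` are `1, 1, -2`, so it
contains odd entries and cannot be `(-2)^k` times an integral vector with `k ≥ 1`; hence the two `ρ` are equal, and `e` is the place of the entry `-2`.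
(2) Let `w1 ∈ Wix r`, `w1 = ((x, z), y)` with `x < y < z` (first kind: `d` between; the other kind is `((y, z), x)`); put `w2 = ((y, z), x)`.  By (1) the only
terms of `∑ w, c w • Xi w` with exponents in the class of `ρ(y; x, z)` are `-2 c(w1)` (exponent `ρ(y; x, z)`) and `c(w2)` (exponent `-2 ρ(y; x, z)`), and in the class of `ρ(x; y, z)`
they are `c(w1)` and `-2 c(w2)`.  So `-2 c1 + c2 = 0`, `c1 - 2 c2 = 0`, `c1 = c2 = 0`.  Every element of `Wix r` is of one of the two kinds.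
(Use `chi_add`, `chi_smul`, `chi_single`, linearity over the finite sum.) -/
theorem eq_zero_of_chi (c : Wix r → ℂ)
    (h : ∀ γ : Fin (r + 2) → ℤ, γ ≠ 0 → chi γ (∑ w : Wix r, c w • Xi w.1.1.1.1 w.1.1.1.2 w.1.2) = 0) : c = 0 := by
  funext w
  rw [Pi.zero_apply]
  have hab := w.1.1.2
  have hda := w.2.1
  have hdb := w.2.2
  rcases lt_or_gt_of_ne hda with hd | hd
  · -- d < a < b
    have h1 := (c_pair c h hd hab).2
    have h2 : wB hd hab = w := wix_ext rfl rfl rfl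
    rwa [h2] at h1
  · have h1 := (c_pair c h hd hdb).1
    have h2 : wA hd hdb = w := wix_ext rfl rfl rfl
    rwa [h2] at h1

end Pool.Agent.MP_1209e6_fr
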