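import Mathlib

/-!
PIECE [CRE] (MP_1209e6_ag).  The chart theorem for arbitrary charts of the Grassmannian.
-/

open MvPolynomial

namespace Pool.Agent.MP_1209e6_fr

variable {r : ℕ} {ι : Type} [Fintype ι] [DecidableEq ι] {Ω : Type} [Field Ω] [Algebra ℂ Ω]
  [Algebra ℚ Ω] [IsScalarTower ℚ ℂ Ω]

/-- PIECE [CRE].  A bijection which puts the chart at the first indices. -/
theorem exists_equiv (S : Fin (r + 1) → ι) (hS : Function.Injective S) :
    ∃ ε : (Fin (r + 1) ⊕ {p : ι // p ∉ Set.range S}) ≃ ι, (∀ a, ε (Sum.inl a) = S a) ∧ ∀ p, ε (Sum.inr p) = p.1 := by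
  classical
  refine ⟨((Equiv.ofInjective S hS).sumCongr (Equiv.refl _)).trans
    (Equiv.sumCompl (fun p : ι => p ∈ Set.range S)), fun a => ?_, fun p => ?_⟩
  · simp
  · simp

end Pool.Agent.MP_1209e6_fr
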