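import Mathlib

/-!
PIECE [TDG] (MP_1209e6_ag).  Transcendence degree of the normalised entries of a matrix.
-/

namespace Pool.Agent.MP_1209e6_fr

/-- PIECE [TDG].  If the field generated by a finite family `x` contains `D` algebraically independent elements, then `D` of the `x_i` are
algebraically independent.

Proof.  Choose a transcendence basis `x_s`, `s ⊆ σ`, of the field `L = C(x)` (`exists_isTranscendenceBasis_subset` or the version for generators of an algebraic
extension), `|s| = trdeg L ≥ D` (`AlgebraicIndependent.cardinalMk_le_trdeg`); take `D` elements of `s`. -/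
theorem exists_subfamily {C Ω σ : Type} [Field C] [Field Ω] [Algebra C Ω] [Finite σ] {D : ℕ} (x : σ → Ω) (f : Fin D → Ω)
    (hf : AlgebraicIndependent C f) (hfx : ∀ i, f i ∈ IntermediateField.adjoin C (Set.range x)) :
    ∃ e : Fin D → σ, AlgebraicIndependent C (fun i => x (e i)) := by
  classical
  set L := IntermediateField.adjoin C (Set.range x) with hL
  let y : σ → L := fun i => ⟨x i, IntermediateField.subset_adjoin _ _ (Set.mem_range_self i)⟩
  let g : Fin D → L := fun i => ⟨f i, hfx i⟩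
  have hg : AlgebraicIndependent C g := AlgebraicIndependent.of_comp L.val hf
  have hy : IntermediateField.adjoin C (Set.range y) = ⊤ := by
    apply IntermediateField.lift_injective L
    rw [IntermediateField.lift_adjoin, IntermediateField.lift_top]
    have : (Subtype.val '' Set.range y) = Set.range x := by
      rw [← Set.range_comp]
      rfl
    rw [this]
  have halg : Algebra.IsAlgebraic (Algebra.adjoin C (Set.range y)) L := by
    rw [← IntermediateField.isAlgebraic_adjoin_iff_top, hy, Algebra.isAlgebraic_iff_isIntegral]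
    exact Algebra.isIntegral_of_surjective IntermediateField.topEquiv.surjective
  obtain ⟨t, hts, ht⟩ := exists_isTranscendenceBasis_subset (R := C) (Set.range y)
  have h1 := hg.cardinalMk_le_trdeg
  rw [← ht.cardinalMk_eq_trdeg] at h1
  obtain ⟨emb⟩ := Cardinal.le_def _ _ |>.1 h1
  choose e he using fun i => hts (emb i).2
  refine ⟨e, ?_⟩
  have h2 : AlgebraicIndependent C (fun i : Fin D => ((emb i : t) : L)) :=
    ht.1.comp emb emb.injective
  have h3 := h2.map' (f := L.val) L.val.injective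
  have h4 : (fun i => x (e i)) = L.val ∘ (fun i : Fin D => ((emb i : t) : L)) := by
    funext i
    simp only [Function.comp]
    rw [← he i]
    rfl
  rw [h4]
  exact h3

variable {Ω ι : Type} [Field Ω] [Algebra ℂ Ω] [Fintype ι] [DecidableEq ι] {k : ℕ}

/-- The block of the `k × ι` matrix `Φ` at the columns `S`. -/
def colB {k : ℕ} {ι R : Type} (S : Fin k → ι) (Φ : Fin k → ι → R) : Matrix (Fin k) (Fin k) R := Matrix.of fun a b => Φ a (S b)

/-- The matrix `Φ` normalised at the columns `S`. -/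
noncomputable def nS {k : ℕ} {ι R : Type} [CommRing R] (S : Fin k → ι) (Φ : Fin k → ι → R) : Fin k → ι → R :=
  fun i j => ∑ l, (colB S Φ)⁻¹ i l * Φ l j

/-- The normalised entries of `Φ` contain `D` elements which are algebraically independent over `ℂ`. -/
def HasTr (D : ℕ) (Φ : Fin k → ι → Ω) : Prop :=
  ∃ S : Fin k → ι, (colB S Φ).det ≠ 0 ∧ ∃ e : Fin D → Fin k × ι, AlgebraicIndependent ℂ (fun i => nS S Φ (e i).1 (e i).2)

omit [Fintype ι] [DecidableEq ι] [Algebra ℂ Ω] in
private theorem nS_eq_mul (S : Fin k → ι) (Φ : Fin k → ι → Ω) :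
    nS S Φ = ((colB S Φ)⁻¹ * Matrix.of Φ : Matrix (Fin k) ι Ω) := by
  funext i j
  rw [Matrix.mul_apply]
  rfl

omit [Fintype ι] [DecidableEq ι] [Algebra ℂ Ω] in
private theorem nS_left_mul (S : Fin k → ι) (B : Matrix (Fin k) (Fin k) Ω) (hB : IsUnit B.det)
    (M : Matrix (Fin k) ι Ω) : nS S (B * M : Matrix (Fin k) ι Ω) = nS S M := by
  rw [nS_eq_mul, nS_eq_mul]
  have h1 : colB S (B * M : Matrix (Fin k) ι Ω) = B * colB S M := by
    ext a b
    simp only [colB, Matrix.of_apply, Matrix.mul_apply]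
  have h2 : (Matrix.of (B * M : Matrix (Fin k) ι Ω) : Matrix (Fin k) ι Ω) = B * Matrix.of M := rfl
  rw [h1, h2, Matrix.mul_inv_rev, Matrix.mul_assoc, ← Matrix.mul_assoc B⁻¹ B,
    Matrix.nonsing_inv_mul _ hB, Matrix.one_mul]

omit [Fintype ι] [DecidableEq ι] in
private theorem nS_mem (K : IntermediateField ℂ Ω) (S : Fin k → ι) (M : Fin k → ι → Ω)
    (hM : ∀ i j, M i j ∈ K) (i : Fin k) (j : ι) : nS S M i j ∈ K := by
  classical
  set M0 : Fin k → ι → K := fun i j => ⟨M i j, hM i j⟩ with hM0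
  have h1 : colB S M = (algebraMap K Ω).mapMatrix (colB S M0) := by
    ext a b
    rfl
  have h2 : ∀ a b, (colB S M)⁻¹ a b ∈ K := by
    intro a b
    rw [Matrix.inv_def, Ring.inverse_eq_inv', Matrix.smul_apply, smul_eq_mul, h1,
      ← RingHom.map_det, ← RingHom.map_adjugate]
    exact K.mul_mem (K.inv_mem (colB S M0).det.2) ((colB S M0).adjugate a b).2
  unfold nS
  exact K.sum_mem fun l _ => K.mul_mem (h2 i l) (hM l j)

private theorem mul_map_inv (Φ : Fin k → ι → Ω) (G : Matrix ι ι ℂ) (hG : G.det ≠ 0) :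
    (Matrix.of Φ : Matrix (Fin k) ι Ω) =
      (Matrix.of (fun i j => ∑ l, Φ i l * algebraMap ℂ Ω (G l j)) : Matrix (Fin k) ι Ω) *
        (algebraMap ℂ Ω).mapMatrix G⁻¹ := by
  have h1 : (Matrix.of (fun i j => ∑ l, Φ i l * algebraMap ℂ Ω (G l j)) : Matrix (Fin k) ι Ω)
      = Matrix.of Φ * (algebraMap ℂ Ω).mapMatrix G := by
    ext i j
    simp only [Matrix.of_apply, Matrix.mul_apply, RingHom.mapMatrix_apply, Matrix.map_apply]
  rw [h1, Matrix.mul_assoc, ← map_mul, Matrix.mul_nonsing_inv _ (Ne.isUnit hG), map_one,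
    Matrix.mul_one]

/-- PIECE [TDG].  Independence of the chart, and of a linear change of coordinates.

Proof.  Let `x = nS S Φ`, `x' = nS S' Φ'`, `Φ' = Φ G` (`Φ' i j = ∑ l, Φ i l * G l j`, `G` an invertible complex matrix).  `Φ = (colB S Φ) x`, so `colB S' Φ' = (colB S Φ) (x G)_(S')`,
`x' = ((x G)_(S'))⁻¹ (x G)` has entries in `ℂ(x)`; symmetrically (with `G⁻¹`) `x` has entries in `ℂ(x')`.  Then `exists_subfamily`. -/
theorem HasTr.exists_chart {D : ℕ} {Φ : Fin k → ι → Ω} (h : HasTr D Φ) (G : Matrix ι ι ℂ) (hG : G.det ≠ 0)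
    (S' : Fin k → ι) (hS' : (colB S' (fun i j => ∑ l, Φ i l * algebraMap ℂ Ω (G l j))).det ≠ 0) :
    ∃ e : Fin D → Fin k × ι,
      AlgebraicIndependent ℂ (fun i => nS S' (fun i j => ∑ l, Φ i l * algebraMap ℂ Ω (G l j)) (e i).1 (e i).2) := by
  obtain ⟨S, hS, e, he⟩ := h
  set Φ' : Fin k → ι → Ω := fun i j => ∑ l, Φ i l * algebraMap ℂ Ω (G l j) with hΦ'
  set H : Matrix ι ι Ω := (algebraMap ℂ Ω).mapMatrix G⁻¹ with hH
  set B' := colB S' Φ' with hB'
  set x' : Matrix (Fin k) ι Ω := nS S' Φ' with hx'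
  set K : IntermediateField ℂ Ω :=
    IntermediateField.adjoin ℂ (Set.range fun p : Fin k × ι => nS S' Φ' p.1 p.2) with hK
  have h1 : (Matrix.of Φ : Matrix (Fin k) ι Ω) = B' * (x' * H) := by
    rw [mul_map_inv Φ G hG, ← Matrix.mul_assoc, hx', nS_eq_mul, ← Matrix.mul_assoc,
      Matrix.mul_nonsing_inv _ (Ne.isUnit hS'), Matrix.one_mul]
  have h2 : nS S Φ = nS S (x' * H : Matrix (Fin k) ι Ω) := by
    have h4 := nS_left_mul S B' (Ne.isUnit hS') (x' * H)
    rw [← h1] at h4
    exact h4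
  have h3 : ∀ i j, (x' * H) i j ∈ K := by
    intro i j
    rw [Matrix.mul_apply]
    refine K.sum_mem fun l _ => K.mul_mem ?_ ?_
    · exact IntermediateField.subset_adjoin _ _ ⟨(i, l), rfl⟩
    · rw [hH, RingHom.mapMatrix_apply, Matrix.map_apply]
      exact K.algebraMap_mem _
  obtain ⟨e', he'⟩ := exists_subfamily (fun p : Fin k × ι => nS S' Φ' p.1 p.2)
    (fun i => nS S Φ (e i).1 (e i).2) he (fun i => by
      rw [h2]
      exact nS_mem K S _ h3 _ _)
  exact ⟨e', he'⟩

/-- PIECE [TDG].  (`Φ G` has rank `k`, so some block is invertible; `HasTr.exists_chart`.) -/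
theorem HasTr.mul {D : ℕ} {Φ : Fin k → ι → Ω} (h : HasTr D Φ) (G : Matrix ι ι ℂ) (hG : G.det ≠ 0) :
    HasTr D (fun i j => ∑ l, Φ i l * algebraMap ℂ Ω (G l j)) := by
  have hex : ∃ S' : Fin k → ι, (colB S' (fun i j => ∑ l, Φ i l * algebraMap ℂ Ω (G l j))).det ≠ 0 := by
    by_contra hcon
    push Not at hcon
    obtain ⟨S, hS, -⟩ := h
    apply hS
    set Φ' : Fin k → ι → Ω := fun i j => ∑ l, Φ i l * algebraMap ℂ Ω (G l j) with hΦ'
    set H : Matrix ι ι Ω := (algebraMap ℂ Ω).mapMatrix G⁻¹ with hH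
    have h1 : ∀ a j, Φ a j = ∑ m, H m j * Φ' a m := by
      intro a j
      have h2 := congrFun (congrFun (mul_map_inv Φ G hG) a) j
      rw [Matrix.mul_apply] at h2
      rw [← hH] at h2
      refine Eq.trans h2 (Finset.sum_congr rfl fun m _ => ?_)
      rw [mul_comm]
      rfl
    rw [← Matrix.det_transpose]
    have h3 : (colB S Φ).transpose.det = Matrix.detRowAlternating.toMultilinearMap
        (fun b : Fin k => ∑ m, (H m (S b) • (fun a => Φ' a m) : Fin k → Ω)) := by
      change (colB S Φ).transpose.det = Matrix.det (Matrix.of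
        (fun b : Fin k => ∑ m, (H m (S b) • (fun a => Φ' a m) : Fin k → Ω)))
      congr 1
      ext b a
      rw [Matrix.transpose_apply]
      simp only [colB, Matrix.of_apply, Finset.sum_apply, Pi.smul_apply, smul_eq_mul]
      exact h1 a (S b)
    rw [h3, MultilinearMap.map_sum]
    refine Finset.sum_eq_zero fun S' _ => ?_
    rw [MultilinearMap.map_smul_univ]
    have h4 : (Matrix.detRowAlternating.toMultilinearMap : MultilinearMap Ω _ Ω)
        (fun b : Fin k => (fun a => Φ' a (S' b) : Fin k → Ω)) = (colB S' Φ').transpose.det := rfl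
    rw [h4, Matrix.det_transpose, hcon S', smul_zero]
  obtain ⟨S', hS'⟩ := hex
  exact ⟨S', hS', h.exists_chart G hG S' hS'⟩

/-- PIECE [TDG].  (`G = 1` in `HasTr.exists_chart`.) -/
theorem HasTr.chart {D : ℕ} {Φ : Fin k → ι → Ω} (h : HasTr D Φ) (S' : Fin k → ι) (hS' : (colB S' Φ).det ≠ 0) :
    ∃ e : Fin D → Fin k × ι, AlgebraicIndependent ℂ (fun i => nS S' Φ (e i).1 (e i).2) := by
  have h1 : (fun i j => ∑ l, Φ i l * algebraMap ℂ Ω ((1 : Matrix ι ι ℂ) l j)) = Φ := by
    funext i j
    rw [Finset.sum_eq_single j]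
    · rw [Matrix.one_apply_eq, map_one, mul_one]
    · intro l _ hl
      rw [Matrix.one_apply_ne hl, map_zero, mul_zero]
    · intro hj
      exact absurd (Finset.mem_univ _) hj
  have h2 := h.exists_chart 1 (by rw [Matrix.det_one]; exact one_ne_zero) S' (by rw [h1]; exact hS')
  rw [h1] at h2
  exact h2

/-- PIECE [TDG].  Renaming of the columns. -/
theorem HasTr.reindex {ι' : Type} [Fintype ι'] [DecidableEq ι'] {D : ℕ} {Φ : Fin k → ι → Ω} (h : HasTr D Φ) (ε : ι' ≃ ι) :
    HasTr D (fun i j => Φ i (ε j)) := by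
  obtain ⟨S, hS, e, he⟩ := h
  have h1 : colB (fun b => ε.symm (S b)) (fun i j => Φ i (ε j)) = colB S Φ := by
    ext a b
    simp only [colB, Matrix.of_apply, Equiv.apply_symm_apply]
  refine ⟨fun b => ε.symm (S b), by rw [h1]; exact hS, fun i => ((e i).1, ε.symm (e i).2), ?_⟩
  have h2 : (fun i => nS (fun b => ε.symm (S b)) (fun i j => Φ i (ε j)) (e i).1 (ε.symm (e i).2))
      = fun i => nS S Φ (e i).1 (e i).2 := by
    funext i
    unfold nS
    rw [h1]
    simp only [Equiv.apply_symm_apply]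
  exact h2 ▸ he

end Pool.Agent.MP_1209e6_fr
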