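import Pool.Agent.Lib_MP_1209e6_fr.Num
import Pool.Agent.Lib_MP_1209e6_fr.CreA
import Pool.Agent.Lib_MP_1209e6_fr.TDeg

/-!
The chart theorem for arbitrary charts of the Grassmannian (MP_1209e6_ag): passage to the chart at the first indices.
-/

open MvPolynomial

namespace Pool.Agent.MP_1209e6_fr

section

variable {k : ℕ} {ι R : Type}

/-- A chart with nonzero determinant has different indices. -/
theorem chart_injective [CommRing R] {S : Fin k → ι} {Φ : Fin k → ι → R} (h : (colB S Φ).det ≠ 0) :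
    Function.Injective S := by
  intro a b hab
  by_contra hne
  refine h (Matrix.det_zero_of_column_eq hne fun l => ?_)
  simp only [colB, Matrix.of_apply, hab]

/-- The normalised matrix is the identity at the indices of the chart. -/
theorem nS_col [Field R] {S : Fin k → ι} {Φ : Fin k → ι → R} (h : (colB S Φ).det ≠ 0) (i b : Fin k) :
    nS S Φ i (S b) = if i = b then 1 else 0 := by
  have h1 : ((colB S Φ)⁻¹ * colB S Φ) i b = (1 : Matrix (Fin k) (Fin k) R) i b := by
    rw [Matrix.nonsing_inv_mul _ (isUnit_iff_ne_zero.2 h)]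
  rw [Matrix.mul_apply, Matrix.one_apply] at h1
  exact h1

/-- The matrix is the block times the normalised matrix. -/
theorem colB_mul_nS [Field R] {S : Fin k → ι} {Φ : Fin k → ι → R} (h : (colB S Φ).det ≠ 0) (i : Fin k) (j : ι) :
    ∑ l, colB S Φ i l * nS S Φ l j = Φ i j := by
  have h1 : colB S Φ * ((colB S Φ)⁻¹ * Matrix.of Φ) = Matrix.of Φ := by
    rw [← Matrix.mul_assoc, Matrix.mul_nonsing_inv _ (isUnit_iff_ne_zero.2 h), Matrix.one_mul]
  have h2 := congrArg (fun M : Matrix (Fin k) ι R => M i j) h1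
  simp only [Matrix.mul_apply, Matrix.of_apply] at h2
  exact h2

/-- Blocks and the normalised matrix. -/
theorem colB_nS [Field R] {S S0 : Fin k → ι} {Φ : Fin k → ι → R} (h : (colB S0 Φ).det ≠ 0) :
    colB S Φ = colB S0 Φ * colB S (nS S0 Φ) := by
  ext i j
  rw [Matrix.mul_apply]
  exact (colB_mul_nS h i (S j)).symm

end

section

variable {r : ℕ} {ι : Type} {Ω : Type} [Field Ω]

/-- The cubic form vanishes on the rows of the normalised matrix. -/
theorem tri_nS [Fintype ι] {S : Fin (r + 1) → ι} {c : ι → ι → ι → Ω} {Φ : Fin (r + 1) → ι → Ω}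
    (hΦ : ∀ i j l, tri c (Φ i) (Φ j) (Φ l) = 0) (i j l : Fin (r + 1)) :
    tri c (nS S Φ i) (nS S Φ j) (nS S Φ l) = 0 := by
  have h : ∀ i, nS S Φ i = ∑ m, (colB S Φ)⁻¹ i m • Φ m := by
    intro i
    funext j
    rw [Finset.sum_apply]
    rfl
  rw [h i, h j, h l, tri_sum_left]
  refine Finset.sum_eq_zero fun a _ => ?_
  rw [tri_sum_mid]
  refine Finset.sum_eq_zero fun b _ => ?_
  rw [tri_sum_right]
  refine Finset.sum_eq_zero fun d _ => ?_
  rw [tri_smul_left, tri_smul_mid, tri_smul_right, hΦ, mul_zero, mul_zero, mul_zero]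

/-- Renaming of the indices. -/
theorem tri_reindex {κ R : Type} [Fintype ι] [Fintype κ] [CommRing R] (ε : κ ≃ ι) (c : ι → ι → ι → R) (x y z : ι → R) :
    tri (fun i j l => c (ε i) (ε j) (ε l)) (fun i => x (ε i)) (fun i => y (ε i)) (fun i => z (ε i)) = tri c x y z := by
  unfold tri
  rw [← Equiv.sum_comp ε]
  refine Finset.sum_congr rfl fun i _ => ?_
  rw [← Equiv.sum_comp ε]
  refine Finset.sum_congr rfl fun j _ => ?_
  rw [← Equiv.sum_comp ε]

theorem map_sy {κ : Type} (f : κ → ι) (i j l : κ) : Sym.map f (sy i j l) = sy (f i) (f j) (f l) := by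
  apply Subtype.ext
  simp only [sy, Sym.map]
  rfl

open Classical in
/-- The substitution of `0` and `1` in the columns of the chart. -/
noncomputable def chartSub (R : Type) [CommRing R] (S : Fin (r + 1) → ι) (p : Fin (r + 1) × ι) :
    MvPolynomial (Fin (r + 1) × {p : ι // p ∉ Set.range S}) R :=
  if h : p.2 ∉ Set.range S then X (p.1, ⟨p.2, h⟩) else (if S p.1 = p.2 then 1 else 0)

theorem aeval_chartSub {R B : Type} [CommRing R] [CommRing B] [Algebra R B] {S : Fin (r + 1) → ι}
    (hS : Function.Injective S) (y : Fin (r + 1) → ι → B) (hy : ∀ i b, y i (S b) = if i = b then 1 else 0)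
    (q : MvPolynomial (Fin (r + 1) × ι) R) :
    aeval (fun p : Fin (r + 1) × {p : ι // p ∉ Set.range S} => y p.1 p.2.1) (aeval (chartSub R S) q) =
      aeval (fun p => y p.1 p.2) q := by
  have h : ((aeval (fun p : Fin (r + 1) × {p : ι // p ∉ Set.range S} => y p.1 p.2.1)).comp (aeval (chartSub R S))) =
      (aeval (fun p => y p.1 p.2) : MvPolynomial (Fin (r + 1) × ι) R →ₐ[R] B) := by
    refine MvPolynomial.algHom_ext fun p => ?_
    rw [AlgHom.comp_apply, aeval_X, aeval_X]
    unfold chartSub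
    by_cases h1 : p.2 ∉ Set.range S
    · rw [dif_pos h1, aeval_X]
    · rw [dif_neg h1]
      rw [not_not] at h1
      obtain ⟨b, hb⟩ := h1
      by_cases h2 : S p.1 = p.2
      · rw [if_pos h2, map_one, ← hb, hy, if_pos]
        rw [← hb] at h2
        exact hS h2
      · rw [if_neg h2, map_zero, ← hb, hy, if_neg]
        intro h3
        exact h2 (by rw [h3, hb])
  rw [← h, AlgHom.comp_apply]

end

section

variable {r : ℕ} {ι : Type} [Fintype ι] [DecidableEq ι] {Ω : Type} [Field Ω] [Algebra ℂ Ω]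

/-- Passage to the chart at the first indices. -/
theorem chart_data (hι : Fintype.card ι = Fintype.card (V r)) (t : Sym ι 3 → ℂ) (ht : AlgebraicIndependent ℚ t)
    (Φ : Fin (r + 1) → ι → Ω)
    (hΦ : ∀ i j l, tri (fun a b d => algebraMap ℂ Ω (t (sy a b d))) (Φ i) (Φ j) (Φ l) = 0) (hTr : HasTr (dimF r) Φ)
    (S : Fin (r + 1) → ι) (hS : (colB S Φ).det ≠ 0) (T : Type) [Fintype T] [DecidableEq T]
    (η : T ≃ {p : ι // p ∉ Set.range S}) :
    ∃ t' : Sym (Fin (r + 1) ⊕ T) 3 → ℂ, AlgebraicIndependent ℚ t' ∧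
      Fintype.card T = Fintype.card (R2 (r + 1)) + 1 ∧
      dimF r + Fintype.card (Sym (Fin (r + 1)) 3) = (r + 1) * Fintype.card T ∧
      (∀ a b d : Fin (r + 1), tri (fun i j l => algebraMap ℂ Ω (t' (sy i j l)))
        (gx (fun a p => nS S Φ a (η p).1) (Sum.inl a)) (gx (fun a p => nS S Φ a (η p).1) (Sum.inl b))
        (gx (fun a p => nS S Φ a (η p).1) (Sum.inl d)) = 0) ∧
      (∃ e : Fin (dimF r) → Fin (r + 1) × T, AlgebraicIndependent ℂ (fun i => nS S Φ (e i).1 (η (e i).2).1)) ∧
      (∀ (A : Fin (r + 1) → ι → ℂ) (_ : ∀ i b, A i (S b) = if i = b then 1 else 0)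
        (_ : ∀ i j l, tri (fun a b d => t (sy a b d)) (A i) (A j) (A l) = 0) (a b d : Fin (r + 1)),
        tri (fun i j l => t' (sy i j l))
        (gx (fun a p => A a (η p).1) (Sum.inl a)) (gx (fun a p => A a (η p).1) (Sum.inl b))
        (gx (fun a p => A a (η p).1) (Sum.inl d)) = 0) := by
  classical
  have hSi := chart_injective hS
  obtain ⟨ε0, hε1, hε2⟩ := exists_equiv S hSi
  set ε : (Fin (r + 1) ⊕ T) ≃ ι := (Equiv.sumCongr (Equiv.refl _) η).trans ε0 with hε
  have hεl : ∀ a, ε (Sum.inl a) = S a := fun a => by rw [hε]; exact hε1 a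
  have hεr : ∀ p, ε (Sum.inr p) = (η p).1 := fun p => by rw [hε]; exact hε2 (η p)
  have hgx : ∀ {R : Type} [CommRing R] (y : Fin (r + 1) → ι → R) (_ : ∀ i b, y i (S b) = if i = b then 1 else 0)
      (a : Fin (r + 1)), gx (fun a p => y a (η p).1) (Sum.inl a) = fun i => y a (ε i) := by
    intro R _ y hy a
    funext i
    rcases i with i | i
    · rw [hεl, hy]
      simp only [gx, Sum.elim_inl, Pi.single_apply]
      by_cases h : a = i
      · rw [if_pos h, if_pos h.symm]
      · rw [if_neg h, if_neg (Ne.symm h)]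
    · rw [hεr]
      rfl
  have hcard : (r + 1) + Fintype.card T = Fintype.card (V r) := by
    rw [← hι, ← Fintype.card_congr ε, Fintype.card_sum, Fintype.card_fin]
  obtain ⟨hc1, hc2⟩ := card_T hcard
  refine ⟨fun s => t (Sym.map ε s), ht.comp (Sym.map ε) (Sym.map_injective ε.injective 3), hc1, hc2, ?_, ?_, ?_⟩
  · intro a b d
    rw [hgx _ (nS_col hS), hgx _ (nS_col hS), hgx _ (nS_col hS)]
    simp only [map_sy]
    rw [tri_reindex ε (fun a b d => algebraMap ℂ Ω (t (sy a b d)))]
    exact tri_nS hΦ a b d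
  · obtain ⟨e, he⟩ := hTr.chart S hS
    have h1 : ∀ i, (e i).2 ∉ Set.range S := by
      rintro i ⟨b, hb⟩
      have h2 := he.transcendental i
      apply h2
      show IsAlgebraic ℂ (nS S Φ (e i).1 (e i).2)
      rw [← hb, nS_col hS]
      split_ifs
      · exact isAlgebraic_one
      · exact isAlgebraic_zero
    refine ⟨fun i => ((e i).1, η.symm ⟨(e i).2, h1 i⟩), ?_⟩
    have h3 : (fun i => nS S Φ (e i).1 (η (η.symm ⟨(e i).2, h1 i⟩)).1) = fun i => nS S Φ (e i).1 (e i).2 := by
      funext i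
      rw [Equiv.apply_symm_apply]
    show AlgebraicIndependent ℂ (fun i => nS S Φ (e i).1 (η (η.symm ⟨(e i).2, h1 i⟩)).1)
    rw [h3]
    exact he
  · intro A hAS hA a b d
    rw [hgx _ hAS, hgx _ hAS, hgx _ hAS]
    simp only [map_sy]
    rw [tri_reindex ε (fun a b d => t (sy a b d))]
    exact hA a b d

end

end Pool.Agent.MP_1209e6_fr
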