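import Pool.Agent.Lib_MP_1209e6_fr.STr
import Pool.Agent.Lib_MP_1209e6_fr.CDef

/-!
PIECE [NUM] (MP_1209e6_ag).  Counting.
-/

namespace Pool.Agent.MP_1209e6_fr

theorem card_filter_lt' (n : ℕ) (b : Fin n) : (Finset.univ.filter (fun a : Fin n => a < b)).card = b := by
  have : Finset.univ.filter (fun a : Fin n => a < b) = Finset.Iio b := by ext; simp
  rw [this, Fin.card_Iio]

theorem sum_pairs_lt (n : ℕ) (f : ℕ → ℕ) :
    ∑ j : {p : Fin n × Fin n // p.1 < p.2}, f j.1.2 = ∑ b ∈ Finset.range n, b * f b := by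
  rw [← Finset.sum_subtype (Finset.univ.filter (fun p : Fin n × Fin n => p.1 < p.2)) (by simp)
    (fun p => f p.2), Finset.sum_filter, Fintype.sum_prod_type_right]
  rw [← Fin.sum_univ_eq_sum_range (fun b => b * f b) n]
  refine Finset.sum_congr rfl fun b _ => ?_
  rw [← Finset.sum_filter]
  change ∑ a ∈ Finset.univ.filter (fun a : Fin n => a < b), f (b : ℕ) = _
  rw [Finset.sum_const, card_filter_lt', smul_eq_mul]

theorem two_sum_range (n : ℕ) : 2 * ∑ b ∈ Finset.range (n + 1), b = (n + 1) * n := by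
  have := Finset.sum_range_id_mul_two (n + 1)
  rw [Nat.add_sub_cancel] at this
  rw [mul_comm, this]

/-- PIECE [NUM].  Pairs `a < b` in `Fin n`: `2 * card = n * (n - 1)`. -/
theorem card_J (r : ℕ) : 2 * Fintype.card (J r) = (r + 2) * (r + 1) := by
  have h := sum_pairs_lt (r + 2) (fun _ => 1)
  simp only [Finset.sum_const, smul_eq_mul, mul_one, Finset.card_univ] at h
  rw [h, two_sum_range]

/-- PIECE [NUM]. -/
theorem card_V (r : ℕ) : 2 * Fintype.card (V r) = (r + 2) * (r + 3) := by
  have h := card_J r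
  rw [Fintype.card_sum, mul_add, h, Fintype.card_fin]
  ring

/-- PIECE [NUM]. -/
theorem card_R2 (k : ℕ) : 2 * Fintype.card (R2 k) = k * (k + 1) := by
  have h : Fintype.card (R2 k) = ∑ b ∈ Finset.range k, (b + 1) := by
    rw [Fintype.card_subtype, Finset.card_filter, Fintype.sum_prod_type_right,
      ← Fin.sum_univ_eq_sum_range (fun b => b + 1) k]
    refine Finset.sum_congr rfl fun b _ => ?_
    rw [← Finset.card_filter]
    have : Finset.univ.filter (fun a : Fin k => a ≤ b) = Finset.Iic b := by ext; simp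
    rw [this, Fin.card_Iic]
  rw [h]
  clear h
  induction k with
  | zero => simp
  | succ k ih => rw [Finset.sum_range_succ, mul_add, ih]; ring

/-- PIECE [NUM].  Two for each set of three elements of `Fin (r + 2)`.  For example: the number of triples `(a, b, d)` with `a < b`, `d < b`, `d ≠ a` is `∑_b b (b - 1)`. -/
theorem card_Wix (r : ℕ) : 3 * Fintype.card (Wix r) = (r + 2) * (r + 1) * r := by
  have h : Fintype.card (Wix r) = ∑ j : J r, ((j.1.2 : ℕ) - 1) := by
    rw [Fintype.card_subtype, Finset.card_filter, Fintype.sum_prod_type]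
    refine Finset.sum_congr rfl fun j _ => ?_
    rw [← Finset.card_filter]
    have : Finset.univ.filter (fun d : I r => d ≠ j.1.1 ∧ d < j.1.2) = (Finset.Iio j.1.2).erase j.1.1 := by
      ext d; simp
    rw [this, Finset.card_erase_of_mem (by simpa using j.2), Fin.card_Iio]
  have h2 : Fintype.card (Wix r) = ∑ b ∈ Finset.range (r + 2), b * (b - 1) := by
    rw [h]; exact sum_pairs_lt (r + 2) (fun b => b - 1)
  rw [h2]
  clear h h2
  induction r with
  | zero => decide
  | succ r ih =>
    rw [Finset.sum_range_succ, mul_add, ih]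
    have : r + 2 - 1 = r + 1 := rfl
    rw [this]
    ring

/-- PIECE [NUM].  `Sym.card_sym_eq_multichoose` or `Sym.card_sym_eq_choose`. -/
theorem card_Sym3 (k : ℕ) : 6 * Fintype.card (Sym (Fin k) 3) = k * (k + 1) * (k + 2) := by
  rw [Sym.card_sym_eq_choose, Fintype.card_fin]
  have h := Nat.descFactorial_eq_factorial_mul_choose (k + 3 - 1) 3
  have h3 : Nat.factorial 3 = 6 := rfl
  rw [h3] at h
  rw [← h]
  have h4 : k + 3 - 1 = k + 2 := rfl
  rw [h4]
  simp only [Nat.descFactorial_succ, Nat.descFactorial_zero]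
  have h5 : k + 2 - 2 = k := rfl
  have h6 : k + 2 - 1 = k + 1 := rfl
  have h7 : k + 2 - 0 = k + 2 := rfl
  rw [h5, h6, h7]
  ring

/-- PIECE [NUM].  The cardinality conditions of the chart theorem. -/
theorem card_T {r : ℕ} {T : Type} [Fintype T] (h : (r + 1) + Fintype.card T = Fintype.card (V r)) :
    Fintype.card T = Fintype.card (R2 (r + 1)) + 1 ∧
      dimF r + Fintype.card (Sym (Fin (r + 1)) 3) = (r + 1) * Fintype.card T := by
  have h1 := card_V r
  have h2 := card_R2 (r + 1)
  have h3 := card_Wix r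
  have h4 := card_Sym3 (r + 1)
  unfold dimF
  set a := Fintype.card (V r)
  set b := Fintype.card (R2 (r + 1))
  set w := Fintype.card (Wix r)
  set s := Fintype.card (Sym (Fin (r + 1)) 3)
  set t := Fintype.card T
  have e1 : 2 * t = r * r + 3 * r + 4 := by nlinarith
  refine ⟨by nlinarith, ?_⟩
  have e2 : 6 * (r + 1 + w + s) = 6 * ((r + 1) * t) := by
    have e3 : 6 * ((r + 1) * t) = 3 * (r + 1) * (2 * t) := by ring
    rw [e3, e1]
    have e4 : 6 * (r + 1 + w + s) = 6 * (r + 1) + 2 * (3 * w) + 6 * s := by ring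
    rw [e4, h3, h4]
    ring
  omega

end Pool.Agent.MP_1209e6_fr
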