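import Pool.Agent.Lib_MP_1209e6_fr.CMainB
import Pool.Agent.Lib_MP_1209e6_fr.Num
import Pool.Agent.Lib_MP_1209e6_fr.CreC

/-!
PIECE [CRE] (MP_1209e6_ag).  The chart theorem for arbitrary charts of the Grassmannian.
-/

open MvPolynomial

namespace Pool.Agent.MP_1209e6_fr

variable {r : ℕ} {ι : Type} [Fintype ι] [DecidableEq ι] {Ω : Type} [Field Ω] [Algebra ℂ Ω]
  [Algebra ℚ Ω] [IsScalarTower ℚ ℂ Ω]

/-- A rational matrix which is normalised at `S0` and has an invertible block at `S`. -/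
theorem exists_rational (S0 S : Fin (r + 1) → ι) (hS0 : Function.Injective S0) (hS : Function.Injective S) :
    ∃ y : Fin (r + 1) → ι → ℚ, (∀ i b, y i (S0 b) = if i = b then 1 else 0) ∧ (colB S y).det ≠ 0 := by
  classical
  have hex : ∀ b : {b : Fin (r + 1) // S b ∈ Set.range S0}, ∃ c : {c : Fin (r + 1) // S0 c ∈ Set.range S}, S0 c.1 = S b.1 := by
    rintro ⟨b, c, hc⟩
    exact ⟨⟨c, b, hc.symm⟩, hc⟩
  choose f hf using hex
  have hfi : Function.Injective f := by
    intro a b hab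
    have h1 := hf a
    rw [hab, hf b] at h1
    exact Subtype.ext (hS h1).symm
  have hfs : Function.Surjective f := by
    rintro ⟨c, b, hb⟩
    refine ⟨⟨b, c, hb.symm⟩, ?_⟩
    apply Subtype.ext
    apply hS0
    rw [hf]
    exact hb
  set e : {b : Fin (r + 1) // S b ∈ Set.range S0} ≃ {c : Fin (r + 1) // S0 c ∈ Set.range S} :=
    Equiv.ofBijective f ⟨hfi, hfs⟩ with he
  set π : Equiv.Perm (Fin (r + 1)) := e.extendSubtype with hπ
  have hπ1 : ∀ b, S b ∈ Set.range S0 → S0 (π b) = S b := by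
    intro b hb
    rw [hπ, Equiv.extendSubtype_apply_of_mem e b hb]
    exact hf ⟨b, hb⟩
  refine ⟨fun i j => if (∃ b, S b = j ∧ i = π b) ∨ (j ∉ Set.range S ∧ S0 i = j) then 1 else 0, ?_, ?_⟩
  · intro i c
    refine if_congr ?_ rfl rfl
    constructor
    · rintro (⟨b, hb, hi⟩ | ⟨_, h⟩)
      · apply hS0
        rw [hi, hπ1 b ⟨c, hb.symm⟩, hb]
      · exact hS0 h
    · rintro rfl
      by_cases h : S0 i ∈ Set.range S
      · obtain ⟨b, hb⟩ := h
        refine Or.inl ⟨b, hb, ?_⟩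
        apply hS0
        rw [hπ1 b ⟨i, hb.symm⟩, hb]
      · exact Or.inr ⟨h, rfl⟩
  · have h1 : colB S (fun i j => if (∃ b, S b = j ∧ i = π b) ∨ (j ∉ Set.range S ∧ S0 i = j) then (1 : ℚ) else 0) =
        (1 : Matrix (Fin (r + 1)) (Fin (r + 1)) ℚ).submatrix id π := by
      ext i b
      simp only [colB, Matrix.of_apply, Matrix.submatrix_apply, id_eq, Matrix.one_apply]
      refine if_congr ?_ rfl rfl
      constructor
      · rintro (⟨b', hb, hi⟩ | ⟨h, _⟩)
        · rw [hi, hS hb]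
        · exact absurd ⟨b, rfl⟩ h
      · intro hi
        exact Or.inl ⟨b, rfl, hi⟩
    rw [h1, Matrix.det_permute', Matrix.det_one, mul_one]
    exact_mod_cast (Equiv.Perm.sign π).ne_zero

/-- PIECE [CRE].  The curve meets all charts.

Proof.  `hTr` gives `S0` with `det (colB S0 Φ) ≠ 0`; normalise: `Y = nS S0 Φ`, `Φ = (colB S0 Φ) Y`, so `det (colB S Φ) = det (colB S0 Φ) * det (colB S Y)`.  As in `eval_eq_zero_chart` (with `aeval_ne_zero`) it is enough that `det (colB S Y)` is the value at `x` of a nonzero polynomial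
with rational coefficients, i.e. that there is a rational matrix `y : Fin k → ι → ℚ` with `y i (S0 b) = δ_ib` and `det (colB S y) ≠ 0`.  Let `B = {b | S b ∈ range S0}`, `S b = S0 (g b)` for `b ∈ B` (`g` injective on `B`); extend `g` to a permutation of `Fin k` and put `y i (S b) = δ_(i, g b)` for all `b` (consistent: `S` is injective,
for `b ∉ B` the column `S b` is free), `0` in the remaining columns; then `colB S y` is a permutation matrix. -/
theorem det_ne_zero_chart (hι : Fintype.card ι = Fintype.card (V r)) (t : Sym ι 3 → ℂ) (ht : AlgebraicIndependent ℚ t)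
    (Φ : Fin (r + 1) → ι → Ω)
    (hΦ : ∀ i j l, tri (fun a b d => algebraMap ℂ Ω (t (sy a b d))) (Φ i) (Φ j) (Φ l) = 0) (hTr : HasTr (dimF r) Φ)
    (S : Fin (r + 1) → ι) (hS : Function.Injective S) : (colB S Φ).det ≠ 0 := by
  classical
  obtain ⟨S0, hS0, _⟩ := id hTr
  have hS0i := chart_injective hS0
  obtain ⟨t', ht', hc1, hc2, h1, ⟨e, he⟩, _⟩ := chart_data hι t ht Φ hΦ hTr S0 hS0 {p : ι // p ∉ Set.range S0} (Equiv.refl _)
  rw [colB_nS hS0, Matrix.det_mul]
  refine mul_ne_zero hS0 ?_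
  set δ0 : MvPolynomial (Fin (r + 1) × ι) ℚ := (Matrix.of fun a b => X (a, S b) : Matrix (Fin (r + 1)) (Fin (r + 1)) _).det with hδ0
  have hdet : ∀ {B : Type} [CommRing B] [Algebra ℚ B] (y : Fin (r + 1) → ι → B), aeval (fun p => y p.1 p.2) δ0 = (colB S y).det := by
    intro B _ _ y
    rw [hδ0, AlgHom.map_det]
    congr 1
    ext a b
    rw [AlgHom.mapMatrix_apply, Matrix.map_apply, Matrix.of_apply, aeval_X]
    rfl
  obtain ⟨y, hy1, hy2⟩ := exists_rational S0 S hS0i hS
  have hδ : aeval (chartSub ℚ S0) δ0 ≠ 0 := by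
    intro h0
    have h3 := aeval_chartSub hS0i y hy1 δ0
    rw [h0, map_zero, hdet] at h3
    exact hy2 h3.symm
  have h4 := aeval_ne_zero hc2 t' ht' (fun a p => nS S0 Φ a p.1) h1 e he _ hδ
  have h5 := aeval_chartSub hS0i (nS S0 Φ) (nS_col hS0) δ0
  rw [hdet] at h5
  rw [← h5]
  exact h4

end Pool.Agent.MP_1209e6_fr
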