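import Pool.Agent.Lib_MP_1209e6_fr.CMain
import Pool.Agent.Lib_MP_1209e6_fr.Num
import Pool.Agent.Lib_MP_1209e6_fr.CreC

/-!
PIECE [CRE] (MP_1209e6_ag).  The chart theorem for arbitrary charts of the Grassmannian.
-/

open MvPolynomial

namespace Pool.Agent.MP_1209e6_fr

variable {r : ℕ} {ι : Type} [Fintype ι] [DecidableEq ι] {Ω : Type} [Field Ω] [Algebra ℂ Ω]
  [Algebra ℚ Ω] [IsScalarTower ℚ ℂ Ω]

/-- PIECE [CRE].  Equations hold at all points of the chart.

Proof.  By `HasTr.chart` the normalised matrix `Y = nS S Φ` has `dimF r` algebraically independent entries; the entries in the columns `S b` are `0` or `1`, so they are entries of the columns `p ∉ range S`.  Use `exists_equiv` to pass to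
`ι = Fin k ⊕ T`, `k = r + 1`: with `x a p = Y a p.1` one has `gx x (inl a) = Y a ∘ ε`, the cubic form vanishes on the rows of `Y` (linear combinations of the rows of `Φ`), the coefficients are `t ∘ Sym.map ε` (algebraically independent).  `card_T`, `eval_eq_zero` for the
polynomial obtained from `q` by substituting `0` or `1` for the variables in the columns `S b`. -/
theorem eval_eq_zero_chart (hι : Fintype.card ι = Fintype.card (V r)) (t : Sym ι 3 → ℂ) (ht : AlgebraicIndependent ℚ t)
    (Φ : Fin (r + 1) → ι → Ω)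
    (hΦ : ∀ i j l, tri (fun a b d => algebraMap ℂ Ω (t (sy a b d))) (Φ i) (Φ j) (Φ l) = 0) (hTr : HasTr (dimF r) Φ)
    (S : Fin (r + 1) → ι) (hS : (colB S Φ).det ≠ 0) (q : MvPolynomial (Fin (r + 1) × ι) ℂ)
    (hq : aeval (fun p => nS S Φ p.1 p.2) q = 0) (A : Fin (r + 1) → ι → ℂ)
    (hAS : ∀ i b, A i (S b) = if i = b then 1 else 0)
    (hA : ∀ i j l, tri (fun a b d => t (sy a b d)) (A i) (A j) (A l) = 0) : eval (fun p => A p.1 p.2) q = 0 := by
  classical
  obtain ⟨t', ht', hc1, hc2, h1, ⟨e, he⟩, h2⟩ := chart_data hι t ht Φ hΦ hTr S hS {p : ι // p ∉ Set.range S} (Equiv.refl _)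
  have hSi := chart_injective hS
  have hq' : aeval (fun p : Fin (r + 1) × {p : ι // p ∉ Set.range S} => nS S Φ p.1 p.2.1) (aeval (chartSub ℂ S) q) = 0 := by
    rw [aeval_chartSub hSi (nS S Φ) (nS_col hS)]
    exact hq
  have h3 := eval_eq_zero hc1 hc2 t' ht' (fun a p => nS S Φ a p.1) h1 e he (aeval (chartSub ℂ S) q) hq'
    (fun a p => A a p.1) (h2 A hAS hA)
  have h4 := aeval_chartSub hSi A hAS q
  rw [← MvPolynomial.coe_aeval_eq_eval, RingHom.coe_coe] at h3 ⊢
  rw [← h4]
  exact h3

end Pool.Agent.MP_1209e6_fr
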