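import Pool.Agent.Lib_MP_1209e6_fr.CubA

/-!
PIECE [CUB] (MP_1209e6_ag).  Cubic forms and trilinear forms.
-/

namespace Pool.Agent.MP_1209e6_fr

variable {ι : Type} [Fintype ι] [DecidableEq ι]

/-- PIECE [CUB].  Polarisation: the cubic form vanishes on a subspace with frame `A` if and only if the trilinear form vanishes on all triples of frame vectors.

Proof.  `x = ∑ s_i A_i`: `cubic t x = ∑ s_i s_j s_k T(A_i, A_j, A_k)`.  Conversely `6 T(x, y, z) = G(x+y+z) - G(x+y) - G(x+z) - G(y+z) + G(x) + G(y) + G(z)`. -/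
theorem vanish_iff {k : ℕ} {P : Submodule ℂ (ι → ℂ)} {A : Fin k → ι → ℂ} (hA : IsFrame P A) (t : Sym ι 3 → ℂ) :
    (∀ x ∈ P, cubic t x = 0) ↔ ∀ i j k, T3 t (A i) (A j) (A k) = 0 := by
  constructor
  · intro h i j k
    have hAP : ∀ i, A i ∈ P := fun i => by
      rw [← hA.2]
      exact Submodule.subset_span (Set.mem_range_self i)
    have hG : ∀ x ∈ P, T3 t x x x = 0 := fun x hx => by rw [← cubic_eq]; exact h x hx
    have hc : SymC (fun i j k => nt t (sy i j k)) := symC_sy (nt t)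
    generalize hx : A i = x
    generalize hy : A j = y
    generalize hz : A k = z
    have hxP : x ∈ P := hx ▸ hAP i
    have hyP : y ∈ P := hy ▸ hAP j
    have hzP : z ∈ P := hz ▸ hAP k
    have h1 := hG _ (P.add_mem (P.add_mem hxP hyP) hzP)
    have h2 := hG _ (P.add_mem hxP hyP)
    have h3 := hG _ (P.add_mem hxP hzP)
    have h4 := hG _ (P.add_mem hyP hzP)
    have h5 := hG _ hxP
    have h6 := hG _ hyP
    have h7 := hG _ hzP
    unfold T3 at h1 h2 h3 h4 h5 h6 h7 ⊢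
    simp only [tri_add_left, tri_add_mid, tri_add_right] at h1 h2 h3 h4
    have s1 := hc.swap12 x y z
    have s2 := hc.swap23 x y z
    have s3 := hc.swap12 x z y
    have s4 := hc.swap23 y x z
    have s5 := hc.swap23 z x y
    linear_combination (1 / 6 : ℂ) * h1 - (1 / 6 : ℂ) * h2 - (1 / 6 : ℂ) * h3 - (1 / 6 : ℂ) * h4
      + (1 / 6 : ℂ) * h5 + (1 / 6 : ℂ) * h6 + (1 / 6 : ℂ) * h7 + (2 / 6 : ℂ) * s1
      + (3 / 6 : ℂ) * s2 + (2 / 6 : ℂ) * s3 + (1 / 6 : ℂ) * s4 + (1 / 6 : ℂ) * s5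
  · intro h x hx
    rw [cubic_eq]
    rw [← hA.2, Submodule.mem_span_range_iff_exists_fun] at hx
    obtain ⟨c, rfl⟩ := hx
    unfold T3 at h ⊢
    rw [tri_sum_left]
    refine Finset.sum_eq_zero fun i _ => ?_
    rw [tri_sum_mid]
    refine Finset.sum_eq_zero fun j _ => ?_
    rw [tri_sum_right]
    refine Finset.sum_eq_zero fun k _ => ?_
    rw [tri_smul_left, tri_smul_mid, tri_smul_right, h]
    simp

/-- PIECE [CUB]. -/
theorem mem_Fano_iff {r : ℕ} {P : Submodule ℂ (ι → ℂ)} {A : Fin (r + 1) → ι → ℂ} (hA : IsFrame P A) (t : Sym ι 3 → ℂ) :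
    P ∈ Fano r t ↔ ∀ i j k, T3 t (A i) (A j) (A k) = 0 := by
  rw [← vanish_iff hA]
  have h1 : Module.finrank ℂ P = r + 1 := by
    rw [← hA.2, finrank_span_eq_card hA.1, Fintype.card_fin]
  exact ⟨fun h => h.2, fun h => ⟨h1, h⟩⟩

/-- PIECE [CUB].  A subspace of dimension `k` has a frame. -/
theorem exists_frame {k : ℕ} {P : Submodule ℂ (ι → ℂ)} (h : Module.finrank ℂ P = k) : ∃ A : Fin k → ι → ℂ, IsFrame P A := by
  have b : Module.Basis (Fin k) ℂ P := Module.finBasisOfFinrankEq ℂ P h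
  refine ⟨fun i => (b i : ι → ℂ), ?_, ?_⟩
  · exact b.linearIndependent.map' P.subtype P.ker_subtype
  · have h1 : Set.range (fun i => (b i : ι → ℂ)) = P.subtype '' Set.range b := by
      rw [← Set.range_comp]
      rfl
    rw [h1, ← Submodule.map_span, b.span_eq, Submodule.map_top, Submodule.range_subtype]

end Pool.Agent.MP_1209e6_fr
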