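import Mathlib

/-!
# Trilinear forms (MP_1209e6_ag)
-/

namespace Pool.Agent.MP_1209e6_fr

section

variable {ι R S : Type*} [Fintype ι] [CommRing R] [CommRing S]

/-- The trilinear form with coefficients `c`. -/
def tri (c : ι → ι → ι → R) (x y z : ι → R) : R := ∑ i, ∑ j, ∑ k, c i j k * (x i * y j * z k)

/-- Symmetric coefficients. -/
def SymC {ι R : Type*} (c : ι → ι → ι → R) : Prop :=
  (∀ i j k, c i j k = c j i k) ∧ ∀ i j k, c i j k = c i k j

theorem tri_add_left (c : ι → ι → ι → R) (x x' y z : ι → R) :
    tri c (x + x') y z = tri c x y z + tri c x' y z := by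
  simp only [tri, ← Finset.sum_add_distrib, Pi.add_apply]
  refine Finset.sum_congr rfl fun i _ => Finset.sum_congr rfl fun j _ => Finset.sum_congr rfl fun k _ => ?_
  ring

theorem tri_add_mid (c : ι → ι → ι → R) (x y y' z : ι → R) :
    tri c x (y + y') z = tri c x y z + tri c x y' z := by
  simp only [tri, ← Finset.sum_add_distrib, Pi.add_apply]
  refine Finset.sum_congr rfl fun i _ => Finset.sum_congr rfl fun j _ => Finset.sum_congr rfl fun k _ => ?_
  ring

theorem tri_add_right (c : ι → ι → ι → R) (x y z z' : ι → R) :
    tri c x y (z + z') = tri c x y z + tri c x y z' := by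
  simp only [tri, ← Finset.sum_add_distrib, Pi.add_apply]
  refine Finset.sum_congr rfl fun i _ => Finset.sum_congr rfl fun j _ => Finset.sum_congr rfl fun k _ => ?_
  ring

theorem tri_smul_left (c : ι → ι → ι → R) (a : R) (x y z : ι → R) :
    tri c (a • x) y z = a * tri c x y z := by
  simp only [tri, Finset.mul_sum, Pi.smul_apply, smul_eq_mul]
  refine Finset.sum_congr rfl fun i _ => Finset.sum_congr rfl fun j _ => Finset.sum_congr rfl fun k _ => ?_
  ring

theorem tri_smul_mid (c : ι → ι → ι → R) (a : R) (x y z : ι → R) :
    tri c x (a • y) z = a * tri c x y z := by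
  simp only [tri, Finset.mul_sum, Pi.smul_apply, smul_eq_mul]
  refine Finset.sum_congr rfl fun i _ => Finset.sum_congr rfl fun j _ => Finset.sum_congr rfl fun k _ => ?_
  ring

theorem tri_smul_right (c : ι → ι → ι → R) (a : R) (x y z : ι → R) :
    tri c x y (a • z) = a * tri c x y z := by
  simp only [tri, Finset.mul_sum, Pi.smul_apply, smul_eq_mul]
  refine Finset.sum_congr rfl fun i _ => Finset.sum_congr rfl fun j _ => Finset.sum_congr rfl fun k _ => ?_
  ring

@[simp] theorem tri_zero_left (c : ι → ι → ι → R) (y z : ι → R) : tri c 0 y z = 0 := by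
  simp [tri]

@[simp] theorem tri_zero_mid (c : ι → ι → ι → R) (x z : ι → R) : tri c x 0 z = 0 := by
  simp [tri]

@[simp] theorem tri_zero_right (c : ι → ι → ι → R) (x y : ι → R) : tri c x y 0 = 0 := by
  simp [tri]

theorem tri_neg_left (c : ι → ι → ι → R) (x y z : ι → R) : tri c (-x) y z = - tri c x y z := by
  have h := tri_smul_left c (-1) x y z
  simpa using h

theorem tri_neg_mid (c : ι → ι → ι → R) (x y z : ι → R) : tri c x (-y) z = - tri c x y z := by
  have h := tri_smul_mid c (-1) x y z
  simpa using h

theorem tri_neg_right (c : ι → ι → ι → R) (x y z : ι → R) : tri c x y (-z) = - tri c x y z := by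
  have h := tri_smul_right c (-1) x y z
  simpa using h

theorem tri_sub_left (c : ι → ι → ι → R) (x x' y z : ι → R) :
    tri c (x - x') y z = tri c x y z - tri c x' y z := by
  rw [sub_eq_add_neg, tri_add_left, tri_neg_left, sub_eq_add_neg]

theorem tri_sub_mid (c : ι → ι → ι → R) (x y y' z : ι → R) :
    tri c x (y - y') z = tri c x y z - tri c x y' z := by
  rw [sub_eq_add_neg, tri_add_mid, tri_neg_mid, sub_eq_add_neg]

theorem tri_sub_right (c : ι → ι → ι → R) (x y z z' : ι → R) :
    tri c x y (z - z') = tri c x y z - tri c x y z' := by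
  rw [sub_eq_add_neg, tri_add_right, tri_neg_right, sub_eq_add_neg]

theorem tri_sum_left {κ : Type*} (s : Finset κ) (c : ι → ι → ι → R) (f : κ → ι → R) (y z : ι → R) :
    tri c (∑ a ∈ s, f a) y z = ∑ a ∈ s, tri c (f a) y z := by
  classical
  induction s using Finset.induction_on with
  | empty => simp
  | insert a s ha ih => rw [Finset.sum_insert ha, Finset.sum_insert ha, tri_add_left, ih]

theorem tri_sum_mid {κ : Type*} (s : Finset κ) (c : ι → ι → ι → R) (x : ι → R) (f : κ → ι → R) (z : ι → R) :
    tri c x (∑ a ∈ s, f a) z = ∑ a ∈ s, tri c x (f a) z := by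
  classical
  induction s using Finset.induction_on with
  | empty => simp
  | insert a s ha ih => rw [Finset.sum_insert ha, Finset.sum_insert ha, tri_add_mid, ih]

theorem tri_sum_right {κ : Type*} (s : Finset κ) (c : ι → ι → ι → R) (x y : ι → R) (f : κ → ι → R) :
    tri c x y (∑ a ∈ s, f a) = ∑ a ∈ s, tri c x y (f a) := by
  classical
  induction s using Finset.induction_on with
  | empty => simp
  | insert a s ha ih => rw [Finset.sum_insert ha, Finset.sum_insert ha, tri_add_right, ih]

theorem SymC.swap12 {c : ι → ι → ι → R} (hc : SymC c) (x y z : ι → R) : tri c x y z = tri c y x z := by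
  unfold tri
  rw [Finset.sum_comm]
  refine Finset.sum_congr rfl fun i _ => Finset.sum_congr rfl fun j _ => Finset.sum_congr rfl fun k _ => ?_
  rw [hc.1 j i k]
  ring

theorem SymC.swap23 {c : ι → ι → ι → R} (hc : SymC c) (x y z : ι → R) : tri c x y z = tri c x z y := by
  unfold tri
  refine Finset.sum_congr rfl fun i _ => ?_
  rw [Finset.sum_comm]
  refine Finset.sum_congr rfl fun j _ => Finset.sum_congr rfl fun k _ => ?_
  rw [hc.2 i k j]
  ring

theorem SymC.swap13 {c : ι → ι → ι → R} (hc : SymC c) (x y z : ι → R) : tri c x y z = tri c z y x := by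
  rw [hc.swap12, hc.swap23, hc.swap12]

theorem tri_single [DecidableEq ι] (c : ι → ι → ι → R) (i j k : ι) :
    tri c (Pi.single i 1) (Pi.single j 1) (Pi.single k 1) = c i j k := by
  unfold tri
  rw [Finset.sum_eq_single i, Finset.sum_eq_single j, Finset.sum_eq_single k]
  · simp
  · intro b _ hb; simp [Pi.single_eq_of_ne hb]
  · intro h; exact absurd (Finset.mem_univ _) h
  · intro b _ hb; simp [Pi.single_eq_of_ne hb]
  · intro h; exact absurd (Finset.mem_univ _) h
  · intro b _ hb; simp [Pi.single_eq_of_ne hb]
  · intro h; exact absurd (Finset.mem_univ _) h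

theorem map_tri (f : R →+* S) (c : ι → ι → ι → R) (x y z : ι → R) :
    f (tri c x y z) = tri (fun i j k => f (c i j k)) (fun i => f (x i)) (fun i => f (y i)) (fun i => f (z i)) := by
  simp only [tri, map_sum, map_mul]

theorem tri_add_coef (c c' : ι → ι → ι → R) (x y z : ι → R) :
    tri (fun i j k => c i j k + c' i j k) x y z = tri c x y z + tri c' x y z := by
  simp only [tri, ← Finset.sum_add_distrib]
  refine Finset.sum_congr rfl fun i _ => Finset.sum_congr rfl fun j _ => Finset.sum_congr rfl fun k _ => ?_
  ring

theorem tri_smul_coef (a : R) (c : ι → ι → ι → R) (x y z : ι → R) :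
    tri (fun i j k => a * c i j k) x y z = a * tri c x y z := by
  simp only [tri, Finset.mul_sum]
  refine Finset.sum_congr rfl fun i _ => Finset.sum_congr rfl fun j _ => Finset.sum_congr rfl fun k _ => ?_
  ring

/-- Derivative of a trilinear form. -/
theorem derivation_tri {k : Type*} [CommRing k] [Algebra k R] (D : Derivation k R R)
    (c : ι → ι → ι → R) (x y z : ι → R) :
    D (tri c x y z) = tri (fun i j k => D (c i j k)) x y z + tri c (fun i => D (x i)) y z +
      tri c x (fun i => D (y i)) z + tri c x y (fun i => D (z i)) := by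
  simp only [tri, map_sum, Derivation.leibniz, smul_eq_mul, ← Finset.sum_add_distrib]
  refine Finset.sum_congr rfl fun i _ => Finset.sum_congr rfl fun j _ => Finset.sum_congr rfl fun k _ => ?_
  ring

end

/-- The multiset `{i, j, k}`. -/
def sy {ι : Type*} (i j k : ι) : Sym ι 3 := ⟨{i, j, k}, by simp⟩

theorem sy_swap12 {ι : Type*} (i j k : ι) : sy i j k = sy j i k := by
  apply Subtype.ext
  simp only [sy]
  exact Multiset.cons_swap i j {k}

theorem sy_swap23 {ι : Type*} (i j k : ι) : sy i j k = sy i k j := by
  apply Subtype.ext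
  simp only [sy]
  exact congrArg (Multiset.cons i) (Multiset.cons_swap j k 0)

theorem exists_sy {ι : Type*} (s : Sym ι 3) : ∃ i j k, s = sy i j k := by
  obtain ⟨m, hm⟩ := s
  obtain ⟨a, b, c, h⟩ := Multiset.card_eq_three.1 hm
  exact ⟨a, b, c, Subtype.ext h⟩

/-- Functions on the set of the multisets `{i, j, k}` give symmetric coefficients. -/
theorem symC_sy {ι R : Type*} (t : Sym ι 3 → R) : SymC (fun i j k => t (sy i j k)) :=
  ⟨fun i j k => congrArg t (sy_swap12 i j k), fun i j k => congrArg t (sy_swap23 i j k)⟩

/-- Symmetric coefficients come from a function on the set of the multisets `{i, j, k}`. -/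
theorem SymC.exists_fun {ι R : Type*} {c : ι → ι → ι → R} (hc : SymC c) :
    ∃ u : Sym ι 3 → R, ∀ i j k, c i j k = u (sy i j k) := by
  classical
  refine ⟨fun s => c (exists_sy s).choose (exists_sy s).choose_spec.choose
    (exists_sy s).choose_spec.choose_spec.choose, fun i j k => ?_⟩
  have h := (exists_sy (sy i j k)).choose_spec.choose_spec.choose_spec
  set a := (exists_sy (sy i j k)).choose
  set b := (exists_sy (sy i j k)).choose_spec.choose
  set d := (exists_sy (sy i j k)).choose_spec.choose_spec.choose
  have h1 : ({i, j, k} : Multiset ι) = {a, b, d} := congrArg Subtype.val h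
  have h2 : ([i, j, k] : List ι).Perm [a, b, d] := Multiset.coe_eq_coe.1 h1
  have key : ∀ l l' : List ι, l.Perm l' → ∀ i j k a b d, l = [i, j, k] → l' = [a, b, d] →
      c i j k = c a b d := by
    intro l l' hl i j k a b d e1 e2
    subst e1 e2
    have hmem : i ∈ [a, b, d] := hl.subset (by simp)
    simp only [List.mem_cons, List.not_mem_nil, or_false] at hmem
    rcases hmem with h | h | h
    · subst h
      have h3 := (List.perm_cons _).1 hl
      have hmem : j ∈ [b, d] := h3.subset (by simp)
      simp only [List.mem_cons, List.not_mem_nil, or_false] at hmem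
      rcases hmem with h | h
      · subst h
        have h4 := (List.perm_cons _).1 h3
        rw [List.singleton_perm_singleton] at h4
        subst h4; rfl
      · subst h
        have h4 : [k].Perm [b] := (List.perm_cons j).1 (h3.trans (List.Perm.swap _ _ _))
        rw [List.singleton_perm_singleton] at h4
        subst h4
        exact hc.2 _ _ _
    · subst h
      have h3 : [j, k].Perm [a, d] := (List.perm_cons i).1 (hl.trans (List.Perm.swap _ _ _))
      have hmem : j ∈ [a, d] := h3.subset (by simp)
      simp only [List.mem_cons, List.not_mem_nil, or_false] at hmem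
      rcases hmem with h | h
      · subst h
        have h4 := (List.perm_cons _).1 h3
        rw [List.singleton_perm_singleton] at h4
        subst h4
        exact hc.1 _ _ _
      · subst h
        have h4 : [k].Perm [a] := (List.perm_cons j).1 (h3.trans (List.Perm.swap _ _ _))
        rw [List.singleton_perm_singleton] at h4
        subst h4
        rw [hc.1 k i j, hc.2 i k j]
    · subst h
      have h3 : [j, k].Perm [a, b] := by
        have : [i, j, k].Perm [i, a, b] := hl.trans (by
          exact (List.perm_append_comm (l₁ := [a, b]) (l₂ := [i])))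
        exact (List.perm_cons i).1 this
      have hmem : j ∈ [a, b] := h3.subset (by simp)
      simp only [List.mem_cons, List.not_mem_nil, or_false] at hmem
      rcases hmem with h | h
      · subst h
        have h4 := (List.perm_cons _).1 h3
        rw [List.singleton_perm_singleton] at h4
        subst h4
        rw [hc.1 i j k, hc.2 j i k]
      · subst h
        have h4 : [k].Perm [a] := (List.perm_cons j).1 (h3.trans (List.Perm.swap _ _ _))
        rw [List.singleton_perm_singleton] at h4
        subst h4
        rw [hc.1 i j k, hc.2 j i k, hc.1 j k i]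
  exact key _ _ h2 i j k a b d rfl rfl

end Pool.Agent.MP_1209e6_fr
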