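import Pool.Agent.Lib_MP_1209e6_fr.Defs
import Pool.Agent.Lib_MP_1209e6_fr.Tri

/-!
PIECE [CUB] (MP_1209e6_ag).  Cubic forms and trilinear forms.
-/

namespace Pool.Agent.MP_1209e6_fr

variable {ι : Type} [Fintype ι] [DecidableEq ι]

/-- The number of ordered triples with the given multiset. -/
def mult (s : Sym ι 3) : ℕ := Fintype.card {p : ι × ι × ι // sy p.1 p.2.1 p.2.2 = s}

/-- The symmetric coefficients of a cubic form. -/
noncomputable def nt (t : Sym ι 3 → ℂ) : Sym ι 3 → ℂ := fun s => t s / (mult s : ℂ)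

/-- The trilinear form of a cubic form. -/
noncomputable def T3 (t : Sym ι 3 → ℂ) : (ι → ℂ) → (ι → ℂ) → (ι → ℂ) → ℂ := tri (fun i j k => nt t (sy i j k))

/-- PIECE [CUB].  `exists_sy`. -/
theorem mult_pos (s : Sym ι 3) : 0 < mult s := by
  obtain ⟨i, j, k, h⟩ := exists_sy s
  exact Fintype.card_pos_iff.2 ⟨⟨(i, j, k), h.symm⟩⟩

theorem mult_cast_ne (s : Sym ι 3) : (mult s : ℂ) ≠ 0 := Nat.cast_ne_zero.2 (mult_pos s).ne'

/-- PIECE [CUB].  Group the sum over the ordered triples by their multisets. -/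
theorem cubic_eq (t : Sym ι 3 → ℂ) (x : ι → ℂ) : cubic t x = T3 t x x x := by
  have h1 : T3 t x x x = ∑ p : ι × ι × ι, nt t (sy p.1 p.2.1 p.2.2) *
      (Multiset.map x ((sy p.1 p.2.1 p.2.2 : Sym ι 3) : Multiset ι)).prod := by
    rw [Fintype.sum_prod_type]
    simp only [Fintype.sum_prod_type]
    unfold T3 tri
    refine Finset.sum_congr rfl fun i _ => Finset.sum_congr rfl fun j _ =>
      Finset.sum_congr rfl fun k _ => ?_
    congr 1
    simp [sy, mul_assoc]
  rw [h1, ← Finset.sum_fiberwise Finset.univ (fun p : ι × ι × ι => sy p.1 p.2.1 p.2.2)]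
  unfold cubic
  refine Finset.sum_congr rfl fun s _ => ?_
  have h2 : ∀ p ∈ Finset.univ.filter (fun p : ι × ι × ι => sy p.1 p.2.1 p.2.2 = s),
      nt t (sy p.1 p.2.1 p.2.2) *
        (Multiset.map x ((sy p.1 p.2.1 p.2.2 : Sym ι 3) : Multiset ι)).prod =
      nt t s * (Multiset.map x (s : Multiset ι)).prod := by
    intro p hp
    rw [(Finset.mem_filter.1 hp).2]
  rw [Finset.sum_congr rfl h2, Finset.sum_const, nsmul_eq_mul]
  have h3 : (Finset.univ.filter (fun p : ι × ι × ι => sy p.1 p.2.1 p.2.2 = s)).card = mult s := by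
    unfold mult
    rw [Fintype.card_subtype]
  rw [h3]
  unfold nt
  have := mult_cast_ne s
  field_simp

/-- PIECE [CUB].  Multiplication by nonzero rational numbers preserves algebraic independence. -/
theorem algebraicIndependent_nt {t : Sym ι 3 → ℂ} (ht : AlgebraicIndependent ℚ t) : AlgebraicIndependent ℚ (nt t) := by
  have h := ht.polynomial_aeval_of_transcendental
    (f := fun s => Polynomial.C ((mult s : ℚ)⁻¹) * Polynomial.X) (by
      intro s
      have hc : ((mult s : ℚ)⁻¹) ≠ 0 := inv_ne_zero (Nat.cast_ne_zero.2 (mult_pos s).ne')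
      apply Polynomial.transcendental
      · rw [Polynomial.natDegree_C_mul_X _ hc]; exact one_ne_zero
      · rw [Polynomial.leadingCoeff_C_mul_X]
        exact mem_nonZeroDivisors_of_ne_zero hc)
  have e : (fun s => Polynomial.aeval (t s) (Polynomial.C ((mult s : ℚ)⁻¹) * Polynomial.X)) = nt t := by
    funext s
    simp only [map_mul, Polynomial.aeval_C, Polynomial.aeval_X, nt, map_inv₀, map_natCast]
    rw [div_eq_inv_mul]
  rwa [e] at h

/-- PIECE [CUB].  Every cubic form is the cubic form of given symmetric coefficients: for `u : Sym ι 3 → ℂ` and `t s = mult s * u s` one has `nt t = u`. -/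
theorem nt_mul (u : Sym ι 3 → ℂ) : nt (fun s => (mult s : ℂ) * u s) = u := by
  funext s
  have := mult_cast_ne s
  simp only [nt]
  field_simp

end Pool.Agent.MP_1209e6_fr
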