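import Pool.Agent.Lib_MP_1209e6_fr.Main

/-!
# Entire curves in the varieties of `r`-planes of cubic hypersurfaces

Let `r ≥ 0` and `N = (r + 2) (r + 3) / 2`.  Let `Y` be a cubic hypersurface in `P^(N-1)` with coefficients which are
algebraically independent over `ℚ`.  Then the variety `F_r(Y)` of the `r`-planes contained in `Y` is smooth, irreducible,
and contains an entire curve with Zariski dense image.  Its canonical bundle is trivial.  For `r = 1` these are the
varieties of lines of cubic fourfolds; for `r ≥ 2` Calabi-Yau manifolds of dimension `11, 24, 45, ...`, which have Picard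
number `1`.
-/

namespace Pool.Agent.Results.MP_1209e6_ag.CubicFano

open Pool.Agent.MP_1209e6_fr

theorem result : ∀ (r : ℕ) (t : Sym (Fin ((r + 2) * (r + 3) / 2)) 3 → ℂ), AlgebraicIndependent ℚ t →
    SmoothFano r t ∧ IrreducibleFano r t ∧ BrodySpecialFano r t :=
  main_theorem

end Pool.Agent.Results.MP_1209e6_ag.CubicFano
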