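import Mathlib

/-!
# The varieties of `r`-planes of cubic hypersurfaces (MP_1209e6_ag)

Coordinates are indexed by a finite type `ι` with `n` elements.  The `r`-planes in `P^(n-1)` are the linear subspaces `P` of
dimension `r + 1` of `ℂ^n`.  For a cubic form `G` with coefficients `t` the set `Fano r t` is the set of all `P` on which `G`
vanishes, i.e. the variety `F_r(Y)` of the `r`-planes in the hypersurface `Y = {G = 0}`.  The Zariski topology of the
Grassmannian is described by frames: a set of subspaces is closed if and only if the set of its frames is defined, in the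
set of all frames, by polynomials in the entries.
-/

open Filter Topology

namespace Pool.Agent.MP_1209e6_fr

variable {ι : Type} [Fintype ι] [DecidableEq ι]

/-- The cubic form with coefficient `t s` at the monomial `s`. -/
noncomputable def cubic (t : Sym ι 3 → ℂ) (x : ι → ℂ) : ℂ :=
  ∑ s : Sym ι 3, t s * (Multiset.map x (s : Multiset ι)).prod

/-- `A` is a basis of the subspace `P`. -/
def IsFrame {ι : Type} {k : ℕ} (P : Submodule ℂ (ι → ℂ)) (A : Fin k → ι → ℂ) : Prop :=
  LinearIndependent ℂ A ∧ Submodule.span ℂ (Set.range A) = P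

/-- The variety `F_r(Y)` of the `r`-planes contained in the cubic hypersurface `Y` with coefficients `t`. -/
def Fano (r : ℕ) (t : Sym ι 3 → ℂ) : Set (Submodule ℂ (ι → ℂ)) :=
  {P | Module.finrank ℂ P = r + 1 ∧ ∀ x ∈ P, cubic t x = 0}

/-- The polynomial `q` in the entries of the frames vanishes on the set `Z` of subspaces of dimension `k`. -/
def VanishesOn {ι : Type} {k : ℕ} (q : MvPolynomial (Fin k × ι) ℂ) (Z : Set (Submodule ℂ (ι → ℂ))) : Prop :=
  ∀ P ∈ Z, ∀ A : Fin k → ι → ℂ, IsFrame P A → MvPolynomial.eval (fun p => A p.1 p.2) q = 0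

/-- `U` is a holomorphic map from `ℂ` to the Grassmannian of the subspaces of dimension `k`: it has local holomorphic
frames. -/
def IsEntire {ι : Type} [Fintype ι] (k : ℕ) (U : ℂ → Submodule ℂ (ι → ℂ)) : Prop :=
  ∀ z₀ : ℂ, ∃ A : ℂ → Fin k → ι → ℂ, AnalyticAt ℂ A z₀ ∧ ∀ᶠ z in 𝓝 z₀, IsFrame (U z) (A z)

/-- `F_r(Y)` is smooth of the expected dimension `(r + 1) (n - r - 1) - (r + 3 choose 3)`, `n` the number of variables: at every point the derivative of the
map which restricts the cubic form to a moving subspace is surjective onto the space of all cubic forms in `r + 1`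
variables. -/
def SmoothFano (r : ℕ) (t : Sym ι 3 → ℂ) : Prop :=
  ∀ P ∈ Fano r t, ∀ A : Fin (r + 1) → ι → ℂ, IsFrame P A →
    ∀ g : Sym (Fin (r + 1)) 3 → ℂ, ∃ B : Fin (r + 1) → ι → ℂ, ∀ s : Fin (r + 1) → ℂ,
      deriv (fun ε : ℂ => cubic t (∑ i, s i • (A i + ε • B i))) 0 = cubic g s

/-- `F_r(Y)` is irreducible (and not empty). -/
def IrreducibleFano (r : ℕ) (t : Sym ι 3 → ℂ) : Prop :=
  (Fano r t).Nonempty ∧ ∀ p q : MvPolynomial (Fin (r + 1) × ι) ℂ,
    VanishesOn (p * q) (Fano r t) → VanishesOn p (Fano r t) ∨ VanishesOn q (Fano r t)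

/-- `F_r(Y)` contains an entire curve with Zariski dense image. -/
def BrodySpecialFano (r : ℕ) (t : Sym ι 3 → ℂ) : Prop :=
  ∃ U : ℂ → Submodule ℂ (ι → ℂ), IsEntire (r + 1) U ∧ (∀ z, U z ∈ Fano r t) ∧
    ∀ q : MvPolynomial (Fin (r + 1) × ι) ℂ, VanishesOn q (Set.range U) → VanishesOn q (Fano r t)

end Pool.Agent.MP_1209e6_fr
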