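import Pool.Agent.Lib_MP_1209e6_fr.SExp

/-!
PIECE [EMB] (MP_1209e6_ag).  Laurent polynomials in exponentials.
-/

namespace Pool.Agent.MP_1209e6_fr

/-- Laurent polynomials in `n` variables. -/
abbrev LP (n : ℕ) : Type := AddMonoidAlgebra ℂ (Fin n → ℤ)

/-- The exponent `∑ γ_i w_i`. -/
def expo {n : ℕ} (w : Fin n → ℂ) (γ : Fin n → ℤ) : ℂ := ∑ i, (γ i : ℂ) * w i

/-- The substitution `X_i ↦ exp (w_i z)`. -/
noncomputable def EE {n : ℕ} (w : Fin n → ℂ) : LP n →ₐ[ℂ] PowerSeries ℂ :=
  AddMonoidAlgebra.lift ℂ (PowerSeries ℂ) (Fin n → ℤ)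
    { toFun := fun γ => PowerSeries.rescale (expo w γ.toAdd) (PowerSeries.exp ℂ)
      map_one' := by
        simp [expo]
      map_mul' := fun a b => by
        rw [PowerSeries.exp_mul_exp_eq_exp_add]
        simp [expo, add_mul, Finset.sum_add_distrib] }

/-- The substitution `X^γ ↦ X^(s γ)`. -/
noncomputable def dil {n : ℕ} (s : ℤ) : LP n →ₐ[ℂ] LP n :=
  AddMonoidAlgebra.mapDomainAlgHom ℂ ℂ (AddMonoidHom.mulLeft (fun _ : Fin n => s) : (Fin n → ℤ) →+ (Fin n → ℤ))

variable {n : ℕ}

/-- PIECE [EMB]. -/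
theorem EE_single (w : Fin n → ℂ) (γ : Fin n → ℤ) (a : ℂ) :
    EE w (AddMonoidAlgebra.single γ a) = a • PowerSeries.rescale (expo w γ) (PowerSeries.exp ℂ) := by
  rw [EE, AddMonoidAlgebra.lift_single]
  rfl

/-- PIECE [EMB]. -/
theorem dil_single (s : ℤ) (γ : Fin n → ℤ) (a : ℂ) :
    dil s (AddMonoidAlgebra.single γ a) = (AddMonoidAlgebra.single (s • γ) a : LP n) := by
  have h1 : dil s (AddMonoidAlgebra.single γ a) =
      AddMonoidAlgebra.mapDomain (AddMonoidHom.mulLeft (fun _ : Fin n => s) : (Fin n → ℤ) →+ (Fin n → ℤ))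
        (AddMonoidAlgebra.single γ a) := rfl
  rw [h1, AddMonoidAlgebra.mapDomain_single]
  have h2 : (AddMonoidHom.mulLeft (fun _ : Fin n => s) : (Fin n → ℤ) →+ (Fin n → ℤ)) γ = s • γ := by
    funext i
    show s * γ i = (s • γ) i
    rw [Pi.smul_apply, smul_eq_mul]
  rw [h2]

/-- PIECE [EMB].  The exponents `expo w γ` are different for different `γ`; `linearIndependent_exp`. -/
theorem EE_injective {w : Fin n → ℂ} (hw : LinearIndependent ℚ w) : Function.Injective (EE w) := by
  have hinj : Function.Injective (expo w) := by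
    intro γ δ h
    have h1 : ∑ i, (((γ i - δ i : ℤ) : ℚ)) • w i = 0 := by
      have h2 : ∑ i, (((γ i - δ i : ℤ) : ℚ)) • w i = expo w γ - expo w δ := by
        rw [expo, expo, ← Finset.sum_sub_distrib]
        refine Finset.sum_congr rfl fun i _ => ?_
        rw [Rat.smul_def]
        push_cast
        ring
      rw [h2, h, sub_self]
    have h3 := Fintype.linearIndependent_iff.1 hw (fun i => ((γ i - δ i : ℤ) : ℚ)) h1
    funext i
    have h4 := h3 i
    have h5 : (γ i - δ i : ℤ) = 0 := by exact_mod_cast h4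
    omega
  rw [injective_iff_map_eq_zero]
  intro P hP
  have h1 := linearIndependent_exp hinj
  rw [EE, AddMonoidAlgebra.lift_apply] at hP
  have h2 : Finsupp.linearCombination ℂ (fun γ => PowerSeries.rescale (expo w γ) (PowerSeries.exp ℂ)) P.coeff = 0 := by
    rw [Finsupp.linearCombination_apply]
    exact hP
  have h3 := linearIndependent_iff.1 h1 P.coeff h2
  exact AddMonoidAlgebra.coeff_eq_zero.1 h3

/-- PIECE [EMB].  Both sides are ring homs; check on `single γ a`. -/
theorem rescale_EE (w : Fin n → ℂ) (s : ℤ) (P : LP n) :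
    PowerSeries.rescale (s : ℂ) (EE w P) = EE w (dil s P) := by
  have hexp : ∀ γ : Fin n → ℤ, expo w (s • γ) = (s : ℂ) * expo w γ := by
    intro γ
    rw [expo, expo, Finset.mul_sum]
    refine Finset.sum_congr rfl fun i _ => ?_
    rw [Pi.smul_apply, smul_eq_mul]
    push_cast
    ring
  induction P using AddMonoidAlgebra.induction_linear with
  | zero => rw [map_zero, map_zero, map_zero, map_zero]
  | add P Q hP hQ => rw [map_add, map_add, map_add, map_add, hP, hQ]
  | single γ a =>
    rw [dil_single, EE_single, EE_single, hexp]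
    ext m
    rw [PowerSeries.coeff_rescale, map_smul, map_smul, PowerSeries.coeff_rescale, PowerSeries.coeff_rescale, smul_eq_mul,
      smul_eq_mul, mul_pow]
    ring

/-- PIECE [EMB]. -/
theorem dil_dil (s t : ℤ) (P : LP n) : dil s (dil t P) = dil (s * t) P := by
  induction P using AddMonoidAlgebra.induction_linear with
  | zero => rw [map_zero, map_zero, map_zero]
  | add P Q hP hQ => rw [map_add, map_add, map_add, hP, hQ]
  | single γ a => rw [dil_single, dil_single, dil_single, smul_smul]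

/-- PIECE [EMB].  For `s ≠ 0` the map `γ ↦ s γ` is injective. -/
theorem dil_injective {s : ℤ} (hs : s ≠ 0) : Function.Injective (dil s : LP n → LP n) := by
  have h : Function.Injective (AddMonoidHom.mulLeft (fun _ : Fin n => s) : (Fin n → ℤ) →+ (Fin n → ℤ)) := by
    intro γ δ h
    funext i
    have h1 : s * γ i = s * δ i := congrFun h i
    exact mul_left_cancel₀ hs h1
  exact AddMonoidAlgebra.mapDomain_injective h

/-- `δ` and `γ` differ by a power of `-2`. -/
def Rel (γ δ : Fin n → ℤ) : Prop := ∃ k : ℕ, δ = (-2 : ℤ) ^ k • γ ∨ γ = (-2 : ℤ) ^ k • δ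

open Classical in
/-- The sum of the coefficients of `R` at the exponents `(-2)^k γ`, `k ∈ ℤ`. -/
noncomputable def chi (γ : Fin n → ℤ) (R : LP n) : ℂ := R.coeff.sum fun δ a => if Rel γ δ then a else 0

/-- PIECE [EMB]. -/
theorem chi_add (γ : Fin n → ℤ) (P Q : LP n) : chi γ (P + Q) = chi γ P + chi γ Q := by
  classical
  rw [chi, chi, chi, AddMonoidAlgebra.coeff_add]
  refine Finsupp.sum_add_index' (fun δ => ?_) (fun δ a b => ?_)
  · exact ite_self 0
  · split_ifs
    · rfl
    · exact (add_zero 0).symm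

/-- PIECE [EMB]. -/
theorem chi_smul (γ : Fin n → ℤ) (a : ℂ) (P : LP n) : chi γ (a • P) = a * chi γ P := by
  classical
  rw [chi, chi, AddMonoidAlgebra.coeff_smul, Finsupp.sum_smul_index (fun δ => ite_self 0), Finsupp.mul_sum]
  refine Finsupp.sum_congr fun δ _ => ?_
  split_ifs
  · rfl
  · exact (mul_zero a).symm

open Classical in
/-- PIECE [EMB]. -/
theorem chi_single (γ δ : Fin n → ℤ) (a : ℂ) :
    chi γ (AddMonoidAlgebra.single δ a) = if Rel γ δ then a else 0 := by
  rw [chi, AddMonoidAlgebra.coeff_single]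
  exact Finsupp.sum_single_index (ite_self 0)

end Pool.Agent.MP_1209e6_fr
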