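import Mathlib

/-!
PIECE [TAY] (MP_1209e6_ag).  Taylor series at `0`.
-/

open Filter Topology MvPolynomial

namespace Pool.Agent.MP_1209e6_fr

/-- The Taylor series at `0`. -/
noncomputable def tay (f : ℂ → ℂ) : PowerSeries ℂ := PowerSeries.mk fun n => iteratedDeriv n f 0 / (n.factorial : ℂ)

theorem constantCoeff_tay (f : ℂ → ℂ) : PowerSeries.constantCoeff (tay f) = f 0 := by
  rw [← PowerSeries.coeff_zero_eq_constantCoeff_apply, tay, PowerSeries.coeff_mk]
  simp

theorem coeff_one_tay (f : ℂ → ℂ) : PowerSeries.coeff 1 (tay f) = deriv f 0 := by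
  rw [tay, PowerSeries.coeff_mk]
  simp

/-- PIECE [TAY]. -/
theorem tay_congr {f g : ℂ → ℂ} (h : f =ᶠ[𝓝 0] g) : tay f = tay g := by
  unfold tay
  congr 1
  funext n
  rw [h.iteratedDeriv_eq n]

/-- PIECE [TAY]. -/
theorem tay_const (a : ℂ) : tay (fun _ => a) = PowerSeries.C a := by
  ext n
  rw [tay, PowerSeries.coeff_mk, PowerSeries.coeff_C, iteratedDeriv_const]
  by_cases hn : n = 0
  · subst hn
    simp
  · simp [hn]

/-- PIECE [TAY].  `iteratedDeriv_add`. -/
theorem tay_add {f g : ℂ → ℂ} (hf : AnalyticAt ℂ f 0) (hg : AnalyticAt ℂ g 0) :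
    tay (fun z => f z + g z) = tay f + tay g := by
  ext n
  rw [map_add, tay, tay, tay, PowerSeries.coeff_mk, PowerSeries.coeff_mk, PowerSeries.coeff_mk,
    iteratedDeriv_fun_add hf.contDiffAt hg.contDiffAt, add_div]

/-- PIECE [TAY].  Leibniz formula `iteratedDeriv_mul` (or products of power series). -/
theorem tay_mul {f g : ℂ → ℂ} (hf : AnalyticAt ℂ f 0) (hg : AnalyticAt ℂ g 0) :
    tay (fun z => f z * g z) = tay f * tay g := by
  ext n
  rw [PowerSeries.coeff_mul, tay, tay, tay, PowerSeries.coeff_mk,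
    iteratedDeriv_fun_mul hf.contDiffAt hg.contDiffAt, Finset.sum_div,
    Finset.Nat.sum_antidiagonal_eq_sum_range_succ_mk]
  refine Finset.sum_congr rfl fun i hi => ?_
  have hin : i ≤ n := Nat.lt_succ_iff.mp (Finset.mem_range.mp hi)
  rw [PowerSeries.coeff_mk, PowerSeries.coeff_mk]
  have h1 : ((n.choose i : ℕ) : ℂ) * (i.factorial : ℂ) * ((n - i).factorial : ℂ) = (n.factorial : ℂ) := by
    exact_mod_cast Nat.choose_mul_factorial_mul_factorial hin
  have h2 : (i.factorial : ℂ) ≠ 0 := Nat.cast_ne_zero.mpr (Nat.factorial_ne_zero _)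
  have h3 : ((n - i).factorial : ℂ) ≠ 0 := Nat.cast_ne_zero.mpr (Nat.factorial_ne_zero _)
  have h4 : (n.factorial : ℂ) ≠ 0 := Nat.cast_ne_zero.mpr (Nat.factorial_ne_zero _)
  rw [div_mul_div_comm, div_eq_div_iff h4 (mul_ne_zero h2 h3), ← h1]
  ring

/-- PIECE [TAY].  `iteratedDeriv_comp_const_mul` or similar. -/
theorem tay_rescale {f : ℂ → ℂ} (hf : AnalyticAt ℂ f 0) (a : ℂ) :
    tay (fun z => f (a * z)) = PowerSeries.rescale a (tay f) := by
  have h : ∀ n : ℕ, iteratedDeriv n (fun z => f (a * z)) = fun z => a ^ n * iteratedDeriv n f (a * z) := by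
    intro n
    induction n with
    | zero => funext z; simp
    | succ n ih =>
      funext z
      rw [iteratedDeriv_succ, ih, deriv_const_mul_field, iteratedDeriv_succ,
        deriv_comp_mul_left, smul_eq_mul]
      ring
  ext n
  rw [PowerSeries.coeff_rescale, tay, tay, PowerSeries.coeff_mk, PowerSeries.coeff_mk, h n]
  simp only [mul_zero]
  ring

/-- PIECE [TAY].  An analytic function with Taylor series `0` vanishes near `0` (`AnalyticAt.hasFPowerSeriesAt`, uniqueness; or
`AnalyticAt.eventually_eq_zero_or_eventually_ne_zero` with the order). -/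
theorem eventually_eq_zero_of_tay {f : ℂ → ℂ} (hf : AnalyticAt ℂ f 0) (h : tay f = 0) : ∀ᶠ z in 𝓝 (0 : ℂ), f z = 0 := by
  have h1 : ∀ n : ℕ, iteratedDeriv n f 0 = 0 := by
    intro n
    have h2 := congrArg (PowerSeries.coeff n) h
    rw [tay, PowerSeries.coeff_mk, map_zero, div_eq_zero_iff] at h2
    rcases h2 with h2 | h2
    · exact h2
    · exact absurd h2 (Nat.cast_ne_zero.mpr (Nat.factorial_ne_zero _))
  rw [← analyticOrderAt_eq_top]
  by_contra hne
  obtain ⟨m, hm⟩ := ENat.ne_top_iff_exists.mp hne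
  have h3 : ((m + 1 : ℕ) : ℕ∞) ≤ analyticOrderAt f 0 :=
    (natCast_le_analyticOrderAt_iff_iteratedDeriv_eq_zero hf).mpr fun i _ => h1 i
  rw [← hm] at h3
  have h4 : m + 1 ≤ m := by exact_mod_cast h3
  omega

private theorem tay_an {κ : Type*} (x : κ → ℂ → ℂ) (hx : ∀ k, AnalyticAt ℂ (x k) 0) (q : MvPolynomial κ ℂ) :
    AnalyticAt ℂ (fun z => eval (fun k => x k z) q) 0 := by
  induction q using MvPolynomial.induction_on with
  | C a =>
    simp only [eval_C]
    exact analyticAt_const
  | add p q hp hq =>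
    simp only [map_add]
    exact hp.add hq
  | mul_X p i hp =>
    simp only [map_mul, eval_X]
    exact hp.mul (hx i)

/-- PIECE [TAY].  Induction on the polynomial. -/
theorem tay_eval {κ : Type*} (x : κ → ℂ → ℂ) (hx : ∀ k, AnalyticAt ℂ (x k) 0) (q : MvPolynomial κ ℂ) :
    tay (fun z => eval (fun k => x k z) q) = aeval (fun k => tay (x k)) q := by
  induction q using MvPolynomial.induction_on with
  | C a =>
    simp only [eval_C]
    rw [tay_const, aeval_C]
    rfl
  | add p q hp hq =>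
    simp only [map_add]
    rw [tay_add (tay_an x hx p) (tay_an x hx q), hp, hq]
  | mul_X p i hp =>
    simp only [map_mul, eval_X, aeval_X]
    rw [tay_mul (tay_an x hx p) (hx i), hp]

end Pool.Agent.MP_1209e6_fr
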