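import Pool.Agent.Lib_MP_1209e6_fr.Sol

/-!
PIECE [VNF] (MP_1209e6_ag).  The cubic form vanishes along the formal unstable curves.
-/

namespace Pool.Agent.MP_1209e6_fr

variable {R : Type*} [CommRing R] [Algebra ℚ R] {r : ℕ}

/-- PIECE [VNF].  A power series `w` with `w(-2 z) = u(z) w(z)`, `w(0) = 0`, `u(0) = 1` is `0`.

Proof.  If all coefficients of index `< n` vanish, `n ≥ 1`, then `(-2)^n w_n = w_n`, and `(-2)^n - 1` is an invertible rational number. -/
theorem eq_zero_of_rescale {w u : PowerSeries R} (h : PowerSeries.rescale (-2 : R) w = u * w)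
    (h0 : PowerSeries.constantCoeff w = 0) (hu : PowerSeries.constantCoeff u = 1) : w = 0 := by
  have key : ∀ n, PowerSeries.coeff n w = 0 := by
    intro n
    induction n using Nat.strong_induction_on with
    | _ n ih =>
      rcases Nat.eq_zero_or_pos n with rfl | hn
      · rw [PowerSeries.coeff_zero_eq_constantCoeff_apply]
        exact h0
      · have h1 := congrArg (PowerSeries.coeff n) h
        rw [PowerSeries.coeff_rescale, PowerSeries.coeff_mul,
          Finset.sum_eq_single ((0, n) : ℕ × ℕ)] at h1
        · rw [PowerSeries.coeff_zero_eq_constantCoeff_apply, hu, one_mul] at h1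
          have h2 : ((-2 : ℚ) ^ n - 1) ≠ 0 := by
            intro h3
            have h4 : |(-2 : ℚ) ^ n| = 1 := by
              rw [sub_eq_zero.1 h3, abs_one]
            rw [abs_pow, abs_neg, abs_two] at h4
            have h5 : (1 : ℚ) < 2 ^ n := one_lt_pow₀ (by norm_num) hn.ne'
            linarith
          have h6 : algebraMap ℚ R ((-2 : ℚ) ^ n - 1) = (-2 : R) ^ n - 1 := by
            rw [map_sub, map_pow, map_neg, map_ofNat, map_one]
          have h7 : algebraMap ℚ R ((-2 : ℚ) ^ n - 1) * PowerSeries.coeff n w = 0 := by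
            rw [h6, sub_mul, one_mul, h1, sub_self]
          calc PowerSeries.coeff n w = algebraMap ℚ R (((-2 : ℚ) ^ n - 1)⁻¹ * ((-2 : ℚ) ^ n - 1)) *
                PowerSeries.coeff n w := by rw [inv_mul_cancel₀ h2, map_one, one_mul]
            _ = algebraMap ℚ R (((-2 : ℚ) ^ n - 1)⁻¹) * (algebraMap ℚ R ((-2 : ℚ) ^ n - 1) *
                PowerSeries.coeff n w) := by rw [map_mul, mul_assoc]
            _ = 0 := by rw [h7, mul_zero]
        · rintro ⟨a, b⟩ hab hne
          rw [Finset.HasAntidiagonal.mem_antidiagonal] at hab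
          have h3 : b < n := by
            rcases Nat.eq_zero_or_pos a with rfl | ha
            · exfalso
              apply hne
              simp only [zero_add] at hab
              rw [hab]
            · simp only at hab
              omega
          rw [ih b h3, mul_zero]
        · intro h3
          exact absurd (Finset.HasAntidiagonal.mem_antidiagonal.2 (zero_add n)) h3
  exact PowerSeries.ext fun n => by rw [key n, map_zero]

/-- PIECE [VNF].  `tri_Ft` (for the coefficients `PowerSeries.C (c i j k)`), `map_tri` for `rescale (-2)`, and `eq_zero_of_rescale`; the constant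
coefficients are the values at the base frame: `tri_A0`, `sc_A0`, `tau_A0` (`map_tau`, `map_sc` for `constantCoeff`). -/
theorem IsSol.tri_eq_zero {c : V r → V r → V r → R} (hc : Adapted c) {v : Fin (r + 1) → R}
    {φ : Fin (r + 1) → V r → PowerSeries R} (h : IsSol c v φ) (i j k : Fin (r + 1)) :
    tri (fun a b d => PowerSeries.C (c a b d)) (φ i) (φ j) (φ k) = 0 := by
  have hs : SymC (fun a b d => (PowerSeries.C (c a b d) : PowerSeries R)) :=
    ⟨fun a b d => congrArg PowerSeries.C (hc.sym.1 a b d), fun a b d => congrArg PowerSeries.C (hc.sym.2 a b d)⟩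
  have hφ : (fun a b => PowerSeries.constantCoeff (φ a b)) = A0 R r := by
    funext a b
    exact h.zero a b
  have hcc : (fun a b d => PowerSeries.constantCoeff (PowerSeries.C (c a b d) : PowerSeries R)) = c := by
    funext a b d
    exact PowerSeries.constantCoeff_C _
  have hrc : (fun a b d => PowerSeries.rescale (-2 : R) (PowerSeries.C (c a b d) : PowerSeries R)) =
      fun a b d => (PowerSeries.C (c a b d) : PowerSeries R) := by
    funext a b d
    ext n
    rw [PowerSeries.coeff_rescale, PowerSeries.coeff_C]
    split_ifs with hn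
    · rw [hn, pow_zero, one_mul]
    · rw [mul_zero]
  have hre : ∀ a, (fun b => PowerSeries.rescale (-2 : R) (φ a b)) =
      Ft (fun i j l => PowerSeries.C (c i j l)) φ a := by
    intro a
    funext b
    exact h.eq a b
  refine eq_zero_of_rescale (u := (sc φ * tau (fun a b d => PowerSeries.C (c a b d)) φ) ^ 3) ?_ ?_ ?_
  · rw [map_tri, hrc, hre, hre, hre, tri_Ft hs]
  · rw [map_tri, hcc]
    have h1 := tri_A0 hc i j k
    rw [← hφ] at h1
    exact h1
  · rw [map_pow, map_mul, map_sc, map_tau, hφ, hcc, sc_A0, tau_A0 hc, mul_one, one_pow]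

end Pool.Agent.MP_1209e6_fr
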