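import Pool.Agent.Lib_MP_1209e6_fr.EntA
import Pool.Agent.Lib_MP_1209e6_fr.VanF
import Pool.Agent.Lib_MP_1209e6_fr.Tay

/-!
PIECE [ENT] (MP_1209e6_ag).  The entire unstable curves.
-/

open Filter Topology MvPolynomial

namespace Pool.Agent.MP_1209e6_fr

variable {r : ℕ}

private theorem ent_an {φ : ℂ → Fin (r + 1) → V r → ℂ} (hφ : Differentiable ℂ φ) (i : Fin (r + 1)) (k : V r) (z : ℂ) :
    AnalyticAt ℂ (fun z => φ z i k) z := by
  have h1 : Differentiable ℂ (fun z => φ z i) := fun z => differentiableAt_pi.1 (hφ z) i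
  have h2 : Differentiable ℂ (fun z => φ z i k) := fun z => differentiableAt_pi.1 (h1 z) k
  exact h2.analyticAt z

/-- PIECE [ENT].  The Taylor series of the entire curve is the formal curve: `IsSol` holds for `tay (fun z => φ z i k)` (`tay_rescale`, `tay_eval` applied to
`Fp c (i, k)`, `eval₂_Fp`).  Then `IsSol.unique`. -/
theorem isSol_tay {c : V r → V r → V r → ℂ} {v : Fin (r + 1) → ℂ} {φ : ℂ → Fin (r + 1) → V r → ℂ}
    (hφ : Differentiable ℂ φ) (h0 : φ 0 = A0 ℂ r) (h1 : ∀ i k, deriv (fun z => φ z i k) 0 = ev c v (i, k))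
    (h2 : ∀ z, φ (-2 * z) = Ft c (φ z)) : IsSol c v (fun i k => tay (fun z => φ z i k)) := by
  refine ⟨fun i k => ?_, fun i k => ?_, fun i k => ?_⟩
  · rw [constantCoeff_tay, h0]
  · rw [coeff_one_tay, h1]
  · rw [← tay_rescale (ent_an hφ i k 0) (-2)]
    have h3 : (fun z => φ (-2 * z) i k) = fun z => eval (fun p : Fin (r + 1) × V r => φ z p.1 p.2) (Fp c (i, k)) := by
      funext z
      have h4 := eval₂_Fp (RingHom.id ℂ) c (φ z) (i, k)
      rw [h2 z]
      exact h4.symm
    rw [h3, tay_eval (fun (p : Fin (r + 1) × V r) z => φ z p.1 p.2) (fun p => ent_an hφ p.1 p.2 0) (Fp c (i, k))]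
    exact eval₂_Fp (S := PowerSeries ℂ) (PowerSeries.C (R := ℂ)) c (fun i k => tay (fun z => φ z i k)) (i, k)

/-- PIECE [ENT].  `IsSol.tri_eq_zero` gives that the Taylor series of the entire function `tri c (φ z i) (φ z j) (φ z k)` is `0` (it is a polynomial in the
entries, or use `tay_add`, `tay_mul`), so it vanishes near `0`, hence everywhere (identity theorem
`AnalyticOnNhd.eq_of_eventuallyEq`). -/
theorem tri_entire_eq_zero {c : V r → V r → V r → ℂ} (hc : Adapted c) {v : Fin (r + 1) → ℂ}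
    {φ : ℂ → Fin (r + 1) → V r → ℂ} (hφ : Differentiable ℂ φ)
    (h : IsSol c v (fun i k => tay (fun z => φ z i k))) (z : ℂ) (i j k : Fin (r + 1)) :
    tri c (φ z i) (φ z j) (φ z k) = 0 := by
  let q : MvPolynomial (Fin (r + 1) × V r) ℂ := tri (fun a b d => C (c a b d)) (fun a => X (i, a))
    (fun a => X (j, a)) (fun a => X (k, a))
  have hev : ∀ z, eval (fun p : Fin (r + 1) × V r => φ z p.1 p.2) q = tri c (φ z i) (φ z j) (φ z k) := by
    intro z
    have h4 := map_tri (eval (fun p : Fin (r + 1) × V r => φ z p.1 p.2)) (fun a b d => C (c a b d))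
      (fun a => X (i, a)) (fun a => X (j, a)) (fun a => X (k, a))
    refine h4.trans ?_
    simp only [eval_C, eval_X]
  have h5 : tay (fun z => eval (fun p : Fin (r + 1) × V r => φ z p.1 p.2) q) = 0 := by
    rw [tay_eval (fun (p : Fin (r + 1) × V r) z => φ z p.1 p.2) (fun p => ent_an hφ p.1 p.2 0) q]
    have h5 := map_tri ((aeval (fun p : Fin (r + 1) × V r => tay (fun z => φ z p.1 p.2)) :
      MvPolynomial (Fin (r + 1) × V r) ℂ →ₐ[ℂ] PowerSeries ℂ) : MvPolynomial (Fin (r + 1) × V r) ℂ →+* PowerSeries ℂ)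
      (fun a b d => C (c a b d)) (fun a => X (i, a)) (fun a => X (j, a)) (fun a => X (k, a))
    simp only [RingHom.coe_coe, aeval_X, aeval_C] at h5
    refine h5.trans ?_
    exact h.tri_eq_zero hc i j k
  simp only [hev] at h5
  have han : ∀ z, AnalyticAt ℂ (fun z => tri c (φ z i) (φ z j) (φ z k)) z := by
    intro z
    unfold tri
    refine Finset.analyticAt_fun_sum _ fun a _ => ?_
    refine Finset.analyticAt_fun_sum _ fun b _ => ?_
    refine Finset.analyticAt_fun_sum _ fun d _ => ?_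
    exact analyticAt_const.mul (((ent_an hφ i a z).mul (ent_an hφ j b z)).mul (ent_an hφ k d z))
  have h6 := eventually_eq_zero_of_tay (han 0) h5
  have h7 : (fun z => tri c (φ z i) (φ z j) (φ z k)) = fun _ => 0 := by
    refine AnalyticOnNhd.eq_of_eventuallyEq (𝕜 := ℂ) (z₀ := 0) (fun z _ => han z) (fun z _ => analyticAt_const) ?_
    exact h6
  exact congrFun h7 z

end Pool.Agent.MP_1209e6_fr
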