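import Pool.Agent.Lib_MP_1209e6_fr.BJac
import Pool.Agent.Lib_MP_1209e6_cy.Poincare
import Pool.Agent.Lib_MP_1209e6_cy.SpecRad

/-!
PIECE [ENT] (MP_1209e6_ag).  The entire unstable curves.
-/

open Filter Topology MvPolynomial

namespace Pool.Agent.MP_1209e6_fr

variable {r : ℕ}

private theorem enta_sum_apply {σ : Type} [Fintype σ] (a v : σ → ℂ) :
    (∑ i, a i • (ContinuousLinearMap.proj i : (σ → ℂ) →L[ℂ] ℂ)) v = ∑ i, a i * v i := by
  rw [sum_apply]
  rfl

private theorem enta_hasFDerivAt {σ : Type} [Fintype σ] [DecidableEq σ] (p : MvPolynomial σ ℂ)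
    (x : σ → ℂ) :
    HasFDerivAt (fun y : σ → ℂ => MvPolynomial.eval y p)
      (∑ i, MvPolynomial.eval x (MvPolynomial.pderiv i p) •
        (ContinuousLinearMap.proj i : (σ → ℂ) →L[ℂ] ℂ)) x := by
  induction p using MvPolynomial.induction_on with
  | C a =>
    have h : HasFDerivAt (fun _ : σ → ℂ => a) (0 : (σ → ℂ) →L[ℂ] ℂ) x :=
      hasFDerivAt_const _ _
    have h2 : (fun y : σ → ℂ => MvPolynomial.eval y (MvPolynomial.C a)) = fun _ => a := by
      funext y
      simp
    rw [h2]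
    refine h.congr_fderiv ?_
    refine ContinuousLinearMap.ext fun v => ?_
    rw [enta_sum_apply]
    simp
  | add p q hp hq =>
    have h2 : (fun y : σ → ℂ => MvPolynomial.eval y (p + q)) =
        (fun y => MvPolynomial.eval y p) + fun y => MvPolynomial.eval y q := by
      funext y
      simp
    rw [h2]
    refine (hp.add hq).congr_fderiv ?_
    refine ContinuousLinearMap.ext fun v => ?_
    rw [enta_sum_apply]
    rw [add_apply, enta_sum_apply, enta_sum_apply, ← Finset.sum_add_distrib]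
    refine Finset.sum_congr rfl fun i _ => ?_
    rw [map_add, map_add]
    ring
  | mul_X p j hp =>
    have h1 : HasFDerivAt (fun y : σ → ℂ => y j)
        (ContinuousLinearMap.proj j : (σ → ℂ) →L[ℂ] ℂ) x :=
      (ContinuousLinearMap.proj j : (σ → ℂ) →L[ℂ] ℂ).hasFDerivAt
    have h2 : (fun y : σ → ℂ => MvPolynomial.eval y (p * MvPolynomial.X j)) =
        (fun y => MvPolynomial.eval y p * y j) := by
      funext y
      simp
    rw [h2]
    refine (hp.mul h1).congr_fderiv ?_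
    refine ContinuousLinearMap.ext fun v => ?_
    rw [enta_sum_apply]
    have h4 := enta_sum_apply (fun i => MvPolynomial.eval x (MvPolynomial.pderiv i p)) v
    refine Eq.trans (b := MvPolynomial.eval x p * v j + x j *
      ∑ i, MvPolynomial.eval x (MvPolynomial.pderiv i p) * v i) ?_ ?_
    · rw [← h4]
      rfl
    have h3 : ∀ i, MvPolynomial.eval x (MvPolynomial.pderiv i (p * MvPolynomial.X j)) * v i =
        MvPolynomial.eval x p * (if i = j then v j else 0) +
          x j * (MvPolynomial.eval x (MvPolynomial.pderiv i p) * v i) := by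
      intro i
      rw [Derivation.leibniz, MvPolynomial.pderiv_X]
      by_cases hij : i = j
      · subst hij
        simp
        ring
      · have : j ≠ i := fun h => hij h.symm
        simp [hij, this]
        ring
    simp_rw [h3]
    rw [Finset.sum_add_distrib, ← Finset.mul_sum, ← Finset.mul_sum]
    simp

private theorem enta_poly {σ : Type} [Fintype σ] [DecidableEq σ] (M : Matrix σ σ ℂ)
    (h : M * (M - 1) * (M + 2) = 0) (T : (σ → ℂ) →L[ℂ] (σ → ℂ)) (hT : ∀ u, T u = M.mulVec u) :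
    T * (T - 1) * (T - (-2 : ℂ) • (1 : (σ → ℂ) →L[ℂ] (σ → ℂ))) *
      (T - (-2 : ℂ)⁻¹ • (1 : (σ → ℂ) →L[ℂ] (σ → ℂ))) = 0 := by
  have e2 : ∀ u : σ → ℂ, (2 : Matrix σ σ ℂ).mulVec u = (2 : ℂ) • u := by
    intro u
    rw [show (2 : Matrix σ σ ℂ) = 1 + 1 from one_add_one_eq_two.symm, Matrix.add_mulVec,
      Matrix.one_mulVec, two_smul]
  have h1 : ∀ u : σ → ℂ, T ((T - 1) ((T - (-2 : ℂ) • (1 : (σ → ℂ) →L[ℂ] (σ → ℂ))) u)) =
      (M * (M - 1) * (M + 2)).mulVec u := by
    intro u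
    rw [← Matrix.mulVec_mulVec, ← Matrix.mulVec_mulVec, Matrix.add_mulVec, e2, Matrix.sub_mulVec,
      Matrix.one_mulVec, hT]
    congr 1
    show T (T u - (-2 : ℂ) • u) - (T u - (-2 : ℂ) • u) = _
    rw [hT, hT, neg_smul, sub_neg_eq_add]
  refine ContinuousLinearMap.ext fun u => ?_
  show T ((T - 1) ((T - (-2 : ℂ) • (1 : (σ → ℂ) →L[ℂ] (σ → ℂ)))
    ((T - (-2 : ℂ)⁻¹ • (1 : (σ → ℂ) →L[ℂ] (σ → ℂ))) u))) = 0
  rw [h1, h, Matrix.zero_mulVec]

private theorem enta_eval_Fp (c : V r → V r → V r → ℂ) (x : Fin (r + 1) × V r → ℂ)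
    (k : Fin (r + 1) × V r) :
    eval x (Fp c k) = Ft c (fun i j => x (i, j)) k.1 k.2 :=
  eval₂_Fp (RingHom.id ℂ) c (fun i j => x (i, j)) k

/-- PIECE [ENT].  `Pool.Agent.MP_1209e6_cy.exists_poincare` with `E = Fin (r+1) × V r → ℂ`, `F A = fun k => eval A (Fp c k)`, `c = unc A0`,
`lam = -2`, `T` = the continuous linear map of the matrix `jac c` (the derivative of polynomial maps: induction on the polynomial),
`e = ev c v` (`jac_ev`), and `Pool.Agent.MP_1209e6_cy.exists_pow_norm_lt` (`jac_poly`, multiply by the missing factor) for the norms of the powers. -/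
theorem exists_entire {c : V r → V r → V r → ℂ} (hc : Adapted c) (v : Fin (r + 1) → ℂ) :
    ∃ φ : ℂ → Fin (r + 1) → V r → ℂ, Differentiable ℂ φ ∧ φ 0 = A0 ℂ r ∧
      (∀ i k, deriv (fun z => φ z i k) 0 = ev c v (i, k)) ∧ ∀ z, φ (-2 * z) = Ft c (φ z) := by
  classical
  set M := jac c with hM
  set T : (Fin (r + 1) × V r → ℂ) →L[ℂ] (Fin (r + 1) × V r → ℂ) :=
    LinearMap.toContinuousLinearMap (Matrix.mulVecLin M) with hTdef
  have hTa : ∀ u, T u = M.mulVec u := fun u => rfl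
  set F : (Fin (r + 1) × V r → ℂ) → (Fin (r + 1) × V r → ℂ) := fun A k => eval A (Fp c k) with hF
  have hFc : ContDiff ℂ 2 F := by
    rw [contDiff_pi]
    intro k
    exact contDiffOn_univ.1 ((AnalyticOnNhd.eval_mvPolynomial (Fp c k)).contDiffOn uniqueDiffOn_univ)
  have hF0 : F (unc (A0 ℂ r)) = unc (A0 ℂ r) := by
    funext k
    show eval (unc (A0 ℂ r)) (Fp c k) = _
    rw [enta_eval_Fp]
    show Ft c (A0 ℂ r) k.1 k.2 = _
    rw [Ft_A0 hc]
    rfl
  have hFd : HasFDerivAt F T (unc (A0 ℂ r)) := by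
    rw [hasFDerivAt_pi']
    intro k
    refine (enta_hasFDerivAt (Fp c k) (unc (A0 ℂ r))).congr_fderiv ?_
    refine ContinuousLinearMap.ext fun u => ?_
    rw [enta_sum_apply]
    rfl
  have he : T (ev c v) = (-2 : ℂ) • ev c v := jac_ev hc v
  have hlam : 1 < ‖(-2 : ℂ)‖ := by norm_num
  have hpoly := enta_poly M (jac_poly hc) T hTa
  obtain ⟨n, hn, hTn⟩ := Pool.Agent.MP_1209e6_cy.exists_pow_norm_lt T hlam hpoly
  obtain ⟨φ, hφ, hφ0, hφ1, hφ2⟩ :=
    Pool.Agent.MP_1209e6_cy.exists_poincare hFc hlam hF0 hFd he hn hTn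
  refine ⟨fun z i k => φ z (i, k), ?_, ?_, ?_, ?_⟩
  · rw [differentiable_pi]
    intro i
    rw [differentiable_pi]
    intro k
    exact (differentiable_pi.1 hφ) (i, k)
  · funext i k
    show φ 0 (i, k) = _
    rw [hφ0]
    rfl
  · intro i k
    have h1 : HasDerivAt φ (ev c v) 0 := by
      rw [← hφ1]
      exact (hφ 0).hasDerivAt
    exact ((hasDerivAt_pi.1 h1) (i, k)).deriv
  · intro z
    funext i k
    show φ (-2 * z) (i, k) = _
    rw [hφ2 z]
    show eval (φ z) (Fp c (i, k)) = _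
    rw [enta_eval_Fp]

end Pool.Agent.MP_1209e6_fr
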