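import Mathlib

/-!
PIECE [FIX] (MP_1209e6_ag).  The field of formal Laurent series as the fraction field of `ℂ⟦z⟧`, with the map `z ↦ -2 z`.
-/

namespace Pool.Agent.MP_1209e6_fr

/-- The fraction field of `ℂ⟦z⟧`. -/
abbrev KK : Type := FractionRing (PowerSeries ℂ)

open PowerSeries in
theorem fix_least {f : PowerSeries ℂ} (hf : f ≠ 0) :
    ∃ n, coeff n f ≠ 0 ∧ ∀ m < n, coeff m f = 0 := by
  classical
  have h : ∃ n, coeff n f ≠ 0 := by
    by_contra hcon
    push Not at hcon
    exact hf (PowerSeries.ext fun n => by rw [hcon n, map_zero])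
  exact ⟨Nat.find h, Nat.find_spec h, fun m hm => by
    by_contra hne
    exact Nat.find_min h hm hne⟩

open PowerSeries in
theorem fix_coeff {f g : PowerSeries ℂ} {a b : ℕ} (hf : ∀ m < a, coeff m f = 0)
    (hg : ∀ m < b, coeff m g = 0) : coeff (a + b) (f * g) = coeff a f * coeff b g := by
  rw [coeff_mul, Finset.sum_eq_single (a, b)]
  · rintro ⟨i, j⟩ hij hne
    rw [Finset.HasAntidiagonal.mem_antidiagonal] at hij
    rcases lt_trichotomy i a with h | h | h
    · rw [hf i h, zero_mul]
    · exfalso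
      apply hne
      simp only at hij
      ext
      · exact h
      · simp only; omega
    · have : j < b := by simp only at hij; omega
      rw [hg j this, mul_zero]
  · intro h
    exact absurd (Finset.HasAntidiagonal.mem_antidiagonal.2 (by simp only)) h

open PowerSeries in
theorem fix_order {f g : PowerSeries ℂ} {b : ℕ} (hf : f ≠ 0) (hg : coeff b g ≠ 0)
    (hg' : ∀ m < b, coeff m g = 0)
    (h : rescale (-2 : ℂ) f * g = f * rescale (-2 : ℂ) g) : coeff b f ≠ 0 := by
  obtain ⟨a, ha, ha'⟩ := fix_least hf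
  have h1 := congrArg (coeff (a + b)) h
  rw [fix_coeff (fun m hm => by rw [coeff_rescale, ha' m hm, mul_zero]) hg',
    fix_coeff ha' (fun m hm => by rw [coeff_rescale, hg' m hm, mul_zero]), coeff_rescale,
    coeff_rescale] at h1
  have h2 : ((-2 : ℂ) ^ a - (-2 : ℂ) ^ b) * (coeff a f * coeff b g) = 0 := by
    linear_combination h1
  have h3 : (-2 : ℂ) ^ a = (-2 : ℂ) ^ b := by
    rcases mul_eq_zero.1 h2 with h | h
    · exact sub_eq_zero.1 h
    · exact absurd h (mul_ne_zero ha hg)
  have h4 := congrArg norm h3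
  rw [norm_pow, norm_pow] at h4
  simp only [norm_neg] at h4
  have h5 : ‖(2 : ℂ)‖ = 2 := by simp
  rw [h5] at h4
  have h6 : a = b := pow_right_injective₀ (by norm_num : (0 : ℝ) < 2) (by norm_num) h4
  rw [← h6]
  exact ha

open PowerSeries in
theorem fix_const {f g : PowerSeries ℂ} (hg : g ≠ 0)
    (h : rescale (-2 : ℂ) f * g = f * rescale (-2 : ℂ) g) : ∃ c : ℂ, f = C c * g := by
  obtain ⟨b, hb, hb'⟩ := fix_least hg
  refine ⟨coeff b f / coeff b g, ?_⟩
  set c := coeff b f / coeff b g with hc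
  by_contra hne
  have h0 : f - C c * g ≠ 0 := sub_ne_zero.2 hne
  have hCc : rescale (-2 : ℂ) (C c) = C c := by
    ext n
    rw [coeff_rescale, coeff_C]
    split_ifs with hn
    · rw [hn, pow_zero, one_mul]
    · rw [mul_zero]
  refine fix_order h0 hb hb' ?_ ?_
  · rw [map_sub, map_mul, hCc]
    linear_combination h
  · rw [map_sub, coeff_C_mul, hc, div_mul_cancel₀ _ hb, sub_self]

/-- PIECE [FIX].  `rescale (-2)` extends to the fraction field (injective ring hom of a domain), it is `ℂ`-linear, and its fixed elements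
are the constants.

Proof of the last statement.  `x = f / g`, `g ≠ 0`; write `f = z^a f1`, `g = z^b g1` with `f1, g1` of constant coefficient `≠ 0`; so `x = z^(a-b) h` with a unit `h` of `ℂ⟦z⟧`
(`a, b` naturals; multiply by powers of `z`).  `σ x = (-2)^(a-b) z^(a-b) σ h`, so `(-2)^(a-b) σ(h) = h`; constant coefficients: `(-2)^(a-b) = 1`, `a = b`, and `σ h = h`
gives `(-2)^n h_n = h_n`, so `h` is constant.  (Or: embed in `LaurentSeries ℂ`.) -/
theorem exists_sigma : ∃ σ : KK →ₐ[ℂ] KK,
    (∀ f : PowerSeries ℂ, σ (algebraMap _ KK f) = algebraMap _ KK (PowerSeries.rescale (-2 : ℂ) f)) ∧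
    ∀ x, σ x = x → x ∈ (algebraMap ℂ KK).range := by
  have hinj : Function.Injective (PowerSeries.rescale (-2 : ℂ)) := by
    intro f g hfg
    ext n
    have h1 := congrArg (PowerSeries.coeff n) hfg
    rw [PowerSeries.coeff_rescale, PowerSeries.coeff_rescale] at h1
    exact mul_left_cancel₀ (pow_ne_zero n (by norm_num)) h1
  let σ₀ : KK →+* KK := IsFractionRing.map (K := KK) (L := KK) hinj
  have hσ : ∀ f : PowerSeries ℂ,
      σ₀ (algebraMap _ KK f) = algebraMap _ KK (PowerSeries.rescale (-2 : ℂ) f) := fun f =>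
    IsLocalization.map_eq _ f
  have hC : ∀ c : ℂ, algebraMap ℂ KK c = algebraMap (PowerSeries ℂ) KK (PowerSeries.C c) :=
    fun c => IsScalarTower.algebraMap_apply ℂ (PowerSeries ℂ) KK c
  refine ⟨{ σ₀ with commutes' := ?_ }, hσ, ?_⟩
  · intro c
    show σ₀ (algebraMap ℂ KK c) = algebraMap ℂ KK c
    rw [hC, hσ]
    congr 1
    ext n
    rw [PowerSeries.coeff_rescale, PowerSeries.coeff_C]
    split_ifs with hn
    · rw [hn, pow_zero, one_mul]
    · rw [mul_zero]
  · intro x hx
    have hx' : σ₀ x = x := hx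
    obtain ⟨f, g, hg, rfl⟩ := IsFractionRing.div_surjective (A := PowerSeries ℂ) x
    have hg0 : g ≠ 0 := nonZeroDivisors.ne_zero hg
    have hgK : algebraMap (PowerSeries ℂ) KK g ≠ 0 := by
      rw [Ne, FaithfulSMul.algebraMap_eq_zero_iff]
      exact hg0
    have hg1 : PowerSeries.rescale (-2 : ℂ) g ≠ 0 := by
      intro h
      exact hg0 (hinj (by rw [h, map_zero]))
    have hg1K : algebraMap (PowerSeries ℂ) KK (PowerSeries.rescale (-2 : ℂ) g) ≠ 0 := by
      rw [Ne, FaithfulSMul.algebraMap_eq_zero_iff]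
      exact hg1
    rw [map_div₀, hσ, hσ, div_eq_div_iff hg1K hgK, ← map_mul, ← map_mul] at hx'
    have h2 := FaithfulSMul.algebraMap_injective (PowerSeries ℂ) KK hx'
    obtain ⟨c, hc⟩ := fix_const hg0 h2
    refine ⟨c, ?_⟩
    rw [hC, hc, map_mul, mul_div_cancel_right₀ _ hgK]

end Pool.Agent.MP_1209e6_fr
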