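import Pool.Agent.Lib_MP_1209e6_fr.Defs
import Pool.Agent.Lib_MP_1209e6_fr.Tay
import Pool.Agent.Lib_MP_1209e6_fr.Fix

/-!
PIECE [FNA] (MP_1209e6_ag).  Polynomials which vanish at the generic frame of the curve.
-/

open MvPolynomial Filter Topology

namespace Pool.Agent.MP_1209e6_fr

variable {ι : Type} [Fintype ι] [DecidableEq ι]

/-- The polynomial `q` vanishes at `G Φ`, `G` the matrix of variables. -/
def GenVan {k : ℕ} (Φ : Fin k → ι → KK) (q : MvPolynomial (Fin k × ι) ℂ) : Prop :=
  aeval (fun p : Fin k × ι => ∑ l, (X (p.1, l) : MvPolynomial (Fin k × Fin k) KK) * C (Φ l p.2)) q = 0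

/-- PIECE [FNA].  The target is a domain. -/
theorem GenVan.of_mul {k : ℕ} {Φ : Fin k → ι → KK} {p q : MvPolynomial (Fin k × ι) ℂ} (h : GenVan Φ (p * q)) :
    GenVan Φ p ∨ GenVan Φ q := by
  unfold GenVan at *
  rw [map_mul] at h
  exact mul_eq_zero.mp h

/-- Frames are changed by invertible matrices. -/
theorem isFrame_mul {ι : Type} {k : ℕ} {P : Submodule ℂ (ι → ℂ)} {A : Fin k → ι → ℂ} (hA : IsFrame P A)
    (g : Matrix (Fin k) (Fin k) ℂ) (hg : g.det ≠ 0) : IsFrame P (fun i j => ∑ l, g i l * A l j) := by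
  have hli : LinearIndependent ℂ (fun i : Fin k => ((fun j => ∑ l, g i l * A l j) : ι → ℂ)) := by
    rw [Fintype.linearIndependent_iff]
    intro c hc
    have h1 : ∑ l, (∑ i, c i * g i l) • A l = 0 := by
      rw [← hc]
      funext j
      simp only [Finset.sum_apply, Pi.smul_apply, smul_eq_mul, Finset.sum_mul, Finset.mul_sum]
      rw [Finset.sum_comm]
      refine Finset.sum_congr rfl fun i _ => Finset.sum_congr rfl fun l _ => by ring
    have h2 := (Fintype.linearIndependent_iff.mp hA.1) _ h1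
    have h3 : Matrix.vecMul c g = 0 := by
      funext l
      simpa [Matrix.vecMul, dotProduct] using h2 l
    have h4 := Matrix.eq_zero_of_vecMul_eq_zero hg h3
    intro i
    rw [h4]
    rfl
  refine ⟨hli, ?_⟩
  have hle : Submodule.span ℂ (Set.range (fun i : Fin k => ((fun j => ∑ l, g i l * A l j) : ι → ℂ))) ≤ P := by
    rw [Submodule.span_le]
    rintro _ ⟨i, rfl⟩
    have h5 : ((fun j => ∑ l, g i l * A l j) : ι → ℂ) = ∑ l, g i l • A l := by
      funext j
      simp [Finset.sum_apply]
    have h6 : (∑ l, g i l • A l) ∈ P := by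
      refine P.sum_mem fun l _ => P.smul_mem _ ?_
      rw [← hA.2]
      exact Submodule.subset_span ⟨l, rfl⟩
    exact (congrArg (fun v => v ∈ P) h5).mpr h6
  have hfd : FiniteDimensional ℂ P := by
    rw [← hA.2]
    exact FiniteDimensional.span_of_finite ℂ (Set.finite_range _)
  refine Submodule.eq_of_le_of_finrank_eq hle ?_
  rw [finrank_span_eq_card hli]
  conv_rhs => rw [← hA.2]
  rw [finrank_span_eq_card hA.1]

/-- Step 1: the polynomial vanishes at `g φ(z)` for all `g`. -/
theorem eval_mul_frame {ι : Type} {k : ℕ} {P : Submodule ℂ (ι → ℂ)} {A : Fin k → ι → ℂ} (hA : IsFrame P A)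
    {q : MvPolynomial (Fin k × ι) ℂ} (hq : ∀ A : Fin k → ι → ℂ, IsFrame P A → MvPolynomial.eval (fun p => A p.1 p.2) q = 0)
    (g : Fin k × Fin k → ℂ) : MvPolynomial.eval (fun p : Fin k × ι => ∑ l, g (p.1, l) * A l p.2) q = 0 := by
  have key : (aeval (fun p : Fin k × ι => ∑ l, (X (p.1, l) : MvPolynomial (Fin k × Fin k) ℂ) * C (A l p.2)) q) *
      (Matrix.det (Matrix.of fun i j : Fin k => (X (i, j) : MvPolynomial (Fin k × Fin k) ℂ))) = 0 := by
    refine MvPolynomial.funext fun x => ?_
    rw [map_mul, map_zero]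
    have h1 : eval x (aeval (fun p : Fin k × ι => ∑ l, (X (p.1, l) : MvPolynomial (Fin k × Fin k) ℂ) * C (A l p.2)) q) =
        eval (fun p : Fin k × ι => ∑ l, x (p.1, l) * A l p.2) q := by
      have h1' : (eval x).comp (aeval (fun p : Fin k × ι => ∑ l, (X (p.1, l) : MvPolynomial (Fin k × Fin k) ℂ) * C (A l p.2)) :
          MvPolynomial (Fin k × ι) ℂ →ₐ[ℂ] MvPolynomial (Fin k × Fin k) ℂ).toRingHom = eval (fun p : Fin k × ι => ∑ l, x (p.1, l) * A l p.2) := by
        refine MvPolynomial.ringHom_ext (fun r => ?_) (fun i => ?_)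
        · simp
        · simp
      exact congrArg (fun f => f q) h1'
    have h2 : eval x (Matrix.det (Matrix.of fun i j : Fin k => (X (i, j) : MvPolynomial (Fin k × Fin k) ℂ))) =
        Matrix.det (Matrix.of fun i j : Fin k => x (i, j)) := by
      rw [RingHom.map_det]
      refine congrArg Matrix.det ?_
      ext i j
      simp
    rw [h1, h2]
    by_cases hd : Matrix.det (Matrix.of fun i j : Fin k => x (i, j)) = 0
    · rw [hd, mul_zero]
    · rw [hq (fun i j => ∑ l, x (i, l) * A l j) (isFrame_mul hA (Matrix.of fun i j : Fin k => x (i, j)) hd), zero_mul]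
  have hdet : Matrix.det (Matrix.of fun i j : Fin k => (X (i, j) : MvPolynomial (Fin k × Fin k) ℂ)) ≠ 0 := by
    intro h0
    have h3 := congrArg (eval (fun p : Fin k × Fin k => (1 : Matrix (Fin k) (Fin k) ℂ) p.1 p.2)) h0
    rw [RingHom.map_det, map_zero] at h3
    have h4 : ((eval (fun p : Fin k × Fin k => (1 : Matrix (Fin k) (Fin k) ℂ) p.1 p.2)).mapMatrix
        (Matrix.of fun i j : Fin k => (X (i, j) : MvPolynomial (Fin k × Fin k) ℂ))) = 1 := by
      ext i j
      simp
    rw [h4, Matrix.det_one] at h3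
    exact one_ne_zero h3
  have h0 := (mul_eq_zero.mp key).resolve_right hdet
  have h5 := congrArg (eval g) h0
  rw [map_zero] at h5
  have h1' : (eval g).comp (aeval (fun p : Fin k × ι => ∑ l, (X (p.1, l) : MvPolynomial (Fin k × Fin k) ℂ) * C (A l p.2)) :
      MvPolynomial (Fin k × ι) ℂ →ₐ[ℂ] MvPolynomial (Fin k × Fin k) ℂ).toRingHom = eval (fun p : Fin k × ι => ∑ l, g (p.1, l) * A l p.2) := by
    refine MvPolynomial.ringHom_ext (fun r => ?_) (fun i => ?_)
    · simp
    · simp
  have h6 := congrArg (fun f => f q) h1'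
  exact h6.symm.trans h5

theorem analyticAt_zero_const (a : ℂ) : AnalyticAt ℂ (fun _ : ℂ => a) 0 := analyticAt_const

theorem tay_zero' : tay (fun _ : ℂ => (0 : ℂ)) = 0 := by
  rw [tay_const, map_zero]

theorem tay_sum {κ : Type*} (s : Finset κ) (f : κ → ℂ → ℂ) (hf : ∀ l, AnalyticAt ℂ (f l) 0) :
    tay (fun z => ∑ l ∈ s, f l z) = ∑ l ∈ s, tay (f l) := by
  classical
  induction s using Finset.induction_on with
  | empty => simpa using tay_zero'
  | insert a s ha ih =>
    rw [Finset.sum_insert ha, ← ih]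
    have h1 : (fun z => ∑ l ∈ insert a s, f l z) = fun z => f a z + ∑ l ∈ s, f l z := by
      funext z
      rw [Finset.sum_insert ha]
    rw [h1]
    exact tay_add (hf a) (Finset.analyticAt_fun_sum s fun l _ => hf l)

/-- PIECE [FNA].  Proof.  For `z` near `0` and an invertible matrix `g`, `g φ(z)` is a frame of `U z`, so `q(g φ(z)) = 0`; as polynomials in the entries of `g` which vanish on all invertible matrices are `0`, `q(g φ(z)) = 0` for all complex matrices `g`.  Fix `g`; the Taylor series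
in `z` is `0` (`tay_eval` for the functions `z ↦ ∑ l, g i l * φ z l j`, `tay_congr`), so `q(g Φ) = 0` in `KK`.  So the polynomial over `KK` in `GenVan` vanishes at all complex matrices `g`, hence is `0` (`ℂ` is infinite: `MvPolynomial.funext_set` or similar). -/
theorem genVan_of_vanishesOn {k : ℕ} {U : ℂ → Submodule ℂ (ι → ℂ)} {φ : ℂ → Fin k → ι → ℂ} (hφ : Differentiable ℂ φ)
    (hU : ∀ᶠ z in 𝓝 (0 : ℂ), IsFrame (U z) (φ z)) {q : MvPolynomial (Fin k × ι) ℂ} (hq : VanishesOn q (Set.range U)) :
    GenVan (fun i j => algebraMap (PowerSeries ℂ) KK (tay (fun z => φ z i j))) q := by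
  have hφa : ∀ i j, AnalyticAt ℂ (fun z => φ z i j) 0 := by
    intro i j
    have h1 : Differentiable ℂ (fun z => φ z i j) := by
      have h2 := differentiable_pi.mp hφ i
      exact differentiable_pi.mp h2 j
    exact h1.analyticAt 0
  unfold GenVan
  -- evaluation at complex matrices
  have hev : ∀ g : Fin k × Fin k → ℂ,
      eval (fun p => algebraMap ℂ KK (g p)) (aeval (fun p : Fin k × ι => ∑ l, (X (p.1, l) : MvPolynomial (Fin k × Fin k) KK) *
        C (algebraMap (PowerSeries ℂ) KK (tay (fun z => φ z l p.2)))) q) = 0 := by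
    intro g
    have hz : tay (fun z => eval (fun p : Fin k × ι => ∑ l, g (p.1, l) * φ z l p.2) q) = 0 := by
      rw [← tay_zero']
      apply tay_congr
      filter_upwards [hU] with z hz
      exact eval_mul_frame hz (fun A hA => hq (U z) ⟨z, rfl⟩ A hA) g
    have hx : ∀ p : Fin k × ι, AnalyticAt ℂ (fun z => ∑ l, g (p.1, l) * φ z l p.2) 0 := fun p =>
      Finset.analyticAt_fun_sum _ fun l _ => analyticAt_const.mul (hφa l p.2)
    rw [tay_eval (fun (p : Fin k × ι) z => ∑ l, g (p.1, l) * φ z l p.2) hx q] at hz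
    have ht : ∀ p : Fin k × ι, tay (fun z => ∑ l, g (p.1, l) * φ z l p.2) =
        ∑ l, PowerSeries.C (g (p.1, l)) * tay (fun z => φ z l p.2) := by
      intro p
      rw [tay_sum Finset.univ (fun l z => g (p.1, l) * φ z l p.2) (fun l => analyticAt_const.mul (hφa l p.2))]
      refine Finset.sum_congr rfl fun l _ => ?_
      rw [tay_mul analyticAt_const (hφa l p.2), tay_const]
    have h1' : (eval (fun p => algebraMap ℂ KK (g p))).comp (aeval (fun p : Fin k × ι => ∑ l, (X (p.1, l) : MvPolynomial (Fin k × Fin k) KK) *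
        C (algebraMap (PowerSeries ℂ) KK (tay (fun z => φ z l p.2)))) : MvPolynomial (Fin k × ι) ℂ →ₐ[ℂ] MvPolynomial (Fin k × Fin k) KK).toRingHom
        = (algebraMap (PowerSeries ℂ) KK).comp (aeval (fun p : Fin k × ι => tay (fun z => ∑ l, g (p.1, l) * φ z l p.2)) :
          MvPolynomial (Fin k × ι) ℂ →ₐ[ℂ] PowerSeries ℂ).toRingHom := by
      refine MvPolynomial.ringHom_ext (fun r => ?_) (fun p => ?_)
      · simp only [RingHom.comp_apply, AlgHom.toRingHom_eq_coe, RingHom.coe_coe, algHom_C]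
        rw [MvPolynomial.algebraMap_apply, eval_C]
        exact (IsScalarTower.algebraMap_apply ℂ (PowerSeries ℂ) KK r)
      · simp only [RingHom.comp_apply, AlgHom.toRingHom_eq_coe, RingHom.coe_coe, aeval_X]
        rw [ht p, map_sum, map_sum]
        refine Finset.sum_congr rfl fun l _ => ?_
        rw [map_mul, map_mul, eval_X, eval_C]
        congr 1
    have h2 := congrArg (fun f => f q) h1'
    refine h2.trans ?_
    show algebraMap (PowerSeries ℂ) KK (aeval (fun p : Fin k × ι => tay (fun z => ∑ l, g (p.1, l) * φ z l p.2)) q) = 0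
    rw [hz, map_zero]
  have hinf : ∀ _ : Fin k × Fin k, (Set.range (algebraMap ℂ KK)).Infinite := fun _ =>
    Set.infinite_range_of_injective (algebraMap ℂ KK).injective
  refine MvPolynomial.funext_set (fun _ : Fin k × Fin k => Set.range (algebraMap ℂ KK)) hinf (fun x hx => ?_)
  rw [map_zero]
  choose g hg using fun p => (Set.mem_pi.mp hx) p (Set.mem_univ p)
  have h3 := hev g
  have h4 : (fun p => algebraMap ℂ KK (g p)) = x := funext hg
  rw [h4] at h3
  exact h3

end Pool.Agent.MP_1209e6_fr
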