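import Pool.Agent.Lib_MP_1209e6_fr.FnaA
import Pool.Agent.Lib_MP_1209e6_fr.Cre
import Pool.Agent.Lib_MP_1209e6_fr.CreB
import Pool.Agent.Lib_MP_1209e6_fr.Cub

/-!
PIECE [FNA] (MP_1209e6_ag).  Polynomials which vanish at the generic frame of the curve.
-/

open MvPolynomial Filter Topology

namespace Pool.Agent.MP_1209e6_fr

variable {ι : Type} [Fintype ι] [DecidableEq ι]

/-- A linearly independent family of `k` vectors has an invertible block. -/
private theorem fnb_block {k : ℕ} {A : Fin k → ι → ℂ} (hA : LinearIndependent ℂ A) :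
    ∃ S : Fin k → ι, Function.Injective S ∧ (colB S A).det ≠ 0 := by
  let M : Matrix (Fin k) ι ℂ := Matrix.of A
  have hr : M.rank = k := by
    have h1 : LinearIndependent ℂ M.row := hA
    rw [h1.rank_matrix, Fintype.card_fin]
  have hsp : Module.finrank ℂ (Submodule.span ℂ (Set.range M.col)) = k := by
    rw [← Matrix.rank_eq_finrank_span_cols, hr]
  obtain ⟨κ, a, ha, hs, hli⟩ := exists_linearIndependent' ℂ M.col
  haveI : Finite κ := Finite.of_injective a ha
  haveI : Fintype κ := Fintype.ofFinite κ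
  have hc : Fintype.card κ = k := by
    have h2 := linearIndependent_iff_card_eq_finrank_span.mp hli
    rw [Set.finrank, hs, hsp] at h2
    exact h2
  let e : Fin k ≃ κ := (finCongr hc.symm).trans (Fintype.equivFin κ).symm
  refine ⟨a ∘ e, ha.comp e.injective, ?_⟩
  have h3 : LinearIndependent ℂ ((colB (a ∘ e) A).col) := hli.comp e e.injective
  rw [Matrix.linearIndependent_cols_iff_isUnit, Matrix.isUnit_iff_isUnit_det] at h3
  exact h3.ne_zero

private theorem fnb_norm {k : ℕ} {R : Type} [Field R] (S : Fin k → ι) (A : Fin k → ι → R)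
    (hS : (colB S A).det ≠ 0) (i : Fin k) (j : ι) :
    ∑ l, colB S A i l * nS S A l j = A i j := by
  have hu : IsUnit (colB S A).det := isUnit_iff_ne_zero.2 hS
  unfold nS
  have h1 : ∑ l, colB S A i l * ∑ m, (colB S A)⁻¹ l m * A m j =
      ∑ m, (colB S A * (colB S A)⁻¹) i m * A m j := by
    simp only [Matrix.mul_apply, Finset.mul_sum, Finset.sum_mul]
    rw [Finset.sum_comm]
    exact Finset.sum_congr rfl fun m _ => Finset.sum_congr rfl fun l _ => by ring
  rw [h1, Matrix.mul_nonsing_inv _ hu]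
  simp [Matrix.one_apply]

private theorem fnb_delta {k : ℕ} {R : Type} [Field R] (S : Fin k → ι) (A : Fin k → ι → R)
    (hS : (colB S A).det ≠ 0) (i b : Fin k) : nS S A i (S b) = if i = b then 1 else 0 := by
  have hu : IsUnit (colB S A).det := isUnit_iff_ne_zero.2 hS
  have h1 : nS S A i (S b) = ((colB S A)⁻¹ * colB S A) i b := by
    unfold nS
    rw [Matrix.mul_apply]
    rfl
  rw [h1, Matrix.nonsing_inv_mul _ hu, Matrix.one_apply]

private theorem fnb_tri {k : ℕ} (c : ι → ι → ι → ℂ) (S : Fin k → ι) (A : Fin k → ι → ℂ)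
    (hA : ∀ i j l, tri c (A i) (A j) (A l) = 0) (i j l : Fin k) :
    tri c (nS S A i) (nS S A j) (nS S A l) = 0 := by
  have h1 : ∀ i, nS S A i = ∑ m, (colB S A)⁻¹ i m • A m := by
    intro i
    funext q
    simp only [Finset.sum_apply, Pi.smul_apply, smul_eq_mul]
    rfl
  rw [h1 i, h1 j, h1 l, tri_sum_left]
  refine Finset.sum_eq_zero fun m _ => ?_
  rw [tri_sum_mid]
  refine Finset.sum_eq_zero fun m' _ => ?_
  rw [tri_sum_right]
  refine Finset.sum_eq_zero fun m'' _ => ?_
  rw [tri_smul_left, tri_smul_mid, tri_smul_right, hA]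
  ring

/-- PIECE [FNA].  Proof.  Let `A` be a frame of `P ∈ Fano r t`; `T3 t (A i) (A j) (A l) = 0` (`mem_Fano_iff`).  Some block `g = colB S A` is invertible (rank; `S` injective).  `A = g A'`, `A' = nS S A`, `A' i (S b) = δ`.  `det (colB S Φ) ≠ 0` by `det_ne_zero_chart` (for `nt t`).
Substitute `G = g (colB S Φ)⁻¹` in `GenVan`: `q(g (nS S Φ)) = 0`; so `q_g(nS S Φ) = 0` for the polynomial `q_g(Y) = q(g Y)`, and `q_g(A') = 0` by `eval_eq_zero_chart`, i.e. `q(A) = 0`. -/
theorem vanishesOn_Fano {r : ℕ} (hι : Fintype.card ι = Fintype.card (V r)) {t : Sym ι 3 → ℂ} (ht : AlgebraicIndependent ℚ t)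
    (Φ : Fin (r + 1) → ι → KK)
    (hΦ : ∀ i j l, tri (fun a b d => algebraMap ℂ KK (nt t (sy a b d))) (Φ i) (Φ j) (Φ l) = 0) (hTr : HasTr (dimF r) Φ)
    {q : MvPolynomial (Fin (r + 1) × ι) ℂ} (hq : GenVan Φ q) : VanishesOn q (Fano r t) := by
  intro P hP A hA
  have hA3 := (mem_Fano_iff hA t).1 hP
  obtain ⟨S, hS, hdet⟩ := fnb_block hA.1
  have ht' := algebraicIndependent_nt ht
  have hΦdet := det_ne_zero_chart hι (nt t) ht' Φ hΦ hTr S hS
  set g : Matrix (Fin (r + 1)) (Fin (r + 1)) ℂ := colB S A with hg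
  let qg : MvPolynomial (Fin (r + 1) × ι) ℂ :=
    aeval (fun p : Fin (r + 1) × ι => ∑ l, C (g p.1 l) * X (l, p.2)) q
  -- the value at `nS S Φ`
  have h1 : aeval (fun p : Fin (r + 1) × ι => nS S Φ p.1 p.2) qg = 0 := by
    have e1 : aeval (fun p : Fin (r + 1) × ι => nS S Φ p.1 p.2) qg =
        aeval (fun p : Fin (r + 1) × ι => ∑ l, algebraMap ℂ KK (g p.1 l) * nS S Φ l p.2) q := by
      have e2 := DFunLike.congr_fun (comp_aeval (fun p : Fin (r + 1) × ι =>
        ∑ l, (C (g p.1 l) * X (l, p.2) : MvPolynomial (Fin (r + 1) × ι) ℂ))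
        (aeval (fun p : Fin (r + 1) × ι => nS S Φ p.1 p.2) :
          MvPolynomial (Fin (r + 1) × ι) ℂ →ₐ[ℂ] KK)) q
      have e3 : aeval (fun p : Fin (r + 1) × ι => nS S Φ p.1 p.2) qg =
        ((aeval (fun p : Fin (r + 1) × ι => nS S Φ p.1 p.2) :
          MvPolynomial (Fin (r + 1) × ι) ℂ →ₐ[ℂ] KK).comp (aeval (fun p : Fin (r + 1) × ι =>
            ∑ l, (C (g p.1 l) * X (l, p.2) : MvPolynomial (Fin (r + 1) × ι) ℂ)))) q := rfl
      rw [e3, e2]
      congr 2
      funext p
      rw [map_sum]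
      refine Finset.sum_congr rfl fun l _ => ?_
      rw [map_mul, aeval_X, aeval_C]
    rw [e1]
    set G : Matrix (Fin (r + 1)) (Fin (r + 1)) KK :=
      (g.map (algebraMap ℂ KK)) * (colB S Φ)⁻¹ with hG
    have e4 : ∀ p : Fin (r + 1) × ι, ∑ l, algebraMap ℂ KK (g p.1 l) * nS S Φ l p.2 =
        ∑ m, G p.1 m * Φ m p.2 := by
      intro p
      unfold nS
      rw [hG]
      simp only [Matrix.mul_apply, Finset.mul_sum, Finset.sum_mul, Matrix.map_apply]
      rw [Finset.sum_comm]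
      exact Finset.sum_congr rfl fun m _ => Finset.sum_congr rfl fun l _ => by ring
    have e5 := congrArg (eval (fun p : Fin (r + 1) × Fin (r + 1) => G p.1 p.2)) hq
    rw [map_zero] at e5
    have e6 : eval (fun p : Fin (r + 1) × Fin (r + 1) => G p.1 p.2)
        (aeval (fun p : Fin (r + 1) × ι => ∑ l, (X (p.1, l) :
          MvPolynomial (Fin (r + 1) × Fin (r + 1)) KK) * C (Φ l p.2)) q) =
        aeval (fun p : Fin (r + 1) × ι => ∑ m, G p.1 m * Φ m p.2) q := by
      have e7 := DFunLike.congr_fun (comp_aeval (fun p : Fin (r + 1) × ι => ∑ l, (X (p.1, l) :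
          MvPolynomial (Fin (r + 1) × Fin (r + 1)) KK) * C (Φ l p.2))
        ((aeval (fun p : Fin (r + 1) × Fin (r + 1) => G p.1 p.2) :
          MvPolynomial (Fin (r + 1) × Fin (r + 1)) KK →ₐ[KK] KK).restrictScalars ℂ)) q
      refine Eq.trans ?_ (e7.trans ?_)
      · rfl
      · congr 2
        funext p
        rw [map_sum]
        refine Finset.sum_congr rfl fun l _ => ?_
        rw [map_mul]
        show eval _ (X (p.1, l)) * eval _ (C (Φ l p.2)) = _
        rw [eval_X, eval_C]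
    have e8 : (fun p : Fin (r + 1) × ι => ∑ l, algebraMap ℂ KK (g p.1 l) * nS S Φ l p.2) =
        fun p => ∑ m, G p.1 m * Φ m p.2 := funext e4
    rw [e8, ← e6]
    exact e5
  have h2 := eval_eq_zero_chart hι (nt t) ht' Φ hΦ hTr S hΦdet qg h1 (nS S A)
    (fun i b => fnb_delta S A hdet i b) (fnb_tri _ S A hA3)
  -- the value at the frame
  have h3 : eval (fun p : Fin (r + 1) × ι => nS S A p.1 p.2) qg =
      eval (fun p : Fin (r + 1) × ι => A p.1 p.2) q := by
    have e1 := DFunLike.congr_fun (comp_aeval (fun p : Fin (r + 1) × ι =>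
        ∑ l, (C (g p.1 l) * X (l, p.2) : MvPolynomial (Fin (r + 1) × ι) ℂ))
        (aeval (fun p : Fin (r + 1) × ι => nS S A p.1 p.2) :
          MvPolynomial (Fin (r + 1) × ι) ℂ →ₐ[ℂ] ℂ)) q
    have e2 : (fun p : Fin (r + 1) × ι => (aeval (fun p : Fin (r + 1) × ι => nS S A p.1 p.2) :
          MvPolynomial (Fin (r + 1) × ι) ℂ →ₐ[ℂ] ℂ)
          (∑ l, (C (g p.1 l) * X (l, p.2) : MvPolynomial (Fin (r + 1) × ι) ℂ))) =
        fun p => A p.1 p.2 := by
      funext p
      rw [map_sum, ← fnb_norm S A hdet p.1 p.2]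
      refine Finset.sum_congr rfl fun l _ => ?_
      rw [map_mul, aeval_X, aeval_C]
      rfl
    rw [e2] at e1
    have e3 : eval (fun p : Fin (r + 1) × ι => nS S A p.1 p.2) qg =
        aeval (fun p : Fin (r + 1) × ι => nS S A p.1 p.2) qg := by
      rw [← coe_aeval_eq_eval]
      rfl
    rw [e3]
    refine Eq.trans ?_ (e1.trans ?_)
    · rfl
    · rw [← coe_aeval_eq_eval]
      rfl
  rw [← h3]
  exact h2

end Pool.Agent.MP_1209e6_fr
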