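import Pool.Agent.Lib_MP_1209e6_fr.Cub

/-!
PIECE [FNA] (MP_1209e6_ag).  Polynomials which vanish at the generic frame of the curve.
-/

open MvPolynomial Filter Topology

namespace Pool.Agent.MP_1209e6_fr

variable {ι : Type} [Fintype ι] [DecidableEq ι]

omit [Fintype ι] [DecidableEq ι] in
private theorem FnaC_span {r : ℕ} {T : (ι → ℂ) → (ι → ℂ) → (ι → ℂ) → ℂ}
    {φ : Fin (r + 1) → ι → ℂ}
    (h1 : ∀ x x' y z, T (x + x') y z = T x y z + T x' y z)
    (h1' : ∀ (a : ℂ) x y z, T (a • x) y z = a * T x y z)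
    (h2 : ∀ x y y' z, T x (y + y') z = T x y z + T x y' z)
    (h2' : ∀ (a : ℂ) x y z, T x (a • y) z = a * T x y z)
    (h3 : ∀ x y z z', T x y (z + z') = T x y z + T x y z')
    (h3' : ∀ (a : ℂ) x y z, T x y (a • z) = a * T x y z)
    (hφ : ∀ i j l, T (φ i) (φ j) (φ l) = 0) {x y z : ι → ℂ}
    (hx : x ∈ Submodule.span ℂ (Set.range φ)) (hy : y ∈ Submodule.span ℂ (Set.range φ))
    (hz : z ∈ Submodule.span ℂ (Set.range φ)) : T x y z = 0 := by
  have z1 : ∀ y z, T 0 y z = 0 := fun y z => by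
    have := h1' 0 0 y z
    rwa [zero_smul, zero_mul] at this
  have z2 : ∀ x z, T x 0 z = 0 := fun x z => by
    have := h2' 0 x 0 z
    rwa [zero_smul, zero_mul] at this
  have z3 : ∀ x y, T x y 0 = 0 := fun x y => by
    have := h3' 0 x y 0
    rwa [zero_smul, zero_mul] at this
  have s3 : ∀ i j, T (φ i) (φ j) z = 0 := by
    intro i j
    induction hz using Submodule.span_induction with
    | mem x hx =>
      obtain ⟨l, rfl⟩ := hx
      exact hφ i j l
    | zero => exact z3 _ _
    | add a b _ _ ha hb => rw [h3, ha, hb, add_zero]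
    | smul a b _ hb => rw [h3', hb, mul_zero]
  have s2 : ∀ i, T (φ i) y z = 0 := by
    intro i
    induction hy using Submodule.span_induction with
    | mem x hx =>
      obtain ⟨l, rfl⟩ := hx
      exact s3 i l
    | zero => exact z2 _ _
    | add a b _ _ ha hb => rw [h2, ha, hb, add_zero]
    | smul a b _ hb => rw [h2', hb, mul_zero]
  induction hx using Submodule.span_induction with
  | mem x hx =>
    obtain ⟨l, rfl⟩ := hx
    exact s2 l
  | zero => exact z1 _ _
  | add a b _ _ ha hb => rw [h1, ha, hb, add_zero]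
  | smul a b _ hb => rw [h1', hb, mul_zero]

/-- PIECE [FNA].  The saturation of a curve of frames on which the cubic form vanishes is in `Fano r t`.

Proof.  Near `z₀` the frame `A` of `IsEntire` spans `U z`, which is the span of `φ z` for `z ≠ z₀`; so `T3 t (A z i) (A z j) (A z l) = 0` for `z ≠ z₀` (linear combinations), and at `z₀` by continuity.  `mem_Fano_iff`. -/
theorem mem_Fano_of_saturation {r : ℕ} {t : Sym ι 3 → ℂ} {U : ℂ → Submodule ℂ (ι → ℂ)} {φ : ℂ → Fin (r + 1) → ι → ℂ}
    (hU : IsEntire (r + 1) U) (h : ∀ z₀, ∀ᶠ z in 𝓝[≠] z₀, U z = Submodule.span ℂ (Set.range (φ z)))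
    (hφ : ∀ z i j l, T3 t (φ z i) (φ z j) (φ z l) = 0) (z : ℂ) : U z ∈ Fano r t := by
  obtain ⟨A, hA, hAU⟩ := hU z
  rw [mem_Fano_iff hAU.self_of_nhds]
  intro i j l
  have hc : ∀ i a, ContinuousAt (fun w => A w i a) z := fun i a =>
    continuousAt_pi.1 (continuousAt_pi.1 hA.continuousAt i) a
  have hcont : ContinuousAt (fun w => T3 t (A w i) (A w j) (A w l)) z := by
    unfold T3 tri
    fun_prop
  have hzero : ∀ᶠ w in 𝓝[≠] z, T3 t (A w i) (A w j) (A w l) = 0 := by
    filter_upwards [h z, hAU.filter_mono nhdsWithin_le_nhds] with w hw hw'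
    have hmem : ∀ i, A w i ∈ Submodule.span ℂ (Set.range (φ w)) := by
      intro i
      rw [← hw, ← hw'.2]
      exact Submodule.subset_span ⟨i, rfl⟩
    exact FnaC_span (T := T3 t) (fun x x' y z => tri_add_left _ x x' y z)
      (fun a x y z => tri_smul_left _ a x y z) (fun x y y' z => tri_add_mid _ x y y' z)
      (fun a x y z => tri_smul_mid _ a x y z) (fun x y z z' => tri_add_right _ x y z z')
      (fun a x y z => tri_smul_right _ a x y z) (hφ w) (hmem i) (hmem j) (hmem l)
  have h1 : Tendsto (fun w => T3 t (A w i) (A w j) (A w l)) (𝓝[≠] z)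
      (𝓝 (T3 t (A z i) (A z j) (A z l))) := hcont.tendsto.mono_left nhdsWithin_le_nhds
  have h2 : Tendsto (fun w => T3 t (A w i) (A w j) (A w l)) (𝓝[≠] z) (𝓝 0) :=
    tendsto_const_nhds.congr' (hzero.mono fun w hw => hw.symm)
  exact tendsto_nhds_unique h1 h2

end Pool.Agent.MP_1209e6_fr
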