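import Pool.Agent.Lib_MP_1209e6_fr.FormB

/-!
PIECE [FOR] (MP_1209e6_ag).  Formal unstable curves of a fixed point with multipliers `0, 1, -2`.
-/

open MvPolynomial

namespace Pool.Agent.MP_1209e6_fr

variable {κ R : Type*} [Fintype κ] [DecidableEq κ] [CommRing R] [Algebra ℚ R]

omit [Fintype κ] [DecidableEq κ] [Algebra ℚ R] in
private theorem form_c0 (F : MvPolynomial κ R) (a : κ → R) (φ : κ → PowerSeries R)
    (h0 : ∀ k, PowerSeries.constantCoeff (φ k) = a k) :
    PowerSeries.coeff 0 (aeval φ F) = eval a F := by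
  rw [PowerSeries.coeff_zero_eq_constantCoeff_apply]
  have h : (PowerSeries.constantCoeff (R := R)).comp ((aeval φ : MvPolynomial κ R →ₐ[R] PowerSeries R) :
      MvPolynomial κ R →+* PowerSeries R) = eval a := by
    apply MvPolynomial.ringHom_ext
    · intro r
      simp
    · intro i
      simp [h0]
  exact congrArg (fun g : MvPolynomial κ R →+* R => g F) h

private theorem form_dep (F : MvPolynomial κ R) (a : κ → R) {n : ℕ} (φ ψ : κ → PowerSeries R)
    (h0 : ∀ k, PowerSeries.constantCoeff (φ k) = a k) (h0' : ∀ k, PowerSeries.constantCoeff (ψ k) = a k)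
    (h : ∀ k, ∀ m ≤ n, PowerSeries.coeff m (φ k) = PowerSeries.coeff m (ψ k)) :
    PowerSeries.coeff n (aeval φ F) = PowerSeries.coeff n (aeval ψ F) := by
  rcases Nat.eq_zero_or_pos n with rfl | hn
  · rw [form_c0 F a φ h0, form_c0 F a ψ h0']
  · have h1 := coeff_aeval_sub F a hn φ ψ h0 fun k m hm => h k m hm.le
    have h2 : ∑ k, eval a (pderiv k F) * (PowerSeries.coeff n (φ k) - PowerSeries.coeff n (ψ k)) = 0 := by
      refine Finset.sum_eq_zero fun k _ => ?_
      rw [h k n le_rfl, sub_self, mul_zero]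
    rw [h2] at h1
    exact sub_eq_zero.1 h1

/-- approximate solutions -/
private def FGood (F : κ → MvPolynomial κ R) (a e : κ → R) (n : ℕ) (φ : κ → PowerSeries R) : Prop :=
  (∀ k, PowerSeries.constantCoeff (φ k) = a k) ∧ (∀ k, PowerSeries.coeff 1 (φ k) = e k) ∧
    ∀ m ≤ n, ∀ k, PowerSeries.coeff m (PowerSeries.rescale (-2 : R) (φ k)) =
      PowerSeries.coeff m (aeval φ (F k))

private theorem form_base (F : κ → MvPolynomial κ R) (a e : κ → R) (T : Matrix κ κ R)
    (hT : ∀ k l, T k l = eval a (pderiv l (F k))) (ha : ∀ k, eval a (F k) = a k)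
    (he : T.mulVec e = (-2 : R) • e) :
    FGood F a e 1 (fun k => PowerSeries.C (a k) + PowerSeries.C (e k) * PowerSeries.X) := by
  have h0 : ∀ k, PowerSeries.constantCoeff (PowerSeries.C (a k) + PowerSeries.C (e k) * PowerSeries.X) = a k := by
    intro k
    simp
  have h1 : ∀ k, PowerSeries.coeff 1 (PowerSeries.C (a k) + PowerSeries.C (e k) * PowerSeries.X) = e k := by
    intro k
    rw [map_add, PowerSeries.coeff_C_mul, PowerSeries.coeff_one_X, mul_one, PowerSeries.coeff_C,
      if_neg one_ne_zero, zero_add]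
  refine ⟨h0, h1, fun m hm k => ?_⟩
  rw [PowerSeries.coeff_rescale]
  have hm' : m = 0 ∨ m = 1 := by omega
  rcases hm' with rfl | rfl
  · rw [form_c0 (F k) a _ h0, ha, pow_zero, one_mul, PowerSeries.coeff_zero_eq_constantCoeff_apply, h0]
  · rw [h1, pow_one]
    have h2 := coeff_aeval_sub (F k) a le_rfl
      (fun k => PowerSeries.C (a k) + PowerSeries.C (e k) * PowerSeries.X)
      (fun k => PowerSeries.C (a k)) h0 (fun l m hm => by
        have : m = 0 := by omega
        subst this
        simp)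
    have h3 : aeval (fun k => PowerSeries.C (a k)) (F k) = PowerSeries.C (eval a (F k)) := by
      have h4 : ((aeval (fun k => PowerSeries.C (a k)) : MvPolynomial κ R →ₐ[R] PowerSeries R) :
          MvPolynomial κ R →+* PowerSeries R) = (PowerSeries.C (R := R)).comp (eval a) := by
        apply MvPolynomial.ringHom_ext
        · intro r
          simp
        · intro i
          simp
      exact congrArg (fun g : MvPolynomial κ R →+* PowerSeries R => g (F k)) h4
    have h5 : PowerSeries.coeff 1 (aeval (fun k => PowerSeries.C (a k)) (F k)) = 0 := by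
      rw [h3, PowerSeries.coeff_C, if_neg one_ne_zero]
    rw [h5, sub_zero] at h2
    rw [h2]
    have h6 : ∀ l, PowerSeries.coeff 1 (PowerSeries.C (a l)) = 0 := by
      intro l
      rw [PowerSeries.coeff_C, if_neg one_ne_zero]
    have h7 := congrFun he k
    rw [Matrix.mulVec, dotProduct, Pi.smul_apply, smul_eq_mul] at h7
    rw [← h7]
    refine Finset.sum_congr rfl fun l _ => ?_
    rw [h1, h6, sub_zero, hT]

private theorem form_step (F : κ → MvPolynomial κ R) (a e : κ → R) (T : Matrix κ κ R)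
    (hT : ∀ k l, T k l = eval a (pderiv l (F k)))
    (hp : T * (T - 1) * (T + 2) = 0) {n : ℕ} (hn : 1 ≤ n) (φ : κ → PowerSeries R) (h : FGood F a e n φ) :
    ∃ φ', FGood F a e (n + 1) φ' ∧ ∀ k, ∀ m ≤ n, PowerSeries.coeff m (φ' k) = PowerSeries.coeff m (φ k) := by
  obtain ⟨h0, h1, h2⟩ := h
  obtain ⟨u, hu⟩ := isUnit_sub hp (n := n + 1) (by omega)
  obtain ⟨r, hr⟩ : ∃ r : κ → R, r = fun k => PowerSeries.coeff (n + 1) (aeval φ (F k)) -
    (-2 : R) ^ (n + 1) * PowerSeries.coeff (n + 1) (φ k) := ⟨_, rfl⟩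
  obtain ⟨d, hd⟩ : ∃ d : κ → R, d = ((u⁻¹ : (Matrix κ κ R)ˣ) : Matrix κ κ R).mulVec r := ⟨_, rfl⟩
  have hMd : (((-2 : R) ^ (n + 1)) • (1 : Matrix κ κ R) - T).mulVec d = r := by
    rw [← hu, hd, Matrix.mulVec_mulVec, Units.mul_inv, Matrix.one_mulVec]
  have hMd' : ∀ k, (-2 : R) ^ (n + 1) * d k - ∑ l, T k l * d l = r k := by
    intro k
    have := congrFun hMd k
    rw [Matrix.sub_mulVec, Matrix.smul_mulVec, Matrix.one_mulVec, Pi.sub_apply, Pi.smul_apply,
      smul_eq_mul, Matrix.mulVec, dotProduct] at this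
    exact this
  obtain ⟨φ', hφ'⟩ : ∃ φ' : κ → PowerSeries R, φ' = fun k => φ k + PowerSeries.C (d k) * PowerSeries.X ^ (n + 1) :=
    ⟨_, rfl⟩
  have hc : ∀ k, ∀ m, PowerSeries.coeff m (φ' k) = PowerSeries.coeff m (φ k) +
      if m = n + 1 then d k else 0 := by
    intro k m
    rw [hφ']
    simp only [map_add, PowerSeries.coeff_C_mul, PowerSeries.coeff_X_pow, mul_ite, mul_one, mul_zero]
  have hlow : ∀ k, ∀ m ≤ n, PowerSeries.coeff m (φ' k) = PowerSeries.coeff m (φ k) := by
    intro k m hm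
    rw [hc, if_neg (by omega), add_zero]
  have h0' : ∀ k, PowerSeries.constantCoeff (φ' k) = a k := by
    intro k
    rw [← PowerSeries.coeff_zero_eq_constantCoeff_apply, hlow k 0 (by omega),
      PowerSeries.coeff_zero_eq_constantCoeff_apply, h0]
  refine ⟨φ', ⟨h0', fun k => by rw [hlow k 1 hn, h1], fun m hm k => ?_⟩, hlow⟩
  rw [PowerSeries.coeff_rescale]
  rcases Nat.lt_or_ge n m with hlt | hle
  · have hm' : m = n + 1 := by omega
    subst hm'
    have h3 := coeff_aeval_sub (F k) a (by omega : 1 ≤ n + 1) φ' φ h0' fun l m hm => hlow l m (by omega)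
    have h4 : ∀ l, PowerSeries.coeff (n + 1) (φ' l) - PowerSeries.coeff (n + 1) (φ l) = d l := by
      intro l
      rw [hc, if_pos rfl, add_sub_cancel_left]
    have h5 : PowerSeries.coeff (n + 1) (aeval φ' (F k)) =
        PowerSeries.coeff (n + 1) (aeval φ (F k)) + ∑ l, T k l * d l := by
      rw [← sub_eq_iff_eq_add', h3]
      refine Finset.sum_congr rfl fun l _ => ?_
      rw [h4, hT]
    rw [h5, hc, if_pos rfl]
    have h6 := hMd' k
    rw [hr] at h6
    linear_combination h6
  · have h3 := h2 m hle k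
    rw [PowerSeries.coeff_rescale] at h3
    rw [hlow k m hle, h3]
    exact (form_dep (F k) a φ' φ h0' h0 fun l j hj => hlow l j (by omega)).symm

/-- PIECE [FOR].  Existence.

Proof.  Construct `φ^(n) : κ → PowerSeries R` (polynomials `∑_{m ≤ n} φ_m X^m`) recursively with `coeff m (rescale (-2) (φ^(n) k)) = coeff m (aeval φ^(n) (F k))`
for `m ≤ n`: start with `a + e X` for `n = 1` (the coefficient of index `0` is `F(a) = a`, of index `1` is `T e = -2 e`: `coeff_aeval_sub` with `ψ = a`).
Step: `φ^(n+1) = φ^(n) + d X^(n+1)` where by `coeff_aeval_sub` the condition is `(-2)^(n+1) d = T d + coeff (n+1) (F(φ^(n)))`, solvable by `isUnit_sub`.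
The coefficients of index `m` of `φ^(n)` do not depend on `n ≥ m`; let `φ` be the limit, and compare the coefficients of index `n` of both
sides with those of `φ^(n)` (`coeff m (aeval φ F)` depends only on the coefficients of index `≤ m`, e.g. by `coeff_aeval_sub`). -/
theorem exists_formal (F : κ → MvPolynomial κ R) (a e : κ → R) (T : Matrix κ κ R)
    (hT : ∀ k l, T k l = eval a (pderiv l (F k))) (ha : ∀ k, eval a (F k) = a k)
    (hp : T * (T - 1) * (T + 2) = 0) (he : T.mulVec e = (-2 : R) • e) :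
    ∃ φ : κ → PowerSeries R, (∀ k, PowerSeries.constantCoeff (φ k) = a k) ∧ (∀ k, PowerSeries.coeff 1 (φ k) = e k) ∧
      ∀ k, PowerSeries.rescale (-2 : R) (φ k) = aeval φ (F k) := by
  classical
  let s : ∀ n : ℕ, {φ : κ → PowerSeries R // FGood F a e (n + 1) φ} := fun n =>
    Nat.rec (motive := fun n => {φ : κ → PowerSeries R // FGood F a e (n + 1) φ})
      ⟨_, form_base F a e T hT ha he⟩
      (fun n φ => ⟨Classical.choose (form_step F a e T hT hp (by omega : 1 ≤ n + 1) φ.1 φ.2),
        (Classical.choose_spec (form_step F a e T hT hp (by omega : 1 ≤ n + 1) φ.1 φ.2)).1⟩) n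
  have hs : ∀ n k, ∀ m ≤ n + 1, PowerSeries.coeff m ((s (n + 1)).1 k) = PowerSeries.coeff m ((s n).1 k) :=
    fun n => (Classical.choose_spec (form_step F a e T hT hp (by omega : 1 ≤ n + 1) (s n).1 (s n).2)).2
  have hst : ∀ m d k, PowerSeries.coeff m ((s (m + d)).1 k) = PowerSeries.coeff m ((s m).1 k) := by
    intro m d k
    induction d with
    | zero => rfl
    | succ d ih =>
      rw [← ih]
      exact hs (m + d) k m (by omega)
  have hst' : ∀ m n, m ≤ n → ∀ k, PowerSeries.coeff m ((s n).1 k) = PowerSeries.coeff m ((s m).1 k) := by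
    intro m n hmn k
    obtain ⟨d, rfl⟩ := Nat.exists_eq_add_of_le hmn
    exact hst m d k
  obtain ⟨φ, hφ⟩ : ∃ φ : κ → PowerSeries R, φ = fun k => PowerSeries.mk fun m => PowerSeries.coeff m ((s m).1 k) :=
    ⟨_, rfl⟩
  have hc : ∀ k m n, m ≤ n → PowerSeries.coeff m (φ k) = PowerSeries.coeff m ((s n).1 k) := by
    intro k m n hmn
    rw [hφ]
    simp only [PowerSeries.coeff_mk]
    exact (hst' m n hmn k).symm
  have h0 : ∀ k, PowerSeries.constantCoeff (φ k) = a k := by
    intro k
    rw [← PowerSeries.coeff_zero_eq_constantCoeff_apply, hc k 0 0 le_rfl,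
      PowerSeries.coeff_zero_eq_constantCoeff_apply]
    exact (s 0).2.1 k
  refine ⟨φ, h0, fun k => ?_, fun k => ?_⟩
  · rw [hc k 1 1 le_rfl]
    exact (s 1).2.2.1 k
  · ext n
    rw [PowerSeries.coeff_rescale, hc k n n le_rfl, ← PowerSeries.coeff_rescale,
      (s n).2.2.2 n (by omega) k]
    exact (form_dep (F k) a φ (s n).1 h0 (s n).2.1 fun l j hj => hc l j n hj).symm

end Pool.Agent.MP_1209e6_fr
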