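import Mathlib

/-!
PIECE [FOR] (MP_1209e6_ag).  Formal unstable curves of a fixed point with multipliers `0, 1, -2`.
-/

open MvPolynomial

namespace Pool.Agent.MP_1209e6_fr

variable {κ R : Type*} [Fintype κ] [DecidableEq κ] [CommRing R] [Algebra ℚ R]

/-- PIECE [FOR].  For `n ≥ 2` the matrix `(-2)^n - T` is invertible if `T (T - 1) (T + 2) = 0`.

Proof.  With `μ = (-2)^n` and `p(X) = X (X - 1) (X + 2)` one has `p(μ) - p(T) = (μ - T) q(T)`, and `p(μ)` is a nonzero rational number. -/
theorem isUnit_sub {T : Matrix κ κ R} (hp : T * (T - 1) * (T + 2) = 0) {n : ℕ} (hn : 2 ≤ n) :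
    IsUnit (((-2 : R) ^ n) • (1 : Matrix κ κ R) - T) := by
  have hμ : ∀ μ : ℚ, μ * (μ - 1) * (μ + 2) ≠ 0 →
      IsUnit ((algebraMap ℚ R μ) • (1 : Matrix κ κ R) - T) := by
    intro μ hne
    have hA : (algebraMap ℚ R μ) • (1 : Matrix κ κ R) = algebraMap ℚ (Matrix κ κ R) μ := by
      rw [IsScalarTower.algebraMap_apply ℚ R (Matrix κ κ R), Algebra.algebraMap_eq_smul_one (R := R)]
    rw [hA]
    set A : Matrix κ κ R := algebraMap ℚ (Matrix κ κ R) μ with hAdef
    have hc : Commute A T := Algebra.commutes μ T
    have hAT : A * T = T * A := hc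
    have hp' : T * T * T + T * T - 2 * T = 0 := by
      have : T * (T - 1) * (T + 2) = T * T * T + T * T - 2 * T := by noncomm_ring
      rw [← this]; exact hp
    have h1 : (A - T) * (A * A + A * T + T * T + A + T - 2) = A * A * A + A * A - 2 * A := by
      have e1 : T * (A * A) = A * A * T := by
        rw [← mul_assoc, ← hAT, mul_assoc, ← hAT, ← mul_assoc]
      have e2 : T * (A * T) = A * T * T := by
        rw [← mul_assoc, ← hAT]
      have e : (A - T) * (A * A + A * T + T * T + A + T - 2)
          = A * A * A + A * A - 2 * A + (A * A * T - T * (A * A)) + (A * T * T - T * (A * T)) + (A * T - T * A)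
            - (T * T * T + T * T - 2 * T) := by noncomm_ring
      rw [e, e1, e2, hAT, hp']
      simp
    have h2 : A * A * A + A * A - 2 * A = algebraMap ℚ (Matrix κ κ R) (μ * (μ - 1) * (μ + 2)) := by
      have : μ * (μ - 1) * (μ + 2) = μ * μ * μ + μ * μ - 2 * μ := by ring
      have h22 : algebraMap ℚ (Matrix κ κ R) 2 = 2 := by
        have := map_ofNat (algebraMap ℚ (Matrix κ κ R)) 2
        simpa using this
      rw [this, map_sub, map_add, map_mul, map_mul, map_mul, h22]
    have h3 : (A - T) * (algebraMap ℚ (Matrix κ κ R) (μ * (μ - 1) * (μ + 2))⁻¹ *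
        (A * A + A * T + T * T + A + T - 2)) = 1 := by
      rw [← mul_assoc, ← Algebra.commutes, mul_assoc, h1, h2, ← map_mul, inv_mul_cancel₀ hne, map_one]
    have h5 := mul_eq_one_comm.mp h3
    exact ⟨⟨_, _, h3, h5⟩, rfl⟩
  have h := hμ ((-2) ^ n) ?_
  · have h22 : algebraMap ℚ R 2 = 2 := by
      have := map_ofNat (algebraMap ℚ R) 2
      simpa using this
    rw [map_pow, map_neg, h22] at h
    exact h
  · have h4 : (4 : ℚ) ≤ |(-2 : ℚ) ^ n| := by
      rw [abs_pow]
      norm_num
      calc (4 : ℚ) = 2 ^ 2 := by norm_num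
        _ ≤ 2 ^ n := pow_le_pow_right₀ (by norm_num) hn
    refine mul_ne_zero (mul_ne_zero ?_ ?_) ?_
    · intro h0; rw [h0] at h4; norm_num at h4
    · intro h0
      have : (-2 : ℚ) ^ n = 1 := by linarith
      rw [this] at h4; norm_num at h4
    · intro h0
      have : (-2 : ℚ) ^ n = -2 := by linarith
      rw [this] at h4; norm_num at h4

/-- PIECE [FOR].  Change of one coefficient: if `φ k` and `ψ k` have the same coefficients of index `< n` (`n ≥ 1`) then the coefficients of
index `n` of `F(φ)` and `F(ψ)` differ by `T (φ_n - ψ_n)`, `T` the Jacobian matrix at the constant term.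

Proof.  `MvPolynomial.induction_on` in `F`; or Taylor formula `F(ψ + δ) = F(ψ) + ∑ (∂_k F)(ψ) δ_k` modulo products of two `δ`'s, and
`X^n ∣ δ_k`. -/
theorem coeff_aeval_sub (F : MvPolynomial κ R) (a : κ → R) {n : ℕ} (hn : 1 ≤ n) (φ ψ : κ → PowerSeries R)
    (h0 : ∀ k, PowerSeries.constantCoeff (φ k) = a k) (h : ∀ k, ∀ m < n, PowerSeries.coeff m (φ k) = PowerSeries.coeff m (ψ k)) :
    PowerSeries.coeff n (aeval φ F) - PowerSeries.coeff n (aeval ψ F) =
      ∑ k, eval a (pderiv k F) * (PowerSeries.coeff n (φ k) - PowerSeries.coeff n (ψ k)) := by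
  have h0' : ∀ k, PowerSeries.constantCoeff (ψ k) = a k := by
    intro k
    have := h k 0 (by omega)
    rw [PowerSeries.coeff_zero_eq_constantCoeff_apply, PowerSeries.coeff_zero_eq_constantCoeff_apply, h0 k] at this
    exact this.symm
  -- constant terms
  have hconst : ∀ (χ : κ → PowerSeries R), (∀ k, PowerSeries.constantCoeff (χ k) = a k) →
      ∀ G : MvPolynomial κ R, PowerSeries.constantCoeff (aeval χ G) = eval a G := by
    intro χ hχ G
    induction G using MvPolynomial.induction_on with
    | C r => simp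
    | add p q hp hq => simp [map_add, hp, hq]
    | mul_X p i hp => simp [map_mul, hp, hχ]
  -- X^n divides the difference
  have hdvd : ∀ k, (PowerSeries.X : PowerSeries R) ^ n ∣ φ k - ψ k := by
    intro k
    rw [PowerSeries.X_pow_dvd_iff]
    intro m hm
    rw [map_sub, h k m hm, sub_self]
  have hdvdF : ∀ G : MvPolynomial κ R, (PowerSeries.X : PowerSeries R) ^ n ∣ aeval φ G - aeval ψ G := by
    intro G
    induction G using MvPolynomial.induction_on with
    | C r => simp
    | add p q hp hq =>
      have : aeval φ (p + q) - aeval ψ (p + q) = (aeval φ p - aeval ψ p) + (aeval φ q - aeval ψ q) := by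
        simp only [map_add]; ring
      rw [this]; exact dvd_add hp hq
    | mul_X p i hp =>
      have : aeval φ (p * X i) - aeval ψ (p * X i) =
          (aeval φ p - aeval ψ p) * φ i + aeval ψ p * (φ i - ψ i) := by
        simp only [map_mul, aeval_X]; ring
      rw [this]; exact dvd_add (hp.mul_right _) ((hdvd i).mul_left _)
  -- coefficient n of a product with an element divisible by X^n
  have hco : ∀ (x y : PowerSeries R), (PowerSeries.X : PowerSeries R) ^ n ∣ x →
      PowerSeries.coeff n (x * y) = PowerSeries.coeff n x * PowerSeries.constantCoeff y := by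
    rintro x y ⟨z, rfl⟩
    have e1 : PowerSeries.coeff n ((PowerSeries.X : PowerSeries R) ^ n * z * y) = PowerSeries.constantCoeff (z * y) := by
      rw [mul_assoc]
      have := PowerSeries.coeff_X_pow_mul (z * y) n 0
      simpa using this
    have e2 : PowerSeries.coeff n ((PowerSeries.X : PowerSeries R) ^ n * z) = PowerSeries.constantCoeff z := by
      have := PowerSeries.coeff_X_pow_mul z n 0
      simpa using this
    rw [e1, e2, map_mul]
  induction F using MvPolynomial.induction_on with
  | C r => simp
  | add p q hp hq =>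
    simp only [map_add, add_mul, Finset.sum_add_distrib]
    rw [← hp, ← hq]; ring
  | mul_X p i hp =>
    have e : aeval φ (p * X i) - aeval ψ (p * X i) =
          (aeval φ p - aeval ψ p) * φ i + (φ i - ψ i) * aeval ψ p := by
        simp only [map_mul, aeval_X]; ring
    rw [← map_sub, e, map_add, hco _ _ (hdvdF p), hco _ _ (hdvd i), map_sub, hp, h0 i, hconst ψ h0' p, map_sub]
    have e3 : ∀ k, eval a (pderiv k (p * X i)) * (PowerSeries.coeff n (φ k) - PowerSeries.coeff n (ψ k)) =
        eval a (pderiv k p) * (PowerSeries.coeff n (φ k) - PowerSeries.coeff n (ψ k)) * a i +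
        (if k = i then eval a p * (PowerSeries.coeff n (φ k) - PowerSeries.coeff n (ψ k)) else 0) := by
      intro k
      rw [Derivation.leibniz, pderiv_X]
      by_cases hk : k = i
      · subst hk
        simp [smul_eq_mul]; ring
      · have hk' : ¬ i = k := fun h => hk h.symm
        simp [smul_eq_mul, hk, hk']; ring
    rw [Finset.sum_congr rfl (fun k _ => e3 k), Finset.sum_add_distrib, ← Finset.sum_mul]
    simp [Finset.sum_ite_eq']
    ring

end Pool.Agent.MP_1209e6_fr
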