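import Pool.Agent.Lib_MP_1209e6_fr.FormA

/-!
PIECE [FOR] (MP_1209e6_ag).  Formal unstable curves of a fixed point with multipliers `0, 1, -2`.
-/

open MvPolynomial

namespace Pool.Agent.MP_1209e6_fr

variable {κ R : Type*} [Fintype κ] [DecidableEq κ] [CommRing R] [Algebra ℚ R]

/-- PIECE [FOR].  Uniqueness.  Induction on the index of the coefficient: if all coefficients of index `< n` agree, `n ≥ 2`, then by
`coeff_aeval_sub` the difference `d` of the coefficients of index `n` satisfies `(-2)^n d = T d`, so `d = 0` by `isUnit_sub`. -/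
theorem formal_unique (F : κ → MvPolynomial κ R) (a : κ → R) (T : Matrix κ κ R)
    (hT : ∀ k l, T k l = eval a (pderiv l (F k))) (hp : T * (T - 1) * (T + 2) = 0) (φ ψ : κ → PowerSeries R)
    (hφ0 : ∀ k, PowerSeries.constantCoeff (φ k) = a k) (hψ0 : ∀ k, PowerSeries.constantCoeff (ψ k) = a k)
    (h1 : ∀ k, PowerSeries.coeff 1 (φ k) = PowerSeries.coeff 1 (ψ k))
    (hφ : ∀ k, PowerSeries.rescale (-2 : R) (φ k) = aeval φ (F k))
    (hψ : ∀ k, PowerSeries.rescale (-2 : R) (ψ k) = aeval ψ (F k)) : φ = ψ := by
  have key : ∀ n : ℕ, ∀ k, PowerSeries.coeff n (φ k) = PowerSeries.coeff n (ψ k) := by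
    intro n
    induction n using Nat.strong_induction_on with
    | _ n ih =>
      rcases Nat.lt_or_ge n 2 with hn | hn
      · rcases Nat.lt_or_ge n 1 with hn0 | hn0
        · have e0 : n = 0 := by omega
          subst e0
          intro k
          rw [PowerSeries.coeff_zero_eq_constantCoeff_apply, PowerSeries.coeff_zero_eq_constantCoeff_apply,
            hφ0, hψ0]
        · have e1 : n = 1 := by omega
          subst e1
          exact h1
      · have h := isUnit_sub (κ := κ) (R := R) hp hn
        set d : κ → R := fun k => PowerSeries.coeff n (φ k) - PowerSeries.coeff n (ψ k) with hd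
        have h2 : ((((-2 : R) ^ n) • (1 : Matrix κ κ R) - T).mulVec d) = 0 := by
          funext k
          have h3 := coeff_aeval_sub (F k) a (n := n) (by omega) φ ψ hφ0 (fun k m hm => ih m hm k)
          rw [← hφ k, ← hψ k, PowerSeries.coeff_rescale, PowerSeries.coeff_rescale] at h3
          have h4 : (T.mulVec d) k = ∑ l, eval a (pderiv l (F k)) * d l := by
            simp only [Matrix.mulVec, dotProduct, hT]
          rw [Matrix.sub_mulVec, Matrix.smul_mulVec, Matrix.one_mulVec, Pi.sub_apply, Pi.smul_apply, smul_eq_mul,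
            h4, Pi.zero_apply, sub_eq_zero, ← h3]
          simp only [hd]
          ring
        have h5 : d = 0 := by
          obtain ⟨u, hu⟩ := h
          have h6 : ((↑u⁻¹ : Matrix κ κ R) * (↑u : Matrix κ κ R)).mulVec d = 0 := by
            rw [← Matrix.mulVec_mulVec, hu, h2, Matrix.mulVec_zero]
          rwa [Units.inv_mul, Matrix.one_mulVec] at h6
        intro k
        have h7 := congrFun h5 k
        simp only [hd, Pi.zero_apply] at h7
        exact sub_eq_zero.1 h7
  funext k
  ext n
  exact key n k

end Pool.Agent.MP_1209e6_fr
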