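import Pool.Agent.Lib_MP_1209e6_fr.GenT
import Pool.Agent.Lib_MP_1209e6_fr.Ent

/-!
PIECE [GCU] (MP_1209e6_ag).  The curve of frames for a generic cubic form.
-/

namespace Pool.Agent.MP_1209e6_fr

theorem tay_sum_gcu {κ : Type*} (s : Finset κ) (f : κ → ℂ → ℂ) (hf : ∀ k, AnalyticAt ℂ (f k) 0) :
    tay (fun z => ∑ k ∈ s, f k z) = ∑ k ∈ s, tay (f k) := by
  classical
  induction s using Finset.induction_on with
  | empty =>
    simp only [Finset.sum_empty]
    rw [tay_const, map_zero]
  | insert a s ha ih =>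
    simp only [Finset.sum_insert ha]
    rw [tay_add (hf a) (by
      have := Finset.analyticAt_fun_sum (𝕜 := ℂ) s (f := f) (c := 0) (fun n _ => hf n)
      exact this), ih]

/-- Change of the basis in a trilinear form. -/
theorem tri_change_gcu {R ι : Type*} [Fintype ι] [CommRing R] (c : ι → ι → ι → R) (G : ι → ι → R) (x y z : ι → R) :
    tri (fun a b d => tri c (G a) (G b) (G d)) x y z =
      tri c (∑ a, x a • G a) (∑ a, y a • G a) (∑ a, z a • G a) := by
  rw [tri_sum_left]
  conv_lhs => unfold tri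
  refine Finset.sum_congr rfl fun a _ => ?_
  rw [tri_sum_mid]
  refine Finset.sum_congr rfl fun b _ => ?_
  rw [tri_sum_right]
  refine Finset.sum_congr rfl fun d _ => ?_
  rw [tri_smul_left, tri_smul_mid, tri_smul_right]
  change tri c (G a) (G b) (G d) * _ = _
  ring

theorem linearIndependent_A0_gcu (r : ℕ) : LinearIndependent ℂ (A0 ℂ r) := by
  rw [Fintype.linearIndependent_iff]
  intro g hg i
  have h := congrFun hg (Sum.inl i.succ)
  simp only [Finset.sum_apply, Pi.smul_apply, A0, Pi.sub_apply, smul_eq_mul, Pi.zero_apply] at h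
  rw [Finset.sum_eq_single i] at h
  · have h2 : (Pi.single (Sum.inl (0 : I r)) (1 : ℂ) : V r → ℂ) (Sum.inl i.succ) = 0 :=
      Pi.single_eq_of_ne (by
        intro h3
        exact (Fin.succ_ne_zero i) (Sum.inl.inj h3)) _
    rw [h2] at h
    simpa using h
  · intro b _ hb
    have h1 : (Pi.single (Sum.inl (b.succ : I r)) (1 : ℂ) : V r → ℂ) (Sum.inl i.succ) = 0 :=
      Pi.single_eq_of_ne (by
        intro h3
        exact hb ((Fin.succ_injective _ (Sum.inl.inj h3)).symm)) _
    have h2 : (Pi.single (Sum.inl (0 : I r)) (1 : ℂ) : V r → ℂ) (Sum.inl i.succ) = 0 :=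
      Pi.single_eq_of_ne (by
        intro h3
        exact (Fin.succ_ne_zero i) (Sum.inl.inj h3)) _
    rw [h1, h2]
    ring
  · intro h; exact absurd (Finset.mem_univ _) h

/-- PIECE [GCU].  Proof.  `exists_adapted`, `exists_entire` for `cpar m u` and `v` (`adapted_cpar`): an entire `ψ` with `tri (cpar m u) (ψ i) (ψ j) (ψ k) = 0` (`isSol_tay`, `tri_entire_eq_zero`) and, by
`exists_generic`, `HasTr (dimF r)` for the Taylor series of `ψ` (with `S j = inl j.succ`: `colB S` is `blk`, `nS S` is `nrm`, and `algebraMap` to `KK` commutes with `nrm` by `map_nrm`;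
algebraic independence is preserved by the injective map `PowerSeries ℂ → KK`).  Put `φ z i = ∑ l, ψ z i l * G⁻¹ l _`, i.e. `ψ z i = ∑ j, φ z i j • G j`; then by trilinearity
`tri (cpar m u) (ψ i) (ψ j) (ψ k) = tri (fun a b d => tri (cpar m u) (G a) (G b) (G d)) (φ i) (φ j) (φ k)`.  `φ 0 = A0 G⁻¹` is linearly independent.
`HasTr.mul` with `G⁻¹`; the Taylor series of `φ` is that of `ψ` times `G⁻¹` (`tay_add`, `tay_mul`, `tay_const`). -/
theorem exists_curve {r : ℕ} (t : Sym (V r) 3 → ℂ) (ht : AlgebraicIndependent ℚ t) :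
    ∃ φ : ℂ → Fin (r + 1) → V r → ℂ, Differentiable ℂ φ ∧ LinearIndependent ℂ (φ 0) ∧
      (∀ z i j k, tri (fun a b d => t (sy a b d)) (φ z i) (φ z j) (φ z k) = 0) ∧
      HasTr (dimF r) (fun i k => algebraMap (PowerSeries ℂ) KK (tay (fun z => φ z i k))) := by
  obtain ⟨G, m, u, v, hG, hAI, hT⟩ := exists_adapted t ht
  have hc := adapted_cpar m u
  obtain ⟨ψ, hψd, hψ0, hψ1, hψ2⟩ := exists_entire hc v
  have hsol := isSol_tay hψd hψ0 hψ1 hψ2
  have htri := tri_entire_eq_zero hc hψd hsol
  obtain ⟨e, he⟩ := exists_generic m u v hAI _ hsol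
  have hψan : ∀ i k, Differentiable ℂ (fun z => ψ z i k) := by
    intro i k
    have h1 := differentiable_pi.1 hψd i
    exact differentiable_pi.1 h1 k
  have hGu : IsUnit G.det := isUnit_iff_ne_zero.2 hG
  have hψφ : ∀ z i, ψ z i = ∑ j, (∑ l, ψ z i l * G⁻¹ l j) • G j := by
    intro z i
    funext k
    have h1 : G⁻¹ * G = 1 := Matrix.nonsing_inv_mul G hGu
    have h2 : ∀ l, ∑ j, G⁻¹ l j * G j k = (1 : Matrix (V r) (V r) ℂ) l k := by
      intro l
      rw [← h1, Matrix.mul_apply]
    simp only [Finset.sum_apply, Pi.smul_apply, smul_eq_mul, Finset.sum_mul]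
    rw [Finset.sum_comm]
    have h3 : ∀ l, ∑ j, ψ z i l * G⁻¹ l j * G j k = ψ z i l * (1 : Matrix (V r) (V r) ℂ) l k := by
      intro l
      rw [← h2 l, Finset.mul_sum]
      exact Finset.sum_congr rfl fun j _ => by ring
    rw [Finset.sum_congr rfl fun l _ => h3 l]
    simp [Matrix.one_apply]
  refine ⟨fun z i k => ∑ l, ψ z i l * G⁻¹ l k, ?_, ?_, ?_, ?_⟩
  · refine differentiable_pi.2 fun i => differentiable_pi.2 fun k => ?_
    exact Differentiable.fun_sum fun l _ => (hψan i l).mul_const _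
  · have hA := linearIndependent_A0_gcu r
    rw [← hψ0] at hA
    let L : (V r → ℂ) →ₗ[ℂ] (V r → ℂ) := Matrix.vecMulLinear G
    refine LinearIndependent.of_comp L ?_
    have hL : (⇑L ∘ fun i k => ∑ l, ψ 0 i l * G⁻¹ l k) = ψ 0 := by
      funext i
      refine Eq.trans ?_ (hψφ 0 i).symm
      funext k
      change Matrix.vecMul (fun k => ∑ l, ψ 0 i l * G⁻¹ l k) G k = _
      simp only [Matrix.vecMul, dotProduct, Finset.sum_apply, Pi.smul_apply, smul_eq_mul]
    rw [hL]
    exact hA
  · intro z i j k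
    have h1 : (fun a b d => t (sy a b d)) = fun a b d => tri (cpar m u) (G a) (G b) (G d) := by
      funext a b d
      exact hT a b d
    rw [h1, tri_change_gcu, ← hψφ z i, ← hψφ z j, ← hψφ z k]
    exact htri z i j k
  · have hub : IsUnit (blk (fun i k => tay (fun z => ψ z i k))).det := hsol.isUnit_blk
    have hbase : HasTr (dimF r) (fun i k => algebraMap (PowerSeries ℂ) KK (tay (fun z => ψ z i k))) := by
      refine ⟨fun j => Sum.inl j.succ, ?_, e, ?_⟩
      · have h1 : colB (fun j : Fin (r + 1) => (Sum.inl j.succ : V r))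
            (fun i k => algebraMap (PowerSeries ℂ) KK (tay (fun z => ψ z i k))) =
            (algebraMap (PowerSeries ℂ) KK).mapMatrix (blk (fun i k => tay (fun z => ψ z i k))) := by
          ext a b
          rfl
        rw [h1, ← RingHom.map_det]
        exact (hub.map (algebraMap (PowerSeries ℂ) KK)).ne_zero
      · have hinj : Function.Injective (IsScalarTower.toAlgHom ℂ (PowerSeries ℂ) KK) :=
          IsFractionRing.injective (PowerSeries ℂ) KK
        have h2 := he.map' hinj
        have h3 : (fun i => nS (fun j : Fin (r + 1) => (Sum.inl j.succ : V r))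
            (fun i k => algebraMap (PowerSeries ℂ) KK (tay (fun z => ψ z i k))) (e i).1 (e i).2) =
            ⇑(IsScalarTower.toAlgHom ℂ (PowerSeries ℂ) KK) ∘
              (fun i => nrm (fun i k => tay (fun z => ψ z i k)) (e i).1 (e i).2) := by
          funext i
          exact (map_nrm (algebraMap (PowerSeries ℂ) KK) hub (e i).1 (e i).2).symm
        rw [h3]
        exact h2
    have hGi : (G⁻¹).det ≠ 0 := by
      intro h0
      have h1 := congrArg Matrix.det (Matrix.nonsing_inv_mul G hGu)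
      rw [Matrix.det_mul, h0, zero_mul, Matrix.det_one] at h1
      exact zero_ne_one h1
    have h4 := hbase.mul G⁻¹ hGi
    have h5 : (fun (i : Fin (r + 1)) (k : V r) => algebraMap (PowerSeries ℂ) KK (tay (fun z => ∑ l, ψ z i l * G⁻¹ l k))) =
        fun i k => ∑ l, algebraMap (PowerSeries ℂ) KK (tay (fun z => ψ z i l)) * algebraMap ℂ KK (G⁻¹ l k) := by
      funext i k
      have hA : ∀ l, AnalyticAt ℂ (fun z => ψ z i l) 0 := fun l => (hψan i l).analyticAt 0
      rw [tay_sum_gcu Finset.univ (fun l z => ψ z i l * G⁻¹ l k) (fun l => (hA l).mul analyticAt_const), map_sum]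
      refine Finset.sum_congr rfl fun l _ => ?_
      rw [tay_mul (hA l) analyticAt_const, tay_const, map_mul, IsScalarTower.algebraMap_apply ℂ (PowerSeries ℂ) KK]
      rfl
    rw [h5]
    exact h4

/-- PIECE [GCU].  The same for an arbitrary index type (`exists_curve` for `t ∘ Sym.map ε`, `HasTr.reindex`). -/
theorem exists_curve' {r : ℕ} {ι : Type} [Fintype ι] [DecidableEq ι] (hι : Fintype.card ι = Fintype.card (V r))
    (t : Sym ι 3 → ℂ) (ht : AlgebraicIndependent ℚ t) :
    ∃ φ : ℂ → Fin (r + 1) → ι → ℂ, Differentiable ℂ φ ∧ LinearIndependent ℂ (φ 0) ∧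
      (∀ z i j k, tri (fun a b d => t (sy a b d)) (φ z i) (φ z j) (φ z k) = 0) ∧
      HasTr (dimF r) (fun i k => algebraMap (PowerSeries ℂ) KK (tay (fun z => φ z i k))) := by
  let ε : ι ≃ V r := Fintype.equivOfCardEq hι
  have hinj : Function.Injective (Sym.map (n := 3) ε.symm) := Sym.map_injective ε.symm.injective 3
  obtain ⟨φ, h1, h2, h3, h4⟩ := exists_curve (fun s => t (Sym.map ε.symm s)) (ht.comp _ hinj)
  refine ⟨fun z i j => φ z i (ε j), ?_, ?_, ?_, ?_⟩
  · refine differentiable_pi.2 fun i => differentiable_pi.2 fun k => ?_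
    exact differentiable_pi.1 (differentiable_pi.1 h1 i) (ε k)
  · have h5 := h2.map' (LinearEquiv.funCongrLeft ℂ ℂ ε).toLinearMap (LinearEquiv.ker _)
    exact h5
  · intro z i j k
    have h6 := h3 z i j k
    rw [← h6]
    unfold tri
    refine Fintype.sum_equiv ε _ _ fun a => ?_
    refine Fintype.sum_equiv ε _ _ fun b => ?_
    refine Fintype.sum_equiv ε _ _ fun d => ?_
    have h7 : Sym.map ε.symm (sy (ε a) (ε b) (ε d)) = sy a b d := by
      apply Subtype.ext
      simp [sy, Sym.map]
    change t (sy a b d) * _ = t (Sym.map ε.symm (sy (ε a) (ε b) (ε d))) * _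
    rw [h7]
  · exact h4.reindex ε

end Pool.Agent.MP_1209e6_fr
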