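import Pool.Agent.Lib_MP_1209e6_fr.Dual
import Pool.Agent.Lib_MP_1209e6_cy.VAut

/-!
PIECE [GEN] (MP_1209e6_ag).  Generic values of dominant polynomial maps.
-/

open MvPolynomial Filter Topology

namespace Pool.Agent.MP_1209e6_fr

/-- The strict derivative of a polynomial map. -/
theorem gen_strict {σ : Type} [Fintype σ] [DecidableEq σ] (p : MvPolynomial σ ℚ) (a : σ → ℂ) :
    HasStrictFDerivAt (fun x : σ → ℂ => aeval x p)
      (∑ i, (aeval a (pderiv i p) : ℂ) • (ContinuousLinearMap.proj i : (σ → ℂ) →L[ℂ] ℂ)) a := by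
  induction p using MvPolynomial.induction_on with
  | C r =>
    have e : (fun x : σ → ℂ => (aeval x (C r : MvPolynomial σ ℚ) : ℂ)) = fun _ => (algebraMap ℚ ℂ r) := by
      funext x
      rw [aeval_C]
    rw [e]
    refine (hasStrictFDerivAt_const (𝕜 := ℂ) (algebraMap ℚ ℂ r) a).congr_fderiv ?_
    ext y
    simp
  | add p q hp hq =>
    have h := hp.add hq
    have e : (fun x : σ → ℂ => (aeval x (p + q) : ℂ)) =
        (fun x : σ → ℂ => (aeval x p : ℂ)) + (fun x : σ → ℂ => (aeval x q : ℂ)) := by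
      funext x
      rw [map_add]
      rfl
    rw [e]
    refine h.congr_fderiv ?_
    ext y
    simp [Finset.sum_add_distrib, add_mul]
  | mul_X p i hp =>
    have hi : HasStrictFDerivAt (fun x : σ → ℂ => x i) (ContinuousLinearMap.proj i : (σ → ℂ) →L[ℂ] ℂ) a :=
      (ContinuousLinearMap.proj i : (σ → ℂ) →L[ℂ] ℂ).hasStrictFDerivAt
    have h := hp.mul hi
    have e : (fun x : σ → ℂ => (aeval x (p * X i) : ℂ)) = (fun x : σ → ℂ => (aeval x p : ℂ) * x i) := by
      funext x
      rw [map_mul, aeval_X]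
    rw [e]
    refine h.congr_fderiv ?_
    ext y
    simp only [add_apply, smul_apply, sum_apply,
      ContinuousLinearMap.proj_apply, smul_eq_mul, Derivation.leibniz, map_add, map_mul, aeval_X, pderiv_X,
      Finset.mul_sum, add_mul, Finset.sum_add_distrib]
    congr 1
    · rw [Finset.sum_eq_single i]
      · simp
      · intro j _ hj
        simp [Pi.single_eq_of_ne' hj]
      · simp
    · apply Finset.sum_congr rfl
      intro j _
      ring

/-- PIECE [GEN].  Polynomials with a surjective derivative at one point are algebraically independent.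

Proof.  The map `Φ : ℂ^σ → ℂ^τ` has a surjective strict derivative at `a` (its partial derivatives are the values of `pderiv`, see `eval_dual`), so its image contains an open
set (`HasStrictFDerivAt.map_nhds_eq_of_surj`).  A polynomial `P` over `ℚ` with `P(Φ) = 0` vanishes on this open set, so `P = 0` (e.g. `MvPolynomial.funext_set`, or products of
infinite sets). -/
theorem algebraicIndependent_of_surj {σ τ : Type} [Fintype σ] [Fintype τ] [DecidableEq σ] (Φ : τ → MvPolynomial σ ℚ) (a : σ → ℂ)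
    (hs : ∀ w : τ → ℂ, ∃ y : σ → ℂ, ∀ j, ∑ i, aeval a (pderiv i (Φ j)) * y i = w j) :
    AlgebraicIndependent ℚ Φ := by
  rw [algebraicIndependent_iff]
  intro P hP
  have hF : HasStrictFDerivAt (fun (x : σ → ℂ) (j : τ) => (aeval x (Φ j) : ℂ))
      (ContinuousLinearMap.pi fun j => ∑ i, (aeval a (pderiv i (Φ j)) : ℂ) • (ContinuousLinearMap.proj i : (σ → ℂ) →L[ℂ] ℂ)) a :=
    hasStrictFDerivAt_pi.2 fun j => gen_strict (Φ j) a
  have hsurj : (ContinuousLinearMap.pi fun j => ∑ i, (aeval a (pderiv i (Φ j)) : ℂ) • (ContinuousLinearMap.proj i : (σ → ℂ) →L[ℂ] ℂ)).range = ⊤ := by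
    rw [LinearMap.range_eq_top]
    intro w
    obtain ⟨y, hy⟩ := hs w
    refine ⟨y, ?_⟩
    funext j
    have := hy j
    simpa using this
  have hmap := hF.map_nhds_eq_of_surj hsurj
  have hU : {z : τ → ℂ | (aeval z P : ℂ) = 0} ∈ 𝓝 (fun j : τ => (aeval a (Φ j) : ℂ)) := by
    rw [← hmap, Filter.mem_map]
    filter_upwards with x
    show (aeval (fun j => (aeval x (Φ j) : ℂ)) P : ℂ) = 0
    have h1 := congrArg (aeval x : MvPolynomial σ ℚ → ℂ) hP
    rw [map_zero] at h1
    rw [← h1, ← comp_aeval_apply]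
  obtain ⟨c, hc, hci⟩ := Pool.Agent.MP_1209e6_cy.exists_generic_near hU
  exact (algebraicIndependent_iff.1 hci) P hc

/-- PIECE [GEN].  Proof.  Choose `y0 : σ → ℂ` algebraically independent over `ℚ` (`Pool.Agent.MP_1209e6_cy.exists_generic_near` with `U = univ`).  Then `j ↦ aeval y0 (Φ j)` is algebraically independent
(`algebraicIndependent_of_surj`; `aeval y0` is injective), so by `Pool.Agent.MP_1209e6_cy.exists_ringEquiv` there is an automorphism `θ` of `ℂ` with
`θ (aeval y0 (Φ j)) = t j`.  Take `y = θ ∘ y0`. -/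
theorem exists_generic_preimage {σ τ : Type} [Fintype σ] [Fintype τ] [DecidableEq σ] (Φ : τ → MvPolynomial σ ℚ) (a : σ → ℂ)
    (hs : ∀ w : τ → ℂ, ∃ y : σ → ℂ, ∀ j, ∑ i, aeval a (pderiv i (Φ j)) * y i = w j)
    (t : τ → ℂ) (ht : AlgebraicIndependent ℚ t) :
    ∃ y : σ → ℂ, AlgebraicIndependent ℚ y ∧ ∀ j, aeval y (Φ j) = t j := by
  obtain ⟨y0, -, hy0⟩ := Pool.Agent.MP_1209e6_cy.exists_generic_near (c₀ := (0 : σ → ℂ)) (U := Set.univ) Filter.univ_mem
  have h1 : AlgebraicIndependent ℚ (fun j => (aeval y0 (Φ j) : ℂ)) :=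
    (algebraicIndependent_of_surj Φ a hs).map' (f := (aeval y0 : MvPolynomial σ ℚ →ₐ[ℚ] ℂ)) hy0
  obtain ⟨θ, hθ⟩ := Pool.Agent.MP_1209e6_cy.exists_ringEquiv h1 ht
  have key : ∀ p : MvPolynomial σ ℚ, (aeval (fun i => θ (y0 i)) p : ℂ) = θ (aeval y0 p) := by
    intro p
    induction p using MvPolynomial.induction_on with
    | C r => simp
    | add p q hp hq => rw [map_add, map_add, map_add, hp, hq]
    | mul_X p i hp => rw [map_mul, map_mul, map_mul, hp, aeval_X, aeval_X]
  refine ⟨fun i => θ (y0 i), ?_, fun j => by rw [key]; exact hθ j⟩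
  rw [algebraicIndependent_iff]
  intro p hp
  rw [key] at hp
  have h2 : (aeval y0 p : ℂ) = 0 := by simpa using hp
  exact (algebraicIndependent_iff.1 hy0) p h2

end Pool.Agent.MP_1209e6_fr
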