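import Pool.Agent.Lib_MP_1209e6_fr.Base

/-!
PIECE [SPC] (MP_1209e6_ag).  The self-map for the special cubic form `cpar 0 0` in the chart.
-/

namespace Pool.Agent.MP_1209e6_fr

variable {R : Type*} [CommRing R] {r : ℕ}

/-- The special cubic form. -/
def csp (R : Type*) [CommRing R] (r : ℕ) : V r → V r → V r → R := cpar 0 0

/-- The coordinates `λ_a` (`λ_0 = 1`) of the hyperplane. -/
def lam (x : Fin (r + 1) → V r → R) : I r → R := Fin.cons (α := fun _ => R) 1 (fun i => -(x i (.inl 0)))

/-- The coordinates `M_p^a` of the space spanned by the frame `x` and the vector `y`. -/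
def Mm (x : Fin (r + 1) → V r → R) (y : V r → R) (p : J r) : I r → R :=
  Fin.cons (α := fun _ => R) (y (.inr p)) (fun i => x i (.inr p) - x i (.inl 0) * y (.inr p))

/-- The vectors `e_a + ∑ p, M_p^a e_p`. -/
def xi (x : Fin (r + 1) → V r → R) (y : V r → R) (a : I r) : V r → R :=
  Sum.elim (Pi.single a 1) (fun p => Mm x y p a)

/-- The data of a point in the chart: the frame `x` is normalised, `y` is normalised and orthogonal to the frame. -/
structure ChartPt (x : Fin (r + 1) → V r → R) (y : V r → R) : Prop where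
  x_succ : ∀ i j : Fin (r + 1), x i (.inl j.succ) = if i = j then 1 else 0
  y_zero : y (.inl 0) = 1
  y_succ : ∀ j : Fin (r + 1), y (.inl j.succ) = 0
  xxx : ∀ i j k, tri (csp R r) (x i) (x j) (x k) = 0
  xxy : ∀ i j, tri (csp R r) (x i) (x j) y = 0

/-- The number `M_p^d` for the unordered pair `{a, b}`, `0` if `a = b`. -/
def Mab (x : Fin (r + 1) → V r → R) (y : V r → R) (a b d : I r) : R :=
  if h : a < b then Mm x y ⟨(a, b), h⟩ d else if h : b < a then Mm x y ⟨(b, a), h⟩ d else 0

end Pool.Agent.MP_1209e6_fr
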