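import Pool.Agent.Lib_MP_1209e6_fr.BAdap
import Pool.Agent.Lib_MP_1209e6_fr.SpecA

/-!
PIECE [SUR] (MP_1209e6_ag).  Infinitesimal transitivity at the special cubic form.
-/

namespace Pool.Agent.MP_1209e6_fr

variable {r : ℕ}

/-- The homogeneous linear part of `cpar`: `0` at `(I, I, I)`, `m p a + m p b` at `(a, b, p)`, and `u` if at least two indices are in `J r`. -/
def cnu {R : Type*} [CommRing R] {r : ℕ} (m : J r → I r → R) (u : Sym (V r) 3 → R) : V r → V r → V r → R
  | .inl _, .inl _, .inl _ => 0
  | .inl a, .inl b, .inr p => m p a + m p b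
  | .inl a, .inr p, .inl b => m p a + m p b
  | .inr p, .inl a, .inl b => m p a + m p b
  | i, j, k => u (sy i j k)

theorem sur_tri {c : V r → V r → V r → ℂ} (x : V r → ℂ) (j k : V r) :
    tri c x (Pi.single j 1) (Pi.single k 1) = ∑ l, c l j k * x l := by
  unfold tri
  refine Finset.sum_congr rfl fun l _ => ?_
  rw [Finset.sum_eq_single j, Finset.sum_eq_single k]
  · simp
  · intro b _ hb; simp [Pi.single_eq_of_ne hb]
  · intro h; exact absurd (Finset.mem_univ _) h
  · intro b _ hb; simp [Pi.single_eq_of_ne hb]
  · intro h; exact absurd (Finset.mem_univ _) h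

theorem sur_del (g : I r → I r → ℂ) (hg : ∀ a b, g a b = g b a) (a b : I r) :
    ∑ q : J r, del ℂ a b q * g q.1.1 q.1.2 = if a = b then 0 else g a b := by
  unfold del
  split_ifs with hab
  · subst hab
    refine Finset.sum_eq_zero fun q _ => ?_
    rw [if_neg, zero_mul]
    rintro (h | h)
    · have := q.2
      rw [h] at this
      exact lt_irrefl _ this
    · have := q.2
      rw [h] at this
      exact lt_irrefl _ this
  · rcases lt_or_gt_of_ne hab with h | h
    · rw [Finset.sum_eq_single (⟨(a, b), h⟩ : J r)]
      · simp
      · intro q _ hq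
        rw [if_neg, zero_mul]
        rintro (h1 | h1)
        · exact hq (Subtype.ext h1)
        · have := q.2
          rw [h1] at this
          exact lt_asymm h this
      · intro h; exact absurd (Finset.mem_univ _) h
    · rw [Finset.sum_eq_single (⟨(b, a), h⟩ : J r)]
      · simp [hg a b]
      · intro q _ hq
        rw [if_neg, zero_mul]
        rintro (h1 | h1)
        · have := q.2
          rw [h1] at this
          exact lt_asymm h this
        · exact hq (Subtype.ext h1)
      · intro h; exact absurd (Finset.mem_univ _) h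

/-- PIECE [SUR].  Every symmetric `h` is the sum of an infinitesimal change of coordinates `X` (`X i` is the image of the basis vector `i`) applied to the special
cubic form, and of an element of the linear part of the adapted forms.

Proof.  Write `c = csp ℂ r`; `c(x, e_j, e_k)` etc.  Take `X (inl a) (inl a) = h(a,a,a)/3`, `X (inl a) (inl b) = 0` for `a ≠ b`; for a pair `p`:
if `p = {a, b}`: `X (inl a) (inr p) = (h(a,a,b) - 2 X_a^a - X_b^b)/2`; if `p = {b, d}` does not contain `a`: `X (inl a) (inr p) = (h(a,b,d) - X_a^a - X_b^b - X_d^d)/3`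
(`X_a^a := X (inl a) (inl a)`).  Then the three terms at `(a, b, d)` are: `c(X e_a, e_b, e_d) = X_a^a + X_a^{bd}` (`X_a^{bd} = X (inl a) (inr {b,d})`, `0` if `b = d`), so the sum is
`X_a^a + X_b^b + X_d^d + X_a^{bd} + X_b^{ad} + X_d^{ab} = h(a,b,d)` in all cases (all equal; two equal; distinct).
At `(a, b, p)`: `c(X e_a, e_b, e_p) = X_a^a del a b p` (values at two indices in `J` vanish), `c(e_a, X e_b, e_p) = X_b^b del a b p`, `c(e_a, e_b, X e_p) = X (inr p) (inr {a,b})` for
`a ≠ b` and `0` for `a = b` (take `X (inr p) (inl a) = 0`).  So put `m p a = h(a, a, p)/2` and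
`X (inr p) (inr {a,b}) = h(a,b,p) - m p a - m p b - (X_a^a + X_b^b) del a b p`.
Finally at triples with at least two indices in `J` let `u` be the difference of `h` and the three terms (symmetric, `SymC.exists_fun`). -/
theorem exists_infinitesimal (h : V r → V r → V r → ℂ) (hh : SymC h) :
    ∃ (X : V r → V r → ℂ) (m : J r → I r → ℂ) (u : Sym (V r) 3 → ℂ), ∀ i j k,
      tri (csp ℂ r) (X i) (Pi.single j 1) (Pi.single k 1) + tri (csp ℂ r) (Pi.single i 1) (X j) (Pi.single k 1) +
        tri (csp ℂ r) (Pi.single i 1) (Pi.single j 1) (X k) + cnu m u i j k = h i j k := by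
  have hc : SymC (csp ℂ r) := (adapted_cpar (R := ℂ) (r := r) 0 0).sym
  set s : I r → ℂ := fun a => h (.inl a) (.inl a) (.inl a) / 3 with hs
  set g : I r → I r → I r → ℂ := fun a b d => h (.inl a) (.inl b) (.inl d) - s a - s b - s d with hg
  have hg1 : ∀ a b d, g a b d = g b a d := by
    intro a b d
    simp only [hg]
    rw [hh.1 (.inl a) (.inl b) (.inl d)]
    ring
  have hg2 : ∀ a b d, g a b d = g a d b := by
    intro a b d
    simp only [hg]
    rw [hh.2 (.inl a) (.inl b) (.inl d)]
    ring
  have hg0 : ∀ a, g a a a = 0 := by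
    intro a
    simp only [hg, hs]
    ring
  set m : J r → I r → ℂ := fun p a => h (.inl a) (.inl a) (.inr p) / 2 with hm
  set Y : I r → I r → I r → ℂ := fun a b d => g a b d / (if a = b ∨ a = d then 2 else 3) with hY
  have hYs : ∀ a b d, Y a b d = Y a d b := by
    intro a b d
    simp only [hY]
    rw [hg2 a b d]
    simp only [or_comm]
  set Z : J r → I r → I r → ℂ := fun p a b => h (.inl a) (.inl b) (.inr p) - m p a - m p b - (s a + s b) * del ℂ a b p
    with hZ
  have hZs : ∀ p a b, Z p a b = Z p b a := by
    intro p a b
    simp only [hZ]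
    rw [hh.1 (.inl a) (.inl b) (.inr p)]
    have : del ℂ a b p = del ℂ b a p := by
      unfold del
      simp only [or_comm]
    rw [this]
    ring
  set X : V r → V r → ℂ := Sum.elim (fun a => Sum.elim (Pi.single a (s a)) (fun q => Y a q.1.1 q.1.2))
    (fun p => Sum.elim 0 (fun q => Z p q.1.1 q.1.2)) with hX
  set S : (V r → ℂ) → V r → V r → ℂ := fun x j k => ∑ l, csp ℂ r l j k * x l with hS
  set T : V r → V r → V r → ℂ := fun i j k =>
    tri (csp ℂ r) (X i) (Pi.single j 1) (Pi.single k 1) + tri (csp ℂ r) (Pi.single i 1) (X j) (Pi.single k 1) +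
        tri (csp ℂ r) (Pi.single i 1) (Pi.single j 1) (X k) with hT
  have hTS : ∀ i j k, T i j k = S (X i) j k + S (X j) i k + S (X k) j i := by
    intro i j k
    simp only [hT, hS]
    rw [hc.swap12 (Pi.single i 1) (X j), hc.swap13 (Pi.single i 1) (Pi.single j 1) (X k), sur_tri, sur_tri, sur_tri]
  have hTsym : SymC T := by
    constructor
    · intro i j k
      simp only [hT]
      rw [hc.swap12 (X i), hc.swap12 _ (X j), hc.swap12 _ _ (X k)]
      ring
    · intro i j k
      simp only [hT]
      rw [hc.swap23 (X i), hc.swap23 _ (X j), hc.swap23 _ _ (X k)]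
      ring
  have hD : SymC (fun i j k => h i j k - T i j k) :=
    ⟨fun i j k => by
      show h i j k - T i j k = h j i k - T j i k
      rw [hh.1 i j k, hTsym.1 i j k], fun i j k => by
      show h i j k - T i j k = h i k j - T i k j
      rw [hh.2 i j k, hTsym.2 i j k]⟩
  obtain ⟨u, hu⟩ := hD.exists_fun
  -- values
  have h0 : ∀ a b d : I r, T (.inl a) (.inl b) (.inl d) = h (.inl a) (.inl b) (.inl d) := by
    intro a b d
    rw [hTS]
    have key : ∀ a b d : I r, S (X (.inl a)) (.inl b) (.inl d) = s a + if b = d then 0 else Y a b d := by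
      intro a b d
      simp only [hS, Fintype.sum_sum_type, hX, Sum.elim_inl, Sum.elim_inr, csp, cpar, one_mul]
      rw [Finset.sum_pi_single']
      simp only [Finset.mem_univ, if_true]
      rw [← sur_del (Y a) (hYs a) b d]
      simp
    rw [key, key, key]
    have e : h (.inl a) (.inl b) (.inl d) = g a b d + s a + s b + s d := by simp only [hg]; ring
    rw [e]
    simp only [hY]
    rw [hg1 b a d, hg2 d b a, hg1 d a b, hg2 a d b]
    by_cases h1 : a = b
    · subst h1
      by_cases h2 : a = d
      · subst h2
        simp [hg0]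
      · have h2' : d ≠ a := fun e => h2 e.symm
        simp only [h2, h2', if_true, if_false, true_or, or_false, or_true]
        ring
    · have h1' : b ≠ a := fun e => h1 e.symm
      by_cases h2 : a = d
      · subst h2
        simp only [h1, h1', if_true, if_false, true_or, or_false, or_true]
        ring
      · have h2' : d ≠ a := fun e => h2 e.symm
        by_cases h3 : b = d
        · subst h3
          simp only [h1, h1', if_true, if_false, true_or, or_false, or_true]
          ring
        · have h3' : d ≠ b := fun e => h3 e.symm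
          simp only [h1, h1', h2, h2', h3, h3', if_true, if_false, true_or, or_false, or_true]
          ring
  have h1 : ∀ (a b : I r) (p : J r), T (.inl a) (.inl b) (.inr p) + (m p a + m p b) = h (.inl a) (.inl b) (.inr p) := by
    intro a b p
    rw [hTS]
    have key1 : ∀ a b : I r, S (X (.inl a)) (.inl b) (.inr p) = s a * del ℂ a b p := by
      intro a b
      simp only [hS, Fintype.sum_sum_type, hX, Sum.elim_inl, Sum.elim_inr, csp, cpar, Pi.zero_apply, zero_mul,
        Finset.sum_const_zero, add_zero]
      rw [Finset.sum_eq_single a]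
      · simp [mul_comm]
      · intro l _ hl; simp [Pi.single_eq_of_ne hl]
      · intro h; exact absurd (Finset.mem_univ _) h
    have key2 : S (X (.inr p)) (.inl b) (.inl a) = if b = a then 0 else Z p b a := by
      simp only [hS, Fintype.sum_sum_type, hX, Sum.elim_inl, Sum.elim_inr, csp, cpar, Pi.zero_apply, mul_zero,
        Finset.sum_const_zero, add_zero, zero_add]
      exact sur_del (Z p) (hZs p) b a
    rw [key1, key1, key2]
    have hdel : del ℂ a b p = del ℂ b a p := by
      unfold del
      simp only [or_comm]
    by_cases hab : b = a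
    · subst hab
      have hd0 : del ℂ b b p = 0 := by
        unfold del
        rw [if_neg]
        rintro (h | h)
        · have := p.2
          rw [h] at this
          exact lt_irrefl _ this
        · have := p.2
          rw [h] at this
          exact lt_irrefl _ this
      simp only [if_true, hd0, hm]
      ring
    · simp only [hab, if_false]
      rw [hZs p b a]
      simp only [hZ, hdel]
      ring
  refine ⟨X, m, u, fun i j k => ?_⟩
  change T i j k + cnu m u i j k = h i j k
  rcases i with a | p <;> rcases j with b | q <;> rcases k with d | w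
  · simp only [cnu, add_zero]; exact h0 a b d
  · simp only [cnu]; exact h1 a b w
  · simp only [cnu]
    rw [hTsym.2, hh.2]
    exact h1 a d q
  · simp only [cnu]
    rw [← hu]; ring
  · simp only [cnu]
    rw [hTsym.1, hTsym.2, hh.1, hh.2]
    exact h1 b d p
  · simp only [cnu]
    rw [← hu]; ring
  · simp only [cnu]
    rw [← hu]; ring
  · simp only [cnu]
    rw [← hu]; ring

end Pool.Agent.MP_1209e6_fr
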