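import Mathlib

/-!
PIECE [TRF] (MP_1209e6_ag).  Algebraic independence of power series is inherited from special to generic values of parameters.
-/

namespace Pool.Agent.MP_1209e6_fr

/-- PIECE [TRF].  Finitely many linearly independent sequences have a nonvanishing minor.

Proof.  The linear map `ℂ^ι → (ℕ → ℂ)` with the matrix `v` is injective, so the coordinate functionals restricted to `ℂ^ι` separate points, so
they span the dual space (finite-dimensional) and contain a basis; or use that the row rank of a matrix is its column rank (`Matrix.rank`) for a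
large finite set of rows. -/
theorem exists_minor {ι : Type*} [Fintype ι] [DecidableEq ι] (v : ι → ℕ → ℂ) (hv : LinearIndependent ℂ v) :
    ∃ e : ι → ℕ, (Matrix.of fun i j => v i (e j)).det ≠ 0 := by
  classical
  let c : ℕ → (ι → ℂ) := fun n i => v i n
  have hspan : Submodule.span ℂ (Set.range c) = ⊤ := by
    by_contra hne
    obtain ⟨φ, hφ0, hφ⟩ := Submodule.exists_le_ker_of_lt_top _ (lt_top_iff_ne_top.2 hne)
    apply hφ0
    have h1 : ∀ n, φ (c n) = 0 := fun n =>
      LinearMap.mem_ker.1 (hφ (Submodule.subset_span ⟨n, rfl⟩))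
    have h2 : ∀ w : ι → ℂ, φ w = ∑ i, w i * φ (Pi.single i 1) := by
      intro w
      have h3 : w = ∑ i, w i • (Pi.single i 1 : ι → ℂ) := by
        rw [← pi_eq_sum_univ' w]
      conv_lhs => rw [h3]
      rw [map_sum]
      refine Finset.sum_congr rfl fun i _ => ?_
      rw [map_smul, smul_eq_mul]
    have h4 : ∑ i, φ (Pi.single i 1) • v i = 0 := by
      funext n
      have h5 := h1 n
      rw [h2] at h5
      rw [Finset.sum_apply]
      rw [Pi.zero_apply, ← h5]
      refine Finset.sum_congr rfl fun i _ => ?_
      simp only [Pi.smul_apply, smul_eq_mul, c]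
      ring
    have h6 := Fintype.linearIndependent_iff.1 hv _ h4
    ext w
    rw [LinearMap.comp_apply]
    simpa using h6 _
  obtain ⟨κ, a, ha, hsp, hli⟩ := exists_linearIndependent' ℂ c
  rw [hspan] at hsp
  let b : Module.Basis κ ℂ (ι → ℂ) := Module.Basis.mk hli hsp.ge
  let ε : ι ≃ κ := (Pi.basisFun ℂ ι).indexEquiv b
  refine ⟨fun j => a (ε j), ?_⟩
  have h1 : LinearIndependent ℂ (fun j => c (a (ε j))) := hli.comp ε ε.injective
  have h2 : LinearIndependent ℂ (Matrix.of fun i j => v i (a (ε j))).col := h1
  rw [Matrix.linearIndependent_cols_iff_isUnit] at h2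
  exact ((Matrix.isUnit_iff_isUnit_det _).1 h2).ne_zero

/-- PIECE [TRF].  Linear independence is inherited: the minor of `f p` is `f` of the minor `δ ∈ O` of `p`, so `δ ≠ 0`, so `g δ ≠ 0`, and a nonvanishing minor of `g p` gives
linear independence. -/
theorem linearIndependent_transfer {O : Type*} [CommRing O] (f g : O →+* ℂ) (hg : Function.Injective g) {ι : Type*} [Finite ι]
    (p : ι → PowerSeries O) (h : LinearIndependent ℂ (fun i => PowerSeries.map f (p i))) :
    LinearIndependent ℂ (fun i => PowerSeries.map g (p i)) := by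
  classical
  have : Fintype ι := Fintype.ofFinite ι
  have h1 : LinearIndependent ℂ (fun i n => PowerSeries.coeff n (PowerSeries.map f (p i))) := by
    rw [Fintype.linearIndependent_iff] at h ⊢
    intro a ha
    apply h a
    ext n
    have h2 := congrFun ha n
    rw [Finset.sum_apply] at h2
    rw [map_sum, map_zero]
    simpa using h2
  obtain ⟨e, he⟩ := exists_minor _ h1
  let M : Matrix ι ι O := Matrix.of fun i j => PowerSeries.coeff (e j) (p i)
  have hf : f M.det ≠ 0 := by
    rw [RingHom.map_det]
    convert he using 2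
    ext i j
    simp [M]
  have hM : M.det ≠ 0 := fun h0 => hf (by rw [h0, map_zero])
  have hgM : (g.mapMatrix M).det ≠ 0 := by
    rw [← RingHom.map_det]
    exact (map_ne_zero_iff g hg).2 hM
  rw [Fintype.linearIndependent_iff]
  intro a ha
  have h2 : Matrix.vecMul a (g.mapMatrix M) = 0 := by
    funext j
    have h3 := congrArg (PowerSeries.coeff (e j)) ha
    rw [map_sum, map_zero] at h3
    rw [Pi.zero_apply, ← h3]
    show ∑ i, a i * (g.mapMatrix M) i j = _
    refine Finset.sum_congr rfl fun i _ => ?_
    simp [M]
  exact congrFun (Matrix.eq_zero_of_vecMul_eq_zero hgM h2)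

/-- PIECE [TRF].  Algebraic independence is inherited: algebraic independence is the linear independence of all finite sets of monomials. -/
theorem algebraicIndependent_transfer {O : Type*} [CommRing O] (f g : O →+* ℂ) (hg : Function.Injective g) {ι : Type*} [Finite ι]
    (x : ι → PowerSeries O) (h : AlgebraicIndependent ℂ (fun i => PowerSeries.map f (x i))) :
    AlgebraicIndependent ℂ (fun i => PowerSeries.map g (x i)) := by
  classical
  rw [algebraicIndependent_iff]
  intro P hP
  let s : Finset (ι →₀ ℕ) := P.support
  have hmon : ∀ (f : O →+* ℂ) (m : ι →₀ ℕ) , MvPolynomial.aeval (fun i => PowerSeries.map f (x i))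
      (MvPolynomial.monomial m (1 : ℂ)) = PowerSeries.map f (m.prod fun i n => x i ^ n) := by
    intro f m
    rw [MvPolynomial.aeval_monomial, map_one, one_mul, Finsupp.prod, Finsupp.prod, map_prod]
    refine Finset.prod_congr rfl fun i _ => ?_
    rw [map_pow]
  have h1 : LinearIndependent ℂ (fun m : s =>
      PowerSeries.map f ((m : ι →₀ ℕ).prod fun i n => x i ^ n)) := by
    have h2 : LinearIndependent ℂ (fun m : s => MvPolynomial.monomial (m : ι →₀ ℕ) (1 : ℂ)) := by
      have h3 := (MvPolynomial.basisMonomials ι ℂ).linearIndependent.comp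
        (Subtype.val : s → (ι →₀ ℕ)) Subtype.val_injective
      rw [MvPolynomial.coe_basisMonomials] at h3
      exact h3
    have h4 := h2.map' (MvPolynomial.aeval (fun i => PowerSeries.map f (x i))).toLinearMap
      (LinearMap.ker_eq_bot.2 h)
    have h5 : (⇑(MvPolynomial.aeval (fun i => PowerSeries.map f (x i))).toLinearMap ∘
        fun m : s => MvPolynomial.monomial (m : ι →₀ ℕ) (1 : ℂ)) = fun m : s =>
        PowerSeries.map f ((m : ι →₀ ℕ).prod fun i n => x i ^ n) := by
      funext m
      exact hmon f m
    rw [h5] at h4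
    exact h4
  have h2 := linearIndependent_transfer f g hg _ h1
  rw [Fintype.linearIndependent_iff] at h2
  have h3 := h2 (fun m => P.coeff m) (by
    rw [← hP]
    conv_rhs => rw [P.as_sum, map_sum]
    rw [← Finset.sum_coe_sort P.support]
    refine Finset.sum_congr rfl fun m _ => ?_
    have h4 : MvPolynomial.monomial (m : ι →₀ ℕ) (P.coeff m) =
        P.coeff m • MvPolynomial.monomial (m : ι →₀ ℕ) (1 : ℂ) := by
      rw [MvPolynomial.smul_monomial, smul_eq_mul, mul_one]
    rw [h4, map_smul, hmon g m])
  ext m
  rw [MvPolynomial.coeff_zero]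
  by_cases hm : m ∈ s
  · exact h3 ⟨m, hm⟩
  · exact MvPolynomial.notMem_support_iff.1 hm

end Pool.Agent.MP_1209e6_fr
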