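import Pool.Agent.Lib_MP_1209e6_fr.STr
import Pool.Agent.Lib_MP_1209e6_fr.Trf

/-!
PIECE [TRC] (MP_1209e6_ag).  Transfer from the special to the generic cubic form.
-/

open MvPolynomial

namespace Pool.Agent.MP_1209e6_fr

/-- The index set of the parameters. -/
abbrev Par (r : ℕ) : Type := (J r × I r) ⊕ (Sym (V r) 3 ⊕ Fin (r + 1))

/-- PIECE [TRC].  Proof.  Let `O = MvPolynomial (Par r) ℚ`, `cO = cpar (fun p a => X (inl (p, a))) (fun s => X (inr (inl s)))`, `vO i = X (inr (inr i))`.  By `exists_sol` there is a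
formal curve `ψ` over `O`.  Let `v1` be the parameter of `exists_special`; `f : O →+* ℂ` sends the first two kinds of variables to `0` and `vO i` to `v1 i`; `g : O →+* ℂ` sends the variables to
`m, u, v` and is injective by hypothesis.  By `IsSol.map` (and `map_cpar`) the images of `ψ` are formal curves for `(csp, v1)` and `(cpar m u, v)`; the second one is `φ` by `IsSol.unique`.
`map_nrm` (for `PowerSeries.map f`, `PowerSeries.map g`; `IsSol.isUnit_blk`), `exists_special` and `algebraicIndependent_transfer`. -/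
theorem exists_generic {r : ℕ} (m : J r → I r → ℂ) (u : Sym (V r) 3 → ℂ) (v : Fin (r + 1) → ℂ)
    (h : AlgebraicIndependent ℚ (Sum.elim (fun p => m p.1 p.2) (Sum.elim u v) : Par r → ℂ))
    (φ : Fin (r + 1) → V r → PowerSeries ℂ) (hφ : IsSol (cpar m u) v φ) :
    ∃ e : Fin (dimF r) → Fin (r + 1) × V r, AlgebraicIndependent ℂ (fun i => nrm φ (e i).1 (e i).2) := by
  obtain ⟨v1, hv1⟩ := exists_special r
  obtain ⟨ψ, hψ⟩ := exists_sol (R := MvPolynomial (Par r) ℚ)
    (adapted_cpar (fun (p : J r) (a : I r) => (X (Sum.inl (p, a)) : MvPolynomial (Par r) ℚ))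
      (fun s => X (Sum.inr (Sum.inl s)))) (fun i => X (Sum.inr (Sum.inr i)))
  obtain ⟨f, hf⟩ : ∃ f : MvPolynomial (Par r) ℚ →+* ℂ, ∀ x : Par r, f (X x) =
      (Sum.elim (fun _ => 0) (Sum.elim (fun _ => 0) v1) : Par r → ℂ) x :=
    ⟨(aeval (Sum.elim (fun _ => 0) (Sum.elim (fun _ => 0) v1) : Par r → ℂ) :
      MvPolynomial (Par r) ℚ →ₐ[ℚ] ℂ).toRingHom, fun x => aeval_X _ x⟩
  obtain ⟨g, hgX, hg⟩ : ∃ g : MvPolynomial (Par r) ℚ →+* ℂ, (∀ x : Par r, g (X x) =
      (Sum.elim (fun p => m p.1 p.2) (Sum.elim u v) : Par r → ℂ) x) ∧ Function.Injective g :=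
    ⟨(aeval (Sum.elim (fun p => m p.1 p.2) (Sum.elim u v) : Par r → ℂ) :
      MvPolynomial (Par r) ℚ →ₐ[ℚ] ℂ).toRingHom, fun x => aeval_X _ x, h⟩
  have hF := hψ.map f
  have hG := hψ.map g
  have ec : (fun i j k => f (cpar (fun (p : J r) (a : I r) =>
      (X (Sum.inl (p, a)) : MvPolynomial (Par r) ℚ)) (fun s => X (Sum.inr (Sum.inl s))) i j k)) =
      csp ℂ r := by
    funext i j k
    rw [map_cpar]
    simp only [hf, Sum.elim_inl, Sum.elim_inr]
    rfl
  have ev' : (fun i => f (X (Sum.inr (Sum.inr i)) : MvPolynomial (Par r) ℚ)) = v1 := by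
    funext i
    rw [hf]
    rfl
  have ec2 : (fun i j k => g (cpar (fun (p : J r) (a : I r) =>
      (X (Sum.inl (p, a)) : MvPolynomial (Par r) ℚ)) (fun s => X (Sum.inr (Sum.inl s))) i j k)) =
      cpar m u := by
    funext i j k
    rw [map_cpar]
    simp only [hgX, Sum.elim_inl, Sum.elim_inr]
  have ev2 : (fun i => g (X (Sum.inr (Sum.inr i)) : MvPolynomial (Par r) ℚ)) = v := by
    funext i
    rw [hgX]
    rfl
  rw [ec, ev'] at hF
  rw [ec2, ev2] at hG
  obtain ⟨e, he⟩ := hv1 _ hF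
  refine ⟨e, ?_⟩
  have hφψ := IsSol.unique (adapted_cpar m u) hφ hG
  have h1 : AlgebraicIndependent ℂ
      (fun i => PowerSeries.map f (nrm ψ (e i).1 (e i).2)) := by
    have e1 : (fun i => PowerSeries.map f (nrm ψ (e i).1 (e i).2)) =
        fun i => nrm (fun i k => PowerSeries.map f (ψ i k)) (e i).1 (e i).2 := by
      funext i
      exact map_nrm (PowerSeries.map f) hψ.isUnit_blk _ _
    rw [e1]
    exact he
  have h2 := algebraicIndependent_transfer f g hg (fun i => nrm ψ (e i).1 (e i).2) h1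
  have e2 : (fun i => PowerSeries.map g (nrm ψ (e i).1 (e i).2)) =
      fun i => nrm φ (e i).1 (e i).2 := by
    funext i
    rw [hφψ]
    exact map_nrm (PowerSeries.map g) hψ.isUnit_blk _ _
  rw [← e2]
  exact h2

end Pool.Agent.MP_1209e6_fr
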