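import Pool.Agent.Lib_MP_1209e6_fr.Gen
import Pool.Agent.Lib_MP_1209e6_fr.Sur
import Pool.Agent.Lib_MP_1209e6_fr.TrC

/-!
PIECE [GNT] (MP_1209e6_ag).  The generic cubic form is a linear transform of a generic adapted form.
-/

open MvPolynomial

namespace Pool.Agent.MP_1209e6_fr

private theorem GNT_snd_tri {ι : Type*} [Fintype ι] (c : ι → ι → ι → TrivSqZeroExt ℂ ℂ)
    (x y z : ι → TrivSqZeroExt ℂ ℂ) :
    (tri c x y z).snd = tri (fun i j k => (c i j k).snd) (fun i => (x i).fst) (fun i => (y i).fst)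
        (fun i => (z i).fst) +
      tri (fun i j k => (c i j k).fst) (fun i => (x i).snd) (fun i => (y i).fst) (fun i => (z i).fst) +
      tri (fun i j k => (c i j k).fst) (fun i => (x i).fst) (fun i => (y i).snd) (fun i => (z i).fst) +
      tri (fun i j k => (c i j k).fst) (fun i => (x i).fst) (fun i => (y i).fst) (fun i => (z i).snd) := by
  simp only [tri, TrivSqZeroExt.snd_sum, ← Finset.sum_add_distrib]
  refine Finset.sum_congr rfl fun i _ => Finset.sum_congr rfl fun j _ => Finset.sum_congr rfl fun k _ => ?_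
  simp only [TrivSqZeroExt.snd_mul, TrivSqZeroExt.fst_mul, smul_eq_mul, MulOpposite.smul_eq_mul_unop,
    MulOpposite.unop_op]
  ring

private theorem GNT_snd_cpar {r : ℕ} (m : J r → I r → ℂ) (u : Sym (V r) 3 → ℂ) (i j k : V r) :
    (cpar (R := TrivSqZeroExt ℂ ℂ) (fun p a => TrivSqZeroExt.inr (m p a))
      (fun s => TrivSqZeroExt.inr (u s)) i j k).snd = cnu m u i j k := by
  have hdel : ∀ (a b : I r) (p : J r), (del (TrivSqZeroExt ℂ ℂ) a b p).snd = 0 := by
    intro a b p
    unfold del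
    split_ifs <;> simp
  rcases i with a | p <;> rcases j with b | q <;> rcases k with d | s <;>
    simp [cpar, cnu, hdel]

private theorem GNT_fst_cpar {r : ℕ} (m : J r → I r → ℂ) (u : Sym (V r) 3 → ℂ) (i j k : V r) :
    (cpar (R := TrivSqZeroExt ℂ ℂ) (fun p a => TrivSqZeroExt.inr (m p a))
      (fun s => TrivSqZeroExt.inr (u s)) i j k).fst = csp ℂ r i j k := by
  have hdel : ∀ (a b : I r) (p : J r), (del (TrivSqZeroExt ℂ ℂ) a b p).fst = del ℂ a b p := by
    intro a b p
    unfold del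
    split_ifs <;> simp
  rcases i with a | p <;> rcases j with b | q <;> rcases k with d | s <;>
    simp [cpar, csp, hdel]

/-- PIECE [GNT].  Proof.  `exists_generic_preimage` with `σ = (V r × V r) ⊕ Par r`, `τ = Sym (V r) 3` and the polynomials
`Φ s = tri (cpar m u) (G i) (G j) (G k)` where `(i, j, k)` is a chosen triple with `s = sy i j k` (`exists_sy`) and `G, m, u` are the variables.  The point `a`: `G` = identity matrix, `m = 0`,
`u = 0`, `v = 0`.  Derivative in the direction `y = (X, m', u', v')` over the dual numbers (`eval_dual` for `aeval`; `map_tri`, `map_cpar`): `cpar (ε m') (ε u') = csp + ε cnu m' u'`, so the `ε`-part of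
`tri (cpar (ε m') (ε u')) (e_i + ε X i) (e_j + ε X j) (e_k + ε X k)` is the expression of `exists_infinitesimal`; for `w : τ → ℂ` apply it to `h i j k = w (sy i j k)`.
The result is `y = (G, m, u, v)`, algebraically independent, with `t s = Φ s (y)`; for arbitrary `i, j, k` use the symmetry of both sides (`adapted_cpar`, `SymC.swap12`, `SymC.swap23`,
i.e. `SymC.exists_fun` for the right hand side).  `det G ≠ 0` because the determinant of the matrix of the variables is a nonzero polynomial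
(`Matrix.det_mvPolynomialX_ne_zero`). -/
theorem exists_adapted {r : ℕ} (t : Sym (V r) 3 → ℂ) (ht : AlgebraicIndependent ℚ t) :
    ∃ (G : Matrix (V r) (V r) ℂ) (m : J r → I r → ℂ) (u : Sym (V r) 3 → ℂ) (v : Fin (r + 1) → ℂ),
      G.det ≠ 0 ∧ AlgebraicIndependent ℚ (Sum.elim (fun p => m p.1 p.2) (Sum.elim u v) : Par r → ℂ) ∧
      ∀ i j k, t (sy i j k) = tri (cpar m u) (G i) (G j) (G k) := by
  classical
  -- chosen triples
  have hch : ∀ s : Sym (V r) 3, ∃ q : V r × V r × V r, s = sy q.1 q.2.1 q.2.2 := by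
    intro s
    obtain ⟨i, j, k, h⟩ := exists_sy s
    exact ⟨(i, j, k), h⟩
  choose q hq using hch
  -- the polynomials
  let GX : V r → V r → MvPolynomial ((V r × V r) ⊕ Par r) ℚ := fun i b => X (Sum.inl (i, b))
  let mX : J r → I r → MvPolynomial ((V r × V r) ⊕ Par r) ℚ := fun p a => X (Sum.inr (Sum.inl (p, a)))
  let uX : Sym (V r) 3 → MvPolynomial ((V r × V r) ⊕ Par r) ℚ := fun s => X (Sum.inr (Sum.inr (Sum.inl s)))
  let Φ : Sym (V r) 3 → MvPolynomial ((V r × V r) ⊕ Par r) ℚ := fun s =>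
    tri (cpar mX uX) (GX (q s).1) (GX (q s).2.1) (GX (q s).2.2)
  let a : (V r × V r) ⊕ Par r → ℂ := Sum.elim (fun p => if p.1 = p.2 then 1 else 0) (fun _ => 0)
  -- image of the polynomials under a ring homomorphism
  have hmapΦ : ∀ {S : Type} [CommRing S] (F : MvPolynomial ((V r × V r) ⊕ Par r) ℚ →+* S)
      (s : Sym (V r) 3), F (Φ s) = tri (cpar (fun p a => F (mX p a)) (fun s => F (uX s)))
        (fun b => F (GX (q s).1 b)) (fun b => F (GX (q s).2.1 b)) (fun b => F (GX (q s).2.2 b)) := by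
    intro S _ F s
    simp only [Φ]
    rw [map_tri]
    congr 1
    funext i j k
    exact map_cpar F mX uX i j k
  have hs : ∀ w : Sym (V r) 3 → ℂ, ∃ y : (V r × V r) ⊕ Par r → ℂ, ∀ s,
      ∑ i, aeval a (pderiv i (Φ s)) * y i = w s := by
    intro w
    obtain ⟨X', m', u', hX⟩ := exists_infinitesimal (fun i j k => w (sy i j k)) (symC_sy w)
    let y : (V r × V r) ⊕ Par r → ℂ := Sum.elim (fun p => X' p.1 p.2)
      (Sum.elim (fun p => m' p.1 p.2) (Sum.elim u' (fun _ => 0)))
    refine ⟨y, fun s => ?_⟩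
    have h1 := eval_dual (MvPolynomial.map (algebraMap ℚ ℂ) (Φ s)) a y
    have h2 : ∀ i, eval a (pderiv i (MvPolynomial.map (algebraMap ℚ ℂ) (Φ s))) =
        aeval a (pderiv i (Φ s)) := by
      intro i
      rw [pderiv_map, eval_map, aeval_def]
    simp_rw [h2] at h1
    have h3 := congrArg TrivSqZeroExt.snd h1
    rw [TrivSqZeroExt.snd_add, TrivSqZeroExt.snd_inl, TrivSqZeroExt.snd_inr, zero_add] at h3
    rw [← h3]
    set F : MvPolynomial ((V r × V r) ⊕ Par r) ℚ →+* TrivSqZeroExt ℂ ℂ :=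
      (eval₂Hom (algebraMap ℂ (TrivSqZeroExt ℂ ℂ))
        (fun k => TrivSqZeroExt.inl (a k) + TrivSqZeroExt.inr (y k))).comp
        (MvPolynomial.map (algebraMap ℚ ℂ)) with hF
    have hFX : ∀ v, F (X v) = TrivSqZeroExt.inl (a v) + TrivSqZeroExt.inr (y v) := by
      intro v
      simp [hF]
    have h4 : eval₂Hom (algebraMap ℂ (TrivSqZeroExt ℂ ℂ))
        (fun k => TrivSqZeroExt.inl (a k) + TrivSqZeroExt.inr (y k))
        (MvPolynomial.map (algebraMap ℚ ℂ) (Φ s)) = F (Φ s) := rfl
    rw [h4, hmapΦ F s]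
    have hm : (fun p a => F (mX p a)) = fun (p : J r) (a : I r) =>
        (TrivSqZeroExt.inr (m' p a) : TrivSqZeroExt ℂ ℂ) := by
      funext p b
      simp only [mX, hFX, a, y, Sum.elim_inr, Sum.elim_inl, TrivSqZeroExt.inl_zero, zero_add]
    have hu : (fun s => F (uX s)) = fun s : Sym (V r) 3 =>
        (TrivSqZeroExt.inr (u' s) : TrivSqZeroExt ℂ ℂ) := by
      funext s
      simp only [uX, hFX, a, y, Sum.elim_inr, Sum.elim_inl, TrivSqZeroExt.inl_zero, zero_add]
    have hGf : ∀ i, (fun b => (F (GX i b)).fst) = Pi.single i 1 := by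
      intro i
      funext b
      simp only [GX, hFX, a, y, Sum.elim_inl, TrivSqZeroExt.fst_add, TrivSqZeroExt.fst_inl,
        TrivSqZeroExt.fst_inr, add_zero]
      by_cases hib : i = b
      · subst hib; simp
      · rw [if_neg hib, Pi.single_eq_of_ne (fun h => hib h.symm)]
    have hGs : ∀ i, (fun b => (F (GX i b)).snd) = X' i := by
      intro i
      funext b
      simp only [GX, hFX, a, y, Sum.elim_inl, TrivSqZeroExt.snd_add, TrivSqZeroExt.snd_inl,
        TrivSqZeroExt.snd_inr, zero_add]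
    rw [hm, hu, GNT_snd_tri]
    simp only [GNT_snd_cpar, GNT_fst_cpar, hGf, hGs]
    rw [tri_single]
    have h5 := hX (q s).1 (q s).2.1 (q s).2.2
    rw [← hq s] at h5
    rw [← h5]
    have h6 : (fun i j k => csp ℂ r i j k) = csp ℂ r := rfl
    rw [h6]
    ring
  obtain ⟨y, hy, hyt⟩ := exists_generic_preimage Φ a hs t ht
  refine ⟨Matrix.of fun i b => y (Sum.inl (i, b)), fun p a => y (Sum.inr (Sum.inl (p, a))),
    fun s => y (Sum.inr (Sum.inr (Sum.inl s))), fun i => y (Sum.inr (Sum.inr (Sum.inr i))), ?_, ?_, ?_⟩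
  · intro hdet
    have h1 : AlgebraicIndependent ℚ (fun p : V r × V r => y (Sum.inl p)) :=
      hy.comp Sum.inl Sum.inl_injective
    have h2 := Matrix.det_mvPolynomialX_ne_zero (V r) ℚ
    apply h2
    apply h1
    rw [map_zero]
    rw [← hdet, AlgHom.map_det, AlgHom.mapMatrix_apply]
    congr 1
    ext i b
    simp [Matrix.mvPolynomialX]
  · have h1 : AlgebraicIndependent ℚ (fun p : Par r => y (Sum.inr p)) :=
      hy.comp Sum.inr Sum.inr_injective
    convert h1 using 1
    funext p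
    rcases p with p | p | p <;> rfl
  · intro i j k
    set m : J r → I r → ℂ := fun p a => y (Sum.inr (Sum.inl (p, a))) with hm
    set u : Sym (V r) 3 → ℂ := fun s => y (Sum.inr (Sum.inr (Sum.inl s))) with hu
    set G : Matrix (V r) (V r) ℂ := Matrix.of fun i b => y (Sum.inl (i, b)) with hG
    have hsym : SymC (cpar m u) := (adapted_cpar m u).sym
    have hsym' : SymC (fun i j k => tri (cpar m u) (G i) (G j) (G k)) :=
      ⟨fun i j k => hsym.swap12 _ _ _, fun i j k => hsym.swap23 _ _ _⟩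
    obtain ⟨u'', hu''⟩ := hsym'.exists_fun
    have h1 : ∀ s, t s = tri (cpar m u) (G (q s).1) (G (q s).2.1) (G (q s).2.2) := by
      intro s
      rw [← hyt s]
      have h2 := hmapΦ (aeval y : MvPolynomial ((V r × V r) ⊕ Par r) ℚ →ₐ[ℚ] ℂ).toRingHom s
      have h3 : (aeval y : MvPolynomial ((V r × V r) ⊕ Par r) ℚ →ₐ[ℚ] ℂ).toRingHom (Φ s) =
        aeval y (Φ s) := rfl
      rw [← h3, h2]
      have e1 : (fun p a => (aeval y : MvPolynomial ((V r × V r) ⊕ Par r) ℚ →ₐ[ℚ] ℂ).toRingHom (mX p a)) = m := by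
        funext p b
        exact aeval_X y _
      have e2 : (fun s => (aeval y : MvPolynomial ((V r × V r) ⊕ Par r) ℚ →ₐ[ℚ] ℂ).toRingHom (uX s)) = u := by
        funext s
        exact aeval_X y _
      have e3 : ∀ i, (fun b => (aeval y : MvPolynomial ((V r × V r) ⊕ Par r) ℚ →ₐ[ℚ] ℂ).toRingHom (GX i b)) = G i := by
        intro i
        funext b
        exact aeval_X y _
      rw [e1, e2, e3, e3, e3]
    have h4 : tri (cpar m u) (G (q (sy i j k)).1) (G (q (sy i j k)).2.1) (G (q (sy i j k)).2.2) =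
        u'' (sy (q (sy i j k)).1 (q (sy i j k)).2.1 (q (sy i j k)).2.2) := hu'' _ _ _
    rw [h1 (sy i j k), h4, ← hq (sy i j k)]
    exact (hu'' i j k).symm

end Pool.Agent.MP_1209e6_fr
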