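import Pool.Agent.Lib_MP_1209e6_fr.Emb

/-!
PIECE [HAH] (MP_1209e6_ag).  Coboundaries for `X^γ ↦ X^(-2γ)` in the field of rational functions.
-/

namespace Pool.Agent.MP_1209e6_fr

variable {n : ℕ}

/-- Hahn series with exponents in `Z^n` with the lexicographic order. -/
abbrev HAH_H (n : ℕ) : Type := HahnSeries (Lex (Fin n → ℤ)) ℂ

/-- The inclusion of the Laurent polynomials. -/
noncomputable def HAH_i (n : ℕ) : LP n →ₐ[ℂ] HAH_H n :=
  AddMonoidAlgebra.lift ℂ (HAH_H n) (Fin n → ℤ)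
    { toFun := fun γ => HahnSeries.single (toLex γ.toAdd) 1
      map_one' := rfl
      map_mul' := fun a b => by
        rw [HahnSeries.single_mul_single, mul_one]
        rfl }

theorem HAH_i_single (m : Fin n → ℤ) (r : ℂ) :
    HAH_i n (AddMonoidAlgebra.single m r) = HahnSeries.single (toLex m) r := by
  have h1 : HAH_i n (AddMonoidAlgebra.single m r) = r • HahnSeries.single (toLex m) (1 : ℂ) :=
    AddMonoidAlgebra.lift_single _ m r
  rw [h1]
  ext a
  rw [HahnSeries.coeff_smul]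
  by_cases ha : a = toLex m
  · rw [ha, HahnSeries.coeff_single_same, HahnSeries.coeff_single_same, smul_eq_mul, mul_one]
  · rw [HahnSeries.coeff_single_of_ne ha, HahnSeries.coeff_single_of_ne ha, smul_zero]

theorem HAH_i_coeff (P : LP n) (γ : Fin n → ℤ) : (HAH_i n P).coeff (toLex γ) = P.coeff γ := by
  induction P using AddMonoidAlgebra.induction_linear with
  | zero => simp
  | add x y hx hy => rw [map_add, HahnSeries.coeff_add, hx, hy]; rfl
  | single m r =>
    rw [HAH_i_single, AddMonoidAlgebra.coeff_single]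
    by_cases hm : m = γ
    · subst hm
      simp
    · rw [Finsupp.single_eq_of_ne' hm, HahnSeries.coeff_single_of_ne]
      intro h
      exact hm (toLex.injective h).symm

theorem HAH_i_injective : Function.Injective (HAH_i n) := by
  intro P Q h
  refine AddMonoidAlgebra.ext ?_
  ext γ
  rw [← HAH_i_coeff, ← HAH_i_coeff, h]

/-- Multiplication of the exponents by `4`. -/
noncomputable def HAH_t (n : ℕ) : HAH_H n →+* HAH_H n :=
  HahnSeries.embDomainRingHom (nsmulAddMonoidHom 4 : Lex (Fin n → ℤ) →+ Lex (Fin n → ℤ))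
    (nsmul_right_injective (by norm_num : (4 : ℕ) ≠ 0))
    (fun _ _ => nsmul_le_nsmul_iff_right (by norm_num : (4 : ℕ) ≠ 0))

theorem HAH_t_coeff (x : HAH_H n) (a : Lex (Fin n → ℤ)) :
    (HAH_t n x).coeff ((4 : ℕ) • a) = x.coeff a := HahnSeries.embDomain_coeff

theorem HAH_t_coeff_of (x : HAH_H n) (a : Lex (Fin n → ℤ)) (ha : ∀ b, a ≠ (4 : ℕ) • b) :
    (HAH_t n x).coeff a = 0 := by
  refine HahnSeries.embDomain_of_notMem_range ?_
  rintro ⟨b, hb⟩
  exact ha b hb.symm

theorem HAH_t_i (P : LP n) : HAH_t n (HAH_i n P) = HAH_i n (dil 4 P) := by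
  induction P using AddMonoidAlgebra.induction_linear with
  | zero => simp
  | add x y hx hy => rw [map_add, map_add, map_add, map_add, hx, hy]
  | single m r =>
    rw [dil_single, HAH_i_single, HAH_i_single]
    have h1 : HAH_t n (HahnSeries.single (toLex m) r) =
        HahnSeries.single ((4 : ℕ) • toLex m) r := HahnSeries.embDomain_single
    rw [h1]
    congr 1

theorem HAH_dil_coeff {s : ℤ} (hs : s ≠ 0) (P : LP n) (γ : Fin n → ℤ) :
    (dil s P).coeff (s • γ) = P.coeff γ := by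
  induction P using AddMonoidAlgebra.induction_linear with
  | zero => simp
  | add x y hx hy => rw [map_add, AddMonoidAlgebra.coeff_add, Finsupp.add_apply, hx, hy]; rfl
  | single m r =>
    rw [dil_single, AddMonoidAlgebra.coeff_single, AddMonoidAlgebra.coeff_single]
    by_cases hm : m = γ
    · subst hm
      simp
    · rw [Finsupp.single_eq_of_ne' hm, Finsupp.single_eq_of_ne']
      intro h
      exact hm (smul_right_injective _ hs h)

theorem HAH_dil_coeff_of {s : ℤ} (P : LP n) (γ : Fin n → ℤ) (hγ : ∀ δ, γ ≠ s • δ) :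
    (dil s P).coeff γ = 0 := by
  induction P using AddMonoidAlgebra.induction_linear with
  | zero => simp
  | add x y hx hy => rw [map_add, AddMonoidAlgebra.coeff_add, Finsupp.add_apply, hx, hy, add_zero]
  | single m r =>
    rw [dil_single, AddMonoidAlgebra.coeff_single, Finsupp.single_eq_of_ne']
    exact fun h => hγ m h.symm

theorem HAH_pow_lt {g : Fin n → ℤ} (hg : toLex g < 0) (k : ℕ) :
    toLex ((4 : ℤ) ^ k • g) < 0 ∧ toLex ((4 : ℤ) ^ (k + 1) • g) < toLex ((4 : ℤ) ^ k • g) := by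
  have h1 : ∀ k : ℕ, toLex ((4 : ℤ) ^ (k + 1) • g) = (4 : ℕ) • toLex ((4 : ℤ) ^ k • g) := by
    intro k
    rw [pow_succ', mul_smul]
    rfl
  have h2 : ∀ k : ℕ, toLex ((4 : ℤ) ^ k • g) < 0 := by
    intro k
    induction k with
    | zero => simpa using hg
    | succ k ih =>
      rw [h1]
      exact nsmul_neg ih (by norm_num)
  refine ⟨h2 k, ?_⟩
  rw [h1]
  have h3 := nsmul_neg (h2 k) (show (3 : ℕ) ≠ 0 by norm_num)
  calc (4 : ℕ) • toLex ((4 : ℤ) ^ k • g)
      = (3 : ℕ) • toLex ((4 : ℤ) ^ k • g) + toLex ((4 : ℤ) ^ k • g) := succ_nsmul _ 3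
    _ < 0 + toLex ((4 : ℤ) ^ k • g) := add_lt_add_left h3 _
    _ = toLex ((4 : ℤ) ^ k • g) := zero_add _

/-- The main step: sums over the powers of `4`. -/
theorem HAH_four {β : HAH_H n} {ρ : LP n} (h : HAH_t n β - β = HAH_i n ρ) {g : Fin n → ℤ}
    (hg : toLex g < 0) (h4 : ∀ ε : Fin n → ℤ, g ≠ (4 : ℤ) • ε) :
    ∃ N0, ∀ N ≥ N0, ∑ k ∈ Finset.range N, ρ.coeff ((4 : ℤ) ^ k • g) = 0 := by
  have hc : ∀ δ : Fin n → ℤ,
      (HAH_t n β).coeff (toLex δ) - β.coeff (toLex δ) = ρ.coeff δ := by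
    intro δ
    rw [← HAH_i_coeff, ← h, HahnSeries.coeff_sub]
  have hpart : ∀ N, ∑ k ∈ Finset.range (N + 1), ρ.coeff ((4 : ℤ) ^ k • g) =
      - β.coeff (toLex ((4 : ℤ) ^ N • g)) := by
    intro N
    induction N with
    | zero =>
      rw [Finset.sum_range_one, ← hc, HAH_t_coeff_of, zero_sub]
      intro b hb
      rw [pow_zero, one_smul] at hb
      refine h4 (ofLex b) ?_
      have h5 := congrArg ofLex hb
      rw [ofLex_toLex] at h5
      rw [h5]
      rfl
    | succ N ih =>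
      rw [Finset.sum_range_succ, ih, ← hc]
      have h1 : toLex ((4 : ℤ) ^ (N + 1) • g) = (4 : ℕ) • toLex ((4 : ℤ) ^ N • g) := by
        rw [pow_succ', mul_smul]
        rfl
      have h2 : (HAH_t n β).coeff (toLex ((4 : ℤ) ^ (N + 1) • g)) =
          β.coeff (toLex ((4 : ℤ) ^ N • g)) := by
        rw [h1]
        exact HAH_t_coeff β _
      rw [h2]
      ring
  have hanti : StrictAnti fun k : ℕ => toLex ((4 : ℤ) ^ k • g) :=
    strictAnti_nat_of_succ_lt fun k => (HAH_pow_lt hg k).2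
  have hfin : ∃ N0, ∀ k ≥ N0, ρ.coeff ((4 : ℤ) ^ k • g) = 0 := by
    have hinj : Function.Injective fun k : ℕ => (4 : ℤ) ^ k • g := by
      intro a b hab
      exact hanti.injective (congrArg toLex hab)
    have hf : {k : ℕ | ρ.coeff ((4 : ℤ) ^ k • g) ≠ 0}.Finite := by
      refine Set.Finite.subset (Set.Finite.preimage hinj.injOn
        (ρ.coeff.support : Set (Fin n → ℤ)).toFinite) ?_
      intro k hk
      simpa using hk
    obtain ⟨M, hM⟩ := hf.bddAbove
    refine ⟨M + 1, fun k hk => ?_⟩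
    by_contra hne
    have := hM hne
    omega
  obtain ⟨N0, hN0⟩ := hfin
  have hzero : ∃ N1 ≥ N0, β.coeff (toLex ((4 : ℤ) ^ N1 • g)) = 0 := by
    by_contra hcon
    push Not at hcon
    have hwf := Set.isWF_iff_no_descending_seq.1 β.isPWO_support.isWF
      (fun k : ℕ => toLex ((4 : ℤ) ^ (N0 + k) • g))
      (hanti.comp_strictMono fun a b hab => by omega)
    exact hwf fun k => hcon (N0 + k) (by omega)
  obtain ⟨N1, hN1, hz⟩ := hzero
  refine ⟨N1 + 1, fun N hN => ?_⟩
  have h1 := hpart N1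
  rw [hz, neg_zero] at h1
  rw [← h1]
  obtain ⟨m, rfl⟩ : ∃ m, N = N1 + 1 + m := ⟨N - (N1 + 1), by omega⟩
  rw [Finset.sum_range_add, add_eq_left]
  exact Finset.sum_eq_zero fun k _ => hN0 _ (by omega)

theorem HAH_base {γ : Fin n → ℤ} (hγ : γ ≠ 0) :
    ∃ (K : ℕ) (g : Fin n → ℤ), γ = (-2 : ℤ) ^ K • g ∧ ∀ ε : Fin n → ℤ, g ≠ (-2 : ℤ) • ε := by
  obtain ⟨i, hi⟩ := Function.ne_iff.1 hγ
  have key : ∀ (m : ℕ) (γ : Fin n → ℤ), γ i ≠ 0 → (γ i).natAbs ≤ m →
      ∃ (K : ℕ) (g : Fin n → ℤ), γ = (-2 : ℤ) ^ K • g ∧ ∀ ε : Fin n → ℤ, g ≠ (-2 : ℤ) • ε := by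
    intro m
    induction m with
    | zero =>
      intro γ h0 h1
      exact absurd (Int.natAbs_eq_zero.1 (Nat.le_zero.1 h1)) h0
    | succ m ih =>
      intro γ h0 h1
      by_cases hex : ∃ ε : Fin n → ℤ, γ = (-2 : ℤ) • ε
      · obtain ⟨ε, hε⟩ := hex
        have h2 : γ i = -2 * ε i := by rw [hε]; rfl
        have h3 : ε i ≠ 0 := by
          intro h4
          rw [h4] at h2
          exact h0 (by rw [h2]; norm_num)
        have h4 : (ε i).natAbs ≤ m := by
          have : (γ i).natAbs = 2 * (ε i).natAbs := by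
            rw [h2, Int.natAbs_mul]
            rfl
          have h5 : 0 < (ε i).natAbs := Int.natAbs_pos.2 h3
          omega
        obtain ⟨K, g, h5, h6⟩ := ih ε h3 h4
        refine ⟨K + 1, g, ?_, h6⟩
        rw [hε, h5, pow_succ', mul_smul]
      · push Not at hex
        exact ⟨0, γ, by rw [pow_zero, one_smul], hex⟩
  exact key _ γ hi le_rfl

theorem HAH_inj {g : Fin n → ℤ} (hg : g ≠ 0) : Function.Injective fun j : ℕ => (-2 : ℤ) ^ j • g := by
  intro a b hab
  have h1 : ((-2 : ℤ) ^ a - (-2 : ℤ) ^ b) • g = 0 := by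
    rw [sub_smul]
    exact sub_eq_zero.2 hab
  rcases smul_eq_zero.1 h1 with h2 | h2
  · have h3 : (-2 : ℤ) ^ a = (-2 : ℤ) ^ b := sub_eq_zero.1 h2
    have h4 := congrArg Int.natAbs h3
    rw [Int.natAbs_pow, Int.natAbs_pow] at h4
    exact Nat.pow_right_injective le_rfl h4
  · exact absurd h2 hg

theorem HAH_rel {γ g : Fin n → ℤ} {K : ℕ} (hγ : γ = (-2 : ℤ) ^ K • g)
    (hg : ∀ ε : Fin n → ℤ, g ≠ (-2 : ℤ) • ε) (δ : Fin n → ℤ) :
    Rel γ δ ↔ ∃ j : ℕ, δ = (-2 : ℤ) ^ j • g := by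
  constructor
  · rintro ⟨k, hk | hk⟩
    · exact ⟨k + K, by rw [hk, hγ, ← mul_smul, ← pow_add]⟩
    · rw [hγ] at hk
      rcases le_or_gt k K with hkK | hkK
      · refine ⟨K - k, ?_⟩
        have h1 : (-2 : ℤ) ^ k • δ = (-2 : ℤ) ^ k • ((-2 : ℤ) ^ (K - k) • g) := by
          rw [← hk, ← mul_smul, ← pow_add]
          congr 2
          omega
        exact smul_right_injective _ (pow_ne_zero k (by norm_num : (-2 : ℤ) ≠ 0)) h1
      · exfalso
        have h1 : (-2 : ℤ) ^ K • g = (-2 : ℤ) ^ K • ((-2 : ℤ) • ((-2 : ℤ) ^ (k - K - 1) • δ)) := by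
          rw [hk, ← mul_smul, ← mul_smul]
          congr 1
          rw [mul_assoc, ← pow_succ', ← pow_add]
          congr 1
          omega
        exact hg _ (smul_right_injective _ (pow_ne_zero K (by norm_num : (-2 : ℤ) ≠ 0)) h1)
  · rintro ⟨j, hj⟩
    rcases le_or_gt K j with hK | hK
    · refine ⟨j - K, Or.inl ?_⟩
      rw [hj, hγ, ← mul_smul, ← pow_add]
      congr 2
      omega
    · refine ⟨K - j, Or.inr ?_⟩
      rw [hj, hγ, ← mul_smul, ← pow_add]
      congr 2
      omega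

theorem HAH_chi {γ g : Fin n → ℤ} {K : ℕ} (hγ : γ = (-2 : ℤ) ^ K • g)
    (hg : ∀ ε : Fin n → ℤ, g ≠ (-2 : ℤ) • ε) (R : LP n) :
    ∃ M0, ∀ M ≥ M0, chi γ R = ∑ j ∈ Finset.range M, R.coeff ((-2 : ℤ) ^ j • g) := by
  classical
  have hg0 : g ≠ 0 := fun h => hg 0 (by rw [h, smul_zero])
  induction R using AddMonoidAlgebra.induction_linear with
  | zero =>
    refine ⟨0, fun M _ => ?_⟩
    have h0 : chi γ (0 : LP n) = 0 := by
      have := chi_smul γ (0 : ℂ) (0 : LP n)
      rw [zero_smul, zero_mul] at this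
      exact this
    rw [h0]
    simp
  | add x y hx hy =>
    obtain ⟨M1, h1⟩ := hx
    obtain ⟨M2, h2⟩ := hy
    refine ⟨max M1 M2, fun M hM => ?_⟩
    rw [chi_add, h1 M (le_of_max_le_left hM), h2 M (le_of_max_le_right hM),
      ← Finset.sum_add_distrib]
    rfl
  | single δ a =>
    rw [chi_single]
    by_cases hrel : Rel γ δ
    · obtain ⟨j0, hj0⟩ := (HAH_rel hγ hg δ).1 hrel
      refine ⟨j0 + 1, fun M hM => ?_⟩
      rw [if_pos hrel, Finset.sum_eq_single j0]
      · rw [AddMonoidAlgebra.coeff_single, hj0, Finsupp.single_eq_same]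
      · intro j _ hj
        rw [AddMonoidAlgebra.coeff_single, Finsupp.single_eq_of_ne']
        intro h
        rw [hj0] at h
        exact hj (HAH_inj hg0 h).symm
      · intro h
        exact absurd (Finset.mem_range.2 (by omega)) h
    · refine ⟨0, fun M _ => ?_⟩
      rw [if_neg hrel, Finset.sum_eq_zero]
      intro j _
      rw [AddMonoidAlgebra.coeff_single, Finsupp.single_eq_of_ne']
      intro h
      exact hrel ((HAH_rel hγ hg δ).2 ⟨j, h⟩)

/-- PIECE [HAH].  If `R` is the coboundary of the rational function `P / Q` then all its class sums vanish.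

Proof.  Write `s = dil (-2)`.  From `h`, applied `s` to it, one gets for the square `dil 4 = s s` and `ρ = R + s R`:
`dil 4 P * Q - P * dil 4 Q = ρ * Q * dil 4 Q` (in the fraction field: `sP/sQ = P/Q + R`, `ssP/ssQ = sP/sQ + sR`; cancel `s Q ≠ 0`, or multiply out).
Let `H = HahnSeries (Lex (Fin n → ℤ)) ℂ` (a field), `ι : LP n →+* H` the inclusion (finite support; injective) and `β = ι P / ι Q`; let
`τ : H →+* H` be the map `γ ↦ 4 γ` on exponents (`HahnSeries.embDomainRingHom`), so `τ (ι P) = ι (dil 4 P)` and `τ β - β = ι ρ`.  On coefficients: with `β_δ = 0` for `δ` not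
integral, `β_(δ/4) - β_δ = ρ_δ` for all `δ` (`β_(δ/4) = 0` if `4` does not divide `δ`).
Let `γ < 0` in the lexicographic order.  Let `γ = 4^K γ0`, `4` does not divide `γ0` (exists since `γ ≠ 0`).  Summing over `δ = 4^k γ0`, `k = 0..N`:
`- β_(4^N γ0) = ∑_{k ≤ N} ρ_(4^k γ0)`.  The right hand side is constant for large `N` (finite support), and `β_(4^N γ0) = 0` for infinitely many `N`
because `4^N γ0` is strictly decreasing and the support of `β` is well-founded.  So the full sum is `0`.  Finally the sum of `ρ = R + s R` over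
`{4^k γ0}` is `chi γ0 R = chi γ R`: `(s R)` at `4^k γ0` is `R` at `4^k γ0 / (-2)` (`0` if not integral) and the elements `4^k γ0`, `4^k γ0 / (-2)` (`k ≥ 0`) which are integral
are exactly the elements of the class of `γ` (each once).
If `γ > 0` apply the case `-γ` to `dil (-1) P`, `dil (-1) Q`, `dil (-1) R`. -/
theorem chi_eq_zero {P Q R : LP n} (hQ : Q ≠ 0)
    (h : dil (-2) P * Q - P * dil (-2) Q = R * Q * dil (-2) Q) {γ : Fin n → ℤ} (hγ : γ ≠ 0) : chi γ R = 0 := by
  obtain ⟨K, g, hK, hg⟩ := HAH_base hγ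
  have hg0 : g ≠ 0 := fun h => hg 0 (by rw [h, smul_zero])
  have hinj0 : ∀ {s : ℤ}, s ≠ 0 → dil s Q ≠ 0 := by
    intro s hs h0
    exact hQ (dil_injective hs (by rw [h0, map_zero]))
  have hi : ∀ {x : LP n}, x ≠ 0 → HAH_i n x ≠ 0 := by
    intro x hx h0
    exact hx (HAH_i_injective (by rw [h0, map_zero]))
  have hss : ∀ x : LP n, dil (-2) (dil (-2) x) = dil 4 x := by
    intro x
    rw [dil_dil]
    norm_num
  have h2 : dil 4 P * dil (-2) Q - dil (-2) P * dil 4 Q = dil (-2) R * dil (-2) Q * dil 4 Q := by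
    have := congrArg (dil (-2)) h
    simpa only [map_sub, map_mul, hss] using this
  have hq := hi hQ
  have hq1 := hi (hinj0 (s := -2) (by norm_num))
  have hq2 := hi (hinj0 (s := 4) (by norm_num))
  have e1 := congrArg (HAH_i n) h
  have e2 := congrArg (HAH_i n) h2
  simp only [map_sub, map_mul] at e1 e2
  have hβ : HAH_t n (HAH_i n P / HAH_i n Q) - HAH_i n P / HAH_i n Q =
      HAH_i n (R + dil (-2) R) := by
    rw [map_div₀, HAH_t_i, HAH_t_i, map_add]
    have f1 : HAH_i n (dil (-2) P) / HAH_i n (dil (-2) Q) - HAH_i n P / HAH_i n Q =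
        HAH_i n R := by
      rw [div_sub_div _ _ hq1 hq, div_eq_iff (mul_ne_zero hq1 hq)]
      linear_combination e1
    have f2 : HAH_i n (dil 4 P) / HAH_i n (dil 4 Q) -
        HAH_i n (dil (-2) P) / HAH_i n (dil (-2) Q) = HAH_i n (dil (-2) R) := by
      rw [div_sub_div _ _ hq2 hq1, div_eq_iff (mul_ne_zero hq2 hq1)]
      linear_combination e2
    rw [← f1, ← f2]
    ring
  obtain ⟨M0, hM0⟩ := HAH_chi hK hg R
  have hρ : ∀ j : ℕ, (R + dil (-2) R).coeff ((-2 : ℤ) ^ (j + 1) • g) =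
      R.coeff ((-2 : ℤ) ^ (j + 1) • g) + R.coeff ((-2 : ℤ) ^ j • g) := by
    intro j
    rw [AddMonoidAlgebra.coeff_add, Finsupp.add_apply]
    congr 1
    rw [pow_succ', mul_smul]
    exact HAH_dil_coeff (by norm_num) R _
  have hpow : ∀ k : ℕ, (4 : ℤ) ^ k = (-2 : ℤ) ^ (2 * k) := by
    intro k
    rw [pow_mul]
    norm_num
  rcases lt_trichotomy (toLex g) 0 with hlt | heq | hgt
  · have h4 : ∀ ε : Fin n → ℤ, g ≠ (4 : ℤ) • ε := by
      intro ε hε
      refine hg ((-2 : ℤ) • ε) ?_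
      rw [hε, ← mul_smul]
      norm_num
    obtain ⟨N0, hN0⟩ := HAH_four hβ hlt h4
    have hS : ∀ N, ∑ k ∈ Finset.range (N + 1), (R + dil (-2) R).coeff ((4 : ℤ) ^ k • g) =
        ∑ j ∈ Finset.range (2 * N + 1), R.coeff ((-2 : ℤ) ^ j • g) := by
      intro N
      induction N with
      | zero =>
        rw [Finset.sum_range_one, Finset.sum_range_one, AddMonoidAlgebra.coeff_add,
          Finsupp.add_apply, pow_zero, pow_zero, one_smul, HAH_dil_coeff_of R g hg, add_zero]
      | succ N ih =>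
        rw [Finset.sum_range_succ, ih, hpow]
        have h5 : 2 * (N + 1) + 1 = 2 * N + 1 + 1 + 1 := by ring
        have h6 : 2 * (N + 1) = 2 * N + 1 + 1 := by ring
        rw [h5, h6, Finset.sum_range_succ _ (2 * N + 1 + 1), Finset.sum_range_succ _ (2 * N + 1),
          hρ]
        ring
    rw [hM0 (2 * (max M0 N0) + 1) (by omega), ← hS]
    exact hN0 _ (by omega)
  · exact absurd (toLex.injective heq) hg0
  · have hlt : toLex ((-2 : ℤ) • g) < 0 := by
      have h5 : toLex ((-2 : ℤ) • g) = -((2 : ℕ) • toLex g) := by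
        rw [neg_smul]
        rfl
      rw [h5, neg_lt_zero]
      exact nsmul_pos hgt (by norm_num)
    have h4 : ∀ ε : Fin n → ℤ, (-2 : ℤ) • g ≠ (4 : ℤ) • ε := by
      intro ε hε
      refine hg ε ?_
      have h5 : (-2 : ℤ) • g = (-2 : ℤ) • ((-2 : ℤ) • ε) := by
        rw [hε, ← mul_smul]
        norm_num
      exact smul_right_injective _ (by norm_num : (-2 : ℤ) ≠ 0) h5
    obtain ⟨N0, hN0⟩ := HAH_four hβ hlt h4
    have hS : ∀ N, ∑ k ∈ Finset.range N, (R + dil (-2) R).coeff ((4 : ℤ) ^ k • ((-2 : ℤ) • g)) =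
        ∑ j ∈ Finset.range (2 * N), R.coeff ((-2 : ℤ) ^ j • g) := by
      intro N
      induction N with
      | zero => simp
      | succ N ih =>
        rw [Finset.sum_range_succ, ih, hpow]
        have h5 : 2 * (N + 1) = 2 * N + 1 + 1 := by ring
        rw [h5, Finset.sum_range_succ _ (2 * N + 1), Finset.sum_range_succ _ (2 * N),
          ← mul_smul, ← pow_succ, hρ]
        ring
    rw [hM0 (2 * (max M0 N0)) (by omega), ← hS]
    exact hN0 _ (by omega)

end Pool.Agent.MP_1209e6_fr
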