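import Pool.Agent.Lib_MP_1209e6_fr.Defs

/-!
PIECE [SAT] (MP_1209e6_ag).  The holomorphic map to the Grassmannian given by an entire family of frames which is generically independent.
-/

open Filter Topology

namespace Pool.Agent.MP_1209e6_fr

variable {ι : Type} [Fintype ι] {k : ℕ}

theorem span_le_of_punctured {A A' : ℂ → Fin k → ι → ℂ} {z₀ : ℂ} (hA : ContinuousAt A z₀) (hA' : ContinuousAt A' z₀)
    (hi : LinearIndependent ℂ (A z₀))
    (h : ∀ᶠ z in 𝓝[≠] z₀, Submodule.span ℂ (Set.range (A z)) = Submodule.span ℂ (Set.range (A' z))) :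
    Submodule.span ℂ (Set.range (A' z₀)) ≤ Submodule.span ℂ (Set.range (A z₀)) := by
  rw [Submodule.span_le]
  rintro _ ⟨i, rfl⟩
  by_contra hn
  have h1 : LinearIndependent ℂ (Fin.cons (A' z₀ i) (A z₀) : Fin (k + 1) → ι → ℂ) :=
    linearIndependent_finCons.2 ⟨hi, hn⟩
  have hc : ContinuousAt (fun z => (Fin.cons (A' z i) (A z) : Fin (k + 1) → ι → ℂ)) z₀ := by
    rw [continuousAt_pi]
    intro j
    refine Fin.cases ?_ (fun j => ?_) j
    · simpa using (continuousAt_pi.1 hA') i
    · simpa using (continuousAt_pi.1 hA) j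
  have h2 : ∀ᶠ z in 𝓝 z₀, LinearIndependent ℂ (Fin.cons (A' z i) (A z) : Fin (k + 1) → ι → ℂ) :=
    hc.eventually (isOpen_setOfPred_linearIndependent.mem_nhds h1)
  obtain ⟨z, hz1, hz2⟩ := (h.and (h2.filter_mono nhdsWithin_le_nhds)).exists
  have h3 := (linearIndependent_finCons.1 hz2).2
  apply h3
  rw [hz1]
  exact Submodule.subset_span ⟨i, rfl⟩

/-- PIECE [SAT].  Two analytic families of independent frames which span the same space for `z ≠ z₀` span the same space at `z₀`.

Proof.  For each `i` the vectors `A z 1, ..., A z k, A' z i` are linearly dependent for `z ≠ z₀`, i.e. all their `(k+1) × (k+1)` minors vanish; by continuity also at `z₀`; as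
`A z₀` is independent, `A' z₀ i` is in its span.  Symmetric. -/
theorem span_eq_of_punctured {A A' : ℂ → Fin k → ι → ℂ} {z₀ : ℂ} (hA : ContinuousAt A z₀) (hA' : ContinuousAt A' z₀)
    (hi : LinearIndependent ℂ (A z₀)) (hi' : LinearIndependent ℂ (A' z₀))
    (h : ∀ᶠ z in 𝓝[≠] z₀, Submodule.span ℂ (Set.range (A z)) = Submodule.span ℂ (Set.range (A' z))) :
    Submodule.span ℂ (Set.range (A z₀)) = Submodule.span ℂ (Set.range (A' z₀)) :=
  le_antisymm (span_le_of_punctured hA' hA hi' (h.mono fun _ hz => hz.symm))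
    (span_le_of_punctured hA hA' hi h)

end Pool.Agent.MP_1209e6_fr
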