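import Pool.Agent.Lib_MP_1209e6_fr.SatA
import Pool.Agent.Lib_MP_1209e6_fr.SatB

/-!
PIECE [SAT] (MP_1209e6_ag).  The holomorphic map to the Grassmannian given by an entire family of frames which is generically independent.
-/

open Filter Topology

namespace Pool.Agent.MP_1209e6_fr

variable {ι : Type} [Fintype ι] {k : ℕ}

/-- PIECE [SAT].  Proof.  Choose the local frames `A_(z₀)` of `exists_local_frame` for all `z₀` and put `U z = span (A_z z)`.  For `z ≠ z₀` near `z₀`: `A_(z₀)` is analytic and independent near `z`, and spans the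
same space as `φ`, hence as `A_z`, in a punctured neighbourhood of `z`; by `span_eq_of_punctured` `U z = span (A_(z₀) z)`.  The second claim: same argument.  The last one: `A_0` and
`φ` are both independent near `0` (`span_eq_of_punctured` at `0`, and the punctured equality). -/
theorem exists_saturation (φ : ℂ → Fin k → ι → ℂ) (hφ : Differentiable ℂ φ) (h0 : LinearIndependent ℂ (φ 0)) :
    ∃ U : ℂ → Submodule ℂ (ι → ℂ), IsEntire k U ∧
      (∀ z₀, ∀ᶠ z in 𝓝[≠] z₀, U z = Submodule.span ℂ (Set.range (φ z))) ∧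
      ∀ᶠ z in 𝓝 (0 : ℂ), IsFrame (U z) (φ z) := by
  choose A hAn hAi hAs using exists_local_frame φ hφ h0
  have key : ∀ z₀ : ℂ, ∀ᶠ z in 𝓝 z₀, Submodule.span ℂ (Set.range (A z z)) = Submodule.span ℂ (Set.range (A z₀ z)) := by
    intro z₀
    have h1 : ∀ᶠ z in 𝓝[≠] z₀, ∀ᶠ w in 𝓝 z,
        Submodule.span ℂ (Set.range (A z₀ w)) = Submodule.span ℂ (Set.range (φ w)) := by
      have h2 := eventually_eventually_nhdsWithin.2 (hAs z₀)
      filter_upwards [h2, self_mem_nhdsWithin] with z hz hz'
      rwa [isOpen_compl_singleton.nhdsWithin_eq hz'] at hz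
    have h2 : ∀ᶠ z in 𝓝[≠] z₀, Submodule.span ℂ (Set.range (A z z)) = Submodule.span ℂ (Set.range (A z₀ z)) := by
      filter_upwards [h1, nhdsWithin_le_nhds (hAn z₀).eventually_analyticAt, nhdsWithin_le_nhds (hAi z₀)] with z hz hza hzi
      refine span_eq_of_punctured (hAn z).continuousAt hza.continuousAt (hAi z).self_of_nhds hzi ?_
      filter_upwards [hAs z, nhdsWithin_le_nhds hz] with w hw1 hw2
      rw [hw1, hw2]
    rw [eventually_nhdsWithin_iff] at h2
    filter_upwards [h2] with z hz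
    by_cases h : z = z₀
    · rw [h]
    · exact hz h
  have key2 : ∀ z₀, ∀ᶠ z in 𝓝[≠] z₀, Submodule.span ℂ (Set.range (A z z)) = Submodule.span ℂ (Set.range (φ z)) := by
    intro z₀
    filter_upwards [nhdsWithin_le_nhds (key z₀), hAs z₀] with z h1 h2
    rw [h1, h2]
  refine ⟨fun z => Submodule.span ℂ (Set.range (A z z)), fun z₀ => ⟨A z₀, hAn z₀, ?_⟩, key2, ?_⟩
  · filter_upwards [hAi z₀, key z₀] with z h1 h2
    exact ⟨h1, h2.symm⟩
  · have h1 : ∀ᶠ z in 𝓝 (0 : ℂ), LinearIndependent ℂ (φ z) :=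
      (hφ 0).continuousAt.eventually (isOpen_setOfPred_linearIndependent.mem_nhds h0)
    have h2 : Submodule.span ℂ (Set.range (A 0 0)) = Submodule.span ℂ (Set.range (φ 0)) :=
      span_eq_of_punctured (hAn 0).continuousAt (hφ 0).continuousAt (hAi 0).self_of_nhds h0 (hAs 0)
    have h3 := key2 0
    rw [eventually_nhdsWithin_iff] at h3
    filter_upwards [h1, h3] with z hz1 hz2
    refine ⟨hz1, ?_⟩
    by_cases h : z = 0
    · rw [h]
      exact h2.symm
    · exact (hz2 h).symm

end Pool.Agent.MP_1209e6_fr
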