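import Pool.Agent.Lib_MP_1209e6_fr.Cub
import Pool.Agent.Lib_MP_1209e6_fr.CInv
import Pool.Agent.Lib_MP_1209e6_ag.Der

/-!
PIECE [SMO] (MP_1209e6_ag).  Smoothness.
-/

namespace Pool.Agent.MP_1209e6_fr

variable {ι : Type} [Fintype ι] [DecidableEq ι]

private theorem smo_expand {κ : Type*} [Fintype κ] (c : ι → ι → ι → ℂ) (B C D : κ → ι → ℂ) (s : κ → ℂ) :
    tri c (∑ i, s i • B i) (∑ i, s i • C i) (∑ i, s i • D i) =
      ∑ i, ∑ j, ∑ l, tri c (B i) (C j) (D l) * (s i * s j * s l) := by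
  rw [tri_sum_left]
  refine Finset.sum_congr rfl fun i _ => ?_
  rw [tri_sum_mid]
  refine Finset.sum_congr rfl fun j _ => ?_
  rw [tri_sum_right]
  refine Finset.sum_congr rfl fun l _ => ?_
  rw [tri_smul_left, tri_smul_mid, tri_smul_right]
  ring

private theorem smo_cube (c : ι → ι → ι → ℂ) (x y : ι → ℂ) (ε : ℂ) :
    tri c (x + ε • y) (x + ε • y) (x + ε • y) = tri c x x x +
      ε * (tri c y x x + tri c x y x + tri c x x y) + ε ^ 2 * (tri c y y x + tri c y x y + tri c x y y) +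
      ε ^ 3 * tri c y y y := by
  simp only [tri_add_left, tri_add_mid, tri_add_right, tri_smul_left, tri_smul_mid, tri_smul_right]
  ring

private theorem smo_deriv (a b d e : ℂ) : deriv (fun ε : ℂ => a + ε * b + ε ^ 2 * d + ε ^ 3 * e) 0 = b := by
  have h : HasDerivAt (fun ε : ℂ => a + ε * b + ε ^ 2 * d + ε ^ 3 * e)
      (0 + 1 * b + ((2 : ℕ) * (0 : ℂ) ^ 1) * d + ((3 : ℕ) * (0 : ℂ) ^ 2) * e) 0 := by
    have h1 : HasDerivAt (fun ε : ℂ => a) 0 (0 : ℂ) := hasDerivAt_const _ _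
    have h2 : HasDerivAt (fun ε : ℂ => ε * b) (1 * b) 0 := (hasDerivAt_id (0 : ℂ)).mul_const b
    have h3 : HasDerivAt (fun ε : ℂ => ε ^ 2 * d) (((2 : ℕ) * (0 : ℂ) ^ 1) * d) 0 := (hasDerivAt_pow 2 (0 : ℂ)).mul_const d
    have h4 : HasDerivAt (fun ε : ℂ => ε ^ 3 * e) (((3 : ℕ) * (0 : ℂ) ^ 2) * e) 0 := (hasDerivAt_pow 3 (0 : ℂ)).mul_const e
    exact ((h1.add h2).add h3).add h4
  rw [h.deriv]
  simp

/-- PIECE [SMO].  `F_r(Y)` is smooth if the coefficients are algebraically independent.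

Proof.  Let `A` be a frame of `P ∈ Fano r t`, `T = T3 t`, so `T(A_i, A_j, A_l) = 0`.  For every `h : Sym ι 3 → ℂ` there is a derivation `D` of `ℂ` over `ℚ` with `D (nt t s) = h s` for
all `s` (`Pool.Agent.Campana.exists_derivation`, `algebraicIndependent_nt`).  Apply `D` to `T(A_i, A_j, A_l) = 0` (`derivation_tri`): with `B_i = - D A_i`
`T(B_i, A_j, A_l) + T(A_i, B_j, A_l) + T(A_i, A_j, B_l) = tri (h ∘ sy) (A_i) (A_j) (A_l)`.
Every symmetric family `g_(ijl)` (`g = nt g'` for the given `g'`) is of the form `tri (h ∘ sy) (A_i) (A_j) (A_l)`: `A` is linearly independent, so there are vectors `x_i^*` (linear forms on `ℂ^ι`, `x_i^*(A_j) = δ_ij`), and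
`h(a, b, d) = ∑ g_(ijl) x_i^*(a) x_j^*(b) x_l^*(d)` is symmetric (`SymC.exists_fun`).
Finally `deriv (fun ε => cubic t (∑ s_i (A_i + ε B_i))) 0 = 3 T(x, x, ∑ s_i B_i)` with `x = ∑ s_i A_i`, `= ∑ s_i s_j s_l (T(B_i, A_j, A_l) + T(A_i, B_j, A_l) + T(A_i, A_j, B_l))
= ∑ s_i s_j s_l nt g' (sy i j l) = cubic g' s` (`cubic_eq` for `g'`). -/
theorem smoothFano (r : ℕ) {t : Sym ι 3 → ℂ} (ht : AlgebraicIndependent ℚ t) : SmoothFano r t := by
  classical
  intro P hP A hA g
  have h0 : ∀ i j l, T3 t (A i) (A j) (A l) = 0 := (mem_Fano_iff hA t).1 hP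
  -- dual vectors
  obtain ⟨f, hf⟩ : ∃ f : (ι → ℂ) →ₗ[ℂ] (Fin (r + 1) → ℂ), ∀ j, f (A j) = Pi.single j 1 := by
    have hker : LinearMap.ker (Fintype.linearCombination ℂ A) = ⊥ :=
      LinearMap.ker_eq_bot.2 (linearIndependent_iff_injective_fintypeLinearCombination.1 hA.1)
    obtain ⟨f, hf⟩ := LinearMap.exists_leftInverse_of_injective _ hker
    refine ⟨f, fun j => ?_⟩
    have h1 : Fintype.linearCombination ℂ A (Pi.single j 1) = A j := by
      rw [Fintype.linearCombination_apply_single, one_smul]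
    rw [← h1]
    exact LinearMap.congr_fun hf (Pi.single j 1)
  let gx : ι → Fin (r + 1) → ℂ := fun a => f (Pi.single a 1)
  have hgx : ∀ j, (fun i => ∑ a, A j a * gx a i) = Pi.single j (1 : ℂ) := by
    intro j
    have h1 : A j = ∑ a, A j a • (Pi.single a (1 : ℂ) : ι → ℂ) := by
      funext b
      rw [Finset.sum_apply]
      simp [Pi.single_apply]
    have h2 : f (A j) = ∑ a, A j a • gx a := by
      conv_lhs => rw [h1]
      rw [map_sum]
      refine Finset.sum_congr rfl fun a _ => ?_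
      rw [map_smul]
    rw [← hf j, h2]
    funext i
    rw [Finset.sum_apply]
    rfl
  -- the symmetric tensor
  have hsym : SymC (fun a b d : ι => tri (fun i j l => nt g (sy i j l)) (gx a) (gx b) (gx d)) :=
    ⟨fun _ _ _ => (symC_sy (nt g)).swap12 _ _ _, fun _ _ _ => (symC_sy (nt g)).swap23 _ _ _⟩
  obtain ⟨h, hh⟩ := hsym.exists_fun
  have hval : ∀ i j l, tri (fun a b d => h (sy a b d)) (A i) (A j) (A l) = nt g (sy i j l) := by
    intro i j l
    have h1 : (fun a b d => h (sy a b d)) =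
        (fun a b d : ι => tri (fun i j l => nt g (sy i j l)) (gx a) (gx b) (gx d)) := by
      funext a b d
      exact (hh a b d).symm
    rw [h1, tri_comp, hgx, hgx, hgx, tri_single]
  obtain ⟨D, hD⟩ := Pool.Agent.Campana.exists_derivation (nt t) (algebraicIndependent_nt ht) h
  let B : Fin (r + 1) → ι → ℂ := fun i a => -D (A i a)
  have hB : ∀ i j l, T3 t (B i) (A j) (A l) + T3 t (A i) (B j) (A l) + T3 t (A i) (A j) (B l) = nt g (sy i j l) := by
    intro i j l
    have h1 := derivation_tri D (fun a b d => nt t (sy a b d)) (A i) (A j) (A l)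
    have h2 : D (tri (fun a b d => nt t (sy a b d)) (A i) (A j) (A l)) = 0 := by
      have h3 : tri (fun a b d => nt t (sy a b d)) (A i) (A j) (A l) = 0 := h0 i j l
      rw [h3, map_zero]
    have h4 : (fun a b d => D (nt t (sy a b d))) = fun a b d => h (sy a b d) := by
      funext a b d
      exact hD _
    rw [h2, h4, hval] at h1
    have h5 : ∀ i, B i = -(fun a => D (A i a)) := fun i => rfl
    have h6 : T3 t (B i) (A j) (A l) = -tri (fun a b d => nt t (sy a b d)) (fun a => D (A i a)) (A j) (A l) := by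
      rw [h5 i]
      exact tri_neg_left _ _ _ _
    have h7 : T3 t (A i) (B j) (A l) = -tri (fun a b d => nt t (sy a b d)) (A i) (fun a => D (A j a)) (A l) := by
      rw [h5 j]
      exact tri_neg_mid _ _ _ _
    have h8 : T3 t (A i) (A j) (B l) = -tri (fun a b d => nt t (sy a b d)) (A i) (A j) (fun a => D (A l a)) := by
      rw [h5 l]
      exact tri_neg_right _ _ _ _
    rw [h6, h7, h8]
    linear_combination h1
  refine ⟨B, fun s => ?_⟩
  have hx : ∀ ε : ℂ, ∑ i, s i • (A i + ε • B i) = (∑ i, s i • A i) + ε • ∑ i, s i • B i := by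
    intro ε
    rw [Finset.smul_sum, ← Finset.sum_add_distrib]
    refine Finset.sum_congr rfl fun i _ => ?_
    rw [smul_add, smul_comm]
  have hfun : (fun ε : ℂ => cubic t (∑ i, s i • (A i + ε • B i))) = fun ε =>
      T3 t (∑ i, s i • A i) (∑ i, s i • A i) (∑ i, s i • A i) +
      ε * (T3 t (∑ i, s i • B i) (∑ i, s i • A i) (∑ i, s i • A i) + T3 t (∑ i, s i • A i) (∑ i, s i • B i) (∑ i, s i • A i) +
        T3 t (∑ i, s i • A i) (∑ i, s i • A i) (∑ i, s i • B i)) +
      ε ^ 2 * (T3 t (∑ i, s i • B i) (∑ i, s i • B i) (∑ i, s i • A i) +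
        T3 t (∑ i, s i • B i) (∑ i, s i • A i) (∑ i, s i • B i) + T3 t (∑ i, s i • A i) (∑ i, s i • B i) (∑ i, s i • B i)) +
      ε ^ 3 * T3 t (∑ i, s i • B i) (∑ i, s i • B i) (∑ i, s i • B i) := by
    funext ε
    rw [cubic_eq, hx]
    exact smo_cube _ _ _ _
  rw [hfun, smo_deriv, cubic_eq]
  have e1 := smo_expand (fun i j k => nt t (sy i j k)) B A A s
  have e2 := smo_expand (fun i j k => nt t (sy i j k)) A B A s
  have e3 := smo_expand (fun i j k => nt t (sy i j k)) A A B s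
  have e4 : T3 g s s s = ∑ i, ∑ j, ∑ l, nt g (sy i j l) * (s i * s j * s l) := rfl
  rw [e4]
  refine (congrArg₂ (· + ·) (congrArg₂ (· + ·) e1 e2) e3).trans ?_
  simp only [← Finset.sum_add_distrib]
  refine Finset.sum_congr rfl fun i _ => Finset.sum_congr rfl fun j _ => Finset.sum_congr rfl fun l _ => ?_
  rw [← hB i j l]
  show _ = (tri _ _ _ _ + tri _ _ _ _ + tri _ _ _ _) * _
  ring

end Pool.Agent.MP_1209e6_fr
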