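import Pool.Agent.Lib_MP_1209e6_fr.FnaB
import Pool.Agent.Lib_MP_1209e6_fr.FnaC
import Pool.Agent.Lib_MP_1209e6_fr.Sat
import Pool.Agent.Lib_MP_1209e6_fr.GCur
import Pool.Agent.Lib_MP_1209e6_fr.Smo

/-!
Main theorem (MP_1209e6_ag).
-/

open MvPolynomial Filter Topology

namespace Pool.Agent.MP_1209e6_fr

variable {ι : Type} [Fintype ι] [DecidableEq ι]

/-- The curve and the properties used for the density. -/
theorem exists_U {r : ℕ} (hι : Fintype.card ι = Fintype.card (V r)) {t : Sym ι 3 → ℂ} (ht : AlgebraicIndependent ℚ t) :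
    ∃ (U : ℂ → Submodule ℂ (ι → ℂ)) (Φ : Fin (r + 1) → ι → KK), IsEntire (r + 1) U ∧ (∀ z, U z ∈ Fano r t) ∧
      (∀ q : MvPolynomial (Fin (r + 1) × ι) ℂ, VanishesOn q (Set.range U) → GenVan Φ q) ∧
      ∀ q : MvPolynomial (Fin (r + 1) × ι) ℂ, GenVan Φ q → VanishesOn q (Fano r t) := by
  obtain ⟨φ, hφ, h0, h3, hTr⟩ := exists_curve' hι (nt t) (algebraicIndependent_nt ht)
  obtain ⟨U, hU, hU1, hU2⟩ := exists_saturation φ hφ h0
  have han : ∀ i j, AnalyticAt ℂ (fun z => φ z i j) 0 := by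
    intro i j
    have hd : Differentiable ℂ (fun z => φ z i j) := by
      have h1 := differentiable_pi.1 hφ i
      exact differentiable_pi.1 h1 j
    exact hd.analyticAt 0
  refine ⟨U, _, hU, mem_Fano_of_saturation hU hU1 h3, fun q hq => genVan_of_vanishesOn hφ hU2 hq,
    fun q hq => vanishesOn_Fano hι ht _ ?_ hTr hq⟩
  intro i j l
  have key : tri (fun a b d => PowerSeries.C (nt t (sy a b d))) (fun a => tay (fun z => φ z i a))
      (fun a => tay (fun z => φ z j a)) (fun a => tay (fun z => φ z l a)) = 0 := by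
    let q : MvPolynomial (Fin (r + 1) × ι) ℂ := tri (fun a b d => C (nt t (sy a b d))) (fun a => X (i, a))
      (fun a => X (j, a)) (fun a => X (l, a))
    have h1 := tay_eval (κ := Fin (r + 1) × ι) (fun p z => φ z p.1 p.2) (fun p => han p.1 p.2) q
    have h2 : (fun z => eval (fun p : Fin (r + 1) × ι => φ z p.1 p.2) q) = fun _ => 0 := by
      funext z
      have h4 := map_tri (eval (fun p : Fin (r + 1) × ι => φ z p.1 p.2)) (fun a b d => C (nt t (sy a b d)))
        (fun a => X (i, a)) (fun a => X (j, a)) (fun a => X (l, a))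
      refine h4.trans ?_
      simp only [eval_C, eval_X]
      exact h3 z i j l
    rw [h2, tay_const, map_zero] at h1
    have h5 := map_tri ((aeval (fun p : Fin (r + 1) × ι => tay (fun z => φ z p.1 p.2)) :
      MvPolynomial (Fin (r + 1) × ι) ℂ →ₐ[ℂ] PowerSeries ℂ) : MvPolynomial (Fin (r + 1) × ι) ℂ →+* PowerSeries ℂ)
      (fun a b d => C (nt t (sy a b d))) (fun a => X (i, a)) (fun a => X (j, a)) (fun a => X (l, a))
    have h6 := h1.trans h5
    simp only [RingHom.coe_coe, aeval_X, aeval_C] at h6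
    exact h6.symm
  have h7 := congrArg (algebraMap (PowerSeries ℂ) KK) key
  rw [map_zero, map_tri] at h7
  exact h7

theorem brodySpecialFano {r : ℕ} (hι : Fintype.card ι = Fintype.card (V r)) {t : Sym ι 3 → ℂ} (ht : AlgebraicIndependent ℚ t) :
    BrodySpecialFano r t := by
  obtain ⟨U, Φ, h1, h2, h3, h4⟩ := exists_U hι ht
  exact ⟨U, h1, h2, fun q hq => h4 q (h3 q hq)⟩

theorem irreducibleFano {r : ℕ} (hι : Fintype.card ι = Fintype.card (V r)) {t : Sym ι 3 → ℂ} (ht : AlgebraicIndependent ℚ t) :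
    IrreducibleFano r t := by
  obtain ⟨U, Φ, h1, h2, h3, h4⟩ := exists_U hι ht
  refine ⟨⟨U 0, h2 0⟩, fun p q hpq => ?_⟩
  have h5 : VanishesOn (p * q) (Set.range U) := by
    rintro P ⟨z, rfl⟩
    exact hpq _ (h2 z)
  rcases (h3 _ h5).of_mul with h | h
  · exact Or.inl (h4 _ h)
  · exact Or.inr (h4 _ h)

/-- Main theorem. -/
theorem main_theorem (r : ℕ) (t : Sym (Fin ((r + 2) * (r + 3) / 2)) 3 → ℂ) (ht : AlgebraicIndependent ℚ t) :
    SmoothFano r t ∧ IrreducibleFano r t ∧ BrodySpecialFano r t := by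
  have hι : Fintype.card (Fin ((r + 2) * (r + 3) / 2)) = Fintype.card (V r) := by
    have h := card_V r
    rw [Fintype.card_fin]
    omega
  exact ⟨smoothFano r ht, irreducibleFano hι ht, brodySpecialFano hι ht⟩

end Pool.Agent.MP_1209e6_fr
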