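import Mathlib

/-!
PIECE [OST] (MP_1209e6_ag).  The theorem of Ostrowski for difference equations `σ W = W + b`.
-/

namespace Pool.Agent.MP_1209e6_fr

open MvPolynomial in
/-- the shift `X_i -> X_i + b_i` -/
private noncomputable def ostTau {k ι : Type*} [Field k] (b : ι → k) :
    MvPolynomial ι k →ₐ[k] MvPolynomial ι k := aeval (fun i => X i + C (b i))

open MvPolynomial in
private theorem ost_coeff_top {k ι : Type*} [Field k] {m ν : ι →₀ ℕ} (h : m.degree ≤ ν.degree) (j : ι) :
    coeff ν (pderiv j (monomial m (1 : k))) = 0 := by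
  classical
  rw [coeff_pderiv, coeff_monomial, if_neg, zero_mul]
  intro h1
  rw [h1, map_add, Finsupp.degree_single] at h
  omega

open MvPolynomial in
private theorem ost_taylor_mon {k ι : Type*} [Field k] [Fintype ι] (b : ι → k) (n : ℕ) :
    ∀ (m ν : ι →₀ ℕ), m.degree = n → n ≤ ν.degree + 1 →
      coeff ν (ostTau b (monomial m 1)) =
        coeff ν (monomial m (1 : k)) + ∑ j, b j * coeff ν (pderiv j (monomial m (1 : k))) := by
  classical
  induction n with
  | zero =>
    intro m ν hm _
    have hm0 : m = 0 := by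
      rwa [Finsupp.degree_eq_zero_iff] at hm
    subst hm0
    have h1 : (monomial (0 : ι →₀ ℕ) (1 : k)) = 1 := rfl
    rw [h1, map_one]
    simp
  | succ n ih =>
    intro m ν hm hν
    obtain ⟨i, hi⟩ : ∃ i, m i ≠ 0 := by
      by_contra hcon
      push Not at hcon
      have : m = 0 := Finsupp.ext hcon
      rw [this] at hm
      simp at hm
    set m' := m - Finsupp.single i 1 with hm'
    have hmm : m = m' + Finsupp.single i 1 := by
      ext j
      rw [hm']
      simp only [Finsupp.coe_add, Finsupp.coe_tsub, Pi.add_apply, Pi.sub_apply]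
      by_cases hj : j = i
      · subst hj
        simp only [Finsupp.single_eq_same]
        omega
      · rw [Finsupp.single_eq_of_ne hj]
        omega
    have hdeg : m'.degree = n := by
      rw [hmm, map_add, Finsupp.degree_single] at hm
      omega
    have hmon : monomial m (1 : k) = monomial m' 1 * X i := by
      rw [hmm, X, monomial_mul, one_mul]
    have htop : coeff ν (ostTau b (monomial m' 1)) = coeff ν (monomial m' (1 : k)) := by
      rw [ih m' ν hdeg (by omega)]
      rw [Finset.sum_eq_zero, add_zero]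
      intro j _
      rw [ost_coeff_top (by omega), mul_zero]
    have hX : ostTau b (X i) = X i + C (b i) := by
      rw [ostTau, aeval_X]
    have hpd : ∀ j, coeff ν (pderiv j (monomial m' (1 : k) * X i)) =
        coeff ν (pderiv j (monomial m' (1 : k)) * X i) +
          (if j = i then coeff ν (monomial m' (1 : k)) else 0) := by
      intro j
      rw [pderiv_mul, coeff_add, pderiv_X]
      congr 1
      by_cases hj : j = i
      · subst hj
        simp
      · rw [if_neg hj, Pi.single_eq_of_ne (fun h => hj h.symm), mul_zero, coeff_zero]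
    rw [hmon, map_mul, hX, mul_add, coeff_add, mul_comm _ (C (b i)), coeff_C_mul, htop]
    rw [Finset.sum_congr rfl fun j _ => by rw [hpd j, mul_add]]
    rw [Finset.sum_add_distrib]
    have hs : ∑ j, b j * (if j = i then coeff ν (monomial m' (1 : k)) else 0) =
        b i * coeff ν (monomial m' (1 : k)) := by
      rw [Finset.sum_eq_single i]
      · rw [if_pos rfl]
      · intro j _ hj
        rw [if_neg hj, mul_zero]
      · intro h
        exact absurd (Finset.mem_univ i) h
    rw [hs, ← add_assoc]
    congr 1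
    by_cases hνi : i ∈ ν.support
    · have hν1 : (ν - Finsupp.single i 1).degree + 1 = ν.degree := by
        have hνν : ν = (ν - Finsupp.single i 1) + Finsupp.single i 1 := by
          ext j
          simp only [Finsupp.coe_add, Finsupp.coe_tsub, Pi.add_apply, Pi.sub_apply]
          by_cases hj : j = i
          · subst hj
            have := Finsupp.mem_support_iff.1 hνi
            simp only [Finsupp.single_eq_same]
            omega
          · rw [Finsupp.single_eq_of_ne hj]
            omega
        conv_rhs => rw [hνν]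
        rw [map_add, Finsupp.degree_single]
      simp only [coeff_mul_X', if_pos hνi]
      exact ih m' _ hdeg (by omega)
    · simp only [coeff_mul_X', if_neg hνi, mul_zero, Finset.sum_const_zero, add_zero]

open MvPolynomial in
private theorem ost_taylor {k ι : Type*} [Field k] [Fintype ι] (b : ι → k) (P : MvPolynomial ι k)
    (ν : ι →₀ ℕ) (hP : ∀ μ ∈ P.support, μ.degree ≤ ν.degree + 1) :
    coeff ν (ostTau b P) =
      coeff ν P + ∑ j, b j * (coeff (ν + Finsupp.single j 1) P * ((ν j : k) + 1)) := by
  classical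
  have hsum : P = ∑ μ ∈ P.support, C (coeff μ P) * monomial μ 1 := by
    conv_lhs => rw [P.as_sum]
    refine Finset.sum_congr rfl fun μ _ => ?_
    rw [C_mul_monomial, mul_one]
  have hpd : ∀ j, coeff (ν + Finsupp.single j 1) P * ((ν j : k) + 1) = coeff ν (pderiv j P) := by
    intro j
    rw [coeff_pderiv]
  have h1 : coeff ν (ostTau b P) = ∑ μ ∈ P.support, coeff μ P * coeff ν (ostTau b (monomial μ 1)) := by
    conv_lhs => rw [hsum]
    rw [map_sum, coeff_sum]
    refine Finset.sum_congr rfl fun μ _ => ?_
    have hC : ostTau b (C (coeff μ P)) = C (coeff μ P) := by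
      rw [ostTau]
      exact (aeval (fun i => X i + C (b i))).commutes (coeff μ P)
    rw [map_mul, hC, coeff_C_mul]
  have h2 : ∀ j, coeff ν (pderiv j P) = ∑ μ ∈ P.support, coeff μ P * coeff ν (pderiv j (monomial μ 1)) := by
    intro j
    conv_lhs => rw [hsum]
    rw [map_sum, coeff_sum]
    refine Finset.sum_congr rfl fun μ _ => ?_
    rw [pderiv_C_mul, coeff_C_mul]
  have h3 : coeff ν P = ∑ μ ∈ P.support, coeff μ P * coeff ν (monomial μ 1) := by
    conv_lhs => rw [hsum]
    rw [coeff_sum]
    exact Finset.sum_congr rfl fun μ _ => coeff_C_mul _ _ _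
  rw [h1]
  simp only [hpd, h2]
  rw [h3]
  simp only [Finset.mul_sum]
  rw [Finset.sum_comm, ← Finset.sum_add_distrib]
  refine Finset.sum_congr rfl fun μ hμ => ?_
  rw [ost_taylor_mon b _ μ ν rfl (hP μ hμ), mul_add, Finset.mul_sum]
  congr 1
  exact Finset.sum_congr rfl fun j _ => by ring

private theorem ost_min {α : Type*} (S : Set α) (hS : S.Nonempty) (f : α → ℕ) :
    ∃ a ∈ S, ∀ b ∈ S, f a ≤ f b := by
  obtain ⟨a, ha, h⟩ := WellFounded.has_min (measure f).wf S hS
  exact ⟨a, ha, fun b hb => not_lt.1 (h b hb)⟩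

/-- PIECE [OST].  Let `C = K^σ`, `k` a `σ`-stable subfield, `σ W_i = W_i + b_i`, `b_i ∈ k`.  If the `W_i` are algebraically dependent over `k` then a
nontrivial `C`-linear combination of the `b_i` is of the form `σ β - β`, `β ∈ k`.

Proof.  For `P ∈ k[X]` let `P^σ` be the polynomial with the coefficients `σ(a)` and `Φ(P) = P^σ(X + b)`; `Φ` is a ring hom of `k[X]` and
`(Φ P)(W) = σ (P(W))`.  Among all `P ≠ 0` with `P(W) = 0` choose one of minimal total degree `d`, and among those one with the minimal number of
monomials of degree `d`; divide by one of the coefficients of degree `d`, so that it is `1` at some monomial `X^μ`, `|μ| = d`.  `Q = Φ P - P` vanishes at `W`, has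
degree `≤ d` and its part of degree `d` is `(P_d)^σ - P_d`, which does not contain `X^μ` and contains only monomials of `P_d`.  So `Q = 0` by minimality.
Hence (degree `d`) all coefficients of `P_d` are fixed by `σ`, so they are in `C`; `d ≥ 1` because `P` is not a constant.  Choose `i` and `ν` with
`|ν| = d - 1` such that the coefficient `c_i` of `X^ν` in `∂_i P_d` is not `0`; let `c_j` be the coefficient of `X^ν` in `∂_j P_d` for all `j`.  The coefficient of `X^ν` in `Φ P - P = 0` is
`σ(p_ν) - p_ν + ∑_j c_j b_j = 0`, `p_ν` the coefficient of `X^ν` in `P` (Taylor formula: the part of degree `d - 1` of `P_d(X + b)` is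
`∑_j b_j ∂_j P_d`).  Take `β = -p_ν`. -/
theorem ostrowski {C K : Type*} [Field C] [CharZero C] [Field K] [Algebra C K] (σ : K →ₐ[C] K)
    (hfix : ∀ x, σ x = x → x ∈ (algebraMap C K).range) (k : IntermediateField C K) (hk : ∀ x ∈ k, σ x ∈ k)
    {ι : Type*} [Fintype ι] (W : ι → K) (b : ι → k) (hW : ∀ i, σ (W i) = W i + b i)
    (hdep : ¬ AlgebraicIndependent k W) :
    ∃ c : ι → C, c ≠ 0 ∧ ∃ β ∈ k, ∑ i, algebraMap C K (c i) * (b i : K) = σ β - β := by
  classical
  let σk : k →+* k :=
    { toFun := fun x => ⟨σ x, hk x x.2⟩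
      map_one' := Subtype.ext (by simp)
      map_mul' := fun x y => Subtype.ext (by simp)
      map_zero' := Subtype.ext (by simp)
      map_add' := fun x y => Subtype.ext (by simp) }
  have hσk : ∀ x : k, ((σk x : k) : K) = σ (x : K) := fun x => rfl
  have hphi : ∀ P : MvPolynomial ι k, MvPolynomial.aeval W (ostTau b (MvPolynomial.map σk P)) =
      σ (MvPolynomial.aeval W P) := by
    intro P
    have h1 : ((MvPolynomial.aeval W : MvPolynomial ι k →ₐ[k] K).toRingHom.comp
        ((ostTau b).toRingHom.comp (MvPolynomial.map σk))) =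
        (σ.toRingHom.comp (MvPolynomial.aeval W : MvPolynomial ι k →ₐ[k] K).toRingHom) := by
      refine MvPolynomial.ringHom_ext (fun a => ?_) (fun i => ?_)
      · simp only [RingHom.comp_apply, MvPolynomial.map_C]
        have e1 : (ostTau b).toRingHom (MvPolynomial.C (σk a)) = MvPolynomial.C (σk a) :=
          (ostTau b).commutes (σk a)
        rw [e1]
        have e2 : (MvPolynomial.aeval W : MvPolynomial ι k →ₐ[k] K).toRingHom (MvPolynomial.C (σk a)) =
            ((σk a : k) : K) := (MvPolynomial.aeval W).commutes (σk a)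
        have e3 : (MvPolynomial.aeval W : MvPolynomial ι k →ₐ[k] K).toRingHom (MvPolynomial.C a) =
            (a : K) := (MvPolynomial.aeval W).commutes a
        rw [e2, e3]
        rfl
      · simp only [RingHom.comp_apply, MvPolynomial.map_X]
        have e1 : (ostTau b).toRingHom (MvPolynomial.X i) = MvPolynomial.X i + MvPolynomial.C (b i) :=
          MvPolynomial.aeval_X _ i
        have e2 : (MvPolynomial.aeval W : MvPolynomial ι k →ₐ[k] K).toRingHom
            (MvPolynomial.X i + MvPolynomial.C (b i)) = W i + (b i : K) := by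
          rw [map_add]
          congr 1
          · exact MvPolynomial.aeval_X _ i
          · exact (MvPolynomial.aeval W).commutes (b i)
        have e3 : (MvPolynomial.aeval W : MvPolynomial ι k →ₐ[k] K).toRingHom (MvPolynomial.X i) = W i :=
          MvPolynomial.aeval_X _ i
        rw [e1, e2, e3]
        exact (hW i).symm
    exact congrArg (fun f : MvPolynomial ι k →+* K => f P) h1
  -- relations
  set S : Set (MvPolynomial ι k) := {P | P ≠ 0 ∧ MvPolynomial.aeval W P = 0} with hS
  have hSne : S.Nonempty := by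
    rw [algebraicIndependent_iff] at hdep
    push Not at hdep
    obtain ⟨P, h1, h2⟩ := hdep
    exact ⟨P, h2, h1⟩
  let dg : MvPolynomial ι k → ℕ := fun P => P.support.sup Finsupp.degree
  have hdg : ∀ (P : MvPolynomial ι k) (μ : ι →₀ ℕ), μ ∈ P.support → μ.degree ≤ dg P :=
    fun P μ hμ => Finset.le_sup (f := Finsupp.degree) hμ
  obtain ⟨P0, hP0, hmin0⟩ := ost_min S hSne dg
  set d := dg P0 with hd
  let tp : MvPolynomial ι k → ℕ := fun P => (P.support.filter fun μ => μ.degree = d).card
  obtain ⟨P, ⟨hPS, hPd⟩, hmin⟩ := ost_min {P | P ∈ S ∧ dg P ≤ d} ⟨P0, hP0, le_rfl⟩ tp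
  have hPdeg : ∀ μ ∈ P.support, μ.degree ≤ d := fun μ hμ => (hdg P μ hμ).trans hPd
  have hPd' : dg P = d := le_antisymm hPd (hmin0 P hPS)
  obtain ⟨μ, hμ, hμd⟩ : ∃ μ ∈ P.support, μ.degree = d := by
    have hne : P.support.Nonempty := by
      rw [MvPolynomial.support_nonempty]
      exact hPS.1
    obtain ⟨μ, hμ, h1⟩ := Finset.exists_mem_eq_sup P.support hne Finsupp.degree
    exact ⟨μ, hμ, by rw [← h1]; exact hPd'⟩
  set a := MvPolynomial.coeff μ P with ha
  have ha0 : a ≠ 0 := MvPolynomial.mem_support_iff.1 hμ
  set P' : MvPolynomial ι k := MvPolynomial.C a⁻¹ * P with hP'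
  have hP'c : ∀ ν, MvPolynomial.coeff ν P' = a⁻¹ * MvPolynomial.coeff ν P := fun ν => by
    rw [hP', MvPolynomial.coeff_C_mul]
  have hP'μ : MvPolynomial.coeff μ P' = 1 := by rw [hP'c, ← ha, inv_mul_cancel₀ ha0]
  have hP'deg : ∀ ν, d < ν.degree → MvPolynomial.coeff ν P' = 0 := by
    intro ν hν
    rw [hP'c]
    by_cases h : ν ∈ P.support
    · exact absurd (hPdeg ν h) (by omega)
    · rw [MvPolynomial.notMem_support_iff.1 h, mul_zero]
  have hP'W : MvPolynomial.aeval W P' = 0 := by rw [hP', map_mul, hPS.2, mul_zero]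
  set Q : MvPolynomial ι k := ostTau b (MvPolynomial.map σk P') - P' with hQ
  have hQW : MvPolynomial.aeval W Q = 0 := by
    rw [hQ, map_sub, hphi, hP'W, map_zero, sub_zero]
  have htay : ∀ ν : ι →₀ ℕ, d ≤ ν.degree + 1 → MvPolynomial.coeff ν Q =
      σk (MvPolynomial.coeff ν P') + ∑ j, b j * (σk (MvPolynomial.coeff (ν + Finsupp.single j 1) P') *
        ((ν j : k) + 1)) - MvPolynomial.coeff ν P' := by
    intro ν hν
    rw [hQ, MvPolynomial.coeff_sub, ost_taylor b _ ν ?_]
    · simp only [MvPolynomial.coeff_map]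
    · intro κ hκ
      by_contra hcon
      have h1 : MvPolynomial.coeff κ P' = 0 := hP'deg κ (by omega)
      rw [MvPolynomial.mem_support_iff, MvPolynomial.coeff_map, h1, map_zero] at hκ
      exact hκ rfl
  have hQtop : ∀ ν : ι →₀ ℕ, d ≤ ν.degree → MvPolynomial.coeff ν Q =
      σk (MvPolynomial.coeff ν P') - MvPolynomial.coeff ν P' := by
    intro ν hν
    rw [htay ν (by omega), Finset.sum_eq_zero, add_zero]
    intro j _
    rw [hP'deg (ν + Finsupp.single j 1) (by rw [map_add, Finsupp.degree_single]; omega), map_zero,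
      zero_mul, mul_zero]
  have hQ0 : Q = 0 := by
    by_contra hQ0
    have hQd : dg Q ≤ d := by
      refine Finset.sup_le fun ν hν => ?_
      by_contra hcon
      have h1 : d < ν.degree := not_le.1 hcon
      rw [MvPolynomial.mem_support_iff, hQtop ν h1.le, hP'deg ν h1, map_zero, sub_zero] at hν
      exact hν rfl
    have h1 := hmin Q ⟨⟨hQ0, hQW⟩, hQd⟩
    have h2 : (Q.support.filter fun μ => μ.degree = d) ⊂ (P.support.filter fun μ => μ.degree = d) := by
      rw [Finset.ssubset_iff_of_subset]
      · refine ⟨μ, Finset.mem_filter.2 ⟨hμ, hμd⟩, ?_⟩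
        rw [Finset.mem_filter]
        rintro ⟨h3, h4⟩
        rw [MvPolynomial.mem_support_iff, hQtop μ hμd.ge, hP'μ, map_one, sub_self] at h3
        exact h3 rfl
      · intro ν hν
        rw [Finset.mem_filter] at hν ⊢
        refine ⟨?_, hν.2⟩
        by_contra hcon
        have h3 := hν.1
        rw [MvPolynomial.mem_support_iff, hQtop ν hν.2.ge, hP'c,
          MvPolynomial.notMem_support_iff.1 hcon, mul_zero, map_zero, sub_zero] at h3
        exact h3 rfl
    exact absurd (Finset.card_lt_card h2) (not_lt.2 h1)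
  -- the monomial is not constant
  obtain ⟨i, hi⟩ : ∃ i, μ i ≠ 0 := by
    by_contra hcon
    push Not at hcon
    have hμ0 : μ = 0 := Finsupp.ext hcon
    have hd0 : d = 0 := by rw [← hμd, hμ0, map_zero]
    have hPC : P = MvPolynomial.C (MvPolynomial.coeff 0 P) := by
      ext ν
      rw [MvPolynomial.coeff_C]
      by_cases hν : 0 = ν
      · rw [if_pos hν, ← hν]
      · rw [if_neg hν]
        have h1 : ν ∉ P.support := by
          intro h2
          have h3 := hPdeg ν h2
          rw [hd0, Nat.le_zero, Finsupp.degree_eq_zero_iff] at h3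
          exact hν h3.symm
        rw [MvPolynomial.notMem_support_iff.1 h1]
    have h1 : MvPolynomial.coeff 0 P ≠ 0 := by rw [← hμ0]; exact ha0
    have h2 := hPS.2
    rw [hPC] at h2
    have h3 : MvPolynomial.aeval W (MvPolynomial.C (MvPolynomial.coeff 0 P)) =
        ((MvPolynomial.coeff 0 P : k) : K) := (MvPolynomial.aeval W).commutes _
    rw [h3] at h2
    exact h1 (Subtype.ext h2)
  set ν : ι →₀ ℕ := μ - Finsupp.single i 1 with hν
  have hνμ : ν + Finsupp.single i 1 = μ := by
    ext j
    rw [hν]
    simp only [Finsupp.coe_add, Finsupp.coe_tsub, Pi.add_apply, Pi.sub_apply]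
    by_cases hj : j = i
    · subst hj
      simp only [Finsupp.single_eq_same]
      omega
    · rw [Finsupp.single_eq_of_ne hj]
      omega
  have hνd : ν.degree + 1 = d := by
    rw [← hμd, ← hνμ, map_add, Finsupp.degree_single]
  have hfixc : ∀ j, σk (MvPolynomial.coeff (ν + Finsupp.single j 1) P') =
      MvPolynomial.coeff (ν + Finsupp.single j 1) P' := by
    intro j
    have h1 := hQtop (ν + Finsupp.single j 1) (by rw [map_add, Finsupp.degree_single]; omega)
    rw [hQ0, MvPolynomial.coeff_zero] at h1
    exact (sub_eq_zero.1 h1.symm)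
  have hex : ∀ j, ∃ c : C, algebraMap C K c = ((MvPolynomial.coeff (ν + Finsupp.single j 1) P' : k) : K) := by
    intro j
    have h1 : σ ((MvPolynomial.coeff (ν + Finsupp.single j 1) P' : k) : K) =
        ((MvPolynomial.coeff (ν + Finsupp.single j 1) P' : k) : K) := by
      rw [← hσk, hfixc j]
    obtain ⟨c, hc⟩ := hfix _ h1
    exact ⟨c, hc⟩
  choose c' hc' using hex
  refine ⟨fun j => c' j * ((ν j : C) + 1), ?_, -((MvPolynomial.coeff ν P' : k) : K),
    neg_mem (MvPolynomial.coeff ν P').2, ?_⟩
  · intro h0
    have h1 := congrFun h0 i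
    simp only [Pi.zero_apply] at h1
    have h2 : c' i = 1 := by
      have h3 := hc' i
      rw [hνμ, hP'μ] at h3
      exact (algebraMap C K).injective (by rw [h3, map_one]; rfl)
    rw [h2, one_mul] at h1
    exact Nat.cast_add_one_ne_zero (ν i) h1
  · have h1 := htay ν (by omega)
    rw [hQ0, MvPolynomial.coeff_zero] at h1
    simp only [hfixc] at h1
    have h2 : (0 : K) = σ ((MvPolynomial.coeff ν P' : k) : K) + (∑ j, (b j : K) *
        (((MvPolynomial.coeff (ν + Finsupp.single j 1) P' : k) : K) * ((ν j : K) + 1))) -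
        ((MvPolynomial.coeff ν P' : k) : K) := by
      have h3 := congrArg (algebraMap k K) h1
      rw [← hσk]
      push_cast at h3
      exact h3
    have h4 : ∑ j, algebraMap C K (c' j * ((ν j : C) + 1)) * (b j : K) = ∑ j, (b j : K) *
        (((MvPolynomial.coeff (ν + Finsupp.single j 1) P' : k) : K) * ((ν j : K) + 1)) := by
      refine Finset.sum_congr rfl fun j _ => ?_
      rw [map_mul, hc' j, map_add, map_natCast, map_one]
      ring
    rw [h4, map_neg]
    linear_combination -h2

end Pool.Agent.MP_1209e6_fr
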