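import Mathlib

/-!
PIECE [SEX] (MP_1209e6_ag).  Exponential series: characterisation and algebraic independence.
-/

namespace Pool.Agent.MP_1209e6_fr

private theorem sExp_deriv (w : ℂ) : PowerSeries.derivative ℂ (PowerSeries.rescale w (PowerSeries.exp ℂ)) =
    w • PowerSeries.rescale w (PowerSeries.exp ℂ) := by
  ext n
  have h := congrArg (PowerSeries.coeff n) (PowerSeries.derivative_exp ℂ)
  rw [PowerSeries.coeff_derivative] at h
  rw [PowerSeries.coeff_derivative, PowerSeries.coeff_rescale, map_smul, PowerSeries.coeff_rescale, smul_eq_mul,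
    pow_succ]
  linear_combination (w ^ n * w) * h

private theorem sExp_ne (w : ℂ) : PowerSeries.rescale w (PowerSeries.exp ℂ) ≠ 0 := by
  intro h
  have h1 := congrArg (PowerSeries.coeff 0) h
  rw [PowerSeries.coeff_rescale, pow_zero, one_mul, PowerSeries.coeff_zero_eq_constantCoeff_apply,
    PowerSeries.constantCoeff_exp, map_zero] at h1
  exact one_ne_zero h1

/-- PIECE [SEX].  Distinct exponentials are linearly independent over `ℂ`: they are eigenvectors of the derivative with different
eigenvalues (`Module.End.eigenvectors_linearIndependent'`). -/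
theorem linearIndependent_exp {ι : Type*} {w : ι → ℂ} (hw : Function.Injective w) :
    LinearIndependent ℂ (fun i => PowerSeries.rescale (w i) (PowerSeries.exp ℂ)) := by
  refine Module.End.eigenvectors_linearIndependent' (R := ℂ) (M := PowerSeries ℂ)
    ((PowerSeries.derivative ℂ : Derivation ℂ (PowerSeries ℂ) (PowerSeries ℂ)) : PowerSeries ℂ →ₗ[ℂ] PowerSeries ℂ)
    w hw _ ?_
  intro i
  refine ⟨?_, sExp_ne (w i)⟩
  rw [Module.End.mem_eigenspace_iff]
  exact sExp_deriv (w i)

private theorem sExp_pow (w : ℂ) (n : ℕ) : PowerSeries.rescale w (PowerSeries.exp ℂ) ^ n =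
    PowerSeries.rescale ((n : ℂ) * w) (PowerSeries.exp ℂ) := by
  induction n with
  | zero => rw [pow_zero, Nat.cast_zero, zero_mul, PowerSeries.rescale_zero_apply, PowerSeries.constantCoeff_exp, map_one]
  | succ n ih =>
    rw [pow_succ, ih, PowerSeries.exp_mul_exp_eq_exp_add]
    have : (n : ℂ) * w + w = ((n + 1 : ℕ) : ℂ) * w := by push_cast; ring
    rw [this]

private theorem sExp_prod {ι : Type*} (s : Finset ι) (w : ι → ℂ) (m : ι → ℕ) :
    ∏ i ∈ s, PowerSeries.rescale (w i) (PowerSeries.exp ℂ) ^ m i =
      PowerSeries.rescale (∑ i ∈ s, (m i : ℂ) * w i) (PowerSeries.exp ℂ) := by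
  classical
  induction s using Finset.induction_on with
  | empty => rw [Finset.prod_empty, Finset.sum_empty, PowerSeries.rescale_zero_apply, PowerSeries.constantCoeff_exp, map_one]
  | insert a s ha ih =>
    rw [Finset.prod_insert ha, Finset.sum_insert ha, ih, sExp_pow, PowerSeries.exp_mul_exp_eq_exp_add]

private theorem sExp_inj {ι : Type*} {w : ι → ℂ} (hw : LinearIndependent ℚ w) :
    Function.Injective (fun m : ι →₀ ℕ => ∑ i ∈ m.support, (m i : ℂ) * w i) := by
  intro a b hab
  have h1 : ∀ m : ι →₀ ℕ, ∑ i ∈ m.support, (m i : ℂ) * w i =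
      Finsupp.linearCombination ℚ w (m.mapRange (fun n : ℕ => (n : ℚ)) Nat.cast_zero) := by
    intro m
    rw [Finsupp.linearCombination_apply, Finsupp.sum_mapRange_index (h := fun i (a : ℚ) => a • w i)
      (fun i => zero_smul ℚ (w i)), Finsupp.sum]
    refine Finset.sum_congr rfl fun i _ => ?_
    rw [Rat.smul_def, Rat.cast_natCast]
  have h2 : Finsupp.linearCombination ℚ w (a.mapRange (fun n : ℕ => (n : ℚ)) Nat.cast_zero) =
      Finsupp.linearCombination ℚ w (b.mapRange (fun n : ℕ => (n : ℚ)) Nat.cast_zero) := by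
    rw [← h1 a, ← h1 b]
    exact hab
  have h3 := hw h2
  exact Finsupp.mapRange_injective _ Nat.cast_zero Nat.cast_injective h3

/-- PIECE [SEX].  Exponentials with `ℚ`-linearly independent exponents are algebraically independent: the monomials
are the exponentials with the exponents `∑ m_i w_i`, which are different. -/
theorem algebraicIndependent_exp {ι : Type*} {w : ι → ℂ} (hw : LinearIndependent ℚ w) :
    AlgebraicIndependent ℂ (fun i => PowerSeries.rescale (w i) (PowerSeries.exp ℂ)) := by
  rw [algebraicIndependent_iff]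
  intro p hp
  rw [MvPolynomial.aeval_def, MvPolynomial.eval₂_eq] at hp
  have h1 := linearIndependent_iff'.mp (linearIndependent_exp (sExp_inj hw)) p.support (fun m => p.coeff m) (by
    rw [← hp]
    refine Finset.sum_congr rfl fun m _ => ?_
    rw [sExp_prod, Algebra.smul_def])
  ext m
  rw [MvPolynomial.coeff_zero]
  by_cases hm : m ∈ p.support
  · exact h1 m hm
  · exact MvPolynomial.notMem_support_iff.mp hm

end Pool.Agent.MP_1209e6_fr
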