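import Mathlib

/-!
PIECE [SEX] (MP_1209e6_ag).  Exponential series: characterisation and algebraic independence.
-/

namespace Pool.Agent.MP_1209e6_fr

private theorem sExpA_aux {n : ℕ} (hn : 2 ≤ n) : (2 + (-2) ^ n : ℂ) ≠ 0 := by
  intro h
  have h1 : ((-2 : ℂ)) ^ n = -2 := by linear_combination h
  have h2 : ‖((-2 : ℂ)) ^ n‖ = ‖(-2 : ℂ)‖ := by rw [h1]
  rw [norm_pow, norm_neg, RCLike.norm_ofNat] at h2
  have h3 : (2 : ℝ) ^ 1 < (2 : ℝ) ^ n := pow_lt_pow_right₀ (by norm_num) (by omega)
  rw [h2, pow_one] at h3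
  exact lt_irrefl _ h3

private theorem sExpA_one {Y : PowerSeries ℂ} (h0 : PowerSeries.constantCoeff Y = 1) (h1 : PowerSeries.coeff 1 Y = 0)
    (h : Y ^ 2 * PowerSeries.rescale (-2 : ℂ) Y = 1) : Y = 1 := by
  have key : ∀ n : ℕ, PowerSeries.coeff n (Y - 1) = 0 := by
    intro n
    induction n using Nat.strong_induction_on with
    | _ n ih =>
      rcases Nat.lt_or_ge n 2 with hn | hn
      · rcases Nat.lt_or_ge n 1 with hn1 | hn1
        · have : n = 0 := by omega
          subst this
          rw [map_sub, PowerSeries.coeff_zero_eq_constantCoeff_apply, h0,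
            PowerSeries.coeff_zero_eq_constantCoeff_apply, map_one, sub_self]
        · have : n = 1 := by omega
          subst this
          rw [map_sub, h1, PowerSeries.coeff_one, if_neg one_ne_zero, sub_zero]
      · obtain ⟨D, hD⟩ := (PowerSeries.X_pow_dvd_iff (φ := Y - 1)).mpr ih
        have hY : Y = 1 + PowerSeries.X ^ n * D := by rw [← hD]; ring
        have hR : PowerSeries.rescale (-2 : ℂ) Y = 1 + PowerSeries.X ^ n * (PowerSeries.C ((-2 : ℂ) ^ n) *
            PowerSeries.rescale (-2 : ℂ) D) := by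
          rw [hY, map_add, map_one, map_mul, map_pow, PowerSeries.rescale_X, mul_pow, map_pow]
          ring
        have h2 := h
        rw [hR, hY] at h2
        have h3 : PowerSeries.X ^ n * (2 * D + PowerSeries.C ((-2 : ℂ) ^ n) * PowerSeries.rescale (-2 : ℂ) D) +
            PowerSeries.X ^ (n + n) * (D ^ 2 + (2 * D + PowerSeries.X ^ n * D ^ 2) * (PowerSeries.C ((-2 : ℂ) ^ n) *
              PowerSeries.rescale (-2 : ℂ) D)) = 0 := by
          rw [pow_add]
          linear_combination h2
        have h4 := congrArg (PowerSeries.coeff n) h3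
        rw [map_add, map_zero, PowerSeries.coeff_X_pow_mul', if_pos le_rfl, Nat.sub_self,
          PowerSeries.coeff_X_pow_mul', if_neg (by omega), add_zero,
          PowerSeries.coeff_zero_eq_constantCoeff_apply, map_add, map_mul, map_mul,
          PowerSeries.constantCoeff_C] at h4
        have h5 : PowerSeries.constantCoeff (PowerSeries.rescale (-2 : ℂ) D) = PowerSeries.constantCoeff D := by
          rw [← PowerSeries.coeff_zero_eq_constantCoeff_apply, PowerSeries.coeff_rescale, pow_zero, one_mul,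
            PowerSeries.coeff_zero_eq_constantCoeff_apply]
        have h6 : PowerSeries.constantCoeff (2 : PowerSeries ℂ) = 2 := map_ofNat _ 2
        rw [h5, h6] at h4
        have h7 : (2 + (-2) ^ n : ℂ) * PowerSeries.constantCoeff D = 0 := by linear_combination h4
        rcases mul_eq_zero.mp h7 with h8 | h8
        · exact absurd h8 (sExpA_aux hn)
        · rw [hD, PowerSeries.coeff_X_pow_mul', if_pos le_rfl, Nat.sub_self,
            PowerSeries.coeff_zero_eq_constantCoeff_apply, h8]
  have h9 : Y - 1 = 0 := by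
    ext n
    rw [key n, map_zero]
  exact sub_eq_zero.mp h9

/-- PIECE [SEX].  Proof.  Put `Y = L * rescale (-w) exp`: `Y^2 * rescale (-2) Y = 1` (because `exp(-w z)^2 * exp(2 w z) = 1`), `Y = 1 + 0 z + ...`.
If `Y = 1 + y z^n + ...`, `n ≥ 2` (all lower coefficients vanish) then the coefficient of `z^n` of `Y^2 * rescale (-2) Y` is `(2 + (-2)^n) y`, so `y = 0`
(`2 + (-2)^n` is not `0` for `n ≥ 2`).  So `Y = 1`. -/
theorem eq_exp {L : PowerSeries ℂ} {w : ℂ} (h0 : PowerSeries.constantCoeff L = 1) (h1 : PowerSeries.coeff 1 L = w)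
    (h : L ^ 2 * PowerSeries.rescale (-2 : ℂ) L = 1) : L = PowerSeries.rescale w (PowerSeries.exp ℂ) := by
  have hE : PowerSeries.rescale (-w) (PowerSeries.exp ℂ) ^ 2 *
      PowerSeries.rescale (-2 : ℂ) (PowerSeries.rescale (-w) (PowerSeries.exp ℂ)) = 1 := by
    rw [PowerSeries.rescale_rescale, sq, PowerSeries.exp_mul_exp_eq_exp_add, PowerSeries.exp_mul_exp_eq_exp_add]
    have : (-w + -w + -w * -2 : ℂ) = 0 := by ring
    rw [this, PowerSeries.rescale_zero_apply, PowerSeries.constantCoeff_exp, map_one]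
  have hY : L * PowerSeries.rescale (-w) (PowerSeries.exp ℂ) = 1 := by
    apply sExpA_one
    · rw [map_mul, h0, ← PowerSeries.coeff_zero_eq_constantCoeff_apply, PowerSeries.coeff_rescale, pow_zero,
        PowerSeries.coeff_zero_eq_constantCoeff_apply, PowerSeries.constantCoeff_exp]
      ring
    · rw [PowerSeries.coeff_one_mul, h0, h1, PowerSeries.coeff_rescale, PowerSeries.coeff_exp,
        ← PowerSeries.coeff_zero_eq_constantCoeff_apply, PowerSeries.coeff_rescale, PowerSeries.coeff_exp]
      norm_num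
    · rw [map_mul]
      linear_combination (PowerSeries.rescale (-w) (PowerSeries.exp ℂ) ^ 2 *
        PowerSeries.rescale (-2 : ℂ) (PowerSeries.rescale (-w) (PowerSeries.exp ℂ))) * h + hE
  have hI : PowerSeries.rescale (-w) (PowerSeries.exp ℂ) * PowerSeries.rescale w (PowerSeries.exp ℂ) = 1 := by
    rw [PowerSeries.exp_mul_exp_eq_exp_add, neg_add_cancel, PowerSeries.rescale_zero_apply,
      PowerSeries.constantCoeff_exp, map_one]
  calc L = L * (PowerSeries.rescale (-w) (PowerSeries.exp ℂ) * PowerSeries.rescale w (PowerSeries.exp ℂ)) := by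
        rw [hI, mul_one]
    _ = (L * PowerSeries.rescale (-w) (PowerSeries.exp ℂ)) * PowerSeries.rescale w (PowerSeries.exp ℂ) := by ring
    _ = PowerSeries.rescale w (PowerSeries.exp ℂ) := by rw [hY, one_mul]

end Pool.Agent.MP_1209e6_fr
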