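import Pool.Agent.Lib_MP_1209e6_fr.SIndA
import Pool.Agent.Lib_MP_1209e6_fr.SExp

/-!
PIECE [SIN] (MP_1209e6_ag).  Algebraic independence of the coordinates of the special curve.
-/

namespace Pool.Agent.MP_1209e6_fr

variable {r : ℕ}

theorem linearIndependent_sub_zero {w : Fin (r + 2) → ℂ} (hw : LinearIndependent ℚ w) :
    LinearIndependent ℚ (fun i : Fin (r + 1) => w i.succ - w 0) := by
  rw [Fintype.linearIndependent_iff] at hw ⊢
  intro g hg i
  have h := hw (Fin.cons (-∑ j, g j) g) (by
    rw [Fin.sum_univ_succ]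
    simp only [Fin.cons_zero, Fin.cons_succ]
    simp only [smul_sub, Finset.sum_sub_distrib] at hg
    rw [neg_smul, Finset.sum_smul]
    rw [neg_add_eq_sub]
    exact hg) i.succ
  simpa using h

theorem expo_single_sub (w : Fin (r + 2) → ℂ) (i : Fin (r + 1)) :
    expo w (Pi.single i.succ 1 - Pi.single 0 1) = w i.succ - w 0 := by
  simp only [expo, Pi.sub_apply, Int.cast_sub, sub_mul, Finset.sum_sub_distrib]
  simp [Pi.single_apply]

/-- PIECE [SIN].  Algebraic independence.

Proof.  `k` as in `coboundary_Xi`; `σ k ⊆ k`.  By `ostrowski` (`C = ℂ`, `K = KK`, `W` = the images of the `W i`, `b i = EE w (Xi ..) / 6`) and `coboundary_Xi` the images of the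
`W i` are algebraically independent over `k`.  The exponentials with the exponents `w_(i+1) - w_0` are algebraically independent over `ℂ` (`algebraicIndependent_exp`, the
exponents are linearly independent over `ℚ`) and belong to `k`.  So the union is algebraically independent over `ℂ` (`AlgebraicIndependent.sumElim` or
`AlgebraicIndependent.sumElim_iff`, with the tower `ℂ ⊆ ℂ(exponentials) ⊆ k`), in `KK` and so in `ℂ⟦z⟧`. -/
theorem algebraicIndependent_special {w : Fin (r + 2) → ℂ} (hw : LinearIndependent ℚ w) (W : Wix r → PowerSeries ℂ)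
    (hW : ∀ i : Wix r, 6 * (PowerSeries.rescale (-2 : ℂ) (W i) - W i) = EE w (Xi i.1.1.1.1 i.1.1.1.2 i.1.2)) :
    AlgebraicIndependent ℂ (Sum.elim
      (fun i : Fin (r + 1) => PowerSeries.rescale (w i.succ - w 0) (PowerSeries.exp ℂ)) W) := by
  obtain ⟨σ, hσ, hfix⟩ := exists_sigma
  obtain ⟨k, hk⟩ : ∃ k : IntermediateField ℂ KK,
      k = IntermediateField.adjoin ℂ (Set.range fun P : LP (r + 2) => algebraMap _ KK (EE w P)) := ⟨_, rfl⟩
  have hmem : ∀ P : LP (r + 2), algebraMap (PowerSeries ℂ) KK (EE w P) ∈ k := fun P => by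
    rw [hk]; exact IntermediateField.subset_adjoin _ _ ⟨P, rfl⟩
  have hkσ : ∀ x ∈ k, σ x ∈ k := by
    intro x hx
    have h1 : σ x ∈ k.map σ := ⟨x, hx, rfl⟩
    have h2 : k.map σ ≤ k := by
      rw [hk, IntermediateField.adjoin_map]
      apply IntermediateField.adjoin.mono
      rintro _ ⟨_, ⟨P, rfl⟩, rfl⟩
      refine ⟨dil (-2) P, ?_⟩
      simp only
      rw [hσ]
      have h3 := rescale_EE w (-2) P
      push_cast at h3
      rw [h3]
    exact h2 h1
  have h6 : (6 : KK) ≠ 0 := by
    intro h
    have h1 : algebraMap ℂ KK 6 = 0 := by rw [map_ofNat]; exact h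
    rw [map_eq_zero] at h1
    norm_num at h1
  have h6k : (6 : KK) ∈ k := by
    have := k.natCast_mem 6
    exact_mod_cast this
  have hW' : AlgebraicIndependent k (fun i : Wix r => algebraMap (PowerSeries ℂ) KK (W i)) := by
    by_contra hdep
    obtain ⟨c, hc, β, hβ, hsum⟩ := ostrowski (C := ℂ) σ hfix k hkσ (fun i : Wix r => algebraMap (PowerSeries ℂ) KK (W i))
      (fun i => ⟨6⁻¹ * algebraMap (PowerSeries ℂ) KK (EE w (Xi i.1.1.1.1 i.1.1.1.2 i.1.2)),
        mul_mem (inv_mem h6k) (hmem _)⟩) (fun i => by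
          simp only
          rw [← hW i, hσ, map_mul, map_sub]
          have : algebraMap (PowerSeries ℂ) KK 6 = 6 := map_ofNat _ 6
          rw [this, ← mul_assoc, inv_mul_cancel₀ h6]
          ring) hdep
    apply hc
    apply coboundary_Xi hw σ hσ c (β := 6 * β) (by rw [← hk]; exact mul_mem h6k hβ)
    have hσ6 : σ (6 * β) - 6 * β = 6 * (σ β - β) := by
      rw [map_mul, map_ofNat]; ring
    rw [hσ6, ← hsum, Finset.mul_sum, map_sum, map_sum]
    refine Finset.sum_congr rfl fun i _ => ?_
    rw [map_smul, Algebra.smul_def, map_mul, ← IsScalarTower.algebraMap_apply]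
    field_simp
  have hx : AlgebraicIndependent ℂ (fun i : Fin (r + 1) =>
      algebraMap (PowerSeries ℂ) KK (PowerSeries.rescale (w i.succ - w 0) (PowerSeries.exp ℂ))) :=
    (algebraicIndependent_exp (linearIndependent_sub_zero hw)).map'
      (f := IsScalarTower.toAlgHom ℂ (PowerSeries ℂ) KK) (IsFractionRing.injective (PowerSeries ℂ) KK)
  have hxk : Set.range (fun i : Fin (r + 1) =>
      algebraMap (PowerSeries ℂ) KK (PowerSeries.rescale (w i.succ - w 0) (PowerSeries.exp ℂ))) ⊆ Set.range (algebraMap k KK) := by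
    rintro _ ⟨i, rfl⟩
    refine ⟨⟨_, hmem (AddMonoidAlgebra.single (Pi.single i.succ 1 - Pi.single 0 1) 1)⟩, ?_⟩
    show algebraMap (PowerSeries ℂ) KK (EE w (AddMonoidAlgebra.single (Pi.single i.succ 1 - Pi.single 0 1) 1)) = _
    rw [EE_single, expo_single_sub, one_smul]
  have hall := hx.sumElim_of_tower hxk hW'
  have hall2 : AlgebraicIndependent ℂ (Sum.elim W
      (fun i : Fin (r + 1) => PowerSeries.rescale (w i.succ - w 0) (PowerSeries.exp ℂ))) := by
    rw [← AlgHom.algebraicIndependent_iff (IsScalarTower.toAlgHom ℂ (PowerSeries ℂ) KK)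
      (IsFractionRing.injective (PowerSeries ℂ) KK)]
    convert hall using 1
    funext i
    rcases i with i | i <;> rfl
  exact (algebraicIndependent_equiv' (Equiv.sumComm _ _) (by
    funext i
    rcases i with i | i <;> rfl)).2 hall2

end Pool.Agent.MP_1209e6_fr
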