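import Pool.Agent.Lib_MP_1209e6_fr.Hahn
import Pool.Agent.Lib_MP_1209e6_fr.Ostr
import Pool.Agent.Lib_MP_1209e6_fr.Chi
import Pool.Agent.Lib_MP_1209e6_fr.Fix

/-!
PIECE [SIN] (MP_1209e6_ag).  Algebraic independence of the coordinates of the special curve.
-/

namespace Pool.Agent.MP_1209e6_fr

variable {r : ℕ}

/-- the embedding of the Laurent polynomials in the field -/
private noncomputable def siaPsi (w : Fin (r + 2) → ℂ) : LP (r + 2) →ₐ[ℂ] KK :=
  (IsScalarTower.toAlgHom ℂ (PowerSeries ℂ) KK).comp (EE w)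

private theorem siaPsi_apply (w : Fin (r + 2) → ℂ) (P : LP (r + 2)) :
    siaPsi w P = algebraMap _ KK (EE w P) := rfl

private theorem siaPsi_injective {w : Fin (r + 2) → ℂ} (hw : LinearIndependent ℚ w) :
    Function.Injective (siaPsi w) := by
  intro P Q h
  rw [siaPsi_apply, siaPsi_apply] at h
  exact EE_injective hw (IsFractionRing.injective (PowerSeries ℂ) KK h)

private theorem sia_exists {w : Fin (r + 2) → ℂ} {β : KK}
    (hβ : β ∈ IntermediateField.adjoin ℂ
      (Set.range fun P : LP (r + 2) => algebraMap _ KK (EE w P))) :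
    ∃ P Q : LP (r + 2), Q ≠ 0 ∧ β = siaPsi w P / siaPsi w Q := by
  have h1 : (Set.range fun P : LP (r + 2) => algebraMap _ KK (EE w P))
      = ((siaPsi w).range : Set KK) := rfl
  rw [h1, IntermediateField.mem_adjoin_iff_div, Algebra.adjoin_eq] at hβ
  obtain ⟨_, ⟨P, rfl⟩, _, ⟨Q, rfl⟩, h⟩ := hβ
  by_cases hQ : Q = 0
  · refine ⟨0, 1, one_ne_zero, ?_⟩
    rw [h, hQ]
    simp
  · exact ⟨P, Q, hQ, h⟩

private theorem sia_sigma (w : Fin (r + 2) → ℂ) (σ : KK →ₐ[ℂ] KK)
    (hσ : ∀ f : PowerSeries ℂ,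
      σ (algebraMap _ KK f) = algebraMap _ KK (PowerSeries.rescale (-2 : ℂ) f))
    (P : LP (r + 2)) : σ (siaPsi w P) = siaPsi w (dil (-2) P) := by
  have h := rescale_EE w (-2) P
  rw [siaPsi_apply, siaPsi_apply, hσ, ← h]
  norm_num

/-- PIECE [SIN].  A combination of the Laurent polynomials `Xi` which is a coboundary of a rational function of the exponentials
has zero coefficients.

Proof.  Let `k` be the subfield of `KK` generated over `ℂ` by the image of `EE w` (elements are the fractions `EE w P / EE w Q`, `Q ≠ 0`: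
`IntermediateField.mem_adjoin_iff_div` or `Subfield.mem_closure_iff`, the image of `EE w` is a subalgebra).  If `β = EE w P / EE w Q` and `R = ∑ c w Xi`, the equation
`σ β - β = EE w R` multiplied by `EE w Q * σ (EE w Q)` is (by `rescale_EE`) `EE w` of the equation `dil (-2) P * Q - P * dil (-2) Q = R * Q * dil (-2) Q`, which holds by
`EE_injective`.  `chi_eq_zero` and `eq_zero_of_chi`. -/
theorem coboundary_Xi {w : Fin (r + 2) → ℂ} (hw : LinearIndependent ℚ w) (σ : KK →ₐ[ℂ] KK)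
    (hσ : ∀ f : PowerSeries ℂ, σ (algebraMap _ KK f) = algebraMap _ KK (PowerSeries.rescale (-2 : ℂ) f))
    (c : Wix r → ℂ) {β : KK}
    (hβ : β ∈ IntermediateField.adjoin ℂ (Set.range fun P : LP (r + 2) => algebraMap _ KK (EE w P)))
    (h : algebraMap _ KK (EE w (∑ w : Wix r, c w • Xi w.1.1.1.1 w.1.1.1.2 w.1.2)) = σ β - β) : c = 0 := by
  obtain ⟨P, Q, hQ, rfl⟩ := sia_exists hβ
  have hinj := siaPsi_injective hw
  have hQ1 : siaPsi w Q ≠ 0 := fun h0 => hQ (hinj (by rw [h0, map_zero]))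
  have hdQ : (dil (-2) Q : LP (r + 2)) ≠ 0 := fun h0 =>
    hQ (dil_injective (s := -2) (by decide) (by rw [h0, map_zero]))
  have hQ2 : siaPsi w (dil (-2) Q) ≠ 0 := fun h0 => hdQ (hinj (by rw [h0, map_zero]))
  rw [map_div₀, sia_sigma w σ hσ, sia_sigma w σ hσ, ← siaPsi_apply] at h
  have h2 : siaPsi w (∑ w : Wix r, c w • Xi w.1.1.1.1 w.1.1.1.2 w.1.2) * siaPsi w Q *
      siaPsi w (dil (-2) Q) = siaPsi w (dil (-2) P) * siaPsi w Q -
        siaPsi w P * siaPsi w (dil (-2) Q) := by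
    rw [h]
    field_simp
  have h3 : dil (-2) P * Q - P * dil (-2) Q
      = (∑ w : Wix r, c w • Xi w.1.1.1.1 w.1.1.1.2 w.1.2) * Q * dil (-2) Q := by
    apply hinj
    rw [map_sub, map_mul, map_mul, map_mul, map_mul, h2]
  exact eq_zero_of_chi c (fun γ hγ => chi_eq_zero hQ h3 hγ)

end Pool.Agent.MP_1209e6_fr
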