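import Pool.Agent.Lib_MP_1209e6_fr.STrB
import Pool.Agent.Lib_MP_1209e6_fr.Fix
import Pool.Agent.Lib_MP_1209e6_fr.BNat

/-!
PIECE [STR] (MP_1209e6_ag).  The special formal curve: its normalised coordinates have transcendence degree at least `dimF r`.
-/

namespace Pool.Agent.MP_1209e6_fr

variable {r : ℕ}

private theorem map_csp {R S : Type*} [CommRing R] [CommRing S] (f : R →+* S) (i j k : V r) :
    f (csp R r i j k) = csp S r i j k := by
  have h := map_cpar f (0 : J r → I r → R) (0 : Sym (V r) 3 → R) i j k
  have e1 : (fun (p : J r) (a : I r) => f ((0 : J r → I r → R) p a)) = 0 := by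
    funext p a; simp
  have e2 : (fun s : Sym (V r) 3 => f ((0 : Sym (V r) 3 → R) s)) = 0 := by
    funext s; simp
  rw [e1, e2] at h
  exact h

private theorem chart_sys {R : Type*} [CommRing R] {x : Fin (r + 1) → V r → R} {y : V r → R} (h : ChartPt x y) (p : J r) :
    ∑ p', Qm (csp R r) x p p' * y (.inr p') = - qv (csp R r) x p := by
  classical
  have hex : ∀ a b : I r, tri (csp R r) (ex x a) (ex x b) y = 0 := by
    intro a b
    refine Fin.cases ?_ (fun i => ?_) a
    · simp [ex]
    · refine Fin.cases ?_ (fun j => ?_) b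
      · simp [ex]
      · simpa [ex] using h.xxy i j
  have h1 : tri (csp R r) (dv x p) (dv x p) y = 0 := by
    unfold dv
    rw [tri_sub_left, tri_sub_mid, tri_sub_mid, hex, hex, hex, hex]
    simp
  have hy : y = e0 R r + ∑ p' : J r, y (.inr p') • (Pi.single (.inr p') 1 : V r → R) := by
    funext k
    rw [Pi.add_apply, Finset.sum_apply]
    rcases k with a | q
    · have e : ∑ c : J r, (y (.inr c) • (Pi.single (.inr c) 1 : V r → R)) (.inl a) = 0 := by
        refine Finset.sum_eq_zero fun c _ => ?_
        simp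
      rw [e, add_zero]
      refine Fin.cases ?_ (fun j => ?_) a
      · rw [h.y_zero]; simp [e0]
      · rw [h.y_succ]
        have hne : (Sum.inl j.succ : V r) ≠ .inl 0 := by
          simp [Fin.succ_ne_zero]
        simp [e0]
    · rw [Finset.sum_eq_single q]
      · simp [e0]
      · intro b _ hb
        have hne : (Sum.inr q : V r) ≠ .inr b := fun hh => hb (Sum.inr_injective hh).symm
        simp [Pi.single_eq_of_ne hne]
      · intro hh; exact absurd (Finset.mem_univ _) hh
  have h2 : tri (csp R r) (dv x p) (dv x p) y =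
      qv (csp R r) x p + ∑ p', Qm (csp R r) x p p' * y (.inr p') := by
    conv_lhs => rw [hy]
    rw [tri_add_right, tri_sum_right]
    congr 1
    refine Finset.sum_congr rfl fun p' _ => ?_
    rw [tri_smul_right, mul_comm]
    rfl
  rw [h2] at h1
  exact eq_neg_of_add_eq_zero_right h1

/-- PIECE [STR].  The components `y (inr p)` are rational functions of the entries of the normalised frame `x`: they solve the linear system
`∑ p', Qm c x p p' * y (inr p') = - qv c x p` (`tri c (dv x p) (dv x p) y = 0` from `ChartPt.xxy`) with a matrix whose determinant has constant coefficient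
`(-2)^card ≠ 0` (`Qm_A0`), and whose entries are polynomials in the entries of `x` with rational coefficients. -/
theorem IsSol.yv_mem {v : Fin (r + 1) → ℂ} {φ : Fin (r + 1) → V r → PowerSeries ℂ} (h : IsSol (csp ℂ r) v φ) (p : J r) :
    algebraMap _ KK (yv (csp (PowerSeries ℂ) r) φ (.inr p)) ∈
      IntermediateField.adjoin ℂ (Set.range fun q : Fin (r + 1) × V r => algebraMap (PowerSeries ℂ) KK (nrm φ q.1 q.2)) := by
  classical
  set F := IntermediateField.adjoin ℂ
    (Set.range fun q : Fin (r + 1) × V r => algebraMap (PowerSeries ℂ) KK (nrm φ q.1 q.2)) with hF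
  have hP := h.chartPt
  set x := nrm φ with hx
  set c := csp (PowerSeries ℂ) r with hc
  set y := yv c φ with hy
  set ι := algebraMap (PowerSeries ℂ) KK with hι
  have gen : ∀ i k, ι (x i k) ∈ F := fun i k =>
    IntermediateField.subset_adjoin _ _ ⟨(i, k), rfl⟩
  have hcm : ∀ i j k, ι (c i j k) ∈ F := by
    intro i j k
    have e : c i j k = algebraMap ℂ (PowerSeries ℂ) (csp ℂ r i j k) := (map_csp _ i j k).symm
    rw [e, hι, ← IsScalarTower.algebraMap_apply ℂ (PowerSeries ℂ) KK]
    exact IntermediateField.algebraMap_mem _ _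
  have hsingle : ∀ (a k : V r), ι ((Pi.single a 1 : V r → PowerSeries ℂ) k) ∈ F := by
    intro a k
    by_cases hk : k = a
    · subst hk; rw [Pi.single_eq_same, map_one]; exact one_mem _
    · rw [Pi.single_eq_of_ne hk, map_zero]; exact zero_mem _
  have htri : ∀ u v w : V r → PowerSeries ℂ, (∀ k, ι (u k) ∈ F) → (∀ k, ι (v k) ∈ F) → (∀ k, ι (w k) ∈ F) →
      ι (tri c u v w) ∈ F := by
    intro u v w hu hv hw
    unfold tri
    simp only [map_sum, map_mul]
    exact sum_mem fun i _ => sum_mem fun j _ => sum_mem fun k _ =>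
      mul_mem (hcm i j k) (mul_mem (mul_mem (hu i) (hv j)) (hw k))
  have hdv : ∀ (p : J r) (k : V r), ι (dv x p k) ∈ F := by
    intro p k
    have hex : ∀ a : I r, ι (ex x a k) ∈ F := by
      intro a
      refine Fin.cases ?_ (fun i => ?_) a
      · simp [ex]
      · simpa [ex] using gen i k
    unfold dv
    rw [Pi.sub_apply, map_sub]
    exact sub_mem (hex _) (hex _)
  have hQ : ∀ p p', ι (Qm c x p p') ∈ F := fun p p' => htri _ _ _ (hdv p) (hdv p) (hsingle _)
  have hq : ∀ p, ι (qv c x p) ∈ F := fun p => htri _ _ _ (hdv p) (hdv p) (hsingle _)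
  -- the determinant
  have hdet : (Qm c x).det ≠ 0 := by
    intro h0
    have h1 := congrArg (PowerSeries.constantCoeff (R := ℂ)) h0
    rw [map_zero, RingHom.map_det, map_Qm] at h1
    have e1 : (fun i j k => PowerSeries.constantCoeff (R := ℂ) (c i j k)) = csp ℂ r := by
      funext i j k; exact map_csp _ i j k
    have e2 : (fun i j => PowerSeries.constantCoeff (R := ℂ) (x i j)) = A0 ℂ r := by
      funext i j; exact h.constantCoeff_nrm i j
    rw [e1, e2, Qm_A0 (show Adapted (csp ℂ r) from adapted_cpar _ _), Matrix.det_smul, Matrix.det_one, mul_one] at h1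
    exact pow_ne_zero _ (by norm_num) h1
  have hinj : Function.Injective ι := IsFractionRing.injective _ _
  set QK : Matrix (J r) (J r) KK := ι.mapMatrix (Qm c x) with hQK
  have hdetK : QK.det ≠ 0 := by
    rw [hQK, ← RingHom.map_det]
    intro h0
    exact hdet (hinj (by rw [h0, map_zero]))
  set QF : Matrix (J r) (J r) F := Matrix.of fun p p' => ⟨ι (Qm c x p p'), hQ p p'⟩ with hQF
  set qF : J r → F := fun p => ⟨ι (qv c x p), hq p⟩ with hqF
  have hmapQ : (algebraMap F KK).mapMatrix QF = QK := by
    ext a b; rfl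
  have hdetF : QF.det ≠ 0 := by
    intro h0
    apply hdetK
    rw [← hmapQ, ← RingHom.map_det, h0, map_zero]
  set zF : J r → F := QF⁻¹.mulVec (-qF) with hzF
  have hz : QF.mulVec zF = -qF := by
    rw [hzF, Matrix.mulVec_mulVec, Matrix.mul_nonsing_inv _ (isUnit_iff_ne_zero.2 hdetF), Matrix.one_mulVec]
  have hzK : QK.mulVec (fun p => (zF p : KK)) = fun p => - ι (qv c x p) := by
    funext a
    have := congrArg (algebraMap F KK) (congrFun hz a)
    rw [← hmapQ]
    have e := RingHom.map_mulVec (algebraMap F KK) QF zF a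
    rw [this] at e
    have e2 : (algebraMap F KK) ((-qF) a) = - ι (qv c x a) := rfl
    rw [e2] at e
    exact e.symm
  have hyK : QK.mulVec (fun p => ι (y (.inr p))) = fun p => - ι (qv c x p) := by
    funext a
    have e := congrArg ι (chart_sys hP a)
    rw [map_neg, map_sum] at e
    rw [← e]
    simp only [Matrix.mulVec, dotProduct, map_mul]
    rfl
  have h0 : QK.mulVec ((fun p => ι (y (.inr p))) - fun p => (zF p : KK)) = 0 := by
    rw [Matrix.mulVec_sub, hyK, hzK, sub_self]
  have h1 := congrFun (Matrix.eq_zero_of_mulVec_eq_zero hdetK h0) p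
  rw [Pi.sub_apply, Pi.zero_apply, sub_eq_zero] at h1
  have h2 : ι (y (.inr p)) = (zF p : KK) := h1
  rw [h2]
  exact (zF p).2

end Pool.Agent.MP_1209e6_fr
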