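import Pool.Agent.Lib_MP_1209e6_fr.STrM
import Pool.Agent.Lib_MP_1209e6_fr.STrY
import Pool.Agent.Lib_MP_1209e6_fr.SInd
import Pool.Agent.Lib_MP_1209e6_fr.TDeg

/-!
PIECE [STR] (MP_1209e6_ag).  The special formal curve: its normalised coordinates have transcendence degree at least `dimF r`.
-/

namespace Pool.Agent.MP_1209e6_fr

variable {r : ℕ}

/-- The dimension of `F_r(Y)`. -/
def dimF (r : ℕ) : ℕ := (r + 1) + Fintype.card (Wix r)

/-- PIECE [STR].  Proof.  Choose `w : Fin (r + 2) → ℂ` linearly independent over `ℚ` and `v i = w 0 - w i.succ`.  By `IsSol.Mm_eq` and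
`algebraicIndependent_special` the family of the `lam (nrm φ) i.succ` and `Mm .. p d`, `(p, d) ∈ Wix r`, is algebraically independent over `ℂ`; by definition and `IsSol.yv_mem` these
elements are in the field generated by the entries of `nrm φ`.  `exists_subfamily` (`Fin (r+1) ⊕ Wix r ≃ Fin (dimF r)`). -/
theorem exists_special (r : ℕ) : ∃ v : Fin (r + 1) → ℂ, ∀ φ : Fin (r + 1) → V r → PowerSeries ℂ, IsSol (csp ℂ r) v φ →
    ∃ e : Fin (dimF r) → Fin (r + 1) × V r, AlgebraicIndependent ℂ (fun i => nrm φ (e i).1 (e i).2) := by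
  obtain ⟨w, hw⟩ : ∃ w : Fin (r + 2) → ℂ, LinearIndependent ℚ w := by
    apply Module.le_rank_iff.1
    rw [Complex.rank_rat_complex]
    exact (Cardinal.nat_lt_continuum _).le
  refine ⟨fun i => w 0 - w i.succ, fun φ h => ?_⟩
  have h1 := algebraicIndependent_special hw
    (fun i : Wix r => Mm (nrm φ) (yv (csp (PowerSeries ℂ) r) φ) i.1.1 i.1.2) (fun i => h.Mm_eq i.1.1 i.1.2)
  let E : Fin (dimF r) ≃ Fin (r + 1) ⊕ Wix r :=
    finSumFinEquiv.symm.trans (Equiv.sumCongr (Equiv.refl _) (Fintype.equivFin (Wix r)).symm)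
  have h2 := h1.comp E E.injective
  have h3 := h2.map' (f := IsScalarTower.toAlgHom ℂ (PowerSeries ℂ) KK)
    (IsFractionRing.injective (PowerSeries ℂ) KK)
  have hx : ∀ (i : Fin (r + 1)) (k : V r), algebraMap (PowerSeries ℂ) KK (nrm φ i k) ∈
      IntermediateField.adjoin ℂ (Set.range fun q : Fin (r + 1) × V r => algebraMap (PowerSeries ℂ) KK (nrm φ q.1 q.2)) :=
    fun i k => IntermediateField.subset_adjoin _ _ ⟨(i, k), rfl⟩
  have hmem : ∀ i, ((IsScalarTower.toAlgHom ℂ (PowerSeries ℂ) KK) ∘ (Sum.elim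
      (fun i : Fin (r + 1) => PowerSeries.rescale (w i.succ - w 0) (PowerSeries.exp ℂ))
      (fun i : Wix r => Mm (nrm φ) (yv (csp (PowerSeries ℂ) r) φ) i.1.1 i.1.2)) ∘ E) i ∈
      IntermediateField.adjoin ℂ (Set.range fun q : Fin (r + 1) × V r => algebraMap (PowerSeries ℂ) KK (nrm φ q.1 q.2)) := by
    intro i
    simp only [Function.comp_apply, IsScalarTower.coe_toAlgHom']
    rcases E i with j | k
    · have h4 := h.lam_eq j
      rw [neg_sub] at h4
      simp only [Sum.elim_inl]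
      rw [← h4]
      simp only [lam, Fin.cons_succ, map_neg]
      exact neg_mem (hx _ _)
    · simp only [Sum.elim_inr, Mm]
      refine Fin.cases ?_ (fun i => ?_) k.1.2
      · rw [Fin.cons_zero]
        exact h.yv_mem _
      · rw [Fin.cons_succ, map_sub, map_mul]
        exact sub_mem (hx _ _) (mul_mem (hx _ _) (h.yv_mem _))
  obtain ⟨e, he⟩ := exists_subfamily
    (fun q : Fin (r + 1) × V r => algebraMap (PowerSeries ℂ) KK (nrm φ q.1 q.2)) _ h3 hmem
  exact ⟨e, AlgebraicIndependent.of_comp (IsScalarTower.toAlgHom ℂ (PowerSeries ℂ) KK) he⟩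

end Pool.Agent.MP_1209e6_fr
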