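import Pool.Agent.Lib_MP_1209e6_fr.VanF
import Pool.Agent.Lib_MP_1209e6_fr.ChartA
import Pool.Agent.Lib_MP_1209e6_fr.SpecA
import Pool.Agent.Lib_MP_1209e6_fr.BAdap

/-!
PIECE [STA] (MP_1209e6_ag).  The normalised formal curves.
-/

namespace Pool.Agent.MP_1209e6_fr

section

variable {R : Type*} [CommRing R] [Algebra ℚ R] {r : ℕ}

/-- The coefficients as constant power series. -/
noncomputable def cC (c : V r → V r → V r → R) : V r → V r → V r → PowerSeries R := fun i j k => PowerSeries.C (c i j k)

omit [Algebra ℚ R] in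
theorem A0_succ (i j : Fin (r + 1)) : A0 R r i (.inl j.succ) = if i = j then 1 else 0 := by
  simp only [A0, Pi.sub_apply]
  rw [Pi.single_apply, Pi.single_apply]
  by_cases h : i = j
  · subst h
    simp [Fin.succ_ne_zero]
  · simp [h, Ne.symm h, Fin.succ_ne_zero]

omit [Algebra ℚ R] in
theorem blk_A0 : blk (A0 R r) = 1 := by
  ext i j
  simp only [blk, Matrix.of_apply, Matrix.one_apply]
  exact A0_succ i j

omit [Algebra ℚ R] in
theorem nrm_A0 : nrm (A0 R r) = A0 R r := by
  funext i k
  simp only [nrm, blk_A0, inv_one, Matrix.one_apply, ite_mul, one_mul, zero_mul]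
  simp

theorem IsSol.constantCoeff_blk {c : V r → V r → V r → R} {v : Fin (r + 1) → R} {φ : Fin (r + 1) → V r → PowerSeries R}
    (h : IsSol c v φ) (i j : Fin (r + 1)) : PowerSeries.constantCoeff (blk φ i j) = if i = j then 1 else 0 := by
  simp only [blk, Matrix.of_apply]
  rw [h.zero, A0_succ]

/-- PIECE [STA].  The constant coefficient of `blk φ` is the identity matrix (`blk (A0) = 1`), so its determinant is a unit
(`PowerSeries.isUnit_iff_constantCoeff`). -/
theorem IsSol.isUnit_blk {c : V r → V r → V r → R} {v : Fin (r + 1) → R} {φ : Fin (r + 1) → V r → PowerSeries R}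
    (h : IsSol c v φ) : IsUnit (blk φ).det := by
  rw [PowerSeries.isUnit_iff_constantCoeff, RingHom.map_det]
  have e : (PowerSeries.constantCoeff (R := R)).mapMatrix (blk φ) = 1 := by
    ext i j
    simp only [RingHom.mapMatrix_apply, Matrix.map_apply, Matrix.one_apply]
    exact h.constantCoeff_blk i j
  rw [e]
  simp

/-- PIECE [STA].  `map_cv` for `constantCoeff`, `cv_A0`. -/
theorem IsSol.isUnit_cv {c : V r → V r → V r → R} (hc : Adapted c) {v : Fin (r + 1) → R}
    {φ : Fin (r + 1) → V r → PowerSeries R} (h : IsSol c v φ) : IsUnit (cv (cC c) φ (.inl 0)) := by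
  rw [PowerSeries.isUnit_iff_constantCoeff, map_cv]
  have e1 : (fun i j k => PowerSeries.constantCoeff (cC c i j k)) = c := by
    funext i j k
    simp [cC]
  have e2 : (fun i j => PowerSeries.constantCoeff (φ i j)) = A0 R r := by
    funext i j
    exact h.zero i j
  rw [e1, e2, cv_A0 hc]
  simp [e0]

/-- PIECE [STA].  `map_sc`, `sc_A0`. -/
theorem IsSol.isUnit_sc {c : V r → V r → V r → R} {v : Fin (r + 1) → R}
    {φ : Fin (r + 1) → V r → PowerSeries R} (h : IsSol c v φ) : IsUnit (sc φ) := by
  rw [PowerSeries.isUnit_iff_constantCoeff, map_sc]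
  have e2 : (fun i j => PowerSeries.constantCoeff (φ i j)) = A0 R r := by
    funext i j
    exact h.zero i j
  rw [e2, sc_A0]
  simp

/-- PIECE [STA].  `map_nrm` for `constantCoeff`, `blk (A0) = 1`. -/
theorem IsSol.constantCoeff_nrm {c : V r → V r → V r → R} {v : Fin (r + 1) → R}
    {φ : Fin (r + 1) → V r → PowerSeries R} (h : IsSol c v φ) (i : Fin (r + 1)) (k : V r) :
    PowerSeries.constantCoeff (nrm φ i k) = A0 R r i k := by
  rw [map_nrm _ h.isUnit_blk]
  have e2 : (fun i j => PowerSeries.constantCoeff (φ i j)) = A0 R r := by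
    funext i j
    exact h.zero i j
  rw [e2, nrm_A0]

/-- PIECE [STA].  The linear coefficient of the normalised frame is `ve v`.

Proof.  `φ i = ∑ j, blk φ i j • nrm φ j` (`eq_sum_nrm`).  By `ev_eq` the linear coefficient of `φ` is `ve v + a A0`, so that of `blk φ` is `a • 1` and its constant coefficient
is `1`.  Linear coefficients: `ve v i + a A0 i = (nrm φ i)_1 + a A0 i`. -/
theorem IsSol.coeff_one_nrm {c : V r → V r → V r → R} (hc : Adapted c) {v : Fin (r + 1) → R}
    {φ : Fin (r + 1) → V r → PowerSeries R} (h : IsSol c v φ) (i : Fin (r + 1)) (k : V r) :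
    PowerSeries.coeff 1 (nrm φ i k) = ve R v i k := by
  obtain ⟨a, ha⟩ := ev_eq hc v
  have hone : ∀ i k, PowerSeries.coeff 1 (φ i k) = ve R v i k + a * A0 R r i k := by
    intro i k
    rw [h.one, ha]
    simp [unc]
  have hblk : ∀ i j, PowerSeries.coeff 1 (blk φ i j) = if i = j then a else 0 := by
    intro i j
    simp only [blk, Matrix.of_apply]
    rw [hone, A0_succ]
    simp [ve, e0, Fin.succ_ne_zero]
  have key := congrArg (PowerSeries.coeff 1) (congrFun (eq_sum_nrm h.isUnit_blk i) k)
  rw [hone, Finset.sum_apply, map_sum] at key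
  have h2 : ∀ j, PowerSeries.coeff 1 ((blk φ i j • nrm φ j) k) =
      (if i = j then PowerSeries.coeff 1 (nrm φ j k) else 0) + (if i = j then a * A0 R r j k else 0) := by
    intro j
    rw [Pi.smul_apply, smul_eq_mul, PowerSeries.coeff_mul]
    have e : (Finset.HasAntidiagonal.antidiagonal 1 : Finset (ℕ × ℕ)) = {(0, 1), (1, 0)} := by decide
    rw [e, Finset.sum_pair (by decide)]
    simp only [PowerSeries.coeff_zero_eq_constantCoeff]
    rw [h.constantCoeff_blk, hblk, h.constantCoeff_nrm]
    by_cases hij : i = j <;> simp [hij]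
  rw [Finset.sum_congr rfl (fun j _ => h2 j), Finset.sum_add_distrib] at key
  simp only [Finset.sum_ite_eq, Finset.mem_univ, if_true] at key
  exact (add_right_cancel key).symm

end

end Pool.Agent.MP_1209e6_fr
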