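import Pool.Agent.Lib_MP_1209e6_fr.SpecC

/-!
PIECE [SPC] (MP_1209e6_ag).  The self-map for the special cubic form `cpar 0 0` in the chart.
-/

namespace Pool.Agent.MP_1209e6_fr

variable {R : Type*} [CommRing R] {r : ℕ}

private theorem SPD_lam [Algebra ℚ R] {x : Fin (r + 1) → V r → R} {y : V r → R} (h : ChartPt x y)
    (σ : R →+* R) (hσ : ∀ i k, σ (x i k) = x i k - 3 * tri (csp R r) (x i) y y * y k) (a : I r) :
    σ (lam x a) = lam x a +
      3 * (Fin.cons (α := fun _ => R) 0 (fun i => tri (csp R r) (x i) y y) a : R) := by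
  refine Fin.cases ?_ (fun i => ?_) a
  · simp [lam]
  · simp only [lam, Fin.cons_succ, map_neg, hσ, h.y_zero]
    ring

private theorem SPD_M [Algebra ℚ R] {x : Fin (r + 1) → V r → R} {y : V r → R} (h : ChartPt x y)
    (σ : R →+* R) (hσ : ∀ i k, σ (x i k) = x i k - 3 * tri (csp R r) (x i) y y * y k) (p : J r)
    (d : I r) :
    σ (Mm x y p d) = Mm x y p d + (σ (y (.inr p)) - y (.inr p)) * σ (lam x d) := by
  refine Fin.cases ?_ (fun i => ?_) d
  · simp [lam, Mm]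
  · simp only [lam, Mm, Fin.cons_succ, map_sub, map_mul, map_neg, hσ, h.y_zero]
    ring

/-- PIECE [SPC].  Second part of the dynamics.

Proof.  Put `S_a = σ(λ_a)` (`λ_a^2 S_a = 1`, so `λ_a` is a unit; `S_a^2 σ(S_a) = 1` by applying `σ`), `β_a = (S_a - λ_a)/3`, `α_p = σ(y_p) - y_p` (`y_p = y (inr p)`).
(1) `σ(M_p^d) = M_p^d + α_p S_d` for all `d`: for `d = 0` it is the definition of `α_p` (`S_0 = 1`); for `d = i+1`: `σ(M_p^d) = σ(x i (inr p)) + S_d σ(y_p)`,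
`σ (x i (inr p)) = x i (inr p) - 3 β_d y_p`, and `M_p^d = x i (inr p) + λ_d y_p`.
(2) `chart_eq` for `(a, a, b)`, `p = (a, b)`: `1 + 2 M_p^a = λ_a^2 β_b + 2 λ_a λ_b β_a + λ_a^2 λ_b`, i.e. `3 (1 + 2 M_p^a) = λ_a^2 S_b + 2 λ_a λ_b S_a`.
Apply `σ` (all hypotheses are preserved, or simply apply `σ` to this identity): `3 (1 + 2 M_p^a + 2 α_p S_a) = S_a^2 σ(S_b) + 2 S_a S_b σ(S_a)`.
Subtract, and use `λ_a^2 S_a = 1`, `S_a^2 σ(S_a) = 1`: `6 α_p S_a = S_a^2 σ(S_b) + 2 S_a S_b σ(S_a) - λ_a^2 S_b - 2 λ_a λ_b S_a`; multiply by `λ_a^2`: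
`6 α_p = S_a σ(S_b) + 2 λ_a^4 S_b - λ_a^4 S_b - 2 λ_a λ_b = λ_b^4 S_a + λ_a^4 S_b - 2 λ_a λ_b` (`σ(S_a) = λ_a^4` because `S_a^2 λ_a^4 = 1`). -/
theorem Mm_dyn [Algebra ℚ R] {x : Fin (r + 1) → V r → R} {y : V r → R} (h : ChartPt x y) (σ : R →+* R)
    (hσ : ∀ i k, σ (x i k) = x i k - 3 * tri (csp R r) (x i) y y * y k) (p : J r) (d : I r) :
    6 * (σ (Mm x y p d) - Mm x y p d) =
      (lam x p.1.2 ^ 4 * σ (lam x p.1.1) + lam x p.1.1 ^ 4 * σ (lam x p.1.2) - 2 * lam x p.1.1 * lam x p.1.2) *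
        σ (lam x d) := by
  obtain ⟨⟨a, b⟩, hab⟩ := p
  have hab' : a < b := hab
  have hM := SPD_M h σ hσ ⟨(a, b), hab⟩ d
  have hMa := SPD_M h σ hσ ⟨(a, b), hab⟩ a
  set α : R := σ (y (.inr ⟨(a, b), hab⟩)) - y (.inr ⟨(a, b), hab⟩) with hα
  have e1 := chart_eq h a a b
  have e2 : Mab x y a b a = Mm x y ⟨(a, b), hab⟩ a := by
    unfold Mab
    rw [dif_pos hab']
  have e3 : Mab x y a a b = 0 := by
    unfold Mab
    rw [dif_neg (lt_irrefl a), dif_neg (lt_irrefl a)]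
  rw [e2, e3] at e1
  have la := SPD_lam h σ hσ a
  have lb := SPD_lam h σ hσ b
  have ua := lam_dyn h σ hσ a
  have ub := lam_dyn h σ hσ b
  have ua2 : σ (lam x a) ^ 2 * σ (σ (lam x a)) = 1 := by
    have := congrArg σ ua
    simpa only [map_mul, map_pow, map_one] using this
  have ub2 : σ (lam x b) ^ 2 * σ (σ (lam x b)) = 1 := by
    have := congrArg σ ub
    simpa only [map_mul, map_pow, map_one] using this
  have sa : σ (σ (lam x a)) = lam x a ^ 4 := by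
    linear_combination (lam x a ^ 4) * ua2 - (σ (σ (lam x a))) * (lam x a ^ 2 * σ (lam x a) + 1) * ua
  have sb : σ (σ (lam x b)) = lam x b ^ 4 := by
    linear_combination (lam x b ^ 4) * ub2 - (σ (σ (lam x b))) * (lam x b ^ 2 * σ (lam x b) + 1) * ub
  have e4 : 3 * (1 + 2 * Mm x y ⟨(a, b), hab⟩ a) =
      lam x a ^ 2 * σ (lam x b) + 2 * lam x a * lam x b * σ (lam x a) := by
    linear_combination 3 * e1 - (lam x a ^ 2) * lb - (2 * lam x a * lam x b) * la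
  have e5 : 3 * (1 + 2 * σ (Mm x y ⟨(a, b), hab⟩ a)) =
      σ (lam x a) ^ 2 * σ (σ (lam x b)) + 2 * σ (lam x a) * σ (lam x b) * σ (σ (lam x a)) := by
    have := congrArg σ e4
    simpa only [map_mul, map_add, map_pow, map_one, map_ofNat] using this
  rw [sa, sb] at e5
  have e6 : 6 * α = lam x b ^ 4 * σ (lam x a) + lam x a ^ 4 * σ (lam x b) - 2 * lam x a * lam x b := by
    linear_combination (lam x a ^ 2) * e5 - (lam x a ^ 2) * e4 - (6 * lam x a ^ 2) * hMa +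
      (lam x b ^ 4 * σ (lam x a) + 2 * lam x a ^ 4 * σ (lam x b) - 2 * lam x a * lam x b - 6 * α) * ua
  rw [hM]
  linear_combination (σ (lam x d)) * e6

end Pool.Agent.MP_1209e6_fr
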