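import Pool.Agent.Lib_MP_1209e6_fr.STrA
import Pool.Agent.Lib_MP_1209e6_fr.Chart
import Pool.Agent.Lib_MP_1209e6_fr.Spec
import Pool.Agent.Lib_MP_1209e6_fr.SExpA

/-!
PIECE [STA] (MP_1209e6_ag).  The normalised formal curves.
-/

namespace Pool.Agent.MP_1209e6_fr

section

variable {R : Type*} [CommRing R] [Algebra ℚ R] {r : ℕ}

omit [Algebra ℚ R] in
theorem cC_csp : cC (csp R r) = csp (PowerSeries R) r := by
  funext i j k
  simp only [cC, csp]
  rw [map_cpar]
  congr 1
  · funext p a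
    simp
  · funext s
    simp

omit [Algebra ℚ R] in
theorem C_csp : (fun i j k => (PowerSeries.C (csp R r i j k) : PowerSeries R)) = csp (PowerSeries R) r := cC_csp

omit [Algebra ℚ R] in
theorem adapted_csp : Adapted (csp R r) := adapted_cpar 0 0

/-- PIECE [STA].  `nrm_succ`, `yv_zero`, `yv_succ`, `tri_nrm` with `IsSol.tri_eq_zero`, `tri_nrm_yv`; `cC (csp R r) = csp (PowerSeries R) r` (`map_cpar`) and `csp` is adapted. -/
theorem IsSol.chartPt {v : Fin (r + 1) → R} {φ : Fin (r + 1) → V r → PowerSeries R} (h : IsSol (csp R r) v φ) :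
    ChartPt (nrm φ) (yv (csp (PowerSeries R) r) φ) where
  x_succ := nrm_succ h.isUnit_blk
  y_zero := yv_zero (by
    have := h.isUnit_cv adapted_csp
    rwa [cC_csp] at this)
  y_succ := yv_succ _ _
  xxx := tri_nrm (fun i j k => by
    have := h.tri_eq_zero adapted_csp i j k
    rwa [C_csp] at this)
  xxy := tri_nrm_yv adapted_csp.sym _

/-- PIECE [STA].  `chart_dyn` for `σ = rescale (-2)`, with `tri_yyy`. -/
theorem IsSol.chart_dyn {v : Fin (r + 1) → R} {φ : Fin (r + 1) → V r → PowerSeries R} (h : IsSol (csp R r) v φ)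
    (i : Fin (r + 1)) (k : V r) :
    PowerSeries.rescale (-2 : R) (nrm φ i k) =
      nrm φ i k - 3 * tri (csp (PowerSeries R) r) (nrm φ i) (yv (csp (PowerSeries R) r) φ) (yv (csp (PowerSeries R) r) φ) *
        yv (csp (PowerSeries R) r) φ k := by
  have h1 := Pool.Agent.MP_1209e6_fr.chart_dyn (c := csp (PowerSeries R) r) (PowerSeries.rescale (-2 : R)) (A := φ)
    (fun i k => by
      have := h.eq i k
      rwa [C_csp] at this) h.isUnit_blk
    (by
      have := h.isUnit_cv adapted_csp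
      rwa [cC_csp] at this) h.isUnit_sc i k
  rw [tri_yyy h.chartPt, one_mul, one_mul] at h1
  exact h1

end

/-- PIECE [STA].  `lam_dyn`, `eq_exp`: the constant coefficient of `lam (nrm φ) i.succ = - nrm φ i (inl 0)` is `1`, the linear one is `- v i`. -/
theorem IsSol.lam_eq {r : ℕ} {v : Fin (r + 1) → ℂ} {φ : Fin (r + 1) → V r → PowerSeries ℂ} (h : IsSol (csp ℂ r) v φ)
    (i : Fin (r + 1)) :
    lam (nrm φ) i.succ = PowerSeries.rescale (-v i) (PowerSeries.exp ℂ) := by
  have hl : lam (nrm φ) i.succ = -(nrm φ i (.inl 0)) := by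
    simp [lam]
  refine eq_exp ?_ ?_ (lam_dyn h.chartPt (PowerSeries.rescale (-2 : ℂ)) h.chart_dyn i.succ)
  · rw [hl, map_neg, h.constantCoeff_nrm]
    simp [A0]
  · rw [hl, map_neg, h.coeff_one_nrm adapted_csp]
    simp [ve, e0]

end Pool.Agent.MP_1209e6_fr
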