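import Pool.Agent.Lib_MP_1209e6_fr.STrB
import Pool.Agent.Lib_MP_1209e6_fr.Chi

/-!
PIECE [STR] (MP_1209e6_ag).  The special formal curve: its normalised coordinates have transcendence degree at least `dimF r`.
-/

namespace Pool.Agent.MP_1209e6_fr

variable {r : ℕ}

private noncomputable def XE (s : ℂ) : PowerSeries ℂ := PowerSeries.rescale s (PowerSeries.exp ℂ)

private theorem XE_zero : XE 0 = 1 := by
  rw [XE, PowerSeries.rescale_zero_apply, PowerSeries.constantCoeff_exp, map_one]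

private theorem XE_mul (s t : ℂ) : XE s * XE t = XE (s + t) := PowerSeries.exp_mul_exp_eq_exp_add s t

private theorem XE_pow (s : ℂ) (n : ℕ) : XE s ^ n = XE (n * s) := by
  induction n with
  | zero => rw [pow_zero, Nat.cast_zero, zero_mul, XE_zero]
  | succ n ih => rw [pow_succ, ih, XE_mul]; congr 1; push_cast; ring

private theorem rescale_XE (s t : ℂ) : PowerSeries.rescale s (XE t) = XE (s * t) := by
  rw [XE, XE, PowerSeries.rescale_rescale, mul_comm]

private theorem expo_add {n : ℕ} (w : Fin n → ℂ) (γ δ : Fin n → ℤ) :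
    expo w (γ + δ) = expo w γ + expo w δ := by
  simp only [expo, Pi.add_apply, Int.cast_add, add_mul, Finset.sum_add_distrib]

private theorem expo_sub {n : ℕ} (w : Fin n → ℂ) (γ δ : Fin n → ℤ) :
    expo w (γ - δ) = expo w γ - expo w δ := by
  simp only [expo, Pi.sub_apply, Int.cast_sub, sub_mul, Finset.sum_sub_distrib]

private theorem expo_nsmul {n : ℕ} (w : Fin n → ℂ) (m : ℕ) (γ : Fin n → ℤ) :
    expo w (m • γ) = m * expo w γ := by
  simp only [expo, Pi.smul_apply, nsmul_eq_mul, Int.cast_mul, Int.cast_natCast, mul_assoc,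
    Finset.mul_sum]

private theorem expo_om (w : Fin (r + 2) → ℂ) (a : I r) : expo w (om a) = w a := by
  unfold expo om
  rw [Finset.sum_eq_single a]
  · simp
  · intro b _ hb
    simp [Pi.single_eq_of_ne hb]
  · intro h
    exact absurd (Finset.mem_univ _) h

private theorem lam_XE {w : Fin (r + 2) → ℂ} {φ : Fin (r + 1) → V r → PowerSeries ℂ}
    (h : IsSol (csp ℂ r) (fun i => w 0 - w i.succ) φ) (a : I r) :
    lam (nrm φ) a = XE (w a - w 0) := by
  refine Fin.cases ?_ (fun i => ?_) a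
  · rw [sub_self, XE_zero]
    rfl
  · rw [h.lam_eq i, XE, neg_sub]

/-- PIECE [STR].  The Laurent polynomials along the curve: with `w : Fin (r + 2) → ℂ`, `v i = w 0 - w i.succ` and `L_a = rescale (w a) exp` one has
`lam (nrm φ) a = rescale (w a - w 0) exp` for all `a` (`IsSol.lam_eq`), products of exponentials are exponentials (`PowerSeries.exp_mul_exp_eq_exp_add`), `EE_single`, and
`Mm_dyn`. -/
theorem IsSol.Mm_eq {w : Fin (r + 2) → ℂ} {φ : Fin (r + 1) → V r → PowerSeries ℂ}
    (h : IsSol (csp ℂ r) (fun i => w 0 - w i.succ) φ) (p : J r) (d : I r) :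
    6 * (PowerSeries.rescale (-2 : ℂ) (Mm (nrm φ) (yv (csp (PowerSeries ℂ) r) φ) p d) - Mm (nrm φ) (yv (csp (PowerSeries ℂ) r) φ) p d) =
      EE w (Xi p.1.1 p.1.2 d) := by
  rw [Mm_dyn h.chartPt (PowerSeries.rescale (-2 : ℂ)) h.chart_dyn p d, lam_XE h, lam_XE h, lam_XE h]
  unfold Xi
  rw [map_sub, map_add, EE_single, EE_single, EE_single]
  simp only [expo_add, expo_sub, expo_nsmul, expo_om]
  rw [show ∀ s : ℂ, PowerSeries.rescale s (PowerSeries.exp ℂ) = XE s from fun _ => rfl,
    show ∀ s : ℂ, PowerSeries.rescale s (PowerSeries.exp ℂ) = XE s from fun _ => rfl,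
    show ∀ s : ℂ, PowerSeries.rescale s (PowerSeries.exp ℂ) = XE s from fun _ => rfl,
    rescale_XE, rescale_XE, rescale_XE, XE_pow, XE_pow, XE_mul, XE_mul, one_smul, one_smul]
  have e2 : (2 : ℂ) • XE (w p.1.1 + w p.1.2 - (2 : ℕ) * w d) =
      2 * XE (w p.1.1 - w 0) * XE (w p.1.2 - w 0) * XE (-2 * (w d - w 0)) := by
    rw [mul_assoc 2, XE_mul, mul_assoc 2, XE_mul, two_smul, two_mul,
      show w p.1.1 + w p.1.2 - (2 : ℕ) * w d = w p.1.1 - w 0 + (w p.1.2 - w 0) + -2 * (w d - w 0) by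
        push_cast; ring]
  rw [e2, sub_mul, add_mul, XE_mul, XE_mul]
  congr 3
  · push_cast; ring
  · push_cast; ring

end Pool.Agent.MP_1209e6_fr
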