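import Pool.Agent.Lib_MP_1209e6_fr.Defs

/-!
PIECE [SAT] (MP_1209e6_ag).  The holomorphic map to the Grassmannian given by an entire family of frames which is generically independent.
-/

open Filter Topology

namespace Pool.Agent.MP_1209e6_fr

variable {ι : Type} [Fintype ι] {k : ℕ}

private theorem SatA_det_diff {k : ℕ} (M : ℂ → Matrix (Fin k) (Fin k) ℂ)
    (hM : ∀ i j, Differentiable ℂ (fun z => M z i j)) : Differentiable ℂ (fun z => (M z).det) := by
  simp only [Matrix.det_apply]
  refine Differentiable.fun_sum fun σ _ => ?_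
  refine Differentiable.const_smul ?_ _
  exact Differentiable.fun_finsetProd fun i _ => hM _ _

private theorem SatA_span {E : Type*} [AddCommGroup E] [Module ℂ E] {k : ℕ} (v : Fin k → E)
    (c : Fin k → ℂ) (j : Fin k) (hj : c j ≠ 0) (w : ℂ) (hw : w ≠ 0) (g : E)
    (h : ∑ i, c i • v i = w • g) :
    Submodule.span ℂ (Set.range (Function.update v j g)) = Submodule.span ℂ (Set.range v) := by
  apply le_antisymm
  · rw [Submodule.span_le]
    rintro _ ⟨i, rfl⟩
    by_cases hi : i = j
    · subst hi
      rw [Function.update_self]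
      have e : g = w⁻¹ • ∑ i, c i • v i := by
        rw [h, smul_smul, inv_mul_cancel₀ hw, one_smul]
      rw [e]
      exact Submodule.smul_mem _ _ (Submodule.sum_mem _ fun i _ =>
        Submodule.smul_mem _ _ (Submodule.subset_span ⟨i, rfl⟩))
    · rw [Function.update_of_ne hi]
      exact Submodule.subset_span ⟨i, rfl⟩
  · rw [Submodule.span_le]
    rintro _ ⟨i, rfl⟩
    have hne : ∀ i, i ≠ j → v i ∈ Submodule.span ℂ (Set.range (Function.update v j g)) := by
      intro i hi
      exact Submodule.subset_span ⟨i, Function.update_of_ne hi _ _⟩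
    by_cases hi : i = j
    · subst hi
      have hg : g ∈ Submodule.span ℂ (Set.range (Function.update v i g)) :=
        Submodule.subset_span ⟨i, Function.update_self _ _ _⟩
      have e1 : c i • v i = w • g - ∑ l ∈ Finset.univ.erase i, c l • v l := by
        rw [← h, ← Finset.add_sum_erase _ _ (Finset.mem_univ i)]
        abel
      have e : v i = (c i)⁻¹ • (w • g - ∑ l ∈ Finset.univ.erase i, c l • v l) := by
        rw [← e1, smul_smul, inv_mul_cancel₀ hj, one_smul]
      rw [e]
      refine Submodule.smul_mem _ _ (Submodule.sub_mem _ (Submodule.smul_mem _ _ hg)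
        (Submodule.sum_mem _ fun l hl => Submodule.smul_mem _ _ (hne l (Finset.ne_of_mem_erase hl))))
    · exact hne i hi

private theorem SatA_ind {ι : Type} [Fintype ι] {k : ℕ} (P : (ι → ℂ) →ₗ[ℂ] (Fin k → ℂ)) (z₀ : ℂ)
    (n : ℕ) : ∀ (ψ : ℂ → Fin k → ι → ℂ) (g : ℂ → ℂ), AnalyticAt ℂ ψ z₀ → ContinuousAt g z₀ →
      g z₀ ≠ 0 → (∀ᶠ z in 𝓝[≠] z₀, (Matrix.of fun a => P (ψ z a)).det = (z - z₀) ^ n * g z) →
      ∃ A : ℂ → Fin k → ι → ℂ, AnalyticAt ℂ A z₀ ∧ (∀ᶠ z in 𝓝 z₀, LinearIndependent ℂ (A z)) ∧
      ∀ᶠ z in 𝓝[≠] z₀, Submodule.span ℂ (Set.range (A z)) = Submodule.span ℂ (Set.range (ψ z)) := by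
  have hP : Continuous P := LinearMap.continuous_of_finiteDimensional P
  induction n with
  | zero =>
    intro ψ g hψ hg hg0 h
    by_cases hli : LinearIndependent ℂ (ψ z₀)
    · refine ⟨ψ, hψ, ?_, Filter.Eventually.of_forall fun z => rfl⟩
      have hopen : IsOpen {f : Fin k → ι → ℂ | LinearIndependent ℂ f} :=
        isOpen_setOfPred_linearIndependent
      exact hψ.continuousAt.eventually (hopen.mem_nhds hli)
    · exfalso
      obtain ⟨c, hc, j, hj⟩ := Fintype.not_linearIndependent_iff.1 hli
      have hcont : ContinuousAt (fun z => (Matrix.of fun a => P (ψ z a)).det) z₀ := by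
        have h1 : ContinuousAt (fun z => (Matrix.of fun a => P (ψ z a))) z₀ := by
          refine continuousAt_pi.2 fun a => ?_
          have h2 : ContinuousAt (fun z => ψ z a) z₀ :=
            (continuous_apply a).continuousAt.comp hψ.continuousAt
          exact hP.continuousAt.comp h2
        exact (Continuous.matrix_det continuous_id).continuousAt.comp h1
      have h0 : (Matrix.of fun a => P (ψ z₀ a)).det = 0 := by
        have h3 := Matrix.det_updateRow_sum (Matrix.of fun a => P (ψ z₀ a)) j c
        have h4 : (∑ i, c i • (Matrix.of fun a => P (ψ z₀ a)) i) = 0 := by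
          have : ∑ i, c i • (Matrix.of fun a => P (ψ z₀ a)) i = P (∑ i, c i • ψ z₀ i) := by
            rw [map_sum]
            exact Finset.sum_congr rfl fun i _ => (P.map_smul _ _).symm
          rw [this, hc, map_zero]
        rw [h4] at h3
        have h5 : ((Matrix.of fun a => P (ψ z₀ a)).updateRow j 0).det = 0 :=
          Matrix.det_eq_zero_of_row_eq_zero j (by intro l; simp)
        rw [h5, smul_eq_mul] at h3
        exact (mul_eq_zero.1 h3.symm).resolve_left hj
      have t1 : Filter.Tendsto (fun z => (Matrix.of fun a => P (ψ z a)).det) (𝓝[≠] z₀) (𝓝 0) := by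
        have := hcont.tendsto.mono_left (nhdsWithin_le_nhds (s := {z₀}ᶜ))
        rwa [h0] at this
      have t2 : Filter.Tendsto g (𝓝[≠] z₀) (𝓝 (g z₀)) :=
        hg.tendsto.mono_left nhdsWithin_le_nhds
      have t3 : Filter.Tendsto g (𝓝[≠] z₀) (𝓝 0) := by
        refine t1.congr' ?_
        filter_upwards [h] with z hz
        rw [hz, pow_zero, one_mul]
      exact hg0 (tendsto_nhds_unique t2 t3)
  | succ n ih =>
    intro ψ g hψ hg hg0 h
    by_cases hli : LinearIndependent ℂ (ψ z₀)
    · refine ⟨ψ, hψ, ?_, Filter.Eventually.of_forall fun z => rfl⟩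
      have hopen : IsOpen {f : Fin k → ι → ℂ | LinearIndependent ℂ f} :=
        isOpen_setOfPred_linearIndependent
      exact hψ.continuousAt.eventually (hopen.mem_nhds hli)
    · obtain ⟨c, hc, j, hj⟩ := Fintype.not_linearIndependent_iff.1 hli
      have hψi : ∀ i, AnalyticAt ℂ (fun z => ψ z i) z₀ := fun i =>
        (analyticAt_pi_iff.1 hψ) i
      have hχ : AnalyticAt ℂ (fun z => ∑ i, c i • ψ z i) z₀ :=
        Finset.univ.analyticAt_fun_sum fun i _ => (hψi i).fun_const_smul
      have hord : ((1 : ℕ) : ℕ∞) ≤ analyticOrderAt (fun z => ∑ i, c i • ψ z i) z₀ := by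
        have h1 : analyticOrderAt (fun z => ∑ i, c i • ψ z i) z₀ ≠ 0 :=
          hχ.analyticOrderAt_ne_zero.2 hc
        exact Order.one_le_iff_ne_zero.2 h1
      obtain ⟨γ, hγ, hγ2⟩ := (natCast_le_analyticOrderAt hχ).1 hord
      have hψ' : AnalyticAt ℂ (fun z => Function.update (ψ z) j (γ z)) z₀ := by
        refine analyticAt_pi_iff.2 fun i => ?_
        by_cases hi : i = j
        · subst hi
          simpa only [Function.update_self] using hγ
        · simpa only [Function.update_of_ne hi] using hψi i
      obtain ⟨A, hA1, hA2, hA3⟩ := ih (fun z => Function.update (ψ z) j (γ z))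
        (fun z => c j * g z) hψ' (continuousAt_const.mul hg) (mul_ne_zero hj hg0) (by
          have hγ3 := hγ2.filter_mono (nhdsWithin_le_nhds (s := {z₀}ᶜ))
          filter_upwards [h, hγ3, self_mem_nhdsWithin] with z hz hz2 hz3
          have hz4 : z - z₀ ≠ 0 := sub_ne_zero.2 hz3
          rw [pow_one] at hz2
          have e1 : (Matrix.of fun a => P (Function.update (ψ z) j (γ z) a))
              = (Matrix.of fun a => P (ψ z a)).updateRow j (P (γ z)) := by
            ext a b
            by_cases ha : a = j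
            · subst ha
              simp [Matrix.updateRow_self]
            · simp [Matrix.updateRow_ne ha, Function.update_of_ne ha]
          have e2 := Matrix.det_updateRow_sum (Matrix.of fun a => P (ψ z a)) j c
          have e3 : (∑ i, c i • (Matrix.of fun a => P (ψ z a)) i) = (z - z₀) • P (γ z) := by
            have : ∑ i, c i • (Matrix.of fun a => P (ψ z a)) i = P (∑ i, c i • ψ z i) := by
              rw [map_sum]
              exact Finset.sum_congr rfl fun i _ => (P.map_smul _ _).symm
            rw [this, hz2, map_smul]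
          rw [e3, Matrix.det_updateRow_smul, hz, smul_eq_mul] at e2
          rw [e1]
          refine mul_left_cancel₀ hz4 ?_
          rw [e2]
          ring)
      refine ⟨A, hA1, hA2, ?_⟩
      have hγ3 := hγ2.filter_mono (nhdsWithin_le_nhds (s := {z₀}ᶜ))
      filter_upwards [hA3, hγ3, self_mem_nhdsWithin] with z hz hz2 hz3
      have hz4 : z - z₀ ≠ 0 := sub_ne_zero.2 hz3
      rw [pow_one] at hz2
      rw [hz]
      exact SatA_span (ψ z) c j hj (z - z₀) hz4 (γ z) hz2

/-- PIECE [SAT].  Local saturation.

Proof.  Some `k × k` minor `δ(z) = det (φ z a (S b))` is not identically `0` (`φ 0` is linearly independent), so its order at `z₀` is finite.  Induction on the order of `δ` at `z₀`, for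
families `φ` analytic at `z₀`.  If `φ z₀` is linearly independent take `A = φ`.  Otherwise `∑ c_i φ_i(z₀) = 0` with `c_j = 1` for some `j`; replace `φ_j` by
`(∑ c_i φ_i(z)) / (z - z₀)` (analytic, value at `z₀` is the derivative: `dslope`): for `z ≠ z₀` the span is the same and the minor is `δ(z) / (z - z₀)`, of smaller order. -/
theorem exists_local_frame (φ : ℂ → Fin k → ι → ℂ) (hφ : Differentiable ℂ φ) (h0 : LinearIndependent ℂ (φ 0)) (z₀ : ℂ) :
    ∃ A : ℂ → Fin k → ι → ℂ, AnalyticAt ℂ A z₀ ∧ (∀ᶠ z in 𝓝 z₀, LinearIndependent ℂ (A z)) ∧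
      ∀ᶠ z in 𝓝[≠] z₀, Submodule.span ℂ (Set.range (A z)) = Submodule.span ℂ (Set.range (φ z)) := by
  have hinj : LinearMap.ker (Fintype.linearCombination ℂ (φ 0)) = ⊥ :=
    LinearMap.ker_eq_bot.2 (linearIndependent_iff_injective_fintypeLinearCombination.1 h0)
  obtain ⟨P, hP⟩ := LinearMap.exists_leftInverse_of_injective _ hinj
  have hP0 : ∀ a, P (φ 0 a) = Pi.single a 1 := by
    intro a
    have h1 := LinearMap.congr_fun hP (Pi.single a 1)
    rw [LinearMap.comp_apply, Fintype.linearCombination_apply_single, one_smul] at h1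
    exact h1
  have hPc : Continuous P := LinearMap.continuous_of_finiteDimensional P
  have hδ : Differentiable ℂ (fun z => (Matrix.of fun a => P (φ z a)).det) := by
    refine SatA_det_diff _ fun i j => ?_
    have h1 : Differentiable ℂ (fun z => φ z i) := fun z =>
      (differentiableAt_pi.1 (hφ z)) i
    have h2 : Differentiable ℂ (fun z => P (φ z i)) :=
      (LinearMap.toContinuousLinearMap P).differentiable.comp h1
    exact fun z => (differentiableAt_pi.1 (h2 z)) j
  have hδ0 : (Matrix.of fun a => P (φ 0 a)).det = 1 := by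
    have e : (Matrix.of fun a => P (φ 0 a)) = (1 : Matrix (Fin k) (Fin k) ℂ) := by
      ext a b
      rw [Matrix.of_apply, hP0, Matrix.one_apply, Pi.single_apply]
      by_cases hab : a = b
      · subst hab
        simp
      · rw [if_neg hab, if_neg (Ne.symm hab)]
    rw [e, Matrix.det_one]
  have han : AnalyticAt ℂ (fun z => (Matrix.of fun a => P (φ z a)).det) z₀ := hδ.analyticAt z₀
  have htop : analyticOrderAt (fun z => (Matrix.of fun a => P (φ z a)).det) z₀ ≠ ⊤ := by
    intro htop
    rw [analyticOrderAt_eq_top] at htop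
    have hon : AnalyticOnNhd ℂ (fun z => (Matrix.of fun a => P (φ z a)).det) Set.univ :=
      fun z _ => hδ.analyticAt z
    have hz := hon.eqOn_zero_of_preconnected_of_eventuallyEq_zero isPreconnected_univ
      (Set.mem_univ z₀) htop
    have := hz (Set.mem_univ 0)
    simp only [Pi.zero_apply] at this
    rw [hδ0] at this
    exact one_ne_zero this
  obtain ⟨g, hg, hg0, hg2⟩ := han.analyticOrderAt_ne_top.1 htop
  have hg3 : ∀ᶠ z in 𝓝[≠] z₀, (Matrix.of fun a => P (φ z a)).det = (z - z₀) ^ (analyticOrderNatAt
      (fun z => (Matrix.of fun a => P (φ z a)).det) z₀) * g z :=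
    hg2.filter_mono nhdsWithin_le_nhds
  exact SatA_ind P z₀ _ φ g (hφ.analyticAt z₀) hg.continuousAt hg0 hg3

end Pool.Agent.MP_1209e6_fr
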