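import Pool.Agent.Lib_MP_1209e6_fr.BJac
import Pool.Agent.Lib_MP_1209e6_fr.Form

/-!
PIECE [SOL] (MP_1209e6_ag).  The formal unstable curves of the self-map.
-/

open MvPolynomial

namespace Pool.Agent.MP_1209e6_fr

variable {R S : Type*} [CommRing R] [CommRing S] [Algebra ℚ R] [Algebra ℚ S] {r : ℕ}

/-- `φ` is the formal unstable curve with parameter `v`. -/
structure IsSol (c : V r → V r → V r → R) (v : Fin (r + 1) → R) (φ : Fin (r + 1) → V r → PowerSeries R) : Prop where
  zero : ∀ i k, PowerSeries.constantCoeff (φ i k) = A0 R r i k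
  one : ∀ i k, PowerSeries.coeff 1 (φ i k) = ev c v (i, k)
  eq : ∀ i k, PowerSeries.rescale (-2 : R) (φ i k) = Ft (fun i j l => PowerSeries.C (c i j l)) φ i k

private theorem Sol_hT (c : V r → V r → V r → R) (k l : Fin (r + 1) × V r) :
    jac c k l = eval (unc (A0 R r)) (pderiv l (Fp c k)) := rfl

private theorem Sol_ha {c : V r → V r → V r → R} (hc : Adapted c) (k : Fin (r + 1) × V r) :
    eval (unc (A0 R r)) (Fp c k) = unc (A0 R r) k := by
  have h := eval₂_Fp (RingHom.id R) c (A0 R r) k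
  have h2 : Ft (fun i j l => (RingHom.id R) (c i j l)) (A0 R r) k.1 k.2 = A0 R r k.1 k.2 := by
    have h3 := Ft_A0 hc
    exact congrFun (congrFun h3 k.1) k.2
  exact h.trans h2

private theorem Sol_aeval (c : V r → V r → V r → R) (φ : Fin (r + 1) × V r → PowerSeries R)
    (i : Fin (r + 1)) (k : V r) :
    aeval φ (Fp c (i, k)) = Ft (fun i j l => PowerSeries.C (c i j l)) (fun i k => φ (i, k)) i k := by
  have h := eval₂_Fp (S := PowerSeries R) (PowerSeries.C (R := R)) c (fun i k => φ (i, k)) (i, k)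
  exact h

private theorem Sol_A0 (f : R →+* S) (i : Fin (r + 1)) (k : V r) :
    f (A0 R r i k) = A0 S r i k := by
  unfold A0
  rw [Pi.sub_apply, Pi.sub_apply, map_sub, Pi.single_apply, Pi.single_apply, Pi.single_apply,
    Pi.single_apply]
  split_ifs <;> simp

/-- PIECE [SOL].  `exists_formal` with `F = Fp c`, `a = unc A0`, `e = ev c v`, `T = jac c` (`jac_poly`, `jac_ev`, `Ft_A0`, `eval₂_Fp`). -/
theorem exists_sol {c : V r → V r → V r → R} (hc : Adapted c) (v : Fin (r + 1) → R) : ∃ φ, IsSol c v φ := by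
  obtain ⟨φ, h0, h1, h2⟩ := exists_formal (Fp c) (unc (A0 R r)) (ev c v) (jac c) (Sol_hT c)
    (Sol_ha hc) (jac_poly hc) (jac_ev hc v)
  refine ⟨fun i k => φ (i, k), fun i k => h0 (i, k), fun i k => h1 (i, k), fun i k => ?_⟩
  rw [h2 (i, k), Sol_aeval]

/-- PIECE [SOL].  `formal_unique`. -/
theorem IsSol.unique {c : V r → V r → V r → R} (hc : Adapted c) {v : Fin (r + 1) → R}
    {φ ψ : Fin (r + 1) → V r → PowerSeries R} (hφ : IsSol c v φ) (hψ : IsSol c v ψ) : φ = ψ := by
  have h := formal_unique (Fp c) (unc (A0 R r)) (jac c) (Sol_hT c) (jac_poly hc)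
    (fun p => φ p.1 p.2) (fun p => ψ p.1 p.2) (fun p => hφ.zero p.1 p.2) (fun p => hψ.zero p.1 p.2)
    (fun p => (hφ.one p.1 p.2).trans (hψ.one p.1 p.2).symm)
    (fun p => (hφ.eq p.1 p.2).trans (Sol_aeval c (fun p => φ p.1 p.2) p.1 p.2).symm)
    (fun p => (hψ.eq p.1 p.2).trans (Sol_aeval c (fun p => ψ p.1 p.2) p.1 p.2).symm)
  funext i k
  exact congrFun h (i, k)

/-- PIECE [SOL].  `map_Ft` for `PowerSeries.map f`, `map_ev`, `PowerSeries.rescale` commutes with `PowerSeries.map`. -/
theorem IsSol.map (f : R →+* S) {c : V r → V r → V r → R} {v : Fin (r + 1) → R}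
    {φ : Fin (r + 1) → V r → PowerSeries R} (h : IsSol c v φ) :
    IsSol (fun i j k => f (c i j k)) (fun i => f (v i)) (fun i k => PowerSeries.map f (φ i k)) := by
  refine ⟨fun i k => ?_, fun i k => ?_, fun i k => ?_⟩
  · have e : PowerSeries.constantCoeff (PowerSeries.map f (φ i k))
        = f (PowerSeries.constantCoeff (φ i k)) := by
      rw [← PowerSeries.coeff_zero_eq_constantCoeff_apply, PowerSeries.coeff_map,
        PowerSeries.coeff_zero_eq_constantCoeff_apply]
    rw [e, h.zero, Sol_A0]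
  · rw [PowerSeries.coeff_map, h.one, map_ev]
  · have e : PowerSeries.rescale (-2 : S) (PowerSeries.map f (φ i k))
        = PowerSeries.map f (PowerSeries.rescale (-2 : R) (φ i k)) := by
      ext n
      rw [PowerSeries.coeff_rescale, PowerSeries.coeff_map, PowerSeries.coeff_map,
        PowerSeries.coeff_rescale, map_mul, map_pow, map_neg, map_ofNat]
    rw [e, h.eq, map_Ft]
    simp only [PowerSeries.map_C]

end Pool.Agent.MP_1209e6_fr
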