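import Pool.Agent.Lib_MP_1209e6_fr.SpecA

/-!
PIECE [SPC] (MP_1209e6_ag).  The self-map for the special cubic form `cpar 0 0` in the chart.
-/

namespace Pool.Agent.MP_1209e6_fr

variable {R : Type*} [CommRing R] {r : ℕ}

private theorem spb_sum_del (a b : I r) (f : J r → R) :
    ∑ p : J r, del R a b p * f p =
      if h : a < b then f ⟨(a, b), h⟩ else if h : b < a then f ⟨(b, a), h⟩ else 0 := by
  by_cases h : a < b
  · rw [dif_pos h, Finset.sum_eq_single (⟨(a, b), h⟩ : J r)]
    · simp [del]
    · intro p _ hp
      have h1 : p.1 ≠ (a, b) := fun e => hp (Subtype.ext e)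
      have h2 : p.1 ≠ (b, a) := by
        intro e
        have := p.2
        rw [e] at this
        exact absurd this (not_lt.2 h.le)
      simp [del, h1, h2]
    · intro hh
      exact absurd (Finset.mem_univ _) hh
  · rw [dif_neg h]
    by_cases h' : b < a
    · rw [dif_pos h', Finset.sum_eq_single (⟨(b, a), h'⟩ : J r)]
      · simp [del]
      · intro p _ hp
        have h1 : p.1 ≠ (b, a) := fun e => hp (Subtype.ext e)
        have h2 : p.1 ≠ (a, b) := by
          intro e
          have := p.2
          rw [e] at this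
          exact absurd this (not_lt.2 h'.le)
        simp [del, h1, h2]
      · intro hh
        exact absurd (Finset.mem_univ _) hh
    · rw [dif_neg h']
      refine Finset.sum_eq_zero fun p _ => ?_
      have h1 : p.1 ≠ (b, a) := by
        intro e
        have := p.2
        rw [e] at this
        exact h' this
      have h2 : p.1 ≠ (a, b) := by
        intro e
        have := p.2
        rw [e] at this
        exact h this
      simp [del, h1, h2]

private theorem spb_tri (a b d : I r) (f g h : J r → R) :
    tri (csp R r) (Sum.elim (Pi.single a 1) f) (Sum.elim (Pi.single b 1) g) (Sum.elim (Pi.single d 1) h) =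
      1 + ∑ p, del R b d p * f p + ∑ p, del R a d p * g p + ∑ p, del R a b p * h p := by
  have e1 : ∀ i j k : I r, csp R r (.inl i) (.inl j) (.inl k) = 1 := fun i j k => rfl
  have e2 : ∀ (i j : I r) (p : J r), csp R r (.inl i) (.inl j) (.inr p) = del R i j p := fun i j p => by
    simp [csp, cpar]
  have e3 : ∀ (i j : I r) (p : J r), csp R r (.inl i) (.inr p) (.inl j) = del R i j p := fun i j p => by
    simp [csp, cpar]
  have e4 : ∀ (i j : I r) (p : J r), csp R r (.inr p) (.inl i) (.inl j) = del R i j p := fun i j p => by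
    simp [csp, cpar]
  have e5 : ∀ (i : I r) (p q : J r), csp R r (.inl i) (.inr p) (.inr q) = 0 := fun i p q => by
    simp [csp, cpar]
  have e6 : ∀ (i : I r) (p q : J r), csp R r (.inr p) (.inl i) (.inr q) = 0 := fun i p q => by
    simp [csp, cpar]
  have e7 : ∀ (i : I r) (p q : J r), csp R r (.inr p) (.inr q) (.inl i) = 0 := fun i p q => by
    simp [csp, cpar]
  have e8 : ∀ (p q s : J r), csp R r (.inr p) (.inr q) (.inr s) = 0 := fun p q s => by
    simp [csp, cpar]
  unfold tri
  simp only [Fintype.sum_sum_type, Sum.elim_inl, Sum.elim_inr, e1, e2, e3, e4, e5, e6, e7, e8, zero_mul,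
    Finset.sum_const_zero, add_zero, one_mul]
  simp only [Pi.single_apply, mul_ite, ite_mul, mul_one, one_mul, mul_zero, zero_mul, Finset.sum_add_distrib,
    Finset.sum_ite_eq', Finset.mem_univ, if_true, Finset.sum_const_zero, Finset.sum_ite_irrel]
  ring

/-- PIECE [SPC].  By the definition of `csp` only the values at `(I, I, I)` and `(I, I, J)` contribute:
`1 + M_{bd}^a + M_{ad}^b + M_{ab}^d`. -/
theorem tri_xi (x : Fin (r + 1) → V r → R) (y : V r → R) (a b d : I r) :
    tri (csp R r) (xi x y a) (xi x y b) (xi x y d) = 1 + Mab x y b d a + Mab x y a d b + Mab x y a b d := by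
  unfold xi
  rw [spb_tri, spb_sum_del, spb_sum_del, spb_sum_del]
  rfl

/-- PIECE [SPC].  `xi 0 = y`, `xi (i+1) = x i + λ_(i+1) y`. -/
theorem xi_eq {x : Fin (r + 1) → V r → R} {y : V r → R} (h : ChartPt x y) (a : I r) :
    xi x y a = (Fin.cons (α := fun _ => V r → R) 0 x a : V r → R) + lam x a • y := by
  refine Fin.cases ?_ (fun i => ?_) a
  · funext k
    rcases k with j | p
    · refine Fin.cases ?_ (fun j => ?_) j
      · simp [xi, lam, h.y_zero]
      · simp [xi, lam, h.y_succ]
    · simp [xi, lam, Mm]
  · funext k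
    rcases k with j | p
    · refine Fin.cases ?_ (fun j => ?_) j
      · simp [xi, lam, h.y_zero]
      · by_cases hij : i = j
        · subst hij
          simp [xi, lam, h.y_succ, h.x_succ]
        · have h1 : j ≠ i := fun e => hij e.symm
          simp [xi, lam, h.y_succ, h.x_succ, hij, h1]
    · simp [xi, lam, Mm]
      ring

/-- PIECE [SPC].  Values of `csp`. -/
theorem tri_yyy {x : Fin (r + 1) → V r → R} {y : V r → R} (h : ChartPt x y) : tri (csp R r) y y y = 1 := by
  have h0 : xi x y 0 = y := by
    rw [xi_eq h 0]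
    simp [lam]
  have h1 := tri_xi x y 0 0 0
  rw [h0] at h1
  rw [h1]
  simp [Mab]

end Pool.Agent.MP_1209e6_fr
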