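import Pool.Agent.Lib_MP_1209e6_fr.SpecB

/-!
PIECE [SPC] (MP_1209e6_ag).  The self-map for the special cubic form `cpar 0 0` in the chart.
-/

namespace Pool.Agent.MP_1209e6_fr

variable {R : Type*} [CommRing R] {r : ℕ}

private theorem spc_del (R : Type*) [CommRing R] {r : ℕ} (a b : I r) (p : J r) :
    del R a b p = del R b a p := by
  unfold del
  simp only [or_comm]

private theorem spc_sym (R : Type*) [CommRing R] (r : ℕ) : SymC (csp R r) := by
  unfold csp
  constructor
  · intro i j k
    rcases i with a | p <;> rcases j with b | q <;> rcases k with d | s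
    · rfl
    · show del R a b s + (0 : J r → I r → R) s a + (0 : J r → I r → R) s b =
        del R b a s + (0 : J r → I r → R) s b + (0 : J r → I r → R) s a
      rw [spc_del R a b]
      ring
    · rfl
    · rfl
    · rfl
    · rfl
    · rfl
    · rfl
  · intro i j k
    rcases i with a | p <;> rcases j with b | q <;> rcases k with d | s
    · rfl
    · rfl
    · rfl
    · rfl
    · show del R b d p + (0 : J r → I r → R) p b + (0 : J r → I r → R) p d =
        del R d b p + (0 : J r → I r → R) p d + (0 : J r → I r → R) p b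
      rw [spc_del R b d]
      ring
    · rfl
    · rfl
    · rfl

private theorem spc_XXX {x : Fin (r + 1) → V r → R} {y : V r → R} (h : ChartPt x y) (a b d : I r) :
    tri (csp R r) (Fin.cons (α := fun _ => V r → R) 0 x a : V r → R)
      (Fin.cons (α := fun _ => V r → R) 0 x b : V r → R)
      (Fin.cons (α := fun _ => V r → R) 0 x d : V r → R) = 0 := by
  refine Fin.cases ?_ (fun i => ?_) a
  · rw [Fin.cons_zero, tri_zero_left]
  · rw [Fin.cons_succ]
    refine Fin.cases ?_ (fun j => ?_) b
    · rw [Fin.cons_zero, tri_zero_mid]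
    · rw [Fin.cons_succ]
      refine Fin.cases ?_ (fun k => ?_) d
      · rw [Fin.cons_zero, tri_zero_right]
      · rw [Fin.cons_succ]
        exact h.xxx i j k

private theorem spc_XXy {x : Fin (r + 1) → V r → R} {y : V r → R} (h : ChartPt x y) (a b : I r) :
    tri (csp R r) (Fin.cons (α := fun _ => V r → R) 0 x a : V r → R)
      (Fin.cons (α := fun _ => V r → R) 0 x b : V r → R) y = 0 := by
  refine Fin.cases ?_ (fun i => ?_) a
  · rw [Fin.cons_zero, tri_zero_left]
  · rw [Fin.cons_succ]
    refine Fin.cases ?_ (fun j => ?_) b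
    · rw [Fin.cons_zero, tri_zero_mid]
    · rw [Fin.cons_succ]
      exact h.xxy i j

private theorem spc_Xyy {x : Fin (r + 1) → V r → R} {y : V r → R} (a : I r) :
    tri (csp R r) (Fin.cons (α := fun _ => V r → R) 0 x a : V r → R) y y =
      (Fin.cons (α := fun _ => R) 0 (fun i => tri (csp R r) (x i) y y) a : R) := by
  refine Fin.cases ?_ (fun i => ?_) a
  · rw [Fin.cons_zero, Fin.cons_zero, tri_zero_left]
  · rw [Fin.cons_succ, Fin.cons_succ]

/-- PIECE [SPC].  With `β_0 = 0`, `β_(i+1) = tri c (x i) y y`, and `tri c y y y = 1` (values of `csp`), the multilinear expansion of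
`tri (xi a) (xi b) (xi d)` by `xi_eq`, `xxx`, `xxy` gives
`λ_a λ_b β_d + λ_a λ_d β_b + λ_b λ_d β_a + λ_a λ_b λ_d`.  Compare with `tri_xi`. -/
theorem chart_eq {x : Fin (r + 1) → V r → R} {y : V r → R} (h : ChartPt x y) (a b d : I r) :
    1 + Mab x y b d a + Mab x y a d b + Mab x y a b d =
      lam x a * lam x b * (Fin.cons (α := fun _ => R) 0 (fun i => tri (csp R r) (x i) y y) d : R) +
      lam x a * lam x d * (Fin.cons (α := fun _ => R) 0 (fun i => tri (csp R r) (x i) y y) b : R) +
      lam x b * lam x d * (Fin.cons (α := fun _ => R) 0 (fun i => tri (csp R r) (x i) y y) a : R) +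
      lam x a * lam x b * lam x d := by
  have hs := spc_sym R r
  rw [← tri_xi, xi_eq h a, xi_eq h b, xi_eq h d, ← spc_Xyy (y := y) a, ← spc_Xyy (y := y) b,
    ← spc_Xyy (y := y) d]
  have e1 := spc_XXX h a b d
  have e2 := spc_XXy h a b
  have e3 := spc_XXy h a d
  have e4 := spc_XXy h b d
  have e5 := tri_yyy h
  set A : V r → R := (Fin.cons (α := fun _ => V r → R) 0 x a : V r → R)
  set B : V r → R := (Fin.cons (α := fun _ => V r → R) 0 x b : V r → R)
  set D : V r → R := (Fin.cons (α := fun _ => V r → R) 0 x d : V r → R)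
  have e6 : tri (csp R r) A y D = 0 := by rw [hs.swap23]; exact e3
  have e7 : tri (csp R r) y B D = 0 := by rw [hs.swap12, hs.swap23]; exact e4
  have e8 : tri (csp R r) y B y = tri (csp R r) B y y := hs.swap12 _ _ _
  have e9 : tri (csp R r) y y D = tri (csp R r) D y y := hs.swap13 _ _ _
  simp only [tri_add_left, tri_add_mid, tri_add_right, tri_smul_left, tri_smul_mid,
    tri_smul_right, e1, e2, e5, e6, e7, e8, e9]
  ring

/-- PIECE [SPC].  First part of the dynamics: `σ(λ_a) = λ_a + 3 β_a`, and `chart_eq` for `a = b = d` is `1 = 3 λ_a^2 β_a + λ_a^3`. -/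
theorem lam_dyn {x : Fin (r + 1) → V r → R} {y : V r → R} (h : ChartPt x y) (σ : R →+* R)
    (hσ : ∀ i k, σ (x i k) = x i k - 3 * tri (csp R r) (x i) y y * y k) (a : I r) :
    lam x a ^ 2 * σ (lam x a) = 1 := by
  have h1 := chart_eq h a a a
  have h2 : Mab x y a a a = 0 := by
    unfold Mab
    rw [dif_neg (lt_irrefl a), dif_neg (lt_irrefl a)]
  rw [h2] at h1
  have h3 : σ (lam x a) = lam x a +
      3 * (Fin.cons (α := fun _ => R) 0 (fun i => tri (csp R r) (x i) y y) a : R) := by
    unfold lam
    refine Fin.cases ?_ (fun i => ?_) a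
    · rw [Fin.cons_zero, Fin.cons_zero, map_one]
      ring
    · rw [Fin.cons_succ, Fin.cons_succ, map_neg, hσ, h.y_zero]
      ring
  rw [h3]
  linear_combination -h1

end Pool.Agent.MP_1209e6_fr
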